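import Mathlib
import Pool.Agent.Helper65.EU.Robust

/-! Definitions for the density theorem at parabolic maps. -/

set_option autoImplicit false

open Topology Filter Metric Set MeasureTheory

namespace Pool.Agent.Helper65.EP

open Pool.Agent.H790R3.RB
open Pool.Agent.Helper65.EU (Into)

/-- the critical points are attracted by attracting cycles -/
def HypCyc (f : OnePoint ℂ → OnePoint ℂ) : Prop :=
  ∀ c : OnePoint ℂ, (¬ ∃ U ∈ 𝓝 c, InjOn f U) → ∃ (z : OnePoint ℂ) (n : ℕ), 0 < n ∧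
    f^[n] z = z ∧ (∃ U ∈ 𝓝 z, ∀ w ∈ U, Tendsto (fun k : ℕ => f^[n * k] w) atTop (𝓝 z)) ∧
    Tendsto (fun k : ℕ => f^[n * k] c) atTop (𝓝 z)

/-- the disc with centre `i.1` and radius `i.2` is mapped into itself by the `N`-th iterate, and
into a disc which is eight times smaller by a further iterate of it -/
def TrapN {d : ℕ} (N : ℕ) (i : ℂ × ℝ) (x : CV d) : Prop :=
  (∀ z ∈ closedBall i.1 i.2, ‖((hF x)^[N] (z, 1)).1 - i.1 * ((hF x)^[N] (z, 1)).2‖ <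
    i.2 * ‖((hF x)^[N] (z, 1)).2‖) ∧
  ∃ m : ℕ, ∀ z ∈ closedBall i.1 i.2,
    ‖((hF x)^[N * m] (z, 1)).1 - i.1 * ((hF x)^[N * m] (z, 1)).2‖ <
      i.2 / 8 * ‖((hF x)^[N * m] (z, 1)).2‖

/-- an open condition which implies hyperbolicity -/
def CertN {d : ℕ} (N : ℕ) (s : Finset (ℂ × ℝ)) (x : CV d) : Prop :=
  (∀ c ∈ sphere (0 : ℂ × ℂ) 1, hF x c ≠ 0) ∧ (∀ i ∈ s, TrapN N i x) ∧
  (∀ c ∈ sphere (0 : ℂ × ℂ) 1, wr x c = 0 → ∃ k : ℕ, Into s ((hF x)^[N * k] c))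

/-- the fixed points of the `N`-th iterate are the zeros of this polynomial function -/
noncomputable def Fx {d : ℕ} (N : ℕ) (x : CV d) (z : ℂ) : ℂ :=
  ((hF x)^[N] (z, 1)).1 - z * ((hF x)^[N] (z, 1)).2

end Pool.Agent.Helper65.EP
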