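import Mathlib
import Pool.Agent.Helper65.EP.Defs

/-! Frozen statements of the packages, second part. -/

set_option autoImplicit false

open Topology Filter Metric Set MeasureTheory

namespace Pool.Agent.Helper65.EP

open Pool.Agent.H790R3.RB
open Pool.Agent.W364.NM (ap ad dt)

/-- the `N`-th iterate in the affine coordinate -/
noncomputable def Fa {d : ℕ} (N : ℕ) (x : CV d) (z : ℂ) : ℂ :=
  ((hF x)^[N] (z, 1)).1 / ((hF x)^[N] (z, 1)).2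

/-- attracting fixed point of the `N`-th iterate -/
def AttF {d : ℕ} (N : ℕ) (x : CV d) (a : ℂ) : Prop :=
  ((hF x)^[N] (a, 1)).2 ≠ 0 ∧ Fa N x a = a ∧ ‖deriv (Fa N x) a‖ < 1

/-- double fixed point of the `N`-th iterate -/
def ParF {d : ℕ} (N : ℕ) (x : CV d) (a : ℂ) : Prop :=
  ((hF x)^[N] (a, 1)).2 ≠ 0 ∧ Fa N x a = a ∧ deriv (Fa N x) a = 1 ∧
    deriv (deriv (Fa N x)) a ≠ 0

/-- local coordinate at a point of the sphere -/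
noncomputable def chart (a : OnePoint ℂ) (w : ℂ) : OnePoint ℂ :=
  match a with
  | none => open Classical in if w = 0 then OnePoint.infty else OnePoint.some w⁻¹
  | some a => OnePoint.some (a + w)

/-- in the local coordinate at `a` the map `f` is `g`, fixes `a`, and has there multiplier `ρ` with
`‖ρ‖ < 1` -/
def AttG (f : OnePoint ℂ → OnePoint ℂ) (a : OnePoint ℂ) : Prop :=
  ∃ (g : ℂ → ℂ) (ρ : ℂ), ‖ρ‖ < 1 ∧ g 0 = 0 ∧ HasDerivAt g ρ 0 ∧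
    ∀ᶠ w in 𝓝 (0 : ℂ), f (chart a w) = chart a (g w)

/-- in the local coordinate at `a` the map `f` is `w + C w ^ 2 + o(w ^ 2)`, `C ≠ 0` -/
def ParG (f : OnePoint ℂ → OnePoint ℂ) (a : OnePoint ℂ) : Prop :=
  ∃ (g : ℂ → ℂ) (C : ℂ), C ≠ 0 ∧ g 0 = 0 ∧
    Tendsto (fun w => (g w - w) / w ^ 2) (𝓝[≠] 0) (𝓝 C) ∧
    ∀ᶠ w in 𝓝 (0 : ℂ), f (chart a w) = chart a (g w)

/-- PACKAGE M -/
def S_move : Prop := ∀ (d : ℕ) (m : (ℂ × ℂ) × (ℂ × ℂ)), dt m ≠ 0 →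
  ∃ A : CV d ≃L[ℂ] CV d, ∀ (x : CV d) (p : ℂ × ℂ), hF (A x) (ap m p) = ap m (hF x p)

/-- PACKAGE U -/
def S_uniq : Prop := ∀ (d : ℕ) (x : CV d) (f : OnePoint ℂ → OnePoint ℂ), 1 ≤ d →
  IsCoprime (pol x 0) (pol x 1) → max (pol x 0).natDegree (pol x 1).natDegree = d →
  Continuous f → (∀ z : ℂ, (pol x 1).eval z ≠ 0 →
    f (z : OnePoint ℂ) = (((pol x 0).eval z / (pol x 1).eval z : ℂ) : OnePoint ℂ)) →
  ND x ∧ f = sp x

/-- PACKAGE A -/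
def S_attr : Prop := ∀ (d N : ℕ) (x : CV d) (a : ℂ), 1 ≤ d → 0 < N → AttF N x a →
  ∃ ρ : ℝ, 0 < ρ ∧ TrapN N (a, ρ) x

/-- PACKAGE G: `y` is the map `x` in the coordinate `1 / (z - b)` -/
def S_germ : Prop := ∀ (d N : ℕ) (x y : CV d) (b : ℂ) (H : OnePoint ℂ → OnePoint ℂ),
  1 ≤ d → 0 < N → ND x → ND y →
  (∀ p, hF y (ap ((0, 1), (1, -b)) p) = ap ((0, 1), (1, -b)) (hF x p)) →
  (∀ p : ℂ × ℂ, p ≠ 0 → H (pr p) = pr (ap ((0, 1), (1, -b)) p)) →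
  ∀ a : OnePoint ℂ, a ≠ (b : OnePoint ℂ) → ∃ a' : ℂ, H a = (a' : OnePoint ℂ) ∧
    (AttG ((sp x)^[N]) a → AttF N y a') ∧ (ParG ((sp x)^[N]) a → ParF N y a')

end Pool.Agent.Helper65.EP
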