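import Mathlib
import Pool.Agent.Helper65.EP.Stm2

/-! Frozen statements of the packages, third part: parabolic cycles whose multiplier is a primitive
`q`-th root of unity. -/

set_option autoImplicit false

open Topology Filter Metric Set MeasureTheory

namespace Pool.Agent.Helper65.EP

open Pool.Agent.H790R3.RB
open Pool.Agent.W364.NM (ap ad dt)
open Pool.Agent.Helper65.EU (Into)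

/-- `G t y = y + η t y + C y ^ (q + 1) + error` -/
structure NearS (q : ℕ) (C : ℂ) (η : ℝ → ℂ) (G : ℝ → ℂ → ℂ) : Prop where
  hq : 1 ≤ q
  hC : C ≠ 0
  hη : ∀ᶠ t in 𝓝[>] (0 : ℝ), η t ≠ 0
  hη0 : Tendsto η (𝓝[>] (0 : ℝ)) (𝓝 0)
  hG : ∀ ε : ℝ, 0 < ε → ∃ r : ℝ, 0 < r ∧ ∀ᶠ t in 𝓝[>] (0 : ℝ), ∀ y : ℂ, ‖y‖ ≤ r →
    ‖G t y - y - (η t * y + C * y ^ (q + 1))‖ ≤ ε * (‖η t‖ * ‖y‖ + ‖y‖ ^ (q + 1))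
  hdir : ∃ κ : ℝ, 0 < κ ∧ ((∀ᶠ t in 𝓝[>] (0 : ℝ), (η t).re ≤ -κ * ‖η t‖) ∨
    (∀ᶠ t in 𝓝[>] (0 : ℝ), κ * ‖η t‖ ≤ (η t).re))

/-- PACKAGE X1 (no resonant terms) -/
def S_reso : Prop := ∀ (q : ℕ) (lam : ℂ) (h : ℂ → ℂ), 2 ≤ q → IsPrimitiveRoot lam q →
  AnalyticAt ℂ h 0 → h 0 = 0 → deriv h 0 = lam →
  ∃ E : ℂ → ℂ, AnalyticAt ℂ E 0 ∧ ∀ᶠ y in 𝓝 (0 : ℂ), h^[q] y = y + y ^ (q + 1) * E y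

/-- PACKAGE X2 (unfolding) -/
def S_unfoldS : Prop := ∀ (φ : ℂ × ℂ → ℂ) (a lam C : ℂ) (q : ℕ), 2 ≤ q → IsPrimitiveRoot lam q →
  AnalyticAt ℂ φ (0, a) → φ (0, a) = a → deriv (fun z => φ (0, z)) a = lam → C ≠ 0 →
  Tendsto (fun z => ((fun z => φ (0, z))^[q] z - z) / (z - a) ^ (q + 1)) (𝓝[≠] a) (𝓝 C) →
  (∃ r : ℝ, 0 < r ∧ ∀ᶠ τ in 𝓝[≠] (0 : ℂ), ∀ z ∈ ball a r, φ (τ, z) = z →
    (deriv (fun z => φ (τ, z)) z) ^ q ≠ 1) →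
  ∃ ζ : ℂ → ℂ, ContinuousAt ζ 0 ∧ ζ 0 = a ∧ ∃ B : Set ℝ, B.Countable ∧ ∀ θ ∉ B, ∃ η : ℝ → ℂ,
    NearS q C η (fun t y => (fun z => φ (t * Complex.exp (θ * Complex.I), z))^[q]
      (ζ (t * Complex.exp (θ * Complex.I)) + y) - ζ (t * Complex.exp (θ * Complex.I)))

/-- PACKAGE X3 (capture) -/
def S_captS : Prop := ∀ (q : ℕ) (C : ℂ) (η : ℝ → ℂ) (G : ℝ → ℂ → ℂ), NearS q C η G →
  ∀ r : ℝ, 0 < r → ∃ r1 : ℝ, 0 < r1 ∧ ∃ e : ℝ, 0 < e ∧ ∀ r2 : ℝ, 0 < r2 →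
    ∀ᶠ t in 𝓝[>] (0 : ℝ), ∃ T : Finset (ℂ × ℝ),
      (∀ i ∈ T, (∀ y, ‖y - i.1‖ ≤ i.2 → ‖y‖ ≤ r ∧ ‖G t y - i.1‖ < i.2) ∧
        ∃ m : ℕ, ∀ y, ‖y - i.1‖ ≤ i.2 → ‖(G t)^[m] y - i.1‖ < i.2 / 8) ∧
      ∀ y : ℂ, r2 ≤ ‖y‖ → ‖y‖ ≤ r1 → 0 < (-(q * C * y ^ q)⁻¹).re →
        |(-(q * C * y ^ q)⁻¹).im| ≤ e * (-(q * C * y ^ q)⁻¹).re →
        ∃ i ∈ T, ∃ n : ℕ, (∀ j ≤ n, ‖(G t)^[j] y‖ ≤ r) ∧ ‖(G t)^[n] y - i.1‖ < i.2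

/-- PACKAGE X4 (entrance) -/
def S_enterS : Prop := ∀ (q : ℕ) (C : ℂ) (y : ℕ → ℂ), 1 ≤ q → C ≠ 0 → Tendsto y atTop (𝓝 0) →
  (∀ n, y n ≠ 0) → Tendsto (fun n => (y (n + 1) - y n) / y n ^ (q + 1)) atTop (𝓝 C) →
  ∀ e : ℝ, 0 < e → ∀ᶠ n in atTop, 0 < (-(q * C * y n ^ q)⁻¹).re ∧
    |(-(q * C * y n ^ q)⁻¹).im| ≤ e * (-(q * C * y n ^ q)⁻¹).re

/-- nondegenerate parabolic point of the `p`-th iterate, multiplier a primitive `q`-th root of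
unity -/
def SatF {d : ℕ} (p q : ℕ) (x : CV d) (a : ℂ) : Prop :=
  ((hF x)^[p] (a, 1)).2 ≠ 0 ∧ Fa p x a = a ∧ IsPrimitiveRoot (deriv (Fa p x) a) q ∧
    ∃ C : ℂ, C ≠ 0 ∧ Tendsto (fun z => (Fa (p * q) x z - z) / (z - a) ^ (q + 1)) (𝓝[≠] a) (𝓝 C)

/-- the perturbation along a ray -/
noncomputable def xs {d : ℕ} (x0 v : CV d) (θ t : ℝ) : CV d :=
  x0 + ((t : ℂ) * Complex.exp (θ * Complex.I)) • v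

/-- the vectors near `c0` are captured by trap discs -/
def CaughtF {d : ℕ} (N : ℕ) (x0 v : CV d) (θ : ℝ) (c0 : ℂ × ℂ) : Prop :=
  ∃ U ∈ 𝓝 c0, ∀ᶠ t : ℝ in 𝓝[>] 0, ∃ s : Finset (ℂ × ℝ), (∀ i ∈ s, TrapN N i (xs x0 v θ t)) ∧
    ∀ c ∈ U, ∃ k : ℕ, Into s ((hF (xs x0 v θ t))^[N * k] c)

/-- PACKAGE X5 -/
def S_rayS : Prop := ∀ (d p q : ℕ) (x0 v : CV d) (a : ℂ), 1 ≤ d → 0 < p → 2 ≤ q → ND x0 →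
  SatF p q x0 a →
  (∀ᶠ τ : ℂ in 𝓝[≠] 0, ∀ z : ℂ, Fx (p * q) (x0 + τ • v) z = 0 →
    deriv (Fx (p * q) (x0 + τ • v)) z ≠ 0) →
  ∃ B : Set ℝ, B.Countable ∧ ∀ θ ∉ B, ∀ c0 : ℂ × ℂ, c0 ≠ 0 →
    Tendsto (fun k : ℕ => (sp x0)^[p * q * k] (pr c0)) atTop (𝓝 (a : OnePoint ℂ)) →
    (∀ k : ℕ, (sp x0)^[p * q * k] (pr c0) ≠ a) → CaughtF (p * q) x0 v θ c0

/-- in the local coordinate at `a` the map `f` is `g`, fixes `a`, its multiplier there is a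
primitive `q`-th root of unity and its `q`-th iterate is `w + C w ^ (q + 1) + o(w ^ (q + 1))` with
`C ≠ 0` -/
def SatG (q : ℕ) (f : OnePoint ℂ → OnePoint ℂ) (a : OnePoint ℂ) : Prop :=
  ∃ (g : ℂ → ℂ) (lam C : ℂ), IsPrimitiveRoot lam q ∧ C ≠ 0 ∧ g 0 = 0 ∧ HasDerivAt g lam 0 ∧
    Tendsto (fun w => (g^[q] w - w) / w ^ (q + 1)) (𝓝[≠] 0) (𝓝 C) ∧
    ∀ᶠ w in 𝓝 (0 : ℂ), f (chart a w) = chart a (g w)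

/-- PACKAGE X6: `y` is the map `x` in the coordinate `1 / (z - b)` -/
def S_germS : Prop := ∀ (d p q : ℕ) (x y : CV d) (b : ℂ) (H : OnePoint ℂ → OnePoint ℂ),
  1 ≤ d → 0 < p → 1 ≤ q → ND x → ND y →
  (∀ p, hF y (ap ((0, 1), (1, -b)) p) = ap ((0, 1), (1, -b)) (hF x p)) →
  (∀ p : ℂ × ℂ, p ≠ 0 → H (pr p) = pr (ap ((0, 1), (1, -b)) p)) →
  ∀ a : OnePoint ℂ, a ≠ (b : OnePoint ℂ) → ∃ a' : ℂ, H a = (a' : OnePoint ℂ) ∧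
    (SatG q ((sp x)^[p]) a → SatF p q y a')

/-- PACKAGE X7: multiples of the iterate -/
def S_mult : Prop := ∀ (d N l : ℕ) (i : ℂ × ℝ) (x : CV d), 1 ≤ d → 0 < N → 0 < l → TrapN N i x →
  TrapN (N * l) i x ∧ ∀ (c : ℂ × ℂ) (k : ℕ), Into {i} ((hF x)^[N * k] c) →
    ∃ k' : ℕ, Into {i} ((hF x)^[N * l * k'] c)

end Pool.Agent.Helper65.EP

namespace Pool.Agent.Helper65.EP

open Pool.Agent.H790R3.RB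

/-- PACKAGE X8 -/
def S_one : Prop := ∀ (d p : ℕ) (x : CV d) (a : ℂ), 1 ≤ d → SatF p 1 x a → ParF p x a

/-- PACKAGE X9 -/
def S_count : Prop := ∀ (d p q : ℕ) (x : CV d), 1 ≤ d → 0 < p → 1 ≤ q →
  {a : ℂ | SatF p q x a}.Countable

end Pool.Agent.Helper65.EP
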