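import Mathlib
import Pool.Agent.Helper65.EP.Defs

/-! Frozen statements of the packages. -/

set_option autoImplicit false

open Topology Filter Metric Set MeasureTheory

namespace Pool.Agent.Helper65.EP

open Pool.Agent.H790R3.RB

/-- PACKAGE C1 -/
def S_open : Prop := ∀ (d N : ℕ) (s : Finset (ℂ × ℝ)), IsOpen {x : CV d | CertN N s x}

/-- PACKAGE C2 -/
def S_hyp : Prop := ∀ (d N : ℕ) (s : Finset (ℂ × ℝ)) (x : CV d), 2 ≤ d → 0 < N → CertN N s x →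
  ND x ∧ HypCyc (sp x)

/-- PACKAGE R -/
def S_simple : Prop := ∀ (d N : ℕ) (x0 : CV d), 2 ≤ d → 0 < N → ∀ᵐ v : CV d,
  ∀ᶠ τ : ℂ in 𝓝[≠] 0, ∀ z : ℂ, Fx N (x0 + τ • v) z = 0 → deriv (Fx N (x0 + τ • v)) z ≠ 0

/-- the hypotheses of package L: `G t y = y + C (y ^ 2 + δ t ^ 2) + error` -/
structure Near (C : ℂ) (δ : ℝ → ℂ) (G : ℝ → ℂ → ℂ) : Prop where
  hC : C ≠ 0
  hδ : ∀ᶠ t in 𝓝[>] (0 : ℝ), δ t ≠ 0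
  hδ0 : Tendsto δ (𝓝[>] (0 : ℝ)) (𝓝 0)
  hG : ∀ ε : ℝ, 0 < ε → ∃ r : ℝ, 0 < r ∧ ∀ᶠ t in 𝓝[>] (0 : ℝ), ∀ y : ℂ, ‖y‖ ≤ r →
    ‖G t y - y - C * (y ^ 2 + δ t ^ 2)‖ ≤ ε * (‖y‖ ^ 2 + ‖δ t‖ ^ 2)
  hdir : ∃ κ : ℝ, 0 < κ ∧ ∀ᶠ t in 𝓝[>] (0 : ℝ), (C * δ t * Complex.I).re ≤ -κ * ‖C * δ t‖

/-- PACKAGE L1 (the trap disc around the sink `δ t * I`) -/
def S_trap : Prop := ∀ (C : ℂ) (δ : ℝ → ℂ) (G : ℝ → ℂ → ℂ), Near C δ G →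
  ∃ a0 : ℝ, 0 < a0 ∧ ∀ a : ℝ, 0 < a → a < a0 → ∀ᶠ t in 𝓝[>] (0 : ℝ),
    (∀ y, ‖y - δ t * Complex.I‖ ≤ a * ‖δ t‖ → ‖G t y - δ t * Complex.I‖ < a * ‖δ t‖) ∧
    ∃ m : ℕ, ∀ y, ‖y - δ t * Complex.I‖ ≤ a * ‖δ t‖ →
      ‖(G t)^[m] y - δ t * Complex.I‖ < a / 8 * ‖δ t‖

/-- PACKAGE L2 (capture) -/
def S_capture : Prop := ∀ (C : ℂ) (δ : ℝ → ℂ) (G : ℝ → ℂ → ℂ), Near C δ G →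
  ∀ r : ℝ, 0 < r → ∃ r1 : ℝ, 0 < r1 ∧ ∃ e : ℝ, 0 < e ∧ ∀ a : ℝ, 0 < a → ∀ r2 : ℝ, 0 < r2 →
    ∀ᶠ t in 𝓝[>] (0 : ℝ), ∀ y : ℂ, r2 ≤ ‖y‖ → ‖y‖ ≤ r1 → 0 < (-(C * y)⁻¹).re →
      |(-(C * y)⁻¹).im| ≤ e * (-(C * y)⁻¹).re →
      ∃ n : ℕ, (∀ j ≤ n, ‖(G t)^[j] y‖ ≤ r) ∧ ‖(G t)^[n] y - δ t * Complex.I‖ < a * ‖δ t‖

/-- PACKAGE E (entrance: the attracted orbits are eventually in the sector) -/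
def S_enter : Prop := ∀ (C : ℂ) (y : ℕ → ℂ), C ≠ 0 → Tendsto y atTop (𝓝 0) → (∀ n, y n ≠ 0) →
  Tendsto (fun n => (y (n + 1) - y n) / y n ^ 2) atTop (𝓝 C) → ∀ e : ℝ, 0 < e →
  ∀ᶠ n in atTop, 0 < (-(C * y n)⁻¹).re ∧ |(-(C * y n)⁻¹).im| ≤ e * (-(C * y n)⁻¹).re

end Pool.Agent.Helper65.EP
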