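import Mathlib
import Pool.Agent.Helper65.EP.Stm

/-! Package C: certificates with iterates are open and imply hyperbolicity. -/

set_option autoImplicit false

open Topology Filter Metric Set MeasureTheory
open scoped Real NNReal OnePoint

namespace Pool.Agent.Helper65.EP

open Pool.Agent.H790R3.RB
open Pool.Agent.Helper65.EU (Into ND_of_sphere wr_smul_zero)

namespace PC

/-- an open condition on a disc -/
theorem ev_disc {d : ℕ} (K : ℕ) (p : ℂ) (ρ R : ℝ) (x : CV d)
    (h : ∀ z ∈ closedBall p ρ, ‖((hF x)^[K] (z, 1)).1 - p * ((hF x)^[K] (z, 1)).2‖ <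
      R * ‖((hF x)^[K] (z, 1)).2‖) :
    ∀ᶠ y in 𝓝 x, ∀ z ∈ closedBall p ρ,
      ‖((hF y)^[K] (z, 1)).1 - p * ((hF y)^[K] (z, 1)).2‖ < R * ‖((hF y)^[K] (z, 1)).2‖ := by
  apply IsCompact.eventually_forall_of_forall_eventually (isCompact_closedBall _ _)
  intro z hz
  have c0 : Continuous (fun q : CV d × ℂ => (q.1, ((q.2, 1) : ℂ × ℂ))) := by fun_prop
  have c1 : Continuous (fun q : CV d × ℂ => (hF q.1)^[K] (q.2, 1)) :=
    (hF_iter_continuous d K).comp c0
  have c3 : Continuous (fun q : CV d × ℂ =>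
      ‖((hF q.1)^[K] (q.2, 1)).1 - p * ((hF q.1)^[K] (q.2, 1)).2‖) :=
    (c1.fst.sub (continuous_const.mul c1.snd)).norm
  have c4 : Continuous (fun q : CV d × ℂ => R * ‖((hF q.1)^[K] (q.2, 1)).2‖) :=
    continuous_const.mul c1.snd.norm
  have o1 : (x, z) ∈ {q : CV d × ℂ | ‖((hF q.1)^[K] (q.2, 1)).1 -
      p * ((hF q.1)^[K] (q.2, 1)).2‖ < R * ‖((hF q.1)^[K] (q.2, 1)).2‖} := h z hz
  filter_upwards [(isOpen_lt c3 c4).mem_nhds o1] with q hq1
  exact hq1

end PC

open PC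

theorem t_open : S_open := by
  intro d N s
  rw [isOpen_iff_mem_nhds]
  rintro x ⟨h1, h2, h3⟩
  have hFc : Continuous (fun q : CV d × (ℂ × ℂ) => hF q.1 q.2) := (hF_contDiff d 1).continuous
  have hwc : Continuous (fun q : CV d × (ℂ × ℂ) => wr q.1 q.2) := (wr_contDiff d 1).continuous
  have e1 : ∀ᶠ y in 𝓝 x, ∀ c ∈ sphere (0 : ℂ × ℂ) 1, hF y c ≠ 0 := by
    apply IsCompact.eventually_forall_of_forall_eventually (isCompact_sphere _ _)
    intro c hc
    exact (hFc.continuousAt (x := (x, c))).eventually_ne (h1 c hc)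
  have e2 : ∀ᶠ y in 𝓝 x, ∀ i ∈ s, TrapN N i y := by
    rw [Filter.eventually_all_finset]
    intro i hi
    obtain ⟨g1, m, g2⟩ := h2 i hi
    filter_upwards [ev_disc N i.1 i.2 i.2 x g1, ev_disc (N * m) i.1 i.2 (i.2 / 8) x g2]
      with y k1 k2
    exact ⟨k1, m, k2⟩
  have e3 : ∀ᶠ y in 𝓝 x, ∀ c ∈ sphere (0 : ℂ × ℂ) 1, wr y c = 0 →
      ∃ k : ℕ, Into s ((hF y)^[N * k] c) := by
    apply IsCompact.eventually_forall_of_forall_eventually (isCompact_sphere _ _)
    intro c hc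
    by_cases hw : wr x c = 0
    · obtain ⟨k, i, hi, hk⟩ := h3 c hc hw
      have c1 := hF_iter_continuous d (N * k)
      have c3 : Continuous (fun q : CV d × (ℂ × ℂ) =>
          ‖((hF q.1)^[N * k] q.2).1 - i.1 * ((hF q.1)^[N * k] q.2).2‖) :=
        (c1.fst.sub (continuous_const.mul c1.snd)).norm
      have c4 : Continuous (fun q : CV d × (ℂ × ℂ) => i.2 * ‖((hF q.1)^[N * k] q.2).2‖) :=
        continuous_const.mul c1.snd.norm
      have o1 : (x, c) ∈ {q : CV d × (ℂ × ℂ) | ‖((hF q.1)^[N * k] q.2).1 -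
          i.1 * ((hF q.1)^[N * k] q.2).2‖ < i.2 * ‖((hF q.1)^[N * k] q.2).2‖} := hk
      filter_upwards [(isOpen_lt c3 c4).mem_nhds o1] with q hq _
      exact ⟨k, i, hi, hq⟩
    · filter_upwards [(hwc.continuousAt (x := (x, c))).eventually_ne hw] with q hq hq2
      exact absurd hq2 hq
  filter_upwards [e1, e2, e3] with y h1 h2 h3
  exact ⟨h1, h2, h3⟩

namespace PC

theorem snd_ne {u : ℂ × ℂ} {p : ℂ} {R : ℝ} (h : ‖u.1 - p * u.2‖ < R * ‖u.2‖) : u.2 ≠ 0 := by
  intro h0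
  have h2 : R * ‖u.2‖ = 0 := by rw [h0, norm_zero, mul_zero]
  rw [h2] at h
  exact absurd h (not_lt.2 (norm_nonneg _))

theorem div_lt {u : ℂ × ℂ} {p : ℂ} {R : ℝ} (h : ‖u.1 - p * u.2‖ < R * ‖u.2‖) :
    ‖u.1 / u.2 - p‖ < R := by
  have h0 := snd_ne h
  have h2 : u.1 / u.2 - p = (u.1 - p * u.2) / u.2 := by field_simp
  rw [h2, norm_div, div_lt_iff₀ (norm_pos_iff.2 h0)]
  exact h

/-- the iterates in the affine coordinate -/
theorem sp_iter {d : ℕ} (hd : 1 ≤ d) {x : CV d} (hND : ND x) (K : ℕ) (z : ℂ)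
    (h : ((hF x)^[K] (z, 1)).2 ≠ 0) : (sp x)^[K] (z : OnePoint ℂ) =
      ((((hF x)^[K] (z, 1)).1 / ((hF x)^[K] (z, 1)).2 : ℂ) : OnePoint ℂ) := by
  have hz : ((z, 1) : ℂ × ℂ) ≠ 0 := by
    intro h0
    exact one_ne_zero (congrArg Prod.snd h0)
  have e := (SP d x hd hND).2.1 (z, 1) hz K
  have e2 : pr ((z, 1) : ℂ × ℂ) = (z : OnePoint ℂ) := by
    rw [Pool.Agent.H790R3.RB.SP.pr_ne (p := (z, 1)) one_ne_zero]
    simp
  rw [e2] at e
  rw [e]
  exact Pool.Agent.H790R3.RB.SP.pr_ne h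

/-- the contraction -/
theorem attr {G : ℂ → ℂ} {p : ℂ} {ρ : ℝ} (hρ : 0 < ρ) (hd : DifferentiableOn ℂ G (closedBall p ρ))
    (hG : ∀ z ∈ closedBall p ρ, ‖G z - p‖ < ρ / 8) :
    ∃ a ∈ ball p ρ, G a = a ∧ ∀ z ∈ closedBall p ρ, Tendsto (fun k : ℕ => G^[k] z) atTop (𝓝 a) := by
  have hcc : ContinuousOn G (closedBall p ρ) := hd.continuousOn
  have hsub : closedBall p (ρ / 8) ⊆ closedBall p ρ := closedBall_subset_closedBall (by linarith)
  have hmapsTo : MapsTo G (closedBall p (ρ / 8)) (closedBall p (ρ / 8)) := by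
    intro z hz
    rw [mem_closedBall, dist_eq_norm]
    exact (hG z (hsub hz)).le
  have hdiffAt : ∀ z ∈ ball p ρ, DifferentiableAt ℂ G z := fun z hz =>
    (hd z (ball_subset_closedBall hz)).differentiableAt
      (mem_of_superset (isOpen_ball.mem_nhds hz) ball_subset_closedBall)
  have hder : ∀ z ∈ closedBall p (ρ / 8), ‖deriv G z‖ ≤ 1 / 2 := by
    intro z hz
    rw [mem_closedBall, dist_eq_norm] at hz
    have hR : (0 : ℝ) < ρ / 2 := by linarith
    have hin : closedBall z (ρ / 2) ⊆ ball p ρ := by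
      intro w hw
      rw [mem_closedBall, dist_eq_norm] at hw
      rw [mem_ball, dist_eq_norm]
      calc ‖w - p‖ = ‖(w - z) + (z - p)‖ := by ring_nf
        _ ≤ ‖w - z‖ + ‖z - p‖ := norm_add_le _ _
        _ < ρ := by linarith
    have hdc : DiffContOnCl ℂ (fun w => G w - p) (ball z (ρ / 2)) := by
      apply DifferentiableOn.diffContOnCl
      rw [closure_ball z hR.ne']
      intro w hw
      exact ((hdiffAt w (hin hw)).sub_const p).differentiableWithinAt
    have h1 := Complex.norm_deriv_le_of_forall_mem_sphere_norm_le (C := ρ / 8) hR hdc (by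
      intro w hw
      exact (hG w (ball_subset_closedBall (hin (sphere_subset_closedBall hw)))).le)
    have h2 : deriv (fun w => G w - p) z = deriv G z := by
      rw [deriv_sub_const]
    rw [h2] at h1
    refine h1.trans ?_
    rw [div_div, div_le_iff₀ (by positivity)]
    nlinarith
  have hlip : LipschitzOnWith (1 / 2) G (closedBall p (ρ / 8)) := by
    apply (convex_closedBall p (ρ / 8)).lipschitzOnWith_of_nnnorm_deriv_le (𝕜 := ℂ)
    · intro z hz
      refine hdiffAt z ?_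
      rw [mem_closedBall] at hz
      rw [mem_ball]
      linarith
    · intro z hz
      rw [← NNReal.coe_le_coe]
      have := hder z hz
      simpa using this
  have hcw : ContractingWith (1 / 2) (hmapsTo.restrict G (closedBall p (ρ / 8))
      (closedBall p (ρ / 8))) := by
    refine ⟨?_, hlip.mapsToRestrict hmapsTo⟩
    rw [← NNReal.coe_lt_coe]
    norm_num
  obtain ⟨a, ha, hfix, -, -⟩ := ContractingWith.exists_fixedPoint' isClosed_closedBall.isComplete
    hmapsTo hcw (mem_closedBall_self (x := p) (by linarith : (0 : ℝ) ≤ ρ / 8)) (edist_ne_top _ _)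
  have hfa : G a = a := hfix
  have key : ∀ z ∈ closedBall p (ρ / 8), Tendsto (fun k : ℕ => G^[k] z) atTop (𝓝 a) := by
    intro z hz
    have hin : ∀ k : ℕ, G^[k] z ∈ closedBall p (ρ / 8) := by
      intro k
      induction k with
      | zero => exact hz
      | succ k ih => rw [Function.iterate_succ_apply']; exact hmapsTo ih
    have h2 : ∀ k : ℕ, ‖G^[k] z - a‖ ≤ (1 / 2 : ℝ) ^ k * ‖z - a‖ := by
      intro k
      induction k with
      | zero => simp
      | succ k ih =>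
        rw [Function.iterate_succ_apply']
        have h3 := hlip.dist_le_mul _ (hin k) _ ha
        rw [hfa, dist_eq_norm, dist_eq_norm] at h3
        have h4 : (((1 / 2 : ℝ≥0)) : ℝ) = 1 / 2 := by norm_num
        rw [h4] at h3
        calc ‖G (G^[k] z) - a‖ ≤ 1 / 2 * ‖G^[k] z - a‖ := h3
          _ ≤ 1 / 2 * ((1 / 2 : ℝ) ^ k * ‖z - a‖) := by linarith
          _ = _ := by ring
    rw [tendsto_iff_norm_sub_tendsto_zero]
    have h4 : Tendsto (fun k : ℕ => (1 / 2 : ℝ) ^ k * ‖z - a‖) atTop (𝓝 (0 * ‖z - a‖)) :=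
      (tendsto_pow_atTop_nhds_zero_of_lt_one (by norm_num) (by norm_num)).mul_const _
    rw [zero_mul] at h4
    exact squeeze_zero (fun k => norm_nonneg _) h2 h4
  refine ⟨a, ?_, hfa, ?_⟩
  · rw [mem_closedBall] at ha
    rw [mem_ball]
    linarith
  · intro z hz
    rw [← tendsto_add_atTop_iff_nat 1]
    have h5 := key (G z) (by rw [mem_closedBall, dist_eq_norm]; exact (hG z hz).le)
    exact h5.congr fun k => by rw [Function.iterate_add_apply]; rfl

/-- the attracting discs -/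
theorem disc {d : ℕ} (hd : 1 ≤ d) {N : ℕ} {x : CV d} (hND : ND x) {i : ℂ × ℝ} (h : TrapN N i x)
    (hρ : 0 < i.2) :
    ∃ (a : ℂ) (m : ℕ), 0 < m ∧ a ∈ ball i.1 i.2 ∧ (sp x)^[N * m] (a : OnePoint ℂ) = a ∧
      (∀ z ∈ closedBall i.1 i.2,
        Tendsto (fun k : ℕ => (sp x)^[N * m * k] (z : OnePoint ℂ)) atTop (𝓝 (a : OnePoint ℂ))) ∧
      ∀ z ∈ closedBall i.1 i.2, ∀ k : ℕ, ∃ w ∈ closedBall i.1 i.2,
        (sp x)^[N * k] (z : OnePoint ℂ) = (w : OnePoint ℂ) := by
  obtain ⟨h1, m, h2⟩ := h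
  set G : ℂ → ℂ := fun z => ((hF x)^[N * m] (z, 1)).1 / ((hF x)^[N * m] (z, 1)).2 with hG
  have hm : 0 < m := by
    rcases Nat.eq_zero_or_pos m with h0 | h0
    · exfalso
      have h3 := h2 (i.1 + (i.2 : ℂ)) (by
        rw [mem_closedBall, dist_eq_norm, add_sub_cancel_left, Complex.norm_real,
          Real.norm_eq_abs, abs_of_pos hρ])
      rw [h0, Nat.mul_zero, Function.iterate_zero, id] at h3
      simp only [mul_one, norm_one, add_sub_cancel_left, Complex.norm_real, Real.norm_eq_abs,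
        abs_of_pos hρ] at h3
      linarith
    · exact h0
  have hGb : ∀ z ∈ closedBall i.1 i.2, ‖G z - i.1‖ < i.2 / 8 := fun z hz => div_lt (h2 z hz)
  have hcurve : Differentiable ℂ (fun z : ℂ => (hF x)^[N * m] (z, 1)) := by
    have hc0 : Differentiable ℂ (fun z : ℂ => (x, ((z, 1) : ℂ × ℂ))) :=
      (differentiable_const x).prodMk (differentiable_id.prodMk (differentiable_const 1))
    exact (hF_iter_differentiable d (N * m)).comp hc0
  have hGd : DifferentiableOn ℂ G (closedBall i.1 i.2) := by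
    intro z hz
    apply DifferentiableAt.differentiableWithinAt
    exact (hcurve z).fst.div (hcurve z).snd (snd_ne (h2 z hz))
  obtain ⟨a, ha, hfa, hatt⟩ := attr hρ hGd hGb
  have hsp : ∀ z ∈ closedBall i.1 i.2, (sp x)^[N * m] (z : OnePoint ℂ) = (G z : OnePoint ℂ) :=
    fun z hz => sp_iter hd hND _ z (snd_ne (h2 z hz))
  have hGin : ∀ z ∈ closedBall i.1 i.2, G z ∈ closedBall i.1 i.2 := by
    intro z hz
    rw [mem_closedBall, dist_eq_norm]
    have := hGb z hz
    linarith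
  have hin : ∀ z ∈ closedBall i.1 i.2, ∀ k : ℕ, G^[k] z ∈ closedBall i.1 i.2 := by
    intro z hz k
    induction k with
    | zero => exact hz
    | succ k ih => rw [Function.iterate_succ_apply']; exact hGin _ ih
  have hiter : ∀ z ∈ closedBall i.1 i.2, ∀ k : ℕ,
      (sp x)^[N * m * k] (z : OnePoint ℂ) = (G^[k] z : ℂ) := by
    intro z hz k
    induction k with
    | zero => rfl
    | succ k ih =>
      rw [Nat.mul_succ, Nat.add_comm, Function.iterate_add_apply, ih,
        Function.iterate_succ_apply', hsp _ (hin z hz k)]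
  refine ⟨a, m, hm, ha, ?_, ?_, ?_⟩
  · rw [hsp a (ball_subset_closedBall ha), hfa]
  · intro z hz
    have e1 : (fun k : ℕ => (sp x)^[N * m * k] (z : OnePoint ℂ)) =
        fun k => ((G^[k] z : ℂ) : OnePoint ℂ) := funext fun k => hiter z hz k
    rw [e1]
    exact (OnePoint.continuous_coe.tendsto a).comp (hatt z hz)
  · intro z hz k
    induction k with
    | zero => exact ⟨z, hz, rfl⟩
    | succ k ih =>
      obtain ⟨w, hw, e⟩ := ih
      refine ⟨((hF x)^[N] (w, 1)).1 / ((hF x)^[N] (w, 1)).2, ?_, ?_⟩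
      · rw [mem_closedBall, dist_eq_norm]
        exact (div_lt (h1 w hw)).le
      · rw [Nat.mul_succ, Nat.add_comm, Function.iterate_add_apply, e]
        exact sp_iter hd hND N w (snd_ne (h1 w hw))

end PC

theorem t_hyp : S_hyp := by
  intro d N s x hd hN h
  obtain ⟨h1, h2, h3⟩ := h
  have hND := ND_of_sphere h1
  refine ⟨hND, ?_⟩
  intro c hc
  have hd1 : 1 ≤ d := by omega
  have hSP := SP d x hd1 hND
  obtain ⟨hpc, hc0⟩ := hSP.2.2.2.1 c
  have hwr : wr x (Pool.Agent.H790R3.RB.hc c) = 0 := by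
    by_contra h
    apply hc
    have := INJL SP WR d x _ hd hND hc0 h
    rwa [hpc] at this
  set p := Pool.Agent.H790R3.RB.hc c with hp
  have hn : ‖p‖ ≠ 0 := norm_ne_zero_iff.2 hc0
  set a : ℂ := ((‖p‖⁻¹ : ℝ) : ℂ) with ha
  have ha0 : a ≠ 0 := by
    rw [ha, Complex.ofReal_ne_zero]
    exact inv_ne_zero hn
  have hsph : a • p ∈ sphere (0 : ℂ × ℂ) 1 := by
    rw [mem_sphere_zero_iff_norm, norm_smul, Complex.norm_real, norm_inv, norm_norm,
      inv_mul_cancel₀ hn]
  obtain ⟨k, i, hi, hk⟩ := h3 _ hsph (wr_smul_zero hd a hwr)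
  set q := (hF x)^[N * k] (a • p) with hq
  have hq20 : q.2 ≠ 0 := snd_ne hk
  have hρ : 0 < i.2 := by
    have hq2 : 0 < i.2 * ‖q.2‖ := lt_of_le_of_lt (norm_nonneg _) hk
    exact pos_of_mul_pos_left hq2 (norm_nonneg _)
  have hspk : (sp x)^[N * k] c = ((q.1 / q.2 : ℂ) : OnePoint ℂ) := by
    have e1 := hSP.2.1 (a • p) (smul_ne_zero ha0 hc0) (N * k)
    rw [Pool.Agent.W364.NM.pr_csmul ha0, hpc] at e1
    rw [e1, ← hq]
    exact Pool.Agent.H790R3.RB.SP.pr_ne hq20
  have hz : q.1 / q.2 ∈ closedBall i.1 i.2 := by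
    rw [mem_closedBall, dist_eq_norm]
    exact (div_lt hk).le
  obtain ⟨b, m, hm, hb, hfb, hatt, hkeep⟩ := disc hd1 hND (h2 i hi) hρ
  refine ⟨(b : OnePoint ℂ), N * m, Nat.mul_pos hN hm, hfb,
    ⟨(fun z : ℂ => (z : OnePoint ℂ)) '' ball i.1 i.2,
    (OnePoint.isOpenEmbedding_coe.isOpenMap _ isOpen_ball).mem_nhds ⟨b, hb, rfl⟩, ?_⟩, ?_⟩
  · rintro _ ⟨w, hw, rfl⟩
    exact hatt w (ball_subset_closedBall hw)
  · -- the `N * m * k`-th iterate of `c` is in the disc
    have hle : k ≤ m * k := Nat.le_mul_of_pos_left k hm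
    obtain ⟨w, hw, ew⟩ := hkeep _ hz (m * k - k)
    have e2 : (sp x)^[N * m * k] c = (w : OnePoint ℂ) := by
      rw [← ew, ← hspk, ← Function.iterate_add_apply]
      congr 1
      rw [← Nat.mul_add, Nat.sub_add_cancel hle, Nat.mul_assoc]
    rw [← tendsto_add_atTop_iff_nat k]
    apply (hatt w hw).congr
    intro j
    rw [Nat.mul_add, Function.iterate_add_apply, e2]

end Pool.Agent.Helper65.EP
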