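import Pool.Agent.Helper65.EP.Stm3

/-! # Package X4: the entrance to the attracting petals -/

set_option autoImplicit false

open Topology Filter Metric Set MeasureTheory

namespace Pool.Agent.Helper65.EP

/-- The increments of the Fatou coordinate tend to one. -/
theorem enterS_step (q : ℕ) (C : ℂ) (y : ℕ → ℂ) (hq : 1 ≤ q) (hC : C ≠ 0)
    (hy : Tendsto y atTop (𝓝 0)) (hy0 : ∀ n, y n ≠ 0)
    (hlim : Tendsto (fun n => (y (n + 1) - y n) / y n ^ (q + 1)) atTop (𝓝 C)) :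
    Tendsto (fun n => -(q * C * y (n + 1) ^ q)⁻¹ - -(q * C * y n ^ q)⁻¹) atTop (𝓝 1) := by
  have hqC : (q : ℂ) ≠ 0 := by
    have : q ≠ 0 := by omega
    exact_mod_cast this
  -- `u n = (y (n + 1) - y n) / y n → 0`
  obtain ⟨u, hu⟩ : ∃ u : ℕ → ℂ, u = fun n => (y (n + 1) - y n) / y n := ⟨_, rfl⟩
  have hun : ∀ n, u n = (y (n + 1) - y n) / y n := fun n => by rw [hu]
  have hu0 : Tendsto u atTop (𝓝 0) := by
    have h1 : Tendsto (fun n => y n ^ q * ((y (n + 1) - y n) / y n ^ (q + 1))) atTop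
        (𝓝 (0 ^ q * C)) := (hy.pow q).mul hlim
    rw [zero_pow (by omega), zero_mul] at h1
    refine h1.congr fun n => ?_
    rw [hun]
    have := hy0 n
    field_simp
    ring
  have huy : Tendsto (fun n => u n / y n ^ q) atTop (𝓝 C) := by
    refine hlim.congr fun n => ?_
    rw [hun]
    have := hy0 n
    field_simp
    ring
  -- the function `(1 + u) ^ (-q)`
  obtain ⟨f, hf⟩ : ∃ f : ℂ → ℂ, f = fun u => ((1 + u) ^ q)⁻¹ := ⟨_, rfl⟩
  have hfd : HasDerivAt f (-(q : ℂ)) 0 := by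
    have h1 : HasDerivAt (fun u : ℂ => (1 + u) ^ q) ((q : ℂ) * (1 + 0) ^ (q - 1) * 1) 0 :=
      ((hasDerivAt_id (0 : ℂ)).const_add 1).pow q
    have h2 := h1.inv (by simp)
    rw [hf]
    exact h2.congr_deriv (by simp)
  have hds : Tendsto (fun n => dslope f 0 (u n)) atTop (𝓝 (-(q : ℂ))) := by
    have h1 : ContinuousAt (dslope f 0) 0 := continuousAt_dslope_same.2 hfd.differentiableAt
    have h2 := h1.tendsto.comp hu0
    rw [dslope_same, hfd.deriv] at h2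
    exact h2
  have hmain : Tendsto (fun n => -((q : ℂ) * C)⁻¹ * (dslope f 0 (u n) * (u n / y n ^ q))) atTop
      (𝓝 (-((q : ℂ) * C)⁻¹ * (-(q : ℂ) * C))) := (hds.mul huy).const_mul _
  have h1 : -((q : ℂ) * C)⁻¹ * (-(q : ℂ) * C) = 1 := by
    field_simp
  rw [h1] at hmain
  refine hmain.congr fun n => ?_
  have h2 : (u n - 0) • dslope f 0 (u n) = f (u n) - f 0 := sub_smul_dslope f 0 (u n)
  rw [sub_zero, smul_eq_mul] at h2
  have h3 : y (n + 1) = y n * (1 + u n) := by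
    rw [hun]
    have := hy0 n
    field_simp
    ring
  have h4 : f (u n) - f 0 = ((1 + u n) ^ q)⁻¹ - 1 := by rw [hf]; simp
  have h5 : (y (n + 1) ^ q)⁻¹ = (y n ^ q)⁻¹ * ((1 + u n) ^ q)⁻¹ := by
    rw [h3, mul_pow, mul_inv]
  calc -((q : ℂ) * C)⁻¹ * (dslope f 0 (u n) * (u n / y n ^ q))
      = -((q : ℂ) * C)⁻¹ * ((y n ^ q)⁻¹ * (u n * dslope f 0 (u n))) := by ring
    _ = -((q : ℂ) * C)⁻¹ * ((y n ^ q)⁻¹ * (((1 + u n) ^ q)⁻¹ - 1)) := by rw [h2, h4]
    _ = -(q * C * y (n + 1) ^ q)⁻¹ - -(q * C * y n ^ q)⁻¹ := by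
      rw [mul_inv ((q : ℂ) * C) (y (n + 1) ^ q), mul_inv ((q : ℂ) * C) (y n ^ q), h5]
      ring

theorem enterS : S_enterS := by
  intro q C y hq hC hy hy0 hlim e he
  obtain ⟨W, hW⟩ : ∃ W : ℕ → ℂ, W = fun n => -(q * C * y n ^ q)⁻¹ := ⟨_, rfl⟩
  have hWn : ∀ n, -(q * C * y n ^ q)⁻¹ = W n := fun n => by rw [hW]
  have h1 := enterS_step q C y hq hC hy hy0 hlim
  simp only [hWn] at h1 ⊢
  have h2 := h1.cesaro_smul
  have h3 : Tendsto (fun n : ℕ => ((n : ℝ)⁻¹) • W 0) atTop (𝓝 ((0 : ℝ) • W 0)) :=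
    (tendsto_inv_atTop_nhds_zero_nat (𝕜 := ℝ)).smul_const (W 0)
  rw [zero_smul] at h3
  have h4 := h2.add h3
  rw [add_zero] at h4
  have h5 : Tendsto (fun n : ℕ => ((n : ℝ)⁻¹) • W n) atTop (𝓝 1) := by
    refine h4.congr fun n => ?_
    rw [Finset.sum_range_sub, ← smul_add, sub_add_cancel]
  have h6 : Tendsto (fun n : ℕ => (((n : ℝ)⁻¹) • W n).re) atTop (𝓝 (1 : ℂ).re) :=
    (Complex.continuous_re.tendsto _).comp h5
  have h7 : Tendsto (fun n : ℕ => (((n : ℝ)⁻¹) • W n).im) atTop (𝓝 (1 : ℂ).im) :=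
    (Complex.continuous_im.tendsto _).comp h5
  rw [Complex.one_re] at h6
  rw [Complex.one_im] at h7
  have h8 : ∀ᶠ n : ℕ in atTop, 1 / 2 < (((n : ℝ)⁻¹) • W n).re :=
    h6.eventually_const_lt (by norm_num)
  have h9 : ∀ᶠ n : ℕ in atTop, |(((n : ℝ)⁻¹) • W n).im| < e / 2 := by
    have := (h7.abs)
    rw [abs_zero] at this
    exact this.eventually_lt_const (by positivity)
  filter_upwards [h8, h9, eventually_gt_atTop 0] with n a b hn
  have hn' : (0 : ℝ) < n := by exact_mod_cast hn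
  rw [Complex.smul_re, smul_eq_mul] at a
  rw [Complex.smul_im, smul_eq_mul, abs_mul, abs_of_pos (inv_pos.2 hn')] at b
  have a1 : (n : ℝ) / 2 < (W n).re := by
    have := mul_lt_mul_of_pos_left a hn'
    rw [← mul_assoc, mul_inv_cancel₀ hn'.ne', one_mul] at this
    linarith
  have b1 : |(W n).im| < n * (e / 2) := by
    have := mul_lt_mul_of_pos_left b hn'
    rwa [← mul_assoc, mul_inv_cancel₀ hn'.ne', one_mul] at this
  refine ⟨by linarith [half_pos hn'], ?_⟩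
  nlinarith

end Pool.Agent.Helper65.EP
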