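import Mathlib
import Pool.Agent.Helper65.EP.Stm

/-! The unfolding of a double fixed point along a ray of parameters. -/

set_option autoImplicit false

open Topology Filter Metric Set MeasureTheory

namespace Pool.Agent.Helper65.EP

/-- square roots with negative real part -/
theorem exists_root {z : ℂ} {κ : ℝ} (h : 2 * κ ^ 2 * ‖z‖ ≤ ‖z‖ + z.re) :
    ∃ w : ℂ, w ^ 2 = z ∧ w.re ≤ -κ * ‖w‖ := by
  obtain ⟨w, hw⟩ : ∃ w : ℂ, w ^ 2 = z := ⟨z ^ ((2 : ℕ) : ℂ)⁻¹, Complex.cpow_nat_inv_pow z two_ne_zero⟩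
  have key : ∀ w : ℂ, w ^ 2 = z → (κ * ‖w‖) ^ 2 ≤ w.re ^ 2 := by
    intro w hw
    have h1 : ‖z‖ = w.re ^ 2 + w.im ^ 2 := by
      rw [← hw, norm_pow, ← Complex.normSq_eq_norm_sq, Complex.normSq_apply]
      ring
    have h2 : z.re = w.re ^ 2 - w.im ^ 2 := by
      rw [← hw, sq, Complex.mul_re]; ring
    have h3 : ‖w‖ ^ 2 = ‖z‖ := by rw [← hw, norm_pow]
    rw [mul_pow, h3]
    rw [h1, h2] at h
    rw [h1]
    nlinarith
  have h2 : κ * ‖w‖ ≤ |w.re| := by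
    apply le_of_sq_le_sq _ (abs_nonneg _)
    rw [sq_abs]
    exact key w hw
  by_cases hre : w.re ≤ 0
  · refine ⟨w, hw, ?_⟩
    rw [abs_of_nonpos hre] at h2
    linarith
  · refine ⟨-w, by rw [neg_sq, hw], ?_⟩
    push Not at hre
    rw [abs_of_pos hre] at h2
    rw [norm_neg, Complex.neg_re]
    linarith

/-- a function whose second derivative is close to `2 C` near a critical point -/
theorem taylor {g g' g'' : ℂ → ℂ} {C ζ : ℂ} {ε r : ℝ} (hε : 0 ≤ ε)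
    (h1 : ∀ z ∈ ball ζ r, HasDerivAt g (g' z) z) (h2 : ∀ z ∈ ball ζ r, HasDerivAt g' (g'' z) z)
    (h3 : ∀ z ∈ ball ζ r, ‖g'' z - 2 * C‖ ≤ ε) (h0 : g' ζ = 0) {y : ℂ} (hy : ‖y‖ < r) :
    ‖g (ζ + y) - g ζ - C * y ^ 2‖ ≤ ε * ‖y‖ ^ 2 := by
  have hr : 0 < r := lt_of_le_of_lt (norm_nonneg _) hy
  have e1 : ∀ z ∈ ball ζ r, ‖g' z - 2 * C * (z - ζ)‖ ≤ ε * ‖z - ζ‖ := by
    intro z hz
    have := (convex_ball ζ r).norm_image_sub_le_of_norm_hasDerivWithin_le
      (f := fun z => g' z - 2 * C * (z - ζ)) (f' := fun z => g'' z - 2 * C) (C := ε)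
      (fun w hw => ?_) h3 (mem_ball_self hr) hz
    · simpa [h0] using this
    · have h4 : HasDerivAt (fun z : ℂ => 2 * C * (z - ζ)) (2 * C) w := by
        simpa using ((hasDerivAt_id w).sub_const ζ).const_mul (2 * C)
      exact ((h2 w hw).sub h4).hasDerivWithinAt
  have e2 : ∀ z ∈ closedBall ζ ‖y‖, z ∈ ball ζ r := fun z hz =>
    (closedBall_subset_ball hy) hz
  have := (convex_closedBall ζ ‖y‖).norm_image_sub_le_of_norm_hasDerivWithin_le
      (f := fun z => g z - C * (z - ζ) ^ 2) (f' := fun z => g' z - 2 * C * (z - ζ))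
      (C := ε * ‖y‖) (fun w hw => ?_) (fun w hw => ?_) (mem_closedBall_self (norm_nonneg y))
      (y := ζ + y) (by rw [mem_closedBall, dist_eq_norm, add_sub_cancel_left])
  · simp only [add_sub_cancel_left, sub_self, ne_eq, OfNat.ofNat_ne_zero, not_false_eq_true,
      zero_pow, mul_zero, sub_zero] at this
    calc ‖g (ζ + y) - g ζ - C * y ^ 2‖ = ‖g (ζ + y) - C * y ^ 2 - g ζ‖ := by ring_nf
      _ ≤ ε * ‖y‖ * ‖y‖ := this
      _ = _ := by ring
  · have h4 : HasDerivAt (fun z : ℂ => C * (z - ζ) ^ 2) (2 * C * (w - ζ)) w := by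
      have h5 := (((hasDerivAt_id w).sub_const ζ).pow 2).const_mul C
      refine h5.congr_deriv ?_
      push_cast
      simp only [id]
      ring
    exact ((h1 w (e2 w hw)).sub h4).hasDerivWithinAt
  · refine (e1 w (e2 w hw)).trans ?_
    rw [mem_closedBall, dist_eq_norm] at hw
    exact mul_le_mul_of_nonneg_left hw hε

/-- the exceptional directions -/
theorem count_dir {m : ℕ} (hm : 0 < m) (u : ℂ) (hu : u ≠ 0) :
    {θ : ℝ | Complex.exp (m * (θ * Complex.I)) * u = -‖u‖}.Countable := by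
  have h1 := Pool.Agent.Helper65.EU.circ (w := u⁻¹) (inv_ne_zero hu)
  have h2 : Function.Injective (fun θ : ℝ => (m : ℝ) * θ) := by
    intro x y h
    exact mul_left_cancel₀ (by exact_mod_cast hm.ne') h
  apply (h1.preimage h2).mono
  intro θ hθ
  rw [mem_ofPred_eq] at hθ
  refine ⟨-‖u‖⁻¹, ?_⟩
  have hu' : (‖u‖ : ℂ) ≠ 0 := by exact_mod_cast norm_ne_zero_iff.2 hu
  have h3 : ((((m : ℝ) * θ : ℝ) : ℂ) * Complex.I) = m * (θ * Complex.I) := by push_cast; ring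
  rw [h3]
  have h4 : Complex.exp (m * (θ * Complex.I)) = -(‖u‖ : ℂ) * u⁻¹ := by
    rw [← hθ, mul_assoc, mul_inv_cancel₀ hu, mul_one]
  rw [h4]
  push_cast
  field_simp

theorem neg_norm {q : ℂ} (h : ‖q‖ + q.re ≤ 0) : q = -(‖q‖ : ℂ) := by
  have h1 := Complex.abs_re_le_norm q
  have h2 := abs_le.1 h1
  have h3 : q.re = -‖q‖ := by linarith [h2.1]
  have h4 : q.im = 0 := by
    have := Complex.normSq_eq_norm_sq q
    rw [Complex.normSq_apply, h3] at this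
    nlinarith
  apply Complex.ext
  · rw [h3]; simp
  · rw [h4]; simp

theorem unfold {φ : ℂ × ℂ → ℂ} {a C : ℂ} (hφ : ContDiffAt ℂ 3 φ (0, a)) (h0 : φ (0, a) = 0)
    (h1 : deriv (fun z => φ (0, z)) a = 0) (h2 : deriv (deriv (fun z => φ (0, z))) a = 2 * C)
    (hC : C ≠ 0) (hS : ∃ r : ℝ, 0 < r ∧ ∀ᶠ τ in 𝓝[≠] (0 : ℂ), ∀ z ∈ ball a r, φ (τ, z) = 0 →
      deriv (fun z => φ (τ, z)) z ≠ 0) :
    ∃ ζ : ℂ → ℂ, ContinuousAt ζ 0 ∧ ζ 0 = a ∧ ∃ B : Set ℝ, B.Countable ∧ ∀ θ ∉ B,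
      ∃ δ : ℝ → ℂ, Near C δ (fun t y => y + φ (t * Complex.exp (θ * Complex.I),
        ζ (t * Complex.exp (θ * Complex.I)) + y)) := by
  set f : ℂ × ℂ → ℂ := fun q => fderiv ℂ φ q (0, 1) with hf
  set f2 : ℂ × ℂ → ℂ := fun q => fderiv ℂ f q (0, 1) with hf2
  have cf : ContDiffAt ℂ 2 f (0, a) := (hφ.fderiv_right (m := 2) (by norm_num)).clm_apply
    contDiffAt_const
  have cf2 : ContDiffAt ℂ 1 f2 (0, a) := (cf.fderiv_right (m := 1) (by norm_num)).clm_apply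
    contDiffAt_const
  have hl : ∀ (g : ℂ × ℂ → ℂ) (q : ℂ × ℂ), DifferentiableAt ℂ g q →
      HasDerivAt (fun z => g (q.1, z)) (fderiv ℂ g q (0, 1)) q.2 := by
    intro g q hg
    have e1 : HasDerivAt (fun z : ℂ => (q.1, z)) ((0, 1) : ℂ × ℂ) q.2 :=
      (hasDerivAt_const _ _).prodMk (hasDerivAt_id _)
    have e2 : HasFDerivAt g (fderiv ℂ g q) ((fun z : ℂ => (q.1, z)) q.2) := hg.hasFDerivAt
    exact e2.comp_hasDerivAt q.2 e1
  have dφ : ∀ᶠ q in 𝓝 ((0 : ℂ), a), HasDerivAt (fun z => φ (q.1, z)) (f q) q.2 := by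
    filter_upwards [hφ.eventually (by norm_num)] with q hq
    exact hl φ q (hq.differentiableAt (by norm_num))
  have df : ∀ᶠ q in 𝓝 ((0 : ℂ), a), HasDerivAt (fun z => f (q.1, z)) (f2 q) q.2 := by
    filter_upwards [cf.eventually (by norm_num)] with q hq
    exact hl f q (hq.differentiableAt (by norm_num))
  have hcz : Tendsto (fun z : ℂ => ((0 : ℂ), z)) (𝓝 a) (𝓝 (0, a)) := by
    rw [nhds_prod_eq]
    exact tendsto_const_nhds.prodMk tendsto_id
  have f0 : f (0, a) = 0 := by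
    exact ((dφ.self_of_nhds).deriv.symm.trans h1)
  have f20 : f2 (0, a) = 2 * C := by
    rw [← h2]
    have e1 : deriv (fun z => φ (0, z)) =ᶠ[𝓝 a] fun z => f (0, z) := by
      filter_upwards [hcz.eventually dφ] with z hz
      exact hz.deriv
    rw [e1.deriv_eq]
    exact (df.self_of_nhds).deriv.symm
  have hinv : (fderiv ℂ f (0, a) ∘L .inr ℂ ℂ ℂ).IsInvertible := by
    refine ⟨ContinuousLinearEquiv.unitsEquivAut ℂ (Units.mk0 (2 * C) (mul_ne_zero two_ne_zero hC)),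
      ?_⟩
    ext
    simp only [ContinuousLinearEquiv.coe_coe, ContinuousLinearEquiv.unitsEquivAut_apply,
      Units.val_mk0, one_mul, ContinuousLinearMap.coe_comp, Function.comp_apply,
      ContinuousLinearMap.inr_apply]
    rw [← f20]
  set ζ := cf.implicitFunction (by norm_num) hinv with hζ
  have ζ0 : ζ 0 = a := cf.implicitFunction_apply_self (by norm_num) hinv
  have ζc : ContDiffAt ℂ 2 ζ 0 := cf.contDiffAt_implicitFunction (by norm_num) hinv
  have ζe : ∀ᶠ τ in 𝓝 (0 : ℂ), f (τ, ζ τ) = 0 := by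
    filter_upwards [cf.eventually_apply_implicitFunction (by norm_num) hinv] with τ hτ
    rw [← f0]; exact hτ
  have hpt : Tendsto (fun τ : ℂ => (τ, ζ τ)) (𝓝 0) (𝓝 (0, a)) := by
    rw [nhds_prod_eq]
    refine tendsto_id.prodMk ?_
    have := ζc.continuousAt.tendsto
    rwa [ζ0] at this
  set Δ : ℂ → ℂ := fun τ => φ (τ, ζ τ) with hΔ
  have Δan : AnalyticAt ℂ Δ 0 := by
    have e1 : ContDiffAt ℂ 2 Δ 0 := by
      have e2 : ContDiffAt ℂ 2 φ ((fun τ : ℂ => (τ, ζ τ)) 0) := by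
        have := hφ.of_le (m := 2) (by norm_num)
        simpa [ζ0] using this
      exact e2.comp (0 : ℂ) (contDiffAt_id.prodMk ζc)
    have e3 : ∀ᶠ τ in 𝓝 (0 : ℂ), DifferentiableAt ℂ Δ τ := by
      filter_upwards [e1.eventually (by norm_num)] with τ hτ
      exact hτ.differentiableAt (by norm_num)
    exact Complex.analyticAt_iff_eventually_differentiableAt.2 e3
  have Δ0 : Δ 0 = 0 := by simp only [hΔ, ζ0]; exact h0
  obtain ⟨r0, hr0, hS⟩ := hS
  have hζb : ∀ᶠ τ in 𝓝 (0 : ℂ), ζ τ ∈ ball a r0 := by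
    have := ζc.continuousAt.tendsto
    rw [ζ0] at this
    exact this.eventually (ball_mem_nhds a hr0)
  have Δne : ∀ᶠ τ in 𝓝[≠] (0 : ℂ), Δ τ ≠ 0 := by
    filter_upwards [hS, nhdsWithin_le_nhds hζb, nhdsWithin_le_nhds ζe,
      nhdsWithin_le_nhds (hpt.eventually dφ)] with τ e1 e2 e3 e4 e5
    apply e1 _ e2 e5
    rw [e4.deriv]
    exact e3
  obtain ⟨m, g, gan, g0, hg⟩ := Δan.exists_eventuallyEq_pow_smul_nonzero_iff.2 (fun h => by
    have : ∀ᶠ z in 𝓝[≠] (0 : ℂ), Δ z = 0 := h.filter_mono nhdsWithin_le_nhds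
    obtain ⟨τ, e1, e2⟩ := (this.and Δne).exists
    exact e2 e1)
  simp only [sub_zero, smul_eq_mul] at hg
  have hm : 0 < m := by
    rcases Nat.eq_zero_or_pos m with h | h
    · exfalso
      have e1 := hg.self_of_nhds
      rw [h, pow_zero, one_mul, Δ0] at e1
      exact g0 e1.symm
    · exact h
  set u : ℂ := -(C * g 0) with hu
  have hu0 : u ≠ 0 := neg_ne_zero.2 (mul_ne_zero hC g0)
  have ζcont : ContinuousAt ζ 0 := ζc.continuousAt
  clear_value ζ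
  refine ⟨ζ, ζcont, ζ0, _, count_dir hm u hu0, ?_⟩
  intro θ hθ
  rw [mem_ofPred_eq] at hθ
  set e : ℂ := Complex.exp (θ * Complex.I) with he
  have hen : ‖e‖ = 1 := by rw [he, Complex.norm_exp_ofReal_mul_I]
  have hem : Complex.exp (m * (θ * Complex.I)) = e ^ m := by rw [he, ← Complex.exp_nat_mul]
  rw [hem] at hθ
  have hτ0 : Tendsto (fun t : ℝ => (t : ℂ) * e) (𝓝[>] 0) (𝓝 0) := by
    have e1 : Tendsto (fun t : ℝ => (t : ℂ) * e) (𝓝 0) (𝓝 (((0 : ℝ) : ℂ) * e)) :=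
      (Complex.continuous_ofReal.tendsto 0).mul_const e
    rw [Complex.ofReal_zero, zero_mul] at e1
    exact e1.mono_left nhdsWithin_le_nhds
  have hτne : Tendsto (fun t : ℝ => (t : ℂ) * e) (𝓝[>] 0) (𝓝[≠] 0) := by
    rw [tendsto_nhdsWithin_iff]
    refine ⟨hτ0, ?_⟩
    filter_upwards [self_mem_nhdsWithin] with t ht
    rw [mem_compl_iff, mem_singleton_iff]
    have : e ≠ 0 := by rw [he]; exact Complex.exp_ne_zero _
    exact mul_ne_zero (by exact_mod_cast (ne_of_gt ht)) this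
  set q : ℝ → ℂ := fun t => e ^ m * (-(C * g (t * e))) with hq
  set q0 : ℂ := e ^ m * u with hq0
  have hq0n : ‖q0‖ = ‖u‖ := by rw [hq0, norm_mul, norm_pow, hen, one_pow, one_mul]
  have hq0p : 0 < ‖q0‖ := by rw [hq0n]; exact norm_pos_iff.2 hu0
  have hpos : 0 < ‖q0‖ + q0.re := by
    by_contra hcon
    push Not at hcon
    have := neg_norm hcon
    rw [hq0n] at this
    exact hθ this
  have hqt : Tendsto q (𝓝[>] 0) (𝓝 q0) := by
    have e1 : Tendsto (fun t : ℝ => g (t * e)) (𝓝[>] 0) (𝓝 (g 0)) :=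
      gan.continuousAt.tendsto.comp hτ0
    exact ((e1.const_mul C).neg).const_mul _
  obtain ⟨κ, hκ, hκ2⟩ : ∃ κ : ℝ, 0 < κ ∧ 2 * κ ^ 2 * ‖q0‖ < ‖q0‖ + q0.re := by
    refine ⟨√((‖q0‖ + q0.re) / (4 * ‖q0‖)), Real.sqrt_pos.2 (by positivity), ?_⟩
    rw [Real.sq_sqrt (by positivity)]
    have : 2 * ((‖q0‖ + q0.re) / (4 * ‖q0‖)) * ‖q0‖ = (‖q0‖ + q0.re) / 2 := by
      field_simp
      ring
    rw [this]
    linarith
  have hqe : ∀ᶠ t in 𝓝[>] (0 : ℝ), 2 * κ ^ 2 * ‖q t‖ < ‖q t‖ + (q t).re := by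
    apply Tendsto.eventually_lt (hqt.norm.const_mul (2 * κ ^ 2))
      (hqt.norm.add ((Complex.continuous_re.tendsto _).comp hqt)) hκ2
  have hz : ∀ᶠ t : ℝ in 𝓝[>] (0 : ℝ), 2 * κ ^ 2 * ‖-(C * Δ (t * e))‖ ≤
      ‖-(C * Δ (t * e))‖ + (-(C * Δ (t * e))).re := by
    filter_upwards [hqe, hτ0.eventually hg, self_mem_nhdsWithin] with t e1 e2 ht
    have e3 : -(C * Δ (t * e)) = ((t ^ m : ℝ) : ℂ) * q t := by
      rw [e2, hq]
      push_cast
      ring
    have ht' : (0 : ℝ) < t := ht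
    rw [e3, norm_mul, Complex.re_ofReal_mul, Complex.norm_real, Real.norm_of_nonneg (by positivity)]
    have e4 : 0 < t ^ m := by positivity
    nlinarith
  classical
  set δ : ℝ → ℂ := fun t => if h : 2 * κ ^ 2 * ‖-(C * Δ (t * e))‖ ≤
      ‖-(C * Δ (t * e))‖ + (-(C * Δ (t * e))).re then (exists_root h).choose / (C * Complex.I) else 0
    with hδ
  have hδ1 : ∀ᶠ t : ℝ in 𝓝[>] (0 : ℝ), C * δ t ^ 2 = Δ (t * e) ∧
      (C * δ t * Complex.I).re ≤ -κ * ‖C * δ t‖ := by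
    filter_upwards [hz] with t ht
    obtain ⟨e1, e2⟩ := (exists_root ht).choose_spec
    set w := (exists_root ht).choose with hw
    have e3 : δ t = w / (C * Complex.I) := by simp only [hδ]; rw [dif_pos ht]
    have e4 : C * δ t * Complex.I = w := by
      rw [e3]; field_simp
    have e5 : ‖C * δ t‖ = ‖w‖ := by
      rw [← e4, norm_mul (C * δ t) Complex.I, Complex.norm_I, mul_one]
    refine ⟨?_, by rw [e4, e5]; exact e2⟩
    have e6 : C * (C * δ t ^ 2) = C * Δ (t * e) := by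
      have e7 : (C * δ t * Complex.I) ^ 2 = -(C * (C * δ t ^ 2)) := by
        rw [mul_pow, Complex.I_sq]; ring
      rw [e4, e1] at e7
      exact (neg_inj.1 e7).symm
    exact mul_left_cancel₀ hC e6
  have hΔt : Tendsto (fun t : ℝ => Δ (t * e)) (𝓝[>] 0) (𝓝 0) := by
    have := Δan.continuousAt.tendsto.comp hτ0
    rwa [Δ0] at this
  refine ⟨δ, ⟨hC, ?_, ?_, ?_, κ, hκ, hδ1.mono fun t h => h.2⟩⟩
  · filter_upwards [hδ1, hτne.eventually Δne] with t e1 e2 e3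
    apply e2
    rw [← e1.1, e3]
    ring
  · rw [tendsto_zero_iff_norm_tendsto_zero]
    have e1 : Tendsto (fun t : ℝ => √(‖Δ (t * e)‖ / ‖C‖)) (𝓝[>] 0) (𝓝 0) := by
      have := (Real.continuous_sqrt.tendsto _).comp (hΔt.norm.div_const ‖C‖)
      rw [norm_zero, zero_div, Real.sqrt_zero] at this
      exact this
    apply e1.congr'
    filter_upwards [hδ1] with t e2
    rw [← e2.1, norm_mul, norm_pow, mul_div_cancel_left₀ _ (norm_ne_zero_iff.2 hC),
      Real.sqrt_sq (norm_nonneg _)]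
  · intro ε hε
    have f2c : ContinuousAt f2 (0, a) := cf2.continuousAt
    have hf2e : ∀ᶠ p in 𝓝 ((0 : ℂ), a), ‖f2 p - 2 * C‖ ≤ ε := by
      have e1 : Tendsto (fun p => ‖f2 p - 2 * C‖) (𝓝 (0, a)) (𝓝 ‖f2 (0, a) - 2 * C‖) :=
        (f2c.tendsto.sub_const _).norm
      rw [f20, sub_self, norm_zero] at e1
      exact (e1.eventually (gt_mem_nhds hε)).mono fun p hp => le_of_lt hp
    obtain ⟨ρ, hρ, hρb⟩ := Metric.eventually_nhds_iff_ball.1 ((dφ.and df).and hf2e)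
    refine ⟨ρ / 4, by positivity, ?_⟩
    have e1 : ∀ᶠ t : ℝ in 𝓝[>] (0 : ℝ), (t : ℂ) * e ∈ ball (0 : ℂ) ρ := hτ0 (ball_mem_nhds _ hρ)
    have e2 : ∀ᶠ t : ℝ in 𝓝[>] (0 : ℝ), ζ (t * e) ∈ ball a (ρ / 2) := by
      have e3 : Tendsto (fun t : ℝ => ζ (t * e)) (𝓝[>] 0) (𝓝 a) := by
        have := ζcont.tendsto.comp hτ0
        rwa [ζ0] at this
      exact e3 (ball_mem_nhds _ (by positivity))
    filter_upwards [e1, e2, hδ1, hτ0.eventually ζe] with t e1 e2 e3 e4 y hy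
    have hb : ∀ z ∈ ball (ζ (t * e)) (ρ / 2), ((t : ℂ) * e, z) ∈ ball ((0 : ℂ), a) ρ := by
      intro z hz
      rw [mem_ball, Prod.dist_eq, max_lt_iff]
      refine ⟨e1, ?_⟩
      calc dist z a ≤ dist z (ζ (t * e)) + dist (ζ (t * e)) a := dist_triangle _ _ _
        _ < ρ / 2 + ρ / 2 := add_lt_add hz e2
        _ = ρ := by ring
    have e5 := taylor (g := fun z => φ (t * e, z)) (g' := fun z => f (t * e, z))
      (g'' := fun z => f2 (t * e, z)) (C := C) (ζ := ζ (t * e)) (ε := ε) (r := ρ / 2) hε.le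
      (fun z hz => (hρb _ (hb z hz)).1.1) (fun z hz => (hρb _ (hb z hz)).1.2)
      (fun z hz => (hρb _ (hb z hz)).2) e4 (y := y) (by linarith)
    have e6 : y + φ (t * e, ζ (t * e) + y) - y - C * (y ^ 2 + δ t ^ 2) =
        φ (t * e, ζ (t * e) + y) - φ (t * e, ζ (t * e)) - C * y ^ 2 := by
      have e7 : φ (t * e, ζ (t * e)) = C * δ t ^ 2 := e3.1.symm
      rw [e7]
      ring
    rw [e6]
    refine e5.trans ?_
    have := mul_nonneg hε.le (sq_nonneg ‖δ t‖)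
    linarith

end Pool.Agent.Helper65.EP
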