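import Mathlib
import Pool.Agent.Helper65.EP.Unfold
import Pool.Agent.Helper65.EP.Stm2

/-! The orbits attracted by a double fixed point are captured after perturbation. -/

set_option autoImplicit false

open Topology Filter Metric Set MeasureTheory
open scoped OnePoint

namespace Pool.Agent.Helper65.EP

open Pool.Agent.H790R3.RB
open Pool.Agent.Helper65.EU (Into)

/-- `p` represents the point `z` -/
def At (p : ℂ × ℂ) (z : ℂ) : Prop := p.2 ≠ 0 ∧ p.1 / p.2 = z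

theorem At.eq {p : ℂ × ℂ} {z : ℂ} (h : At p z) : p = p.2 • ((z, 1) : ℂ × ℂ) := by
  apply Prod.ext
  · rw [Prod.smul_fst, smul_eq_mul, ← h.2, mul_div_cancel₀ _ h.1]
  · rw [Prod.smul_snd, smul_eq_mul, mul_one]

theorem At.iter {d : ℕ} {x : CV d} {p : ℂ × ℂ} {z : ℂ} (h : At p z) {K : ℕ}
    (hK : ((hF x)^[K] (z, 1)).2 ≠ 0) : At ((hF x)^[K] p) (Fa K x z) := by
  have e : (hF x)^[K] p = p.2 ^ (d ^ K) • (hF x)^[K] (z, 1) := by
    rw [← hF_iter_smul, ← h.eq]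
  have h2 : p.2 ^ (d ^ K) ≠ 0 := pow_ne_zero _ h.1
  constructor
  · rw [e, Prod.smul_snd, smul_eq_mul]
    exact mul_ne_zero h2 hK
  · rw [e, Prod.smul_snd, Prod.smul_fst, smul_eq_mul, smul_eq_mul, mul_div_mul_left _ _ h2]
    rfl

theorem At.self (z : ℂ) : At ((z, 1) : ℂ × ℂ) z := ⟨one_ne_zero, div_one z⟩

theorem At.into {p : ℂ × ℂ} {z : ℂ} (h : At p z) {i : ℂ × ℝ} (hz : ‖z - i.1‖ < i.2) :
    Into {i} p := by
  refine ⟨i, Finset.mem_singleton_self i, ?_⟩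
  have e : p.1 - i.1 * p.2 = (z - i.1) * p.2 := by
    have := h.1
    rw [← h.2]
    field_simp
  rw [e, norm_mul]
  exact mul_lt_mul_of_pos_right hz (norm_pos_iff.2 h.1)

theorem At.pr {p : ℂ × ℂ} {z : ℂ} (h : At p z) : pr p = (z : OnePoint ℂ) := by
  rw [Pool.Agent.H790R3.RB.SP.pr_ne h.1, h.2]

theorem at_of_pr {p : ℂ × ℂ} {z : ℂ} (h : pr p = (z : OnePoint ℂ)) : At p z := by
  by_cases h2 : p.2 = 0
  · rw [Pool.Agent.H790R3.RB.SP.pr_zero h2] at h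
    exact absurd h (OnePoint.infty_ne_coe z)
  · rw [Pool.Agent.H790R3.RB.SP.pr_ne h2] at h
    exact ⟨h2, OnePoint.coe_injective h⟩

/-- the orbit under the affine `N`-th iterate -/
theorem At.orbit {d : ℕ} {x : CV d} {N : ℕ} {ζ : ℂ} {G : ℂ → ℂ} {r : ℝ}
    (hG : ∀ y, ‖y‖ ≤ r → ((hF x)^[N] (ζ + y, 1)).2 ≠ 0 ∧ ζ + G y = Fa N x (ζ + y))
    {p : ℂ × ℂ} {y : ℂ} (h : At p (ζ + y)) {n : ℕ} (hn : ∀ j ≤ n, ‖G^[j] y‖ ≤ r) :
    At ((hF x)^[N * n] p) (ζ + G^[n] y) := by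
  induction n with
  | zero => simpa using h
  | succ n ih =>
    have h1 := ih (fun j hj => hn j (by omega))
    obtain ⟨h2, h3⟩ := hG _ (hn n (by omega))
    have h4 := h1.iter h2
    rw [← h3, ← Function.iterate_succ_apply' G] at h4
    rwa [Nat.mul_succ, Nat.add_comm, Function.iterate_add_apply]

theorem trap_of {d : ℕ} {x : CV d} {N : ℕ} {ζ s : ℂ} {G : ℂ → ℂ} {r ρ : ℝ}
    (hG : ∀ y, ‖y‖ ≤ r → ((hF x)^[N] (ζ + y, 1)).2 ≠ 0 ∧ ζ + G y = Fa N x (ζ + y))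
    (hin : ∀ y, ‖y - s‖ ≤ ρ → ‖y‖ ≤ r)
    (h1 : ∀ y, ‖y - s‖ ≤ ρ → ‖G y - s‖ < ρ)
    (h2 : ∃ m : ℕ, ∀ y, ‖y - s‖ ≤ ρ → ‖G^[m] y - s‖ < ρ / 8) : TrapN N (ζ + s, ρ) x := by
  have key : ∀ z ∈ closedBall (ζ + s) ρ, ∃ y, z = ζ + y ∧ ‖y - s‖ ≤ ρ := by
    intro z hz
    refine ⟨z - ζ, by ring, ?_⟩
    rw [mem_closedBall, dist_eq_norm] at hz
    rwa [show z - ζ - s = z - (ζ + s) by ring]
  have hit : ∀ y, ‖y - s‖ ≤ ρ → ∀ j, ‖G^[j] y - s‖ ≤ ρ := by
    intro y hy j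
    induction j with
    | zero => exact hy
    | succ j ih => rw [Function.iterate_succ_apply']; exact (h1 _ ih).le
  have fin : ∀ (n : ℕ) (R : ℝ) (y : ℂ), ‖y - s‖ ≤ ρ → ‖G^[n] y - s‖ < R →
      ‖((hF x)^[N * n] (ζ + y, 1)).1 - (ζ + s) * ((hF x)^[N * n] (ζ + y, 1)).2‖ <
        R * ‖((hF x)^[N * n] (ζ + y, 1)).2‖ := by
    intro n R y hy hR
    have h3 := At.orbit hG (At.self (ζ + y)) (n := n) (fun j _ => hin _ (hit y hy j))
    have h4 : ‖ζ + G^[n] y - (ζ + s)‖ < R := by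
      convert hR using 2
      ring
    obtain ⟨i, hi, h5⟩ := h3.into (i := (ζ + s, R)) h4
    rw [Finset.mem_singleton] at hi
    rw [hi] at h5
    exact h5
  constructor
  · intro z hz
    obtain ⟨y, rfl, hy⟩ := key z hz
    have := fin 1 ρ y hy (by rw [Function.iterate_one]; exact h1 y hy)
    rwa [Nat.mul_one] at this
  · obtain ⟨m, hm⟩ := h2
    refine ⟨m, ?_⟩
    intro z hz
    obtain ⟨y, rfl, hy⟩ := key z hz
    exact fin m _ y hy (hm y hy)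

/-- the perturbation along a ray -/
noncomputable def xr {d : ℕ} (x0 v : CV d) (θ t : ℝ) : CV d :=
  x0 + ((t : ℂ) * Complex.exp (θ * Complex.I)) • v

/-- the vectors near `c0` are captured by trap discs -/
def Caught {d : ℕ} (N : ℕ) (x0 v : CV d) (θ : ℝ) (c0 : ℂ × ℂ) : Prop :=
  ∃ U ∈ 𝓝 c0, ∀ᶠ t : ℝ in 𝓝[>] 0, ∃ i : ℂ × ℝ, TrapN N i (xr x0 v θ t) ∧
    ∀ c ∈ U, ∃ k : ℕ, Into {i} ((hF (xr x0 v θ t))^[N * k] c)

theorem tau_tendsto (θ : ℝ) :
    Tendsto (fun t : ℝ => (t : ℂ) * Complex.exp (θ * Complex.I)) (𝓝[>] 0) (𝓝 0) := by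
  have e1 : Tendsto (fun t : ℝ => (t : ℂ) * Complex.exp (θ * Complex.I)) (𝓝 0)
      (𝓝 (((0 : ℝ) : ℂ) * Complex.exp (θ * Complex.I))) :=
    (Complex.continuous_ofReal.tendsto 0).mul_const _
  rw [Complex.ofReal_zero, zero_mul] at e1
  exact e1.mono_left nhdsWithin_le_nhds

theorem xr_tendsto {d : ℕ} (x0 v : CV d) (θ : ℝ) :
    Tendsto (fun t : ℝ => xr x0 v θ t) (𝓝[>] 0) (𝓝 x0) := by
  have := ((tau_tendsto θ).smul_const v).const_add x0
  rwa [zero_smul, add_zero] at this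

theorem iter_tendsto {d : ℕ} (x0 v : CV d) (θ : ℝ) (c0 : ℂ × ℂ) (K : ℕ) :
    Tendsto (fun q : ℝ × (ℂ × ℂ) => (hF (xr x0 v θ q.1))^[K] q.2)
      (𝓝[>] (0 : ℝ) ×ˢ 𝓝 c0) (𝓝 ((hF x0)^[K] c0)) := by
  have h1 : Tendsto (fun q : ℝ × (ℂ × ℂ) => xr x0 v θ q.1) (𝓝[>] (0 : ℝ) ×ˢ 𝓝 c0) (𝓝 x0) :=
    (xr_tendsto x0 v θ).comp tendsto_fst
  have h2 : Tendsto (fun q : ℝ × (ℂ × ℂ) => q.2) (𝓝[>] (0 : ℝ) ×ˢ 𝓝 c0) (𝓝 c0) := tendsto_snd
  have h3 : Tendsto (fun q : CV d × (ℂ × ℂ) => (hF q.1)^[K] q.2) (𝓝 (x0, c0))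
      (𝓝 ((hF x0)^[K] c0)) := by
    have := (hF_iter_continuous d K).continuousAt (x := (x0, c0))
    exact this
  have h4 := h3.comp (h1.prodMk_nhds h2)
  simp only [Function.comp_def] at h4
  exact h4

theorem par_local (hT : S_trap) (hCa : S_capture) (hE : S_enter) {d N : ℕ} (hd : 1 ≤ d)
    (hN : 0 < N) {x0 v : CV d} (hx0 : ND x0) {a : ℂ} (ha : ParF N x0 a)
    (hv : ∀ᶠ τ : ℂ in 𝓝[≠] 0, ∀ z : ℂ, Fx N (x0 + τ • v) z = 0 →
      deriv (Fx N (x0 + τ • v)) z ≠ 0) :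
    ∃ B : Set ℝ, B.Countable ∧ ∀ θ ∉ B, ∀ c0 : ℂ × ℂ, c0 ≠ 0 →
      Tendsto (fun k : ℕ => (sp x0)^[N * k] (pr c0)) atTop (𝓝 (a : OnePoint ℂ)) →
      (∀ k : ℕ, (sp x0)^[N * k] (pr c0) ≠ a) → Caught N x0 v θ c0 := by
  obtain ⟨hB0, hfix, hd1, hd2⟩ := ha
  set Y : ℂ × ℂ → ℂ × ℂ := fun q => (hF (x0 + q.1 • v))^[N] (q.2, 1) with hY
  have hYc : ContDiff ℂ 3 Y := by
    have e1 : ContDiff ℂ 3 (fun q : ℂ × ℂ => ((x0 + q.1 • v, (q.2, (1 : ℂ))) : CV d × (ℂ × ℂ))) := by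
      fun_prop
    exact (hF_iter_contDiff d N 3).comp e1
  have hY0 : (Y (0, a)).2 ≠ 0 := by simpa [hY] using hB0
  set φ : ℂ × ℂ → ℂ := fun q => (Y q).1 / (Y q).2 - q.2 with hφ
  have hφF : ∀ τ z : ℂ, φ (τ, z) = Fa N (x0 + τ • v) z - z := fun τ z => rfl
  have hφc : ContDiffAt ℂ 3 φ (0, a) := by
    apply ContDiffAt.sub _ contDiffAt_snd
    exact hYc.fst.contDiffAt.div hYc.snd.contDiffAt hY0
  have hYz : ∀ τ : ℂ, Differentiable ℂ (fun z : ℂ => Y (τ, z)) := by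
    intro τ
    exact (hYc.differentiable (by norm_num)).comp (by fun_prop)
  have hFad : ∀ τ z : ℂ, (Y (τ, z)).2 ≠ 0 → DifferentiableAt ℂ (Fa N (x0 + τ • v)) z := by
    intro τ z hz
    exact ((hYz τ).fst z).div ((hYz τ).snd z) hz
  have hx00 : x0 + (0 : ℂ) • v = x0 := by rw [zero_smul, add_zero]
  have h0 : φ (0, a) = 0 := by rw [hφF, hx00, hfix, sub_self]
  have hne0 : ∀ᶠ z in 𝓝 a, (Y (0, z)).2 ≠ 0 :=
    ((hYz 0).snd.continuous.continuousAt (x := a)).eventually_ne hY0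
  have hder : ∀ z : ℂ, (Y (0, z)).2 ≠ 0 →
      deriv (fun z => φ (0, z)) z = deriv (Fa N x0) z - 1 := by
    intro z hz
    have e1 : (fun z => φ (0, z)) = fun z => Fa N x0 z - z := by
      funext z; rw [hφF, hx00]
    have e2 := hFad 0 z hz
    rw [hx00] at e2
    rw [e1]
    exact (e2.hasDerivAt.sub (hasDerivAt_id z)).deriv
  have h1 : deriv (fun z => φ (0, z)) a = 0 := by rw [hder a hY0, hd1, sub_self]
  set C : ℂ := deriv (deriv (Fa N x0)) a / 2 with hC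
  have h2 : deriv (deriv (fun z => φ (0, z))) a = 2 * C := by
    have e1 : deriv (fun z => φ (0, z)) =ᶠ[𝓝 a] fun z => deriv (Fa N x0) z - 1 := by
      filter_upwards [hne0] with z hz
      exact hder z hz
    rw [e1.deriv_eq, deriv_sub_const, hC]
    ring
  have hC0 : C ≠ 0 := div_ne_zero hd2 two_ne_zero
  -- the denominators near `(0, a)`
  obtain ⟨ρ, hρ, hρY⟩ : ∃ ρ : ℝ, 0 < ρ ∧ ∀ q ∈ ball ((0 : ℂ), a) ρ, (Y q).2 ≠ 0 :=
    Metric.eventually_nhds_iff_ball.1 ((hYc.snd.continuous.continuousAt).eventually_ne hY0)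
  have hS : ∃ r : ℝ, 0 < r ∧ ∀ᶠ τ in 𝓝[≠] (0 : ℂ), ∀ z ∈ ball a r, φ (τ, z) = 0 →
      deriv (fun z => φ (τ, z)) z ≠ 0 := by
    refine ⟨ρ, hρ, ?_⟩
    filter_upwards [hv, nhdsWithin_le_nhds (ball_mem_nhds (0 : ℂ) hρ)] with τ e1 e2 z hz e3
    have hz2 : (Y (τ, z)).2 ≠ 0 := hρY _ (by
      rw [mem_ball, Prod.dist_eq, max_lt_iff]
      exact ⟨e2, hz⟩)
    have e4 : Fx N (x0 + τ • v) z = 0 := by
      have e5 : Fx N (x0 + τ • v) z = φ (τ, z) * (Y (τ, z)).2 := by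
        simp only [Fx, hφ]
        have : (Y (τ, z)).2 ≠ 0 := hz2
        simp only [hY] at this ⊢
        field_simp
      rw [e5, e3, zero_mul]
    have e6 := e1 z e4
    have e7 : Fx N (x0 + τ • v) =ᶠ[𝓝 z] fun w => φ (τ, w) * (Y (τ, w)).2 := by
      have : ∀ᶠ w in 𝓝 z, (Y (τ, w)).2 ≠ 0 :=
        ((hYz τ).snd.continuous.continuousAt (x := z)).eventually_ne hz2
      filter_upwards [this] with w hw
      simp only [Fx, hφ]
      simp only [hY] at hw ⊢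
      field_simp
    rw [e7.deriv_eq] at e6
    have e8 : DifferentiableAt ℂ (fun w => φ (τ, w)) z := by
      have : (fun w => φ (τ, w)) = fun w => Fa N (x0 + τ • v) w - w := by funext w; rw [hφF]
      rw [this]
      exact (hFad τ z hz2).sub differentiableAt_id
    have e9 : deriv (fun w => φ (τ, w) * (Y (τ, w)).2) z = deriv (fun w => φ (τ, w)) z *
        (Y (τ, z)).2 + φ (τ, z) * deriv (fun w => (Y (τ, w)).2) z :=
      (e8.hasDerivAt.mul ((hYz τ).snd z).hasDerivAt).deriv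
    intro e10
    apply e6
    rw [e9, e10, e3]
    ring
  obtain ⟨ζ, ζc, ζ0, B, hB, hθ⟩ := unfold hφc h0 h1 h2 hC0 hS
  refine ⟨B, hB, ?_⟩
  intro θ hθB c0 hc0 hlim hnea
  obtain ⟨δ, hNear⟩ := hθ θ hθB
  set e : ℂ := Complex.exp (θ * Complex.I) with he
  set G : ℝ → ℂ → ℂ := fun t y => y + φ (t * e, ζ (t * e) + y) with hG
  have hτ := tau_tendsto θ
  rw [← he] at hτ
  have hζt : Tendsto (fun t : ℝ => ζ (t * e)) (𝓝[>] 0) (𝓝 a) := by
    have := ζc.tendsto.comp hτ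
    rwa [ζ0] at this
  -- the region of validity
  set r : ℝ := ρ / 4 with hr
  have hr0 : 0 < r := by positivity
  have hGr : ∀ᶠ t : ℝ in 𝓝[>] 0, ∀ y, ‖y‖ ≤ r →
      ((hF (xr x0 v θ t))^[N] (ζ (t * e) + y, 1)).2 ≠ 0 ∧
        ζ (t * e) + G t y = Fa N (xr x0 v θ t) (ζ (t * e) + y) := by
    filter_upwards [hτ (ball_mem_nhds (0 : ℂ) hρ), hζt (ball_mem_nhds a (half_pos hρ))]
      with t e1 e2 y hy
    constructor
    · apply hρY (t * e, ζ (t * e) + y)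
      rw [mem_ball, Prod.dist_eq, max_lt_iff]
      refine ⟨e1, ?_⟩
      rw [dist_eq_norm]
      have e3 : dist (ζ (t * e)) a < ρ / 2 := e2
      rw [dist_eq_norm] at e3
      calc ‖ζ (t * e) + y - a‖ = ‖(ζ (t * e) - a) + y‖ := by ring_nf
        _ ≤ ‖ζ (t * e) - a‖ + ‖y‖ := norm_add_le _ _
        _ < ρ / 2 + ρ / 4 + ρ / 4 := by linarith
        _ = ρ := by ring
    · simp only [hG]
      rw [hφF]
      simp only [xr, ← he]
      ring
  obtain ⟨a0, ha0, htrap⟩ := hT C δ G hNear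
  obtain ⟨r1, hr1, e1, he1, hcap⟩ := hCa C δ G hNear r hr0
  set b : ℝ := a0 / 2 with hb
  have hb0 : 0 < b := by positivity
  -- the orbit of `c0`
  set p : ℕ → ℂ × ℂ := fun k => (hF x0)^[N * k] c0 with hp
  set z : ℕ → ℂ := fun k => (p k).1 / (p k).2 with hz
  have hpr : ∀ k, pr (p k) = (sp x0)^[N * k] (pr c0) := fun k =>
    ((SP d x0 hd hx0).2.1 c0 hc0 (N * k)).symm
  have hAt : ∀ᶠ k in atTop, At (p k) (z k) := by
    filter_upwards [hlim (OnePoint.isOpenEmbedding_coe.isOpen_range.mem_nhds ⟨a, rfl⟩)] with k hk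
    obtain ⟨w, hw⟩ := hk
    have h3 : At (p k) w := at_of_pr ((hpr k).trans hw.symm)
    exact ⟨h3.1, rfl⟩
  have hzt : Tendsto z atTop (𝓝 a) := by
    rw [OnePoint.isOpenEmbedding_coe.tendsto_nhds_iff]
    apply hlim.congr'
    filter_upwards [hAt] with k hk
    rw [← hpr, hk.pr]
    rfl
  have hzne : ∀ᶠ k in atTop, z k ≠ a := by
    filter_upwards [hAt] with k hk h3
    apply hnea k
    rw [← hpr, hk.pr, h3]
  have hrec : ∀ᶠ k in atTop, z (k + 1) = Fa N x0 (z k) := by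
    filter_upwards [hAt, hzt.eventually hne0] with k hk hk2
    have h3 : ((hF x0)^[N] (z k, 1)).2 ≠ 0 := by
      have : (Y (0, z k)).2 ≠ 0 := hk2
      simp only [hY, hx00] at this
      exact this
    have h4 := hk.iter h3
    have h5 : (hF x0)^[N] (p k) = p (k + 1) := by
      simp only [hp]
      rw [← Function.iterate_add_apply, Nat.mul_succ, Nat.add_comm]
    rw [h5] at h4
    exact h4.2
  set g : ℂ → ℂ := fun z => φ (0, z) with hg
  have hga : AnalyticAt ℂ g a := by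
    apply Complex.analyticAt_iff_eventually_differentiableAt.2
    filter_upwards [hne0] with w hw
    have : g = fun w => Fa N (x0 + (0 : ℂ) • v) w - w := by funext w; simp only [hg]; rw [hφF]
    rw [this]
    exact (hFad 0 w hw).sub differentiableAt_id
  have hga1 := hga.deriv
  have hga2 := hga1.deriv
  have hratio : Tendsto (fun k => ((z (k + 1) - a) - (z k - a)) / (z k - a) ^ 2) atTop (𝓝 C) := by
    rw [Metric.tendsto_nhds]
    intro ε hε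
    have e2 : ∀ᶠ w in 𝓝 a, ‖deriv (deriv g) w - 2 * C‖ ≤ ε / 2 := by
      have e3 : Tendsto (fun w => ‖deriv (deriv g) w - 2 * C‖) (𝓝 a)
          (𝓝 ‖deriv (deriv g) a - 2 * C‖) := (hga2.continuousAt.tendsto.sub_const _).norm
      have e4 : deriv (deriv g) a = 2 * C := h2
      rw [e4, sub_self, norm_zero] at e3
      exact (e3.eventually (gt_mem_nhds (half_pos hε))).mono fun w hw => le_of_lt hw
    obtain ⟨s, hs, hsb⟩ := Metric.eventually_nhds_iff_ball.1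
      ((hga.eventually_analyticAt.and hga1.eventually_analyticAt).and e2)
    filter_upwards [hrec, hzne, hzt (ball_mem_nhds a hs)] with k h3 h4 h5
    have h6 : ‖z k - a‖ < s := by rw [← dist_eq_norm]; exact h5
    have h7 := taylor (g := g) (g' := deriv g) (g'' := deriv (deriv g)) (C := C) (ζ := a)
      (ε := ε / 2) (r := s) (half_pos hε).le
      (fun w hw => (hsb w hw).1.1.differentiableAt.hasDerivAt)
      (fun w hw => (hsb w hw).1.2.differentiableAt.hasDerivAt)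
      (fun w hw => (hsb w hw).2) h1 h6
    have h8 : z k - a ≠ 0 := sub_ne_zero.2 h4
    have h9 : a + (z k - a) = z k := by ring
    have h10 : g a = 0 := h0
    have h11 : g (z k) = z (k + 1) - z k := by
      simp only [hg]
      rw [hφF, hx00, h3]
    rw [h9, h10, sub_zero, h11] at h7
    have h12 : ((z (k + 1) - a) - (z k - a)) / (z k - a) ^ 2 - C =
        (z (k + 1) - z k - C * (z k - a) ^ 2) / (z k - a) ^ 2 := by
      field_simp
      ring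
    have h13 : 0 < ‖z k - a‖ ^ 2 := by
      have := norm_pos_iff.2 h8
      positivity
    rw [dist_eq_norm, h12, norm_div, norm_pow, div_lt_iff₀ h13]
    refine lt_of_le_of_lt h7 ?_
    nlinarith
  obtain ⟨K0, hK0⟩ := eventually_atTop.1 hzne
  have hent := hE C (fun n => z (n + K0) - a) hC0 (by
      have := (hzt.comp (tendsto_add_atTop_nat K0)).sub_const a
      rwa [sub_self] at this) (fun n => sub_ne_zero.2 (hK0 _ (by omega))) (by
      have := hratio.comp (tendsto_add_atTop_nat K0)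
      refine this.congr fun n => ?_
      simp only [Function.comp_apply]
      rw [show n + 1 + K0 = n + K0 + 1 by ring]) (e1 / 2) (half_pos he1)
  have hsm : ∀ᶠ n in atTop, ‖z (n + K0) - a‖ < r1 := by
    have := (((hzt.comp (tendsto_add_atTop_nat K0)).sub_const a).norm)
    rw [sub_self, norm_zero] at this
    exact this.eventually (gt_mem_nhds hr1)
  have hAt' : ∀ᶠ n in atTop, At (p (n + K0)) (z (n + K0)) :=
    (tendsto_add_atTop_nat K0).eventually hAt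
  obtain ⟨n0, ⟨⟨hn1, hn2⟩, hn3⟩, hn4⟩ := ((hent.and hsm).and hAt').exists
  set k := n0 + K0 with hk
  set ys : ℂ := z k - a with hys
  have hys0 : ys ≠ 0 := sub_ne_zero.2 (hK0 _ (by omega))
  have hysn : 0 < ‖ys‖ := norm_pos_iff.2 hys0
  -- the open entrance region
  have hO : ∀ᶠ y in 𝓝 ys, ‖ys‖ / 2 < ‖y‖ ∧ ‖y‖ < r1 ∧ 0 < (-(C * y)⁻¹).re ∧
      |(-(C * y)⁻¹).im| < e1 * (-(C * y)⁻¹).re := by
    have c1 : ContinuousAt (fun y : ℂ => -(C * y)⁻¹) ys :=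
      ((continuousAt_const.mul continuousAt_id).inv₀ (mul_ne_zero hC0 hys0)).neg
    have c2 : ContinuousAt (fun y : ℂ => (-(C * y)⁻¹).re) ys :=
      Complex.continuous_re.continuousAt.comp c1
    have c3 : ContinuousAt (fun y : ℂ => |(-(C * y)⁻¹).im|) ys :=
      (Complex.continuous_im.continuousAt.comp c1).abs
    have c4 : ContinuousAt (fun y : ℂ => ‖y‖) ys := continuous_norm.continuousAt
    have c5 : ContinuousAt (fun y : ℂ => e1 * (-(C * y)⁻¹).re) ys := continuousAt_const.mul c2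
    refine (c4.eventually (lt_mem_nhds (by linarith))).and
      ((c4.eventually (gt_mem_nhds hn3)).and ((c2.eventually (lt_mem_nhds hn1)).and
        (c3.tendsto.eventually_lt c5.tendsto ?_)))
    calc |(-(C * ys)⁻¹).im| ≤ e1 / 2 * (-(C * ys)⁻¹).re := hn2
      _ < e1 * (-(C * ys)⁻¹).re := by nlinarith
  have hQ : Tendsto (fun q : ℝ × (ℂ × ℂ) => (hF (xr x0 v θ q.1))^[N * k] q.2)
      (𝓝[>] (0 : ℝ) ×ˢ 𝓝 c0) (𝓝 (p k)) := iter_tendsto x0 v θ c0 (N * k)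
  have hQ1 : Tendsto (fun q : ℝ × (ℂ × ℂ) => ((hF (xr x0 v θ q.1))^[N * k] q.2).1 /
      ((hF (xr x0 v θ q.1))^[N * k] q.2).2 - ζ (q.1 * e)) (𝓝[>] (0 : ℝ) ×ˢ 𝓝 c0) (𝓝 ys) := by
    have c1 : Tendsto (fun w : ℂ × ℂ => w.1 / w.2) (𝓝 (p k)) (𝓝 (z k)) :=
      (continuousAt_fst.div continuousAt_snd hn4.1).tendsto
    exact (c1.comp hQ).sub (hζt.comp tendsto_fst)
  have hQ2 : ∀ᶠ q in 𝓝[>] (0 : ℝ) ×ˢ 𝓝 c0, ((hF (xr x0 v θ q.1))^[N * k] q.2).2 ≠ 0 :=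
    hQ.eventually (continuousAt_snd.eventually_ne hn4.1)
  obtain ⟨pa, hpa, pb, hpb, hab⟩ := Filter.eventually_prod_iff.1 ((hQ1.eventually hO).and hQ2)
  refine ⟨{c | pb c}, hpb, ?_⟩
  have hδs : ∀ᶠ t in 𝓝[>] (0 : ℝ), (1 + b) * ‖δ t‖ < r := by
    have := hNear.hδ0.norm.const_mul (1 + b)
    rw [norm_zero, mul_zero] at this
    exact this.eventually (gt_mem_nhds hr0)
  filter_upwards [hpa, htrap b hb0 (by rw [hb]; linarith), hcap b hb0 (‖ys‖ / 2) (by positivity),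
    hGr, hδs] with t h3 h4 h5 h6 h7
  refine ⟨(ζ (t * e) + δ t * Complex.I, b * ‖δ t‖), ?_, ?_⟩
  · apply trap_of h6 _ h4.1
    · obtain ⟨m, hm⟩ := h4.2
      refine ⟨m, fun y hy => ?_⟩
      have := hm y hy
      rwa [show b * ‖δ t‖ / 8 = b / 8 * ‖δ t‖ by ring]
    · intro y hy
      have h8 : ‖δ t * Complex.I‖ = ‖δ t‖ := by rw [norm_mul, Complex.norm_I, mul_one]
      calc ‖y‖ = ‖(y - δ t * Complex.I) + δ t * Complex.I‖ := by ring_nf
        _ ≤ ‖y - δ t * Complex.I‖ + ‖δ t * Complex.I‖ := norm_add_le _ _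
        _ ≤ b * ‖δ t‖ + ‖δ t‖ := by rw [h8]; linarith
        _ = (1 + b) * ‖δ t‖ := by ring
        _ ≤ r := h7.le
  · intro c hc
    obtain ⟨⟨o1, o2, o3, o4⟩, h8⟩ := hab h3 hc
    set y : ℂ := ((hF (xr x0 v θ t))^[N * k] c).1 / ((hF (xr x0 v θ t))^[N * k] c).2 - ζ (t * e)
      with hy
    obtain ⟨n, hn5, hn6⟩ := h5 y o1.le o2.le o3 o4.le
    have h9 : At ((hF (xr x0 v θ t))^[N * k] c) (ζ (t * e) + y) := ⟨h8, by rw [hy]; ring⟩
    have h10 := h9.orbit h6 hn5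
    refine ⟨n + k, ?_⟩
    rw [Nat.mul_add, Function.iterate_add_apply]
    apply h10.into
    have : ζ (t * e) + (G t)^[n] y - (ζ (t * e) + δ t * Complex.I) =
        (G t)^[n] y - δ t * Complex.I := by ring
    rw [this]
    exact hn6

end Pool.Agent.Helper65.EP
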