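import Mathlib
import Pool.Agent.Helper65.EP.Ray
import Pool.Agent.Helper65.EP.Stm3

/-! Germs in the coordinate `1 / (z - b)`. -/

set_option autoImplicit false

open Topology Filter Metric Set MeasureTheory
open scoped OnePoint

namespace Pool.Agent.Helper65.EP

open Pool.Agent.H790R3.RB
open Pool.Agent.W364.NM (ap ad dt exists_pr semi sp_pr)

namespace PGm

/-- the change of the local coordinate -/
noncomputable def hh (α β w : ℂ) : ℂ := α * w / (1 + β * w)

/-- its inverse -/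
noncomputable def hi (α β v : ℂ) : ℂ := v / (α - β * v)

theorem hh_deriv (α β : ℂ) : HasDerivAt (hh α β) α 0 := by
  have h1 : HasDerivAt (fun w : ℂ => α * w) α 0 := by
    simpa using (hasDerivAt_id (0 : ℂ)).const_mul α
  have h2 : HasDerivAt (fun w : ℂ => 1 + β * w) β 0 := by
    simpa using ((hasDerivAt_id (0 : ℂ)).const_mul β).const_add 1
  have h3 := h1.div h2 (by simp)
  refine h3.congr_deriv ?_
  simp

theorem hi_deriv {α : ℂ} (hα : α ≠ 0) (β : ℂ) : HasDerivAt (hi α β) α⁻¹ 0 := by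
  have h2 : HasDerivAt (fun w : ℂ => α - β * w) (-β) 0 := by
    simpa using ((hasDerivAt_id (0 : ℂ)).const_mul β).const_sub α
  have h3 := (hasDerivAt_id (0 : ℂ)).div h2 (by simpa using hα)
  refine h3.congr_deriv ?_
  simp only [id, mul_zero, sub_zero, one_mul, zero_mul]
  field_simp

theorem hh_zero (α β : ℂ) : hh α β 0 = 0 := by simp [hh]

theorem hi_zero (α β : ℂ) : hi α β 0 = 0 := by simp [hi]

theorem ev_den (α : ℂ) {c : ℂ} (hc : c ≠ 0) : ∀ᶠ v in 𝓝 (0 : ℂ), c + α * v ≠ 0 := by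
  have h1 : ContinuousAt (fun v : ℂ => c + α * v) 0 := by fun_prop
  exact h1.eventually_ne (by simpa using hc)

theorem hh_hi {α : ℂ} (hα : α ≠ 0) (β : ℂ) : ∀ᶠ v in 𝓝 (0 : ℂ), hh α β (hi α β v) = v := by
  filter_upwards [ev_den (-β) hα] with v hv
  have h1 : α - β * v ≠ 0 := by
    intro h
    apply hv
    rw [← h]
    ring
  unfold hh hi
  have h2 : 1 + β * (v / (α - β * v)) = α / (α - β * v) := by
    rw [eq_div_iff h1, add_mul, one_mul, mul_assoc, div_mul_cancel₀ _ h1]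
    ring
  rw [h2, mul_div_assoc', div_div_div_cancel_right₀ h1, mul_div_cancel_left₀ _ hα]

end PGm

open PGm

/-- the local coordinate in the new coordinate of the sphere -/
theorem chartH {b : ℂ} {H : OnePoint ℂ → OnePoint ℂ}
    (hH : ∀ p : ℂ × ℂ, p ≠ 0 → H (pr p) = pr (ap ((0, 1), (1, -b)) p)) {a : OnePoint ℂ}
    (ha : a ≠ (b : OnePoint ℂ)) : ∃ a' α β : ℂ, α ≠ 0 ∧ H a = (a' : OnePoint ℂ) ∧
      ∀ᶠ w in 𝓝 (0 : ℂ), H (chart a w) = ((a' + hh α β w : ℂ) : OnePoint ℂ) := by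
  have key : ∀ z : ℂ, z ≠ b → H (z : OnePoint ℂ) = ((1 / (z - b) : ℂ) : OnePoint ℂ) := by
    intro z hz
    have h1 := hH (z, 1) (by simp)
    rw [Pool.Agent.H790R3.RB.SP.pr_ne one_ne_zero, div_one] at h1
    rw [h1]
    have h2 : z + -b ≠ 0 := by
      rw [← sub_eq_add_neg]
      exact sub_ne_zero.2 hz
    rw [Pool.Agent.H790R3.RB.SP.pr_ne (by simpa [ap] using h2)]
    simp only [ap, zero_mul, one_mul, zero_add, mul_one]
    rw [← sub_eq_add_neg]
  induction a using OnePoint.rec with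
  | infty =>
    have h1 := hH (1, 0) (by simp)
    rw [Pool.Agent.H790R3.RB.SP.pr_zero rfl] at h1
    have h0 : H (∞ : OnePoint ℂ) = ((0 : ℂ) : OnePoint ℂ) := by
      rw [h1, Pool.Agent.H790R3.RB.SP.pr_ne (by simp [ap])]
      simp [ap]
    refine ⟨0, 1, -b, one_ne_zero, h0, ?_⟩
    filter_upwards [ev_den (-b) one_ne_zero] with w hw
    show H (if w = 0 then ∞ else OnePoint.some w⁻¹) = _
    by_cases h2 : w = 0
    · rw [if_pos h2, h0, h2, hh_zero, zero_add]
    · rw [if_neg h2]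
      have h3 : w⁻¹ ≠ b := by
        intro h4
        apply hw
        rw [← h4]
        field_simp
        ring
      have h4 := key _ h3
      rw [show (OnePoint.some w⁻¹ : OnePoint ℂ) = ((w⁻¹ : ℂ) : OnePoint ℂ) from rfl, h4]
      congr 1
      unfold hh
      have h5 : w⁻¹ - b ≠ 0 := sub_ne_zero.2 h3
      have h6 : w⁻¹ - b = (1 + -b * w) / w := by
        field_simp
        ring
      rw [h6]
      field_simp
      ring
  | coe a =>
    have hab : a ≠ b := fun h => ha (by rw [h])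
    have hab' : a - b ≠ 0 := sub_ne_zero.2 hab
    refine ⟨1 / (a - b), -(1 / (a - b) ^ 2), 1 / (a - b), by
      exact neg_ne_zero.2 (div_ne_zero one_ne_zero (pow_ne_zero _ hab')), key a hab, ?_⟩
    filter_upwards [ev_den 1 hab'] with w hw
    have h1 : a + w ≠ b := by
      intro h2
      apply hw
      rw [← h2]
      ring
    show H (((a + w : ℂ)) : OnePoint ℂ) = _
    rw [key _ h1]
    congr 1
    have h3 : a - b + w ≠ 0 := by simpa using hw
    have h4 : a + w - b ≠ 0 := by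
      rw [show a + w - b = a - b + w by ring]
      exact h3
    have h5 : 1 + 1 / (a - b) * w ≠ 0 := by
      rw [show 1 + 1 / (a - b) * w = (a - b + w) / (a - b) by field_simp]
      exact div_ne_zero h3 hab'
    unfold hh
    field_simp
    ring

open Pool.Agent.H790R3.RB (SP) in
/-- the iterate of `y` in the affine coordinate -/
theorem germ_basic {d P : ℕ} (hd : 1 ≤ d) {x y : CV d} {b : ℂ} {H : OnePoint ℂ → OnePoint ℂ}
    (hx : ND x) (hy : ND y)
    (hA : ∀ p, hF y (ap ((0, 1), (1, -b)) p) = ap ((0, 1), (1, -b)) (hF x p))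
    (hH : ∀ p : ℂ × ℂ, p ≠ 0 → H (pr p) = pr (ap ((0, 1), (1, -b)) p)) {a : OnePoint ℂ}
    {a' α β : ℂ} (hα : α ≠ 0)
    (hch : ∀ᶠ w in 𝓝 (0 : ℂ), H (chart a w) = ((a' + hh α β w : ℂ) : OnePoint ℂ))
    {k : ℂ → ℂ} (hk : ContinuousAt k 0) (hk0 : k 0 = 0)
    (hkf : ∀ᶠ w in 𝓝 (0 : ℂ), (sp x)^[P] (chart a w) = chart a (k w)) :
    ∀ᶠ v in 𝓝 (0 : ℂ), At ((hF y)^[P] (a' + v, 1)) (a' + hh α β (k (hi α β v))) := by
  have hA' : ∀ (n : ℕ) (p : ℂ × ℂ), (hF y)^[n] (ap ((0, 1), (1, -b)) p) =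
      ap ((0, 1), (1, -b)) ((hF x)^[n] p) := by
    intro n p
    induction n with
    | zero => rfl
    | succ n ih => rw [Function.iterate_succ_apply', Function.iterate_succ_apply', ih, hA]
  have hap : ∀ p : ℂ × ℂ, p ≠ 0 → ap ((0, 1), (1, -b)) p ≠ 0 := by
    intro p hp h
    apply hp
    have h1 := congrArg Prod.fst h
    have h2 := congrArg Prod.snd h
    simp only [ap, Prod.fst_zero, Prod.snd_zero, zero_mul, one_mul, zero_add] at h1 h2
    rw [h1, mul_zero, add_zero] at h2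
    exact Prod.ext h2 h1
  have hFn : ∀ (n : ℕ) (p : ℂ × ℂ), p ≠ 0 → (hF x)^[n] p ≠ 0 := by
    intro n p hp
    induction n with
    | zero => exact hp
    | succ n ih =>
      rw [Function.iterate_succ_apply']
      intro h
      exact ih (by simpa using ((hx _ h)))
  have hconj : ∀ z : OnePoint ℂ, (sp y)^[P] (H z) = H ((sp x)^[P] z) := by
    intro z
    obtain ⟨p, hp, rfl⟩ := exists_pr z
    rw [hH p hp, (SP d y hd hy).2.1 _ (hap p hp) P, (SP d x hd hx).2.1 _ hp P, hH _ (hFn P p hp), hA']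
  have h1 : ∀ᶠ w in 𝓝 (0 : ℂ), H (chart a (k w)) = ((a' + hh α β (k w) : ℂ) : OnePoint ℂ) := by
    have : Tendsto k (𝓝 0) (𝓝 0) := by
      have := hk.tendsto
      rwa [hk0] at this
    exact this.eventually hch
  have hit : Tendsto (hi α β) (𝓝 0) (𝓝 0) := by
    have := (hi_deriv hα β).continuousAt.tendsto
    rwa [hi_zero] at this
  filter_upwards [hit.eventually h1, hit.eventually hkf, hit.eventually hch, hh_hi hα β] with
    v e1 e2 e3 e4
  apply at_of_pr
  rw [e4] at e3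
  have h3 : (((a' + v : ℂ)) : OnePoint ℂ) = pr ((a' + v, 1) : ℂ × ℂ) := (At.self _).pr.symm
  rw [← (SP d y hd hy).2.1 _ (by simp) P, ← h3, ← e3, hconj, e2, e1]

/-- the derivative in the new coordinate -/
theorem germ_deriv {d P : ℕ} {y : CV d} {a' α β : ℂ} (hα : α ≠ 0) {k : ℂ → ℂ} {ρ : ℂ}
    (hk : HasDerivAt k ρ 0) (hk0 : k 0 = 0)
    (h : ∀ᶠ v in 𝓝 (0 : ℂ), At ((hF y)^[P] (a' + v, 1)) (a' + hh α β (k (hi α β v)))) :
    ((hF y)^[P] (a', 1)).2 ≠ 0 ∧ Fa P y a' = a' ∧ deriv (Fa P y) a' = ρ := by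
  have h0 := h.self_of_nhds
  rw [hi_zero, hk0, hh_zero, add_zero] at h0
  refine ⟨h0.1, h0.2, ?_⟩
  have h1 : Tendsto (fun z : ℂ => z - a') (𝓝 a') (𝓝 0) := by
    have : ContinuousAt (fun z : ℂ => z - a') a' := by fun_prop
    simpa using this.tendsto
  have h2 : Fa P y =ᶠ[𝓝 a'] fun z => a' + hh α β (k (hi α β (z - a'))) := by
    filter_upwards [h1.eventually h] with z hz
    rw [add_sub_cancel] at hz
    exact hz.2
  have e1 : HasDerivAt (fun z : ℂ => z - a') 1 a' := (hasDerivAt_id a').sub_const a'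
  have e2 : HasDerivAt (fun z : ℂ => hi α β (z - a')) (α⁻¹ * 1) a' := by
    have : HasDerivAt (hi α β) α⁻¹ ((fun z : ℂ => z - a') a') := by
      show HasDerivAt (hi α β) α⁻¹ (a' - a')
      rw [sub_self]
      exact hi_deriv hα β
    exact HasDerivAt.comp (h := fun z : ℂ => z - a') a' this e1
  have e3 : HasDerivAt (fun z : ℂ => k (hi α β (z - a'))) (ρ * (α⁻¹ * 1)) a' := by
    have : HasDerivAt k ρ (hi α β (a' - a')) := by rwa [sub_self, hi_zero]
    exact this.comp a' e2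
  have e4 : HasDerivAt (fun z : ℂ => hh α β (k (hi α β (z - a')))) (α * (ρ * (α⁻¹ * 1))) a' := by
    have : HasDerivAt (hh α β) α (k (hi α β (a' - a'))) := by
      rw [sub_self, hi_zero, hk0]
      exact hh_deriv α β
    exact this.comp a' e3
  rw [(e4.const_add a').congr_of_eventuallyEq h2 |>.deriv]
  field_simp

/-- PACKAGE G, the attracting part -/
theorem s_germA {d N : ℕ} {x y : CV d} {b : ℂ} {H : OnePoint ℂ → OnePoint ℂ} (hd : 1 ≤ d)
    (hx : ND x) (hy : ND y)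
    (hA : ∀ p, hF y (ap ((0, 1), (1, -b)) p) = ap ((0, 1), (1, -b)) (hF x p))
    (hH : ∀ p : ℂ × ℂ, p ≠ 0 → H (pr p) = pr (ap ((0, 1), (1, -b)) p)) {a : OnePoint ℂ}
    (ha : a ≠ (b : OnePoint ℂ)) : ∃ a' : ℂ, H a = (a' : OnePoint ℂ) ∧
      (AttG ((sp x)^[N]) a → AttF N y a') := by
  obtain ⟨a', α, β, hα, hHa, hch⟩ := chartH hH ha
  refine ⟨a', hHa, ?_⟩
  rintro ⟨g, ρ, hρ, hg0, hgd, hg⟩
  obtain ⟨h1, h2, h3⟩ := germ_deriv hα hgd hg0
    (germ_basic hd hx hy hA hH hα hch hgd.continuousAt hg0 hg)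
  exact ⟨h1, h2, by rwa [h3]⟩

theorem hh_sub {α β u w : ℂ} (hu : 1 + β * u ≠ 0) (hw : 1 + β * w ≠ 0) :
    hh α β u - hh α β w = α * (u - w) / ((1 + β * u) * (1 + β * w)) := by
  unfold hh
  rw [div_sub_div _ _ hu hw]
  congr 1
  ring

/-- PACKAGE X6 -/
theorem s_germS : S_germS := by
  intro d p q x y b H hd hp hq hx hy hA hH a ha
  obtain ⟨a', α, β, hα, hHa, hch⟩ := chartH hH ha
  refine ⟨a', hHa, ?_⟩
  rintro ⟨g, lam, C, hlam, hC, hg0, hgd, hlim, hg⟩
  obtain ⟨h1, h2, h3⟩ := germ_deriv hα hgd hg0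
    (germ_basic hd hx hy hA hH hα hch hgd.continuousAt hg0 hg)
  refine ⟨h1, h2, by rwa [h3], C / α ^ q, div_ne_zero hC (pow_ne_zero _ hα), ?_⟩
  have hgt : Tendsto g (𝓝 0) (𝓝 0) := by
    have := hgd.continuousAt.tendsto
    rwa [hg0] at this
  have hgq : ∀ n : ℕ, g^[n] 0 = 0 ∧ ContinuousAt (g^[n]) 0 ∧
      ∀ᶠ w in 𝓝 (0 : ℂ), (sp x)^[p * n] (chart a w) = chart a (g^[n] w) := by
    intro n
    induction n with
    | zero =>
      refine ⟨rfl, continuousAt_id, ?_⟩
      rw [mul_zero]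
      exact Eventually.of_forall (fun w => rfl)
    | succ n ih =>
      obtain ⟨i1, i2, i3⟩ := ih
      refine ⟨by rw [Function.iterate_succ_apply, hg0, i1], ?_, ?_⟩
      · rw [Function.iterate_succ]
        apply ContinuousAt.comp _ hgd.continuousAt
        rwa [hg0]
      · filter_upwards [hg, hgt.eventually i3] with w e1 e2
        rw [mul_add, mul_one, Function.iterate_add_apply, e1, e2, Function.iterate_succ_apply]
  obtain ⟨i1, i2, i3⟩ := hgq q
  have hb := germ_basic hd hx hy hA hH hα hch i2 i1 i3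
  -- the limit in the coordinate `w`
  have hit : Tendsto (hi α β) (𝓝 0) (𝓝 0) := by
    have := (hi_deriv hα β).continuousAt.tendsto
    rwa [hi_zero] at this
  have hit' : Tendsto (hi α β) (𝓝[≠] 0) (𝓝[≠] 0) := by
    apply tendsto_nhdsWithin_iff.2 ⟨hit.mono_left nhdsWithin_le_nhds, ?_⟩
    filter_upwards [self_mem_nhdsWithin, nhdsWithin_le_nhds (hh_hi hα β)] with v hv e
    intro h0
    rw [mem_singleton_iff.1 h0, hh_zero] at e
    exact hv e.symm
  have hgq0 : Tendsto (g^[q]) (𝓝 0) (𝓝 0) := by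
    have := i2.tendsto
    rwa [i1] at this
  have hfac : Tendsto (fun w : ℂ => (g^[q] w - w) / w ^ (q + 1) *
      (α / α ^ (q + 1) * ((1 + β * w) ^ (q + 1) / ((1 + β * g^[q] w) * (1 + β * w)))))
      (𝓝[≠] 0) (𝓝 (C * (α / α ^ (q + 1) * ((1 + β * 0) ^ (q + 1) /
        ((1 + β * 0) * (1 + β * 0)))))) := by
    apply hlim.mul
    apply Tendsto.const_mul
    have hid : Tendsto (fun w : ℂ => w) (𝓝[≠] 0) (𝓝 0) := tendsto_id.mono_left nhdsWithin_le_nhds
    have hgi : Tendsto (fun w : ℂ => g^[q] w) (𝓝[≠] 0) (𝓝 0) := hgq0.mono_left nhdsWithin_le_nhds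
    refine Tendsto.div ?_ ?_ (by simp)
    · exact ((hid.const_mul β).const_add 1).pow _
    · exact ((hgi.const_mul β).const_add 1).mul ((hid.const_mul β).const_add 1)
  have hval : C * (α / α ^ (q + 1) * ((1 + β * 0) ^ (q + 1) / ((1 + β * 0) * (1 + β * 0)))) =
      C / α ^ q := by
    rw [mul_zero, add_zero, one_pow, mul_one, div_one, mul_one, pow_succ]
    field_simp
  rw [hval] at hfac
  have hz : Tendsto (fun z : ℂ => z - a') (𝓝[≠] a') (𝓝[≠] 0) := by
    apply tendsto_nhdsWithin_iff.2 ⟨?_, ?_⟩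
    · have : ContinuousAt (fun z : ℂ => z - a') a' := by fun_prop
      have := this.tendsto
      rw [sub_self] at this
      exact this.mono_left nhdsWithin_le_nhds
    · filter_upwards [self_mem_nhdsWithin] with z hz
      exact sub_ne_zero.2 hz
  refine (hfac.comp (hit'.comp hz)).congr' ?_
  have hden : ∀ᶠ w in 𝓝 (0 : ℂ), 1 + β * w ≠ 0 := ev_den β one_ne_zero
  have hit0 : Tendsto (hi α β) (𝓝[≠] 0) (𝓝 0) := hit.mono_left nhdsWithin_le_nhds
  filter_upwards [hz.eventually (nhdsWithin_le_nhds hb), hz.eventually (nhdsWithin_le_nhds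
    (hh_hi hα β)), hz.eventually (hit0.eventually hden), hz.eventually (hit0.eventually
      (hgq0.eventually hden)), hz.eventually (hit'.eventually self_mem_nhdsWithin)] with z e1 e2 e3
        e4 e5
  simp only [Function.comp_apply]
  rw [add_sub_cancel] at e1
  have e6 : Fa (p * q) y z = a' + hh α β (g^[q] (hi α β (z - a'))) := e1.2
  set w := hi α β (z - a') with hw
  rw [e6]
  have e7 : a' + hh α β (g^[q] w) - z = hh α β (g^[q] w) - hh α β w := by
    rw [e2]
    ring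
  have e5' : w ≠ 0 := e5
  rw [e7, ← e2, hh_sub e4 e3]
  unfold hh
  rw [div_pow, mul_pow]
  have e8 : w ^ (q + 1) ≠ 0 := pow_ne_zero _ e5'
  have e9 : (1 + β * w) ^ (q + 1) ≠ 0 := pow_ne_zero _ e3
  have e10 : α ^ (q + 1) ≠ 0 := pow_ne_zero _ hα
  field_simp

end Pool.Agent.Helper65.EP
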