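import Mathlib
import Pool.Agent.Helper65.EP.Stm2

/-! Package A: attracting fixed points of the `N`-th iterate have trap discs. -/

set_option autoImplicit false

open Topology Filter Metric Set MeasureTheory

namespace Pool.Agent.Helper65.EP

open Pool.Agent.H790R3.RB

namespace AttrAux

theorem iter_smul {d : ℕ} (x : CV d) (N : ℕ) (c : ℂ) (p : ℂ × ℂ) :
    (hF x)^[N] (c • p) = c ^ (d ^ N) • (hF x)^[N] p := by
  induction N generalizing c p with
  | zero => simp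
  | succ N ih =>
    rw [Function.iterate_succ_apply, hF_smul, ih, Function.iterate_succ_apply, ← pow_mul, pow_succ']

theorem fst_diff {d : ℕ} (x : CV d) (k : ℕ) :
    Differentiable ℂ (fun z : ℂ => (hF x)^[k] (z, 1)) := by
  have h1 := hF_iter_differentiable d k
  have h2 : Differentiable ℂ (fun z : ℂ => ((x, (z, 1)) : CV d × (ℂ × ℂ))) := by fun_prop
  exact h1.comp h2

theorem eq_smul {d : ℕ} (x : CV d) (N : ℕ) (z : ℂ) (h : ((hF x)^[N] (z, 1)).2 ≠ 0) :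
    (hF x)^[N] (z, 1) = ((hF x)^[N] (z, 1)).2 • ((Fa N x z, 1) : ℂ × ℂ) := by
  ext
  · show ((hF x)^[N] (z, 1)).1 = ((hF x)^[N] (z, 1)).2 * Fa N x z
    unfold Fa
    rw [mul_div_cancel₀ _ h]
  · show ((hF x)^[N] (z, 1)).2 = ((hF x)^[N] (z, 1)).2 * 1
    rw [mul_one]

end AttrAux

open AttrAux in
/-- PACKAGE A -/
theorem s_attr : S_attr := by
  intro d N x a _ _ h
  obtain ⟨hB, hfix, hder⟩ := h
  have hdiff := fst_diff x N
  have hga : HasDerivAt (Fa N x) (deriv (Fa N x) a) a := by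
    apply DifferentiableAt.hasDerivAt
    exact ((hdiff a).fst).div ((hdiff a).snd) hB
  obtain ⟨l, hl1, hl2⟩ := exists_between hder
  have hl0 : 0 < l := lt_of_le_of_lt (norm_nonneg _) hl1
  have h1 := (hasDerivAt_iff_isLittleO.1 hga).def (sub_pos.2 hl1)
  have h2 : ∀ᶠ z in 𝓝 a, ((hF x)^[N] (z, 1)).2 ≠ 0 :=
    ((hdiff a).snd.continuousAt).eventually_ne hB
  obtain ⟨ρ, hρ, hball⟩ := Metric.nhds_basis_closedBall.eventually_iff.1 (h1.and h2)
  have hstep : ∀ z ∈ closedBall a ρ, ‖Fa N x z - a‖ ≤ l * ‖z - a‖ := by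
    intro z hz
    have h3 := (hball hz).1
    rw [hfix, smul_eq_mul] at h3
    calc ‖Fa N x z - a‖ = ‖(Fa N x z - a - (z - a) * deriv (Fa N x) a) +
          (z - a) * deriv (Fa N x) a‖ := by ring_nf
      _ ≤ ‖Fa N x z - a - (z - a) * deriv (Fa N x) a‖ + ‖(z - a) * deriv (Fa N x) a‖ :=
          norm_add_le _ _
      _ ≤ (l - ‖deriv (Fa N x) a‖) * ‖z - a‖ + ‖z - a‖ * ‖deriv (Fa N x) a‖ := by
          rw [norm_mul]
          gcongr
      _ = l * ‖z - a‖ := by ring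
  have hiter : ∀ z ∈ closedBall a ρ, ∀ m : ℕ, (Fa N x)^[m] z ∈ closedBall a ρ ∧
      ‖(Fa N x)^[m] z - a‖ ≤ l ^ m * ρ ∧
      ∃ c : ℂ, c ≠ 0 ∧ (hF x)^[N * m] (z, 1) = c • (((Fa N x)^[m] z, 1) : ℂ × ℂ) := by
    intro z hz m
    induction m with
    | zero =>
      refine ⟨hz, ?_, 1, one_ne_zero, by simp⟩
      rw [pow_zero, one_mul, ← dist_eq_norm]
      exact hz
    | succ m ih =>
      obtain ⟨i1, i2, c, hc, i3⟩ := ih
      have h4 : ‖(Fa N x)^[m + 1] z - a‖ ≤ l ^ (m + 1) * ρ := by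
        rw [Function.iterate_succ_apply']
        calc ‖Fa N x ((Fa N x)^[m] z) - a‖ ≤ l * ‖(Fa N x)^[m] z - a‖ := hstep _ i1
          _ ≤ l * (l ^ m * ρ) := mul_le_mul_of_nonneg_left i2 hl0.le
          _ = l ^ (m + 1) * ρ := by ring
      refine ⟨?_, h4, c ^ (d ^ N) * ((hF x)^[N] ((Fa N x)^[m] z, 1)).2, ?_, ?_⟩
      · rw [mem_closedBall, dist_eq_norm]
        refine h4.trans ?_
        have : l ^ (m + 1) ≤ 1 := pow_le_one₀ hl0.le hl2.le
        nlinarith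
      · exact mul_ne_zero (pow_ne_zero _ hc) (hball i1).2
      · have e1 : (hF x)^[N * (m + 1)] (z, 1) = (hF x)^[N] ((hF x)^[N * m] (z, 1)) := by
          rw [Nat.mul_succ, Nat.add_comm, Function.iterate_add_apply]
        calc (hF x)^[N * (m + 1)] (z, 1) = (hF x)^[N] ((hF x)^[N * m] (z, 1)) := e1
          _ = c ^ (d ^ N) • (hF x)^[N] ((Fa N x)^[m] z, 1) := by rw [i3, iter_smul]
          _ = c ^ (d ^ N) • (((hF x)^[N] ((Fa N x)^[m] z, 1)).2 •
                ((Fa N x ((Fa N x)^[m] z), 1) : ℂ × ℂ)) :=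
              congrArg _ (eq_smul x N _ (hball i1).2)
          _ = _ := by rw [smul_smul, Function.iterate_succ_apply']
  refine ⟨ρ, hρ, ?_, ?_⟩
  · intro z hz
    show ‖((hF x)^[N] (z, 1)).1 - a * ((hF x)^[N] (z, 1)).2‖ < ρ * ‖((hF x)^[N] (z, 1)).2‖
    have hne := (hball hz).2
    have h3 := eq_smul x N z hne
    have h4 : ((hF x)^[N] (z, 1)).1 = ((hF x)^[N] (z, 1)).2 * Fa N x z := by
      unfold Fa
      rw [mul_div_cancel₀ _ hne]
    have h5 : ((hF x)^[N] (z, 1)).1 - a * ((hF x)^[N] (z, 1)).2 =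
        (Fa N x z - a) * ((hF x)^[N] (z, 1)).2 := by
      rw [h4]; ring
    rw [h5, norm_mul]
    apply mul_lt_mul_of_pos_right _ (norm_pos_iff.2 hne)
    calc ‖Fa N x z - a‖ ≤ l * ‖z - a‖ := hstep z hz
      _ ≤ l * ρ := by
          rw [← dist_eq_norm]
          exact mul_le_mul_of_nonneg_left hz hl0.le
      _ < 1 * ρ := mul_lt_mul_of_pos_right hl2 hρ
      _ = ρ := one_mul ρ
  · obtain ⟨m, hm⟩ := exists_pow_lt_of_lt_one (show (0 : ℝ) < 1 / 8 by norm_num) hl2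
    refine ⟨m, ?_⟩
    intro z hz
    obtain ⟨_, i2, c, hc, i3⟩ := hiter z hz m
    show ‖((hF x)^[N * m] (z, 1)).1 - a * ((hF x)^[N * m] (z, 1)).2‖ <
      ρ / 8 * ‖((hF x)^[N * m] (z, 1)).2‖
    rw [i3]
    show ‖c * (Fa N x)^[m] z - a * (c * 1)‖ < ρ / 8 * ‖c * 1‖
    have h5 : c * (Fa N x)^[m] z - a * (c * 1) = ((Fa N x)^[m] z - a) * c := by ring
    rw [h5, mul_one, norm_mul]
    apply mul_lt_mul_of_pos_right _ (norm_pos_iff.2 hc)
    calc ‖(Fa N x)^[m] z - a‖ ≤ l ^ m * ρ := i2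
      _ < 1 / 8 * ρ := mul_lt_mul_of_pos_right hm hρ
      _ = ρ / 8 := by ring

end Pool.Agent.Helper65.EP
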