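import Pool.Agent.Helper65.EP.Stm

/-! PACKAGE L: the trap disc around the sink and the capture of the orbits by it. -/

set_option autoImplicit false
set_option maxHeartbeats 1000000

open Topology Filter Metric Set

namespace Pool.Agent.Helper65.EP

namespace PL

/-- growth of the modulus of the multiplier at the sink -/
lemma mult {p : ℂ} {κ : ℝ} (hp : κ * ‖p‖ ≤ p.re) (hs : ‖p‖ ≤ κ / 2) (hκ : κ ≤ 1) :
    ‖1 - 2 * p‖ ≤ 1 - κ * ‖p‖ := by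
  have hκ0 : 0 ≤ κ := by
    have := norm_nonneg p
    linarith
  have h0 : 0 ≤ 1 - κ * ‖p‖ := by nlinarith [norm_nonneg p]
  refine abs_le_of_sq_le_sq' ?_ h0 |>.2
  have e1 : ‖1 - 2 * p‖ ^ 2 = 1 - 4 * p.re + 4 * ‖p‖ ^ 2 := by
    rw [Complex.sq_norm, Complex.sq_norm, Complex.normSq_apply, Complex.normSq_apply]
    simp
    ring
  rw [e1]
  nlinarith [norm_nonneg p, mul_nonneg hκ0 (norm_nonneg p), sq_nonneg (κ * ‖p‖)]

/-- one step near the sink -/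
lemma near_sink {g : ℂ → ℂ} {p : ℂ} {κ a μ : ℝ} (hκ1 : κ ≤ 1) (hp : κ * ‖p‖ ≤ p.re)
    (hs : ‖p‖ ≤ κ / 2) (ha : a ≤ κ / 2)
    (hg : ∀ z, ‖z - p‖ ≤ a * ‖p‖ → ‖g z - (z - (z ^ 2 - p ^ 2))‖ ≤ μ * ‖p‖ ^ 2) (z : ℂ)
    (hz : ‖z - p‖ ≤ a * ‖p‖) :
    ‖g z - p‖ ≤ (1 - κ * ‖p‖ / 2) * ‖z - p‖ + μ * ‖p‖ ^ 2 := by
  have e : g z - p = (z - p) * ((1 - 2 * p) - (z - p)) + (g z - (z - (z ^ 2 - p ^ 2))) := by ring
  rw [e]
  refine (norm_add_le _ _).trans (add_le_add ?_ (hg z hz))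
  rw [norm_mul, mul_comm]
  refine mul_le_mul_of_nonneg_right ?_ (norm_nonneg _)
  refine (norm_sub_le _ _).trans ?_
  have := mult hp hs hκ1
  nlinarith [norm_nonneg p]

/-- the trap disc in the normalised coordinate -/
lemma trap {g : ℂ → ℂ} {p : ℂ} {κ a μ : ℝ} (hκ0 : 0 < κ) (hκ1 : κ ≤ 1) (hp0 : p ≠ 0)
    (hp : κ * ‖p‖ ≤ p.re) (hs : ‖p‖ ≤ κ / 2) (ha0 : 0 < a) (ha : a ≤ κ / 2)
    (hμ : μ ≤ κ * a / 40)
    (hg : ∀ z, ‖z - p‖ ≤ a * ‖p‖ → ‖g z - (z - (z ^ 2 - p ^ 2))‖ ≤ μ * ‖p‖ ^ 2) :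
    (∀ z, ‖z - p‖ ≤ a * ‖p‖ → ‖g z - p‖ < a * ‖p‖) ∧
    ∃ m : ℕ, ∀ z, ‖z - p‖ ≤ a * ‖p‖ → ‖g^[m] z - p‖ < a / 8 * ‖p‖ := by
  have hp1 : 0 < ‖p‖ := norm_pos_iff.2 hp0
  have hstep := near_sink hκ1 hp hs ha hg
  set l : ℝ := κ * ‖p‖ / 2 with hl
  have hl0 : 0 < l := by positivity
  have hl1 : l ≤ 1 := by nlinarith
  have hμl : μ * ‖p‖ ^ 2 ≤ l * (a / 20 * ‖p‖) := by
    rw [hl]
    nlinarith [sq_nonneg ‖p‖, mul_le_mul_of_nonneg_right hμ (sq_nonneg ‖p‖)]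
  have h1 : ∀ z, ‖z - p‖ ≤ a * ‖p‖ → ‖g z - p‖ < a * ‖p‖ := by
    intro z hz
    have h2 := hstep z hz
    have h3 : (1 - l) * ‖z - p‖ ≤ (1 - l) * (a * ‖p‖) :=
      mul_le_mul_of_nonneg_left hz (by linarith)
    have h4 : 0 < l * (a * ‖p‖) := by positivity
    nlinarith
  refine ⟨h1, ?_⟩
  have h2 : ∀ z, ‖z - p‖ ≤ a * ‖p‖ → ∀ n : ℕ, ‖g^[n] z - p‖ ≤ a * ‖p‖ ∧
      ‖g^[n] z - p‖ ≤ (1 - l) ^ n * (a * ‖p‖) + a / 20 * ‖p‖ := by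
    intro z hz n
    induction n with
    | zero =>
      refine ⟨hz, ?_⟩
      have : 0 ≤ a / 20 * ‖p‖ := by positivity
      simp only [Function.iterate_zero, id_eq, pow_zero, one_mul]
      linarith
    | succ n ih =>
      rw [Function.iterate_succ_apply']
      refine ⟨(h1 _ ih.1).le, ?_⟩
      have h3 := hstep _ ih.1
      have h4 : (1 - l) * ‖g^[n] z - p‖ ≤ (1 - l) * ((1 - l) ^ n * (a * ‖p‖) + a / 20 * ‖p‖) :=
        mul_le_mul_of_nonneg_left ih.2 (by linarith)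
      calc ‖g (g^[n] z) - p‖ ≤ (1 - l) * ((1 - l) ^ n * (a * ‖p‖) + a / 20 * ‖p‖) +
            l * (a / 20 * ‖p‖) := by linarith
        _ = _ := by rw [pow_succ]; ring
  obtain ⟨m, hm⟩ := exists_pow_lt_of_lt_one (show (0 : ℝ) < 1 / 20 by norm_num)
    (show 1 - l < 1 by linarith)
  refine ⟨m, fun z hz => lt_of_le_of_lt (h2 z hz m).2 ?_⟩
  have h3 : 0 < a * ‖p‖ := by positivity
  nlinarith

/-- one step of the second phase -/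
lemma step2 {z z' p : ℂ} {κ s a μ K : ℝ} (hκ0 : 0 < κ) (hκ1 : κ ≤ 1) (hp : κ * ‖p‖ ≤ p.re)
    (hK : 1 ≤ K) (hzK : ‖z‖ ≤ K * ‖p‖) (hs : ‖p‖ * (10 * (K + 1)) ≤ κ) (ha0 : 0 < a) (hμ0 : 0 ≤ μ)
    (hμ : μ * (1 + a) ≤ κ * a / 8) (hs0 : 0 ≤ s) (hzs : ‖z - p‖ ≤ s * ‖z + p‖)
    (hza : a * ‖p‖ ≤ ‖z - p‖) (hzp : ‖p‖ ≤ ‖z + p‖)
    (hg : ‖z' - (z - (z ^ 2 - p ^ 2))‖ ≤ μ * ‖p‖ ^ 2) :
    ‖z' - p‖ ≤ s * (1 - κ * ‖p‖) * ‖z' + p‖ := by
  have hp1 := norm_nonneg p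
  set η := z' - (z - (z ^ 2 - p ^ 2)) with hη
  have e1 : z' - p = (z - p) * (1 - z - p) + η := by rw [hη]; ring
  have e2 : z' + p = (z + p) * (1 - z + p) + η := by rw [hη]; ring
  -- comparison of the factors
  have n1 : ‖1 - z - p‖ ^ 2 = ‖1 - z‖ ^ 2 - 2 * ((1 - z).re * p.re + (1 - z).im * p.im) + ‖p‖ ^ 2 := by
    rw [Complex.sq_norm, Complex.sq_norm, Complex.sq_norm, Complex.normSq_apply, Complex.normSq_apply,
      Complex.normSq_apply]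
    simp
    ring
  have n2 : ‖1 - z + p‖ ^ 2 = ‖1 - z‖ ^ 2 + 2 * ((1 - z).re * p.re + (1 - z).im * p.im) + ‖p‖ ^ 2 := by
    rw [Complex.sq_norm, Complex.sq_norm, Complex.sq_norm, Complex.normSq_apply, Complex.normSq_apply,
      Complex.normSq_apply]
    simp
    ring
  have hin : p.re - ‖z‖ * ‖p‖ ≤ (1 - z).re * p.re + (1 - z).im * p.im := by
    have h1 : z.re * p.re + z.im * p.im ≤ ‖z‖ * ‖p‖ := by
      have h2 : (z * (starRingEnd ℂ) p).re = z.re * p.re + z.im * p.im := by simp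
      rw [← h2]
      refine (Complex.re_le_norm _).trans ?_
      rw [norm_mul, Complex.norm_conj]
    simp
    linarith
  have hx : ‖z‖ * ‖p‖ ≤ K * ‖p‖ * ‖p‖ := mul_le_mul_of_nonneg_right hzK hp1
  have up1 : ‖1 - z - p‖ ≤ 1 + (K + 1) * ‖p‖ := by
    have := norm_sub_le (1 - z) p
    have := norm_sub_le (1 : ℂ) z
    rw [norm_one] at this
    linarith
  have up2 : ‖1 - z + p‖ ≤ 1 + (K + 1) * ‖p‖ := by
    have := norm_add_le (1 - z) p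
    have := norm_sub_le (1 : ℂ) z
    rw [norm_one] at this
    linarith
  have hsmall : (K + 1) * ‖p‖ ≤ κ / 10 := by linarith
  have hsmall' : (K + 1) * ‖p‖ ≤ 1 / 10 := by linarith
  have hgain : 3 / 2 * (κ * ‖p‖) ≤ ‖1 - z + p‖ - ‖1 - z - p‖ := by
    by_contra hcon
    rw [not_le] at hcon
    have h3 : (‖1 - z + p‖ - ‖1 - z - p‖) * (‖1 - z + p‖ + ‖1 - z - p‖) ≤
        3 / 2 * (κ * ‖p‖) * (‖1 - z + p‖ + ‖1 - z - p‖) :=
      mul_le_mul_of_nonneg_right hcon.le (by positivity)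
    have h4 : ‖1 - z + p‖ + ‖1 - z - p‖ ≤ 2 + 2 * (1 / 10) := by linarith
    have h5 : 3 / 2 * (κ * ‖p‖) * (‖1 - z + p‖ + ‖1 - z - p‖) ≤ 3 / 2 * (κ * ‖p‖) * (2 + 2 * (1 / 10)) := by
      gcongr
    have h6 : (‖1 - z + p‖ - ‖1 - z - p‖) * (‖1 - z + p‖ + ‖1 - z - p‖) =
        4 * ((1 - z).re * p.re + (1 - z).im * p.im) := by
      have : (‖1 - z + p‖ - ‖1 - z - p‖) * (‖1 - z + p‖ + ‖1 - z - p‖) =
        ‖1 - z + p‖ ^ 2 - ‖1 - z - p‖ ^ 2 := by ring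
      rw [this, n1, n2]
      ring
    have h7 : K * ‖p‖ * ‖p‖ ≤ κ / 10 * ‖p‖ := by
      refine mul_le_mul_of_nonneg_right ?_ hp1
      nlinarith
    have h8 : 4 * (κ * ‖p‖ - κ / 10 * ‖p‖) ≤ 3 / 2 * (κ * ‖p‖) * (2 + 2 * (1 / 10)) := by linarith
    rcases hp1.lt_or_eq with h9 | h9
    · have : 0 < κ * ‖p‖ := by positivity
      linarith
    · have h10 : p = 0 := norm_eq_zero.1 h9.symm
      rw [h10] at hcon
      simp at hcon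
  -- the error terms
  have er1 : ‖η‖ ≤ ‖z - p‖ * (μ / a * ‖p‖) := by
    refine hg.trans ?_
    calc μ * ‖p‖ ^ 2 = (a * ‖p‖) * (μ / a * ‖p‖) := by field_simp
      _ ≤ _ := by gcongr
  have er2 : ‖η‖ ≤ ‖z + p‖ * (μ * ‖p‖) := by
    refine hg.trans ?_
    calc μ * ‖p‖ ^ 2 = ‖p‖ * (μ * ‖p‖) := by ring
      _ ≤ _ := by gcongr
  have lo : ‖z + p‖ * (‖1 - z + p‖ - μ * ‖p‖) ≤ ‖z' + p‖ := by
    rw [e2]
    have h1 := norm_sub_norm_le ((z + p) * (1 - z + p)) (-η)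
    rw [sub_neg_eq_add, norm_neg, norm_mul] at h1
    linarith
  have hi : ‖z' - p‖ ≤ ‖z - p‖ * (‖1 - z - p‖ + μ / a * ‖p‖) := by
    rw [e1]
    refine (norm_add_le _ _).trans ?_
    rw [norm_mul]
    linarith
  have hκp : 0 ≤ 1 - κ * ‖p‖ := by
    have : κ * ‖p‖ ≤ 1 * ((K + 1) * ‖p‖) := by
      have : ‖p‖ ≤ (K + 1) * ‖p‖ := by nlinarith
      gcongr
    linarith
  have hmu : μ / a * ‖p‖ + μ * ‖p‖ ≤ κ / 8 * ‖p‖ := by
    have h1 : μ / a + μ ≤ κ / 8 := by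
      rw [div_add' _ _ _ ha0.ne', div_le_iff₀ ha0]
      linarith
    nlinarith
  have hfin : ‖1 - z - p‖ + μ / a * ‖p‖ ≤ (1 - κ * ‖p‖) * (‖1 - z + p‖ - μ * ‖p‖) := by
    have h1 : κ * ‖p‖ * ‖1 - z + p‖ ≤ κ * ‖p‖ * (1 + 1 / 10) := by
      gcongr
      linarith
    have h2 : 0 ≤ κ * ‖p‖ * (μ * ‖p‖) := by positivity
    have h3 : 0 ≤ κ * ‖p‖ := by positivity
    nlinarith
  calc ‖z' - p‖ ≤ ‖z - p‖ * (‖1 - z - p‖ + μ / a * ‖p‖) := hi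
    _ ≤ (s * ‖z + p‖) * ((1 - κ * ‖p‖) * (‖1 - z + p‖ - μ * ‖p‖)) := by
        refine mul_le_mul hzs hfin ?_ (by positivity)
        have : 0 ≤ μ / a * ‖p‖ := by positivity
        linarith [norm_nonneg (1 - z - p)]
    _ = s * (1 - κ * ‖p‖) * (‖z + p‖ * (‖1 - z + p‖ - μ * ‖p‖)) := by ring
    _ ≤ _ := by
        refine mul_le_mul_of_nonneg_left lo ?_
        positivity

/-- geometry of the second phase -/
lemma geo {z p : ℂ} {s η : ℝ} (hη : 0 < η) (hs : s ≤ 1 - η) (h : ‖z - p‖ ≤ s * ‖z + p‖) :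
    ‖p‖ ≤ ‖z + p‖ ∧ ‖z + p‖ ≤ 2 / η * ‖p‖ ∧ ‖z‖ ≤ 2 / η * ‖p‖ := by
  have h0 := norm_nonneg (z + p)
  have h1 : ‖z - p‖ ≤ (1 - η) * ‖z + p‖ := h.trans (mul_le_mul_of_nonneg_right hs h0)
  have h2 : 2 * ‖p‖ ≤ ‖z + p‖ + ‖z - p‖ := by
    have := norm_sub_le (z + p) (z - p)
    rw [show z + p - (z - p) = 2 * p by ring, norm_mul] at this
    simpa using this
  have h3 : ‖z + p‖ ≤ ‖z - p‖ + 2 * ‖p‖ := by
    have := norm_add_le (z - p) (2 * p)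
    rw [show z - p + 2 * p = z + p by ring, norm_mul] at this
    simpa using this
  have h4 : 2 * ‖z‖ ≤ ‖z + p‖ + ‖z - p‖ := by
    have := norm_add_le (z + p) (z - p)
    rw [show z + p + (z - p) = 2 * z by ring, norm_mul] at this
    simpa using this
  have h5 : ‖z + p‖ ≤ 2 / η * ‖p‖ := by
    rw [div_mul_eq_mul_div, le_div_iff₀ hη]
    linarith
  have h6 : 0 ≤ η * ‖z + p‖ := by positivity
  exact ⟨by linarith, h5, by linarith⟩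

/-- the second phase -/
lemma phase2 {g : ℂ → ℂ} {p : ℂ} {κ η a μ : ℝ} (hκ0 : 0 < κ) (hκ1 : κ ≤ 1) (hp0 : p ≠ 0)
    (hp : κ * ‖p‖ ≤ p.re) (hη0 : 0 < η) (hη1 : η ≤ 1) (hs : ‖p‖ * (10 * (2 / η + 1)) ≤ κ)
    (ha0 : 0 < a) (hμ0 : 0 ≤ μ) (hμ : μ * (1 + a) ≤ κ * a / 8)
    (hg : ∀ z, ‖z‖ ≤ 2 / η * ‖p‖ → ‖g z - (z - (z ^ 2 - p ^ 2))‖ ≤ μ * ‖p‖ ^ 2)
    (z : ℂ) (hz : ‖z - p‖ ≤ (1 - η) * ‖z + p‖) :
    ∃ n : ℕ, (∀ j ≤ n, ‖g^[j] z‖ ≤ 2 / η * ‖p‖) ∧ ‖g^[n] z - p‖ < a * ‖p‖ := by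
  have hp1 : 0 < ‖p‖ := norm_pos_iff.2 hp0
  have hK : 1 ≤ 2 / η := by rw [le_div_iff₀ hη0]; linarith
  have hκp0 : 0 < κ * ‖p‖ := by positivity
  have hκp1 : κ * ‖p‖ ≤ 1 := by
    have : ‖p‖ * 10 ≤ ‖p‖ * (10 * (2 / η + 1)) := by gcongr; linarith
    nlinarith
  set t : ℝ := 1 - κ * ‖p‖ with ht
  have ht0 : 0 ≤ t := by linarith
  have ht1 : t < 1 := by linarith
  have hη1' : 0 ≤ 1 - η := by linarith
  have hle : ∀ n : ℕ, t ^ n * (1 - η) ≤ 1 - η := fun n =>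
    mul_le_of_le_one_left hη1' (pow_le_one₀ ht0 ht1.le)
  have main : ∀ n : ℕ, (∀ j < n, a * ‖p‖ ≤ ‖g^[j] z - p‖) →
      ‖g^[n] z - p‖ ≤ t ^ n * (1 - η) * ‖g^[n] z + p‖ := by
    intro n
    induction n with
    | zero => intro _; simpa using hz
    | succ n ih =>
      intro hj
      have h1 := ih fun j hjn => hj j (by omega)
      obtain ⟨g1, g2, g3⟩ := geo hη0 (hle n) h1
      have h2 := step2 (z := g^[n] z) (z' := g (g^[n] z)) hκ0 hκ1 hp hK g3 hs ha0 hμ0 hμ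
        (by positivity) h1 (hj n (by omega)) g1 (hg _ g3)
      rw [Function.iterate_succ_apply']
      refine h2.trans_eq ?_
      rw [pow_succ]
      ring
  have hex : ∃ n : ℕ, ‖g^[n] z - p‖ < a * ‖p‖ := by
    by_contra hcon
    push Not at hcon
    obtain ⟨n, hn⟩ := exists_pow_lt_of_lt_one (show 0 < a / (2 / η) by positivity) ht1
    have h1 := main n fun j _ => hcon j
    obtain ⟨g1, g2, g3⟩ := geo hη0 (hle n) h1
    have h2 : t ^ n * (2 / η) < a := by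
      rwa [lt_div_iff₀ (by positivity)] at hn
    have h3 : ‖g^[n] z - p‖ ≤ t ^ n * 1 * (2 / η * ‖p‖) := by
      refine h1.trans ?_
      gcongr
      linarith
    have h4 : t ^ n * 1 * (2 / η * ‖p‖) < a * ‖p‖ := by
      calc t ^ n * 1 * (2 / η * ‖p‖) = t ^ n * (2 / η) * ‖p‖ := by ring
        _ < _ := by gcongr
    linarith [hcon n]
  classical
  refine ⟨Nat.find hex, fun j hj => ?_, Nat.find_spec hex⟩
  have h1 := main j fun i hi => not_lt.1 (Nat.find_min hex (lt_of_lt_of_le hi hj))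
  exact (geo hη0 (hle j) h1).2.2

/-- from the first to the second phase -/
lemma trans12 {z p : ℂ} {κ e K : ℝ} (hκ0 : 0 < κ) (hκ1 : κ ≤ 1) (hp : κ * ‖p‖ ≤ p.re)
    (he : e ≤ κ / 2) (hK : 4 ≤ K) (hz1 : ‖z‖ ≤ K * ‖p‖) (hz2 : K * ‖p‖ ≤ 2 * ‖z‖) (hz0 : z ≠ 0)
    (h1 : 0 < (z⁻¹).re) (h2 : |(z⁻¹).im| ≤ e * (z⁻¹).re) :
    ‖z - p‖ ≤ (1 - κ / (8 * K)) * ‖z + p‖ := by
  have hp1 := norm_nonneg p
  have hzn := norm_nonneg z
  have hns : 0 < Complex.normSq z := Complex.normSq_pos.2 hz0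
  rw [Complex.inv_re] at h1 h2
  rw [Complex.inv_im, abs_div, abs_neg, abs_of_pos hns, mul_div_assoc', div_le_div_iff_of_pos_right hns] at h2
  have h3 : 0 < z.re := by
    by_contra hcon
    rw [not_lt] at hcon
    exact absurd h1 (not_lt.2 (div_nonpos_of_nonpos_of_nonneg hcon hns.le))
  have hpim : |p.im| ≤ ‖p‖ := Complex.abs_im_le_norm p
  have hX : z.re * (κ / 2 * ‖p‖) ≤ z.re * p.re + z.im * p.im := by
    have a1 : -(|z.im| * |p.im|) ≤ z.im * p.im := by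
      rw [← abs_mul]
      exact neg_abs_le _
    have a2 : |z.im| * |p.im| ≤ (e * z.re) * ‖p‖ :=
      mul_le_mul h2 hpim (abs_nonneg _) ((abs_nonneg _).trans h2)
    have a3 : (e * z.re) * ‖p‖ ≤ (κ / 2 * z.re) * ‖p‖ := by gcongr
    have a4 : z.re * (κ * ‖p‖) ≤ z.re * p.re := by gcongr
    nlinarith
  have hre : ‖z‖ ≤ 2 * z.re := by
    have a1 := Complex.norm_le_abs_re_add_abs_im z
    rw [abs_of_pos h3] at a1
    have a2 : e * z.re ≤ 1 * z.re := by gcongr; linarith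
    linarith
  have hX2 : κ / 4 * (‖z‖ * ‖p‖) ≤ z.re * p.re + z.im * p.im := by
    refine le_trans ?_ hX
    have : ‖z‖ * ‖p‖ ≤ 2 * z.re * ‖p‖ := by gcongr
    nlinarith
  have n1 : ‖z - p‖ ^ 2 = ‖z + p‖ ^ 2 - 4 * (z.re * p.re + z.im * p.im) := by
    rw [Complex.sq_norm, Complex.sq_norm, Complex.normSq_apply, Complex.normSq_apply]
    simp
    ring
  have hK0 : 0 < K := by linarith
  have n2 : ‖z + p‖ ^ 2 ≤ 4 * K * (‖z‖ * ‖p‖) := by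
    have a1 : ‖z + p‖ ≤ 3 / 2 * ‖z‖ := by
      refine (norm_add_le _ _).trans ?_
      nlinarith
    have a2 : ‖z + p‖ ^ 2 ≤ (3 / 2 * ‖z‖) ^ 2 := by gcongr
    have a3 : ‖z‖ * ‖z‖ ≤ ‖z‖ * (K * ‖p‖) := by gcongr
    nlinarith [mul_nonneg hzn hp1]
  have n3 : κ / (4 * K) * ‖z + p‖ ^ 2 ≤ κ * (‖z‖ * ‖p‖) := by
    calc κ / (4 * K) * ‖z + p‖ ^ 2 ≤ κ / (4 * K) * (4 * K * (‖z‖ * ‖p‖)) := by gcongr
      _ = _ := by field_simp
  have hη : κ / (8 * K) ≤ 1 := by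
    rw [div_le_one (by positivity)]
    linarith
  refine abs_le_of_sq_le_sq' ?_ (mul_nonneg (by linarith) (norm_nonneg _)) |>.2
  have e1 : κ / (4 * K) = 2 * (κ / (8 * K)) := by field_simp; ring
  rw [e1] at n3
  have n4 : 0 ≤ (κ / (8 * K)) ^ 2 * ‖z + p‖ ^ 2 := by positivity
  calc ‖z - p‖ ^ 2 ≤ ‖z + p‖ ^ 2 - 2 * (κ / (8 * K)) * ‖z + p‖ ^ 2 := by linarith
    _ ≤ ((1 - κ / (8 * K)) * ‖z + p‖) ^ 2 := by nlinarith

/-- one step of the first phase, in the coordinate `z⁻¹` -/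
lemma step1 {z z' p : ℂ} {K ε : ℝ} (hK : 2 ≤ K) (hε0 : 0 ≤ ε) (hε : ε ≤ 1 / 4) (hz0 : z ≠ 0)
    (hpz : K * ‖p‖ ≤ ‖z‖) (hz : ‖z‖ ≤ 1 / 4)
    (hg : ‖z' - (z - (z ^ 2 - p ^ 2))‖ ≤ ε * (‖z‖ ^ 2 + ‖p‖ ^ 2)) :
    z' ≠ 0 ∧ ‖z'⁻¹ - z⁻¹ - 1‖ ≤ 1 / K ^ 2 + 2 * ε + 8 * ‖z‖ := by
  have hzp : 0 < ‖z‖ := norm_pos_iff.2 hz0
  have hK0 : 0 < K := by linarith
  set q : ℂ := p ^ 2 + (z' - (z - (z ^ 2 - p ^ 2))) with hq
  have hp2 : ‖p‖ ^ 2 ≤ 1 / K ^ 2 * ‖z‖ ^ 2 := by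
    rw [div_mul_eq_mul_div, one_mul, le_div_iff₀ (by positivity)]
    calc ‖p‖ ^ 2 * K ^ 2 = (K * ‖p‖) ^ 2 := by ring
      _ ≤ ‖z‖ ^ 2 := by gcongr
  have hK4 : 1 / K ^ 2 ≤ 1 / 4 := by
    rw [div_le_div_iff₀ (by positivity) (by norm_num)]
    nlinarith
  have hqn : ‖q‖ ≤ (1 / K ^ 2 + 2 * ε) * ‖z‖ ^ 2 := by
    rw [hq]
    refine (norm_add_le _ _).trans ?_
    rw [norm_pow]
    have h1 : ‖p‖ ^ 2 ≤ 1 / 4 * ‖z‖ ^ 2 := hp2.trans (by gcongr)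
    have h2 : ε * (‖z‖ ^ 2 + ‖p‖ ^ 2) ≤ ε * (‖z‖ ^ 2 + 1 / 4 * ‖z‖ ^ 2) := by gcongr
    nlinarith [mul_nonneg hε0 (sq_nonneg ‖z‖)]
  set h : ℂ := z - q / z with hh
  have hqz : ‖q / z‖ ≤ (1 / K ^ 2 + 2 * ε) * ‖z‖ := by
    rw [norm_div, div_le_iff₀ hzp]
    calc ‖q‖ ≤ _ := hqn
      _ = _ := by ring
  have hhn : ‖h‖ ≤ 2 * ‖z‖ := by
    rw [hh]
    refine (norm_sub_le _ _).trans ?_
    nlinarith
  have hh1 : ‖h‖ ≤ 1 / 2 := by linarith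
  have h1n : 1 / 2 ≤ ‖1 - h‖ := by
    have := norm_sub_norm_le (1 : ℂ) h
    rw [norm_one] at this
    linarith
  have h1h : (1 : ℂ) - h ≠ 0 := by
    intro h0
    rw [h0, norm_zero] at h1n
    linarith
  have ez : z' = z * (1 - h) := by
    rw [hh]
    field_simp
    rw [hq]
    ring
  refine ⟨by rw [ez]; exact mul_ne_zero hz0 h1h, ?_⟩
  have e1 : z'⁻¹ - z⁻¹ - 1 = -(q / z ^ 2) + z⁻¹ * h ^ 2 / (1 - h) := by
    have e2 : z⁻¹ * h - 1 = -(q / z ^ 2) := by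
      rw [hh]
      field_simp
      ring
    rw [← e2, ez]
    field_simp
    ring
  rw [e1]
  refine (norm_add_le _ _).trans (add_le_add ?_ ?_)
  · rw [norm_neg, norm_div, norm_pow, div_le_iff₀ (by positivity)]
    exact hqn
  · rw [norm_div, norm_mul, norm_inv, norm_pow, div_le_iff₀ (by linarith)]
    have h2 : ‖h‖ ^ 2 ≤ (2 * ‖z‖) ^ 2 := by gcongr
    calc ‖z‖⁻¹ * ‖h‖ ^ 2 ≤ ‖z‖⁻¹ * (2 * ‖z‖) ^ 2 := by gcongr
      _ = 8 * ‖z‖ * (1 / 2) := by field_simp; ring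
      _ ≤ _ := by gcongr

/-- the first phase -/
lemma phase1 {g : ℂ → ℂ} {p : ℂ} {K e r0 : ℝ} (he1 : e ≤ 1) (he0 : 0 < e) (hK : 2 ≤ K) (hp0 : p ≠ 0)
    (hpK : 2 * (K * ‖p‖) ≤ 1) (hg : ∀ z, K * ‖p‖ ≤ ‖z‖ → ‖z‖ ≤ r0 →
      g z ≠ 0 ∧ ‖(g z)⁻¹ - z⁻¹ - 1‖ ≤ e / 2)
    (z : ℂ) (hz1 : K * ‖p‖ ≤ ‖z‖) (hz2 : 2 * ‖z‖ ≤ r0) (h1 : 0 < (z⁻¹).re)
    (h2 : |(z⁻¹).im| ≤ e * (z⁻¹).re) :
    ∃ n : ℕ, (∀ j ≤ n, ‖g^[j] z‖ ≤ r0) ∧ ‖g^[n] z‖ ≤ K * ‖p‖ ∧ K * ‖p‖ ≤ 2 * ‖g^[n] z‖ ∧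
      g^[n] z ≠ 0 ∧ 0 < ((g^[n] z)⁻¹).re ∧ |((g^[n] z)⁻¹).im| ≤ e * ((g^[n] z)⁻¹).re := by
  have hKp : 0 < K * ‖p‖ := by
    have := norm_pos_iff.2 hp0
    positivity
  have hz0 : 0 < ‖z‖ := lt_of_lt_of_le hKp hz1
  have hW0 : 1 / (2 * ‖z‖) ≤ (z⁻¹).re := by
    have a1 := Complex.norm_le_abs_re_add_abs_im z⁻¹
    rw [abs_of_pos h1, norm_inv] at a1
    have a2 : e * (z⁻¹).re ≤ 1 * (z⁻¹).re := by gcongr
    rw [one_div, mul_inv]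
    linarith
  have main : ∀ n : ℕ, (∀ j < n, K * ‖p‖ ≤ ‖g^[j] z‖) → ‖g^[n] z‖ ≤ r0 ∧ K * ‖p‖ ≤ 2 * ‖g^[n] z‖ ∧
      g^[n] z ≠ 0 ∧ (z⁻¹).re + n / 2 ≤ ((g^[n] z)⁻¹).re ∧
        |((g^[n] z)⁻¹).im| ≤ e * ((g^[n] z)⁻¹).re := by
    intro n
    induction n with
    | zero =>
      intro _
      simp only [Function.iterate_zero, id_eq, Nat.cast_zero, zero_div, add_zero]
      exact ⟨by linarith, by linarith, norm_pos_iff.1 hz0, le_rfl, h2⟩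
    | succ n ih =>
      intro hj
      obtain ⟨i1, i2, i3, i4, i5⟩ := ih fun j hjn => hj j (by omega)
      obtain ⟨g1, g2⟩ := hg _ (hj n (by omega)) i1
      rw [Function.iterate_succ_apply']
      set w := g^[n] z with hw
      set V := (g w)⁻¹ with hV
      have b1 : |(V - w⁻¹ - 1).re| ≤ e / 2 := (Complex.abs_re_le_norm _).trans g2
      have b2 : |(V - w⁻¹ - 1).im| ≤ e / 2 := (Complex.abs_im_le_norm _).trans g2
      simp only [Complex.sub_re, Complex.one_re, Complex.sub_im, Complex.one_im, sub_zero] at b1 b2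
      have c1 : (w⁻¹).re + 1 / 2 ≤ V.re := by
        have := (abs_le.1 b1).1
        linarith
      have c2 : |V.im| ≤ e * V.re := by
        have d1 : |V.im| ≤ |(w⁻¹).im| + e / 2 := by
          have := abs_sub_abs_le_abs_sub V.im (w⁻¹).im
          linarith
        have d2 : e * ((w⁻¹).re + 1 / 2) ≤ e * V.re := by gcongr
        linarith
      have c3 : (z⁻¹).re + ((n + 1 : ℕ) : ℝ) / 2 ≤ V.re := by
        push_cast
        linarith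
      have hn0 : (0 : ℝ) ≤ ((n + 1 : ℕ) : ℝ) / 2 := by positivity
      have hVn : 1 / (2 * ‖z‖) ≤ ‖V‖ := by
        have := Complex.re_le_norm V
        linarith
      have hgw : ‖g w‖ = ‖V‖⁻¹ := by rw [hV, norm_inv, inv_inv]
      have hV0 : 0 < ‖V‖ := lt_of_lt_of_le (by positivity) hVn
      refine ⟨?_, ?_, g1, c3, c2⟩
      · rw [hgw]
        refine le_trans (inv_anti₀ (by positivity) hVn) ?_
        rw [one_div, inv_inv]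
        exact hz2
      · have d1 : ‖V‖ ≤ ‖w⁻¹‖ + 1 + e / 2 := by
          have e1 : V = w⁻¹ + 1 + (V - w⁻¹ - 1) := by ring
          rw [e1]
          refine (norm_add_le _ _).trans (add_le_add ((norm_add_le _ _).trans ?_) g2)
          rw [norm_one]
        have d2 : ‖w⁻¹‖ ≤ (K * ‖p‖)⁻¹ := by
          rw [norm_inv]
          exact inv_anti₀ hKp (hj n (by omega))
        have d3 : 2 ≤ (K * ‖p‖)⁻¹ := by
          rw [le_inv_comm₀ (by norm_num) hKp]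
          linarith
        have d4 : ‖V‖ ≤ 2 * (K * ‖p‖)⁻¹ := by linarith
        rw [hgw, ← div_eq_mul_inv, le_div_iff₀ hV0]
        calc K * ‖p‖ * ‖V‖ ≤ K * ‖p‖ * (2 * (K * ‖p‖)⁻¹) := by gcongr
          _ = 2 := by field_simp
  have hex : ∃ n : ℕ, ‖g^[n] z‖ ≤ K * ‖p‖ := by
    by_contra hcon
    push Not at hcon
    obtain ⟨n, hn⟩ := exists_nat_gt (2 * (K * ‖p‖)⁻¹)
    obtain ⟨-, -, -, i4, -⟩ := main n fun j _ => (hcon j).le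
    have h3 := Complex.re_le_norm (g^[n] z)⁻¹
    rw [norm_inv] at h3
    have h4 : ‖g^[n] z‖⁻¹ ≤ (K * ‖p‖)⁻¹ := inv_anti₀ hKp (hcon n).le
    linarith
  classical
  have hm := fun j (hj : j ≤ Nat.find hex) =>
    main j fun i hi => (not_le.1 (Nat.find_min hex (lt_of_lt_of_le hi hj))).le
  obtain ⟨-, i2, i3, i4, i5⟩ := hm (Nat.find hex) le_rfl
  refine ⟨Nat.find hex, fun j hj => (hm j hj).1, Nat.find_spec hex, i2, i3, ?_, i5⟩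
  have : (0 : ℝ) ≤ ((Nat.find hex : ℕ) : ℝ) / 2 := by positivity
  linarith

end PL

/-- the normalised map -/
noncomputable def PL.gn (C : ℂ) (G : ℂ → ℂ) (z : ℂ) : ℂ := -(C * G (-(z / C)))

namespace PL

lemma gn_semi {C : ℂ} (hC : C ≠ 0) (G : ℂ → ℂ) (n : ℕ) (y : ℂ) :
    (gn C G)^[n] (-(C * y)) = -(C * G^[n] y) := by
  have h : Function.Semiconj (fun y => -(C * y)) G (gn C G) := by
    intro y
    unfold gn
    simp only
    congr 3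
    field_simp
  exact (h.iterate_right n y).symm

lemma gn_err {C : ℂ} (hC : C ≠ 0) {G : ℂ → ℂ} {d : ℂ} {r ε : ℝ}
    (h : ∀ y : ℂ, ‖y‖ ≤ r → ‖G y - y - C * (y ^ 2 + d ^ 2)‖ ≤ ε * (‖y‖ ^ 2 + ‖d‖ ^ 2)) (z : ℂ)
    (hz : ‖z‖ ≤ ‖C‖ * r) :
    ‖gn C G z - (z - (z ^ 2 - (-(C * d * Complex.I)) ^ 2))‖ ≤
      ε / ‖C‖ * (‖z‖ ^ 2 + ‖-(C * d * Complex.I)‖ ^ 2) := by
  have hC0 : 0 < ‖C‖ := norm_pos_iff.2 hC
  have h1 := h (-(z / C)) (by rw [norm_neg, norm_div, div_le_iff₀ hC0, mul_comm]; exact hz)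
  have e1 : gn C G z - (z - (z ^ 2 - (-(C * d * Complex.I)) ^ 2)) =
      -(C * (G (-(z / C)) - -(z / C) - C * ((-(z / C)) ^ 2 + d ^ 2))) := by
    unfold gn
    have hI : Complex.I ^ 2 = -1 := Complex.I_sq
    field_simp
    rw [hI]
    ring
  rw [e1, norm_neg, norm_mul]
  have e2 : ‖-(C * d * Complex.I)‖ = ‖C‖ * ‖d‖ := by
    rw [norm_neg, norm_mul, norm_mul, Complex.norm_I, mul_one]
  rw [norm_neg, norm_div] at h1
  rw [e2]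
  calc _ ≤ ‖C‖ * (ε * ((‖z‖ / ‖C‖) ^ 2 + ‖d‖ ^ 2)) := by gcongr
    _ = _ := by field_simp

lemma nC (C d y : ℂ) : ‖-(C * y) - -(C * d * Complex.I)‖ = ‖C‖ * ‖y - d * Complex.I‖ := by
  rw [← norm_mul, ← norm_neg]
  congr 1
  ring

lemma norm_p (C d : ℂ) : ‖-(C * d * Complex.I)‖ = ‖C‖ * ‖d‖ := by
  rw [norm_neg, norm_mul, norm_mul, Complex.norm_I, mul_one]

end PL

/-- PACKAGE L1 -/
theorem trap : S_trap := by
  intro C δ G hN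
  obtain ⟨κ0, hκ0, hdir⟩ := hN.hdir
  have hC := hN.hC
  have hC0 : 0 < ‖C‖ := norm_pos_iff.2 hC
  obtain ⟨κ, hκ⟩ : ∃ κ : ℝ, κ = min κ0 1 := ⟨_, rfl⟩
  have hκp : 0 < κ := by rw [hκ]; exact lt_min hκ0 one_pos
  have hκ1 : κ ≤ 1 := by rw [hκ]; exact min_le_right _ _
  have hκκ : κ ≤ κ0 := by rw [hκ]; exact min_le_left _ _
  refine ⟨κ / 2, by positivity, fun a ha ha1 => ?_⟩
  obtain ⟨r, hr, hG⟩ := hN.hG (‖C‖ * (κ * a / 200)) (by positivity)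
  have hsm : 0 < min (r / 2) (κ / 2 / ‖C‖) := by positivity
  have hδ0 := hN.hδ0.norm
  rw [norm_zero] at hδ0
  filter_upwards [hdir, hG, hN.hδ, hδ0.eventually (gt_mem_nhds hsm)] with t h1 h2 h3 h4
  have h5 : ‖δ t‖ ≤ r / 2 := h4.le.trans (min_le_left _ _)
  have h6 : ‖C‖ * ‖δ t‖ ≤ κ / 2 := by
    have := h4.le.trans (min_le_right _ _)
    rw [le_div_iff₀ hC0] at this
    linarith
  have hd0 : 0 < ‖δ t‖ := norm_pos_iff.2 h3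
  set p : ℂ := -(C * δ t * Complex.I) with hp
  have hpn : ‖p‖ = ‖C‖ * ‖δ t‖ := PL.norm_p C (δ t)
  have hp0 : p ≠ 0 := by
    rw [← norm_pos_iff, hpn]
    positivity
  have hpre : κ * ‖p‖ ≤ p.re := by
    rw [hpn, hp, Complex.neg_re]
    rw [norm_mul] at h1
    have : κ * (‖C‖ * ‖δ t‖) ≤ κ0 * (‖C‖ * ‖δ t‖) := by gcongr
    linarith
  have ha2 : a ≤ 1 := by linarith
  obtain ⟨g1, m, g2⟩ := PL.trap (g := PL.gn C (G t)) (p := p) (κ := κ) (a := a) (μ := κ * a / 40) hκp hκ1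
    hp0 hpre (by rw [hpn]; exact h6) ha ha1.le le_rfl fun z hz => by
      have hz1 : ‖z‖ ≤ 2 * ‖p‖ := by
        have a1 := norm_add_le (z - p) p
        rw [sub_add_cancel] at a1
        nlinarith [norm_nonneg p]
      refine (PL.gn_err hC h2 z (by rw [hpn] at hz1; nlinarith)).trans ?_
      rw [← hp]
      have e1 : ‖C‖ * (κ * a / 200) / ‖C‖ = κ * a / 200 := by field_simp
      rw [e1]
      have h7 : ‖z‖ ^ 2 ≤ (2 * ‖p‖) ^ 2 := by gcongr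
      have h8 : 0 ≤ κ * a / 200 := by positivity
      nlinarith
  constructor
  · intro y hy
    have h7 := g1 (-(C * y)) (by rw [hp, PL.nC, PL.norm_p]; nlinarith)
    have h8 := PL.gn_semi hC (G t) 1 y
    simp only [Function.iterate_one] at h8
    rw [h8, hp, PL.nC, PL.norm_p] at h7
    have h9 : ‖C‖ * ‖G t y - δ t * Complex.I‖ < ‖C‖ * (a * ‖δ t‖) := by linarith
    exact lt_of_mul_lt_mul_left h9 hC0.le
  · refine ⟨m, fun y hy => ?_⟩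
    have h7 := g2 (-(C * y)) (by rw [hp, PL.nC, PL.norm_p]; nlinarith)
    rw [PL.gn_semi hC, hp, PL.nC, PL.norm_p] at h7
    have h9 : ‖C‖ * ‖(G t)^[m] y - δ t * Complex.I‖ < ‖C‖ * (a / 8 * ‖δ t‖) := by linarith
    exact lt_of_mul_lt_mul_left h9 hC0.le

/-- PACKAGE L2 -/
theorem capture : S_capture := by
  intro C δ G hN r hr
  obtain ⟨κ0, hκ0, hdir⟩ := hN.hdir
  have hC := hN.hC
  have hC0 : 0 < ‖C‖ := norm_pos_iff.2 hC
  obtain ⟨κ, hκ⟩ : ∃ κ : ℝ, κ = min κ0 1 := ⟨_, rfl⟩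
  have hκp : 0 < κ := by rw [hκ]; exact lt_min hκ0 one_pos
  have hκ1 : κ ≤ 1 := by rw [hκ]; exact min_le_right _ _
  have hκκ : κ ≤ κ0 := by rw [hκ]; exact min_le_left _ _
  -- the constants
  obtain ⟨e, he⟩ : ∃ e : ℝ, e = κ / 2 := ⟨_, rfl⟩
  have he0 : 0 < e := by rw [he]; positivity
  have he1 : e ≤ 1 / 2 := by linarith
  obtain ⟨K, hK⟩ : ∃ K : ℝ, K = 4 / e := ⟨_, rfl⟩
  have hKe : K * e = 4 := by rw [hK]; field_simp
  have hK4 : 8 ≤ K := by rw [hK, le_div_iff₀ he0]; linarith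
  have hK0 : 0 < K := by linarith
  obtain ⟨r', hr', hG1⟩ := hN.hG (‖C‖ * (e / 16)) (by positivity)
  obtain ⟨r0, hr0⟩ : ∃ r0 : ℝ, r0 = min (e / 64) (‖C‖ * min r r') := ⟨_, rfl⟩
  have hr00 : 0 < r0 := by rw [hr0]; positivity
  have hr01 : r0 ≤ e / 64 := by rw [hr0]; exact min_le_left _ _
  have hr02 : r0 ≤ ‖C‖ * r := by
    rw [hr0]
    refine (min_le_right _ _).trans ?_
    gcongr
    exact min_le_left _ _
  have hr03 : r0 ≤ ‖C‖ * r' := by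
    rw [hr0]
    refine (min_le_right _ _).trans ?_
    gcongr
    exact min_le_right _ _
  refine ⟨r0 / (2 * ‖C‖), by positivity, e, he0, fun a ha r2 hr2 => ?_⟩
  obtain ⟨η, hη⟩ : ∃ η : ℝ, η = κ / (8 * K) := ⟨_, rfl⟩
  have hη0 : 0 < η := by rw [hη]; positivity
  have hη1 : η ≤ 1 := by rw [hη, div_le_one (by positivity)]; linarith
  obtain ⟨μ, hμ⟩ : ∃ μ : ℝ, μ = κ * a / (8 * (1 + a)) := ⟨_, rfl⟩
  have hμ0 : 0 < μ := by rw [hμ]; positivity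
  obtain ⟨r'', hr'', hG2⟩ := hN.hG (‖C‖ * (μ / ((2 / η) ^ 2 + 1))) (by positivity)
  have hsm : 0 < min (min (1 / (2 * K)) (‖C‖ * r2 / K)) (min (κ / (10 * (2 / η + 1)))
      (min (‖C‖ * r / (2 / η)) (‖C‖ * r'' / (2 / η)))) / ‖C‖ := by positivity
  have hδ0 := hN.hδ0.norm
  rw [norm_zero] at hδ0
  filter_upwards [hdir, hG1, hG2, hN.hδ, hδ0.eventually (gt_mem_nhds hsm)] with t h1 h2 h2' h3 h4 y hy1 hy2
    hy3 hy4
  rw [lt_div_iff₀ hC0] at h4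
  set p : ℂ := -(C * δ t * Complex.I) with hp
  have hpn : ‖p‖ = ‖C‖ * ‖δ t‖ := PL.norm_p C (δ t)
  have hd0 : 0 < ‖δ t‖ := norm_pos_iff.2 h3
  have hp0 : p ≠ 0 := by
    rw [← norm_pos_iff, hpn]
    positivity
  have hpp : 0 < ‖p‖ := norm_pos_iff.2 hp0
  have hpre : κ * ‖p‖ ≤ p.re := by
    rw [hpn, hp, Complex.neg_re]
    rw [norm_mul] at h1
    have : κ * (‖C‖ * ‖δ t‖) ≤ κ0 * (‖C‖ * ‖δ t‖) := by gcongr
    linarith
  have h4' : ‖p‖ ≤ min (min (1 / (2 * K)) (‖C‖ * r2 / K)) (min (κ / (10 * (2 / η + 1)))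
      (min (‖C‖ * r / (2 / η)) (‖C‖ * r'' / (2 / η)))) := by
    rw [hpn, mul_comm]
    exact h4.le
  have s1 : ‖p‖ ≤ 1 / (2 * K) := h4'.trans ((min_le_left _ _).trans (min_le_left _ _))
  have s2 : ‖p‖ ≤ ‖C‖ * r2 / K := h4'.trans ((min_le_left _ _).trans (min_le_right _ _))
  have s3 : ‖p‖ ≤ κ / (10 * (2 / η + 1)) := h4'.trans ((min_le_right _ _).trans (min_le_left _ _))
  have s4 : ‖p‖ ≤ ‖C‖ * r / (2 / η) :=
    h4'.trans ((min_le_right _ _).trans ((min_le_right _ _).trans (min_le_left _ _)))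
  have s5 : ‖p‖ ≤ ‖C‖ * r'' / (2 / η) :=
    h4'.trans ((min_le_right _ _).trans ((min_le_right _ _).trans (min_le_right _ _)))
  rw [le_div_iff₀ (by positivity)] at s1 s2 s3 s4 s5
  have hy0 : y ≠ 0 := by
    rw [← norm_pos_iff]
    linarith
  set z : ℂ := -(C * y) with hz
  have hzn : ‖z‖ = ‖C‖ * ‖y‖ := by rw [hz, norm_neg, norm_mul]
  have hz1 : K * ‖p‖ ≤ ‖z‖ := by
    have : ‖C‖ * r2 ≤ ‖C‖ * ‖y‖ := by gcongr
    linarith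
  have hz2 : 2 * ‖z‖ ≤ r0 := by
    rw [le_div_iff₀ (by positivity)] at hy2
    linarith
  have hzi : z⁻¹ = -(C * y)⁻¹ := by rw [hz, inv_neg]
  rw [← hzi] at hy3 hy4
  -- the first phase
  obtain ⟨n1, p1, p2, p3, p4, p5, p6⟩ := PL.phase1 (g := PL.gn C (G t)) (p := p) (K := K) (e := e)
    (r0 := r0) (by linarith) he0 (by linarith) hp0 (by linarith) (fun w hw1 hw2 => by
      have hw0 : w ≠ 0 := by
        rw [← norm_pos_iff]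
        exact lt_of_lt_of_le (by positivity) hw1
      have h7 := PL.gn_err hC h2 w (by linarith)
      rw [← hp] at h7
      have e1 : ‖C‖ * (e / 16) / ‖C‖ = e / 16 := by field_simp
      rw [e1] at h7
      obtain ⟨q1, q2⟩ := PL.step1 (z := w) (z' := PL.gn C (G t) w) (p := p) (K := K) (ε := e / 16)
        (by linarith) (by linarith) (by linarith) hw0 hw1 (by linarith) h7
      refine ⟨q1, q2.trans ?_⟩
      have h8 : 1 / K ^ 2 ≤ e / 32 := by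
        rw [div_le_div_iff₀ (by positivity) (by norm_num)]
        nlinarith
      linarith) z hz1 hz2 hy3 hy4
  -- the second phase
  have htr := PL.trans12 (z := (PL.gn C (G t))^[n1] z) (p := p) (κ := κ) (e := e) (K := K) hκp hκ1 hpre
    he.le (by linarith) p2 p3 p4 p5 p6
  rw [← hη] at htr
  obtain ⟨n2, t1, t2⟩ := PL.phase2 (g := PL.gn C (G t)) (p := p) (κ := κ) (η := η) (a := a) (μ := μ) hκp
    hκ1 hp0 hpre hη0 hη1 s3 ha hμ0.le (by rw [hμ]; exact le_of_eq (by field_simp)) (fun w hw => by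
      have h7 := PL.gn_err hC h2' w (by linarith)
      rw [← hp] at h7
      refine h7.trans ?_
      have e1 : ‖C‖ * (μ / ((2 / η) ^ 2 + 1)) / ‖C‖ = μ / ((2 / η) ^ 2 + 1) := by field_simp
      rw [e1]
      have h8 : ‖w‖ ^ 2 ≤ (2 / η * ‖p‖) ^ 2 := by gcongr
      calc μ / ((2 / η) ^ 2 + 1) * (‖w‖ ^ 2 + ‖p‖ ^ 2) ≤
            μ / ((2 / η) ^ 2 + 1) * ((2 / η * ‖p‖) ^ 2 + ‖p‖ ^ 2) := by gcongr
        _ = μ * ‖p‖ ^ 2 := by field_simp) _ htr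
  refine ⟨n2 + n1, fun j hj => ?_, ?_⟩
  · have hkey : ‖(PL.gn C (G t))^[j] z‖ ≤ ‖C‖ * r := by
      rcases le_total j n1 with h | h
      · exact (p1 j h).trans hr02
      · obtain ⟨i, rfl⟩ := Nat.exists_eq_add_of_le h
        rw [add_comm n1 i, Function.iterate_add_apply]
        have := t1 i (by omega)
        linarith
    rw [hz, PL.gn_semi hC, norm_neg, norm_mul] at hkey
    exact le_of_mul_le_mul_left hkey hC0
  · rw [← Function.iterate_add_apply, hz, PL.gn_semi hC, hp, PL.nC, PL.norm_p] at t2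
    have h9 : ‖C‖ * ‖(G t)^[n2 + n1] y - δ t * Complex.I‖ < ‖C‖ * (a * ‖δ t‖) := by linarith
    exact lt_of_mul_lt_mul_left h9 hC0.le

end Pool.Agent.Helper65.EP
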