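import Pool.Agent.Helper65.EP.Stm

/-! PACKAGE E: the attracted orbits of a parabolic point are eventually in the sector. -/

set_option autoImplicit false

open Topology Filter Metric Set

namespace Pool.Agent.Helper65.EP

theorem enter : S_enter := by
  intro C y hC hy hy0 hlim e he
  set W : ℕ → ℂ := fun n => -(C * y n)⁻¹ with hW
  -- the quotient of consecutive terms
  have hq : Tendsto (fun n => y (n + 1) / y n) atTop (𝓝 1) := by
    have h1 := (hy.mul hlim).const_add 1
    rw [zero_mul, add_zero] at h1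
    refine h1.congr fun n => ?_
    have := hy0 n
    field_simp
    ring
  have hd : Tendsto (fun n => W (n + 1) - W n) atTop (𝓝 1) := by
    have h1 := ((hlim.mul (hq.inv₀ one_ne_zero)).const_mul C⁻¹)
    rw [inv_one, mul_one, inv_mul_cancel₀ hC] at h1
    refine h1.congr fun n => ?_
    have := hy0 n
    have := hy0 (n + 1)
    simp only [hW]
    field_simp
    ring
  have hces := hd.cesaro_smul
  have hsum : ∀ n : ℕ, ∑ i ∈ Finset.range n, (W (i + 1) - W i) = W n - W 0 := fun n =>
    Finset.sum_range_sub W n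
  simp only [hsum] at hces
  have h0 : Tendsto (fun n : ℕ => ((n : ℝ)⁻¹) • W 0) atTop (𝓝 0) := by
    have h1 : Tendsto (fun n : ℕ => ((n : ℝ)⁻¹)) atTop (𝓝 0) := tendsto_inv_atTop_nhds_zero_nat
    simpa using h1.smul_const (W 0)
  have hW1 : Tendsto (fun n : ℕ => ((n : ℝ)⁻¹) • W n) atTop (𝓝 1) := by
    have h1 := hces.add h0
    rw [add_zero] at h1
    refine h1.congr fun n => ?_
    rw [← smul_add, sub_add_cancel]
  have hre : Tendsto (fun n : ℕ => (((n : ℝ)⁻¹) • W n).re) atTop (𝓝 1) := by
    have := (Complex.continuous_re.tendsto 1).comp hW1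
    rw [Complex.one_re] at this
    exact this
  have him : Tendsto (fun n : ℕ => |(((n : ℝ)⁻¹) • W n).im|) atTop (𝓝 0) := by
    have := ((Complex.continuous_im.tendsto 1).comp hW1).abs
    rw [Complex.one_im, abs_zero] at this
    exact this
  have he2 : 0 < e / 2 := by linarith
  filter_upwards [hre.eventually (lt_mem_nhds (show (1 / 2 : ℝ) < 1 by norm_num)),
    him.eventually (gt_mem_nhds he2), eventually_gt_atTop 0] with n h1 h2 h3
  have hn : (0 : ℝ) < n := by exact_mod_cast h3
  have hni : 0 < (n : ℝ)⁻¹ := inv_pos.2 hn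
  rw [Complex.smul_re, smul_eq_mul] at h1
  rw [Complex.smul_im, smul_eq_mul, abs_mul, abs_of_pos hni] at h2
  have h4 : 0 < (W n).re := by
    by_contra hcon
    rw [not_lt] at hcon
    nlinarith
  refine ⟨h4, ?_⟩
  have h5 : (n : ℝ)⁻¹ * |(W n).im| ≤ (n : ℝ)⁻¹ * (e * (W n).re) := by
    have : e / 2 ≤ e * ((n : ℝ)⁻¹ * (W n).re) := by nlinarith
    nlinarith
  exact le_of_mul_le_mul_left h5 hni

end Pool.Agent.Helper65.EP
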