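import Mathlib
import Pool.Agent.Helper65.EP.Stm

/-! Package R: for almost every direction `v` the fixed points of the `N`-th iterate of the maps
`x0 + τ v`, `τ` small and not zero, are simple. -/

set_option autoImplicit false

open Topology Filter Metric Set MeasureTheory Polynomial
open scoped ENNReal

namespace Pool.Agent.Helper65.EP

open Pool.Agent.H790R3.RB

namespace Simple

section poly

variable {A B : Type} [CommRing A] [CommRing B] {d : ℕ}

/-- the homogeneous map on pairs of polynomials -/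
noncomputable def HP (x : Fin 2 × Fin (d + 1) → A) (p : A[X] × A[X]) : A[X] × A[X] :=
  (∑ j : Fin (d + 1), C (x (0, j)) * (p.1 ^ (j : ℕ) * p.2 ^ (d - (j : ℕ))),
   ∑ j : Fin (d + 1), C (x (1, j)) * (p.1 ^ (j : ℕ) * p.2 ^ (d - (j : ℕ))))

noncomputable def PP (N : ℕ) (x : Fin 2 × Fin (d + 1) → A) : A[X] × A[X] := (HP x)^[N] (X, 1)

noncomputable def FP (N : ℕ) (x : Fin 2 × Fin (d + 1) → A) : A[X] := (PP N x).1 - X * (PP N x).2

noncomputable def Rs (N : ℕ) (x : Fin 2 × Fin (d + 1) → A) : A :=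
  resultant (FP N x) (derivative (FP N x)) (d ^ N + 1) (d ^ N)

theorem HP_map (φ : A →+* B) (x : Fin 2 × Fin (d + 1) → A) (p : A[X] × A[X]) :
    ((HP x p).1.map φ, (HP x p).2.map φ) =
      HP (fun i => φ (x i)) (p.1.map φ, p.2.map φ) := by
  unfold HP
  simp [Polynomial.map_sum]

theorem PP_map (φ : A →+* B) (N : ℕ) (x : Fin 2 × Fin (d + 1) → A) :
    ((PP N x).1.map φ, (PP N x).2.map φ) = PP N (fun i => φ (x i)) := by
  induction N with
  | zero => simp [PP]
  | succ N ih =>
    unfold PP at *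
    rw [Function.iterate_succ_apply', Function.iterate_succ_apply', HP_map, ih]

theorem FP_map (φ : A →+* B) (N : ℕ) (x : Fin 2 × Fin (d + 1) → A) :
    (FP N x).map φ = FP N (fun i => φ (x i)) := by
  unfold FP
  rw [← PP_map φ N x]
  simp

theorem Rs_map (φ : A →+* B) (N : ℕ) (x : Fin 2 × Fin (d + 1) → A) :
    φ (Rs N x) = Rs N (fun i => φ (x i)) := by
  unfold Rs
  rw [← resultant_map_map, ← FP_map φ N x, derivative_map]

theorem HP_deg (x : Fin 2 × Fin (d + 1) → A) (p : A[X] × A[X]) (D : ℕ)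
    (h1 : p.1.natDegree ≤ D) (h2 : p.2.natDegree ≤ D) :
    (HP x p).1.natDegree ≤ d * D ∧ (HP x p).2.natDegree ≤ d * D := by
  have h : ∀ (i : Fin 2), (∑ j : Fin (d + 1), C (x (i, j)) *
      (p.1 ^ (j : ℕ) * p.2 ^ (d - (j : ℕ)))).natDegree ≤ d * D := by
    intro i
    apply natDegree_sum_le_of_forall_le
    intro j _
    refine (natDegree_C_mul_le _ _).trans ?_
    refine (natDegree_mul_le_of_le (natDegree_pow_le_of_le _ h1)
      (natDegree_pow_le_of_le _ h2)).trans ?_
    rw [← add_mul]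
    have := j.2
    exact Nat.mul_le_mul_right _ (by omega)
  exact ⟨h 0, h 1⟩

theorem PP_deg (N : ℕ) (x : Fin 2 × Fin (d + 1) → A) :
    (PP N x).1.natDegree ≤ d ^ N ∧ (PP N x).2.natDegree ≤ d ^ N := by
  induction N with
  | zero =>
    unfold PP
    exact ⟨by simpa using natDegree_X_le, by simp⟩
  | succ N ih =>
    unfold PP at *
    rw [Function.iterate_succ_apply', pow_succ, mul_comm]
    exact HP_deg x _ _ ih.1 ih.2

theorem FP_deg (N : ℕ) (x : Fin 2 × Fin (d + 1) → A) : (FP N x).natDegree ≤ d ^ N + 1 := by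
  unfold FP
  refine (natDegree_sub_le _ _).trans (max_le ((PP_deg N x).1.trans (Nat.le_succ _)) ?_)
  refine (natDegree_mul_le_of_le natDegree_X_le (PP_deg N x).2).trans ?_
  omega

end poly

variable {d : ℕ}

theorem HP_eval (x : CV d) (p : ℂ[X] × ℂ[X]) (z : ℂ) :
    ((HP x p).1.eval z, (HP x p).2.eval z) = hF x (p.1.eval z, p.2.eval z) := by
  unfold HP hF
  simp [eval_finsetSum]

theorem PP_eval (N : ℕ) (x : CV d) (z : ℂ) :
    ((PP N x).1.eval z, (PP N x).2.eval z) = (hF x)^[N] (z, 1) := by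
  induction N with
  | zero => simp [PP]
  | succ N ih =>
    unfold PP at *
    rw [Function.iterate_succ_apply', Function.iterate_succ_apply', HP_eval, ih]

theorem FP_eval (N : ℕ) (x : CV d) (z : ℂ) : (FP N x).eval z = Fx N x z := by
  unfold FP Fx
  rw [← PP_eval]
  simp

theorem simple_of_Rs (N : ℕ) (x : CV d) (h : Rs N x ≠ 0) (z : ℂ) (hz : Fx N x z = 0) :
    deriv (Fx N x) z ≠ 0 := by
  intro hd
  have e : Fx N x = fun z => (FP N x).eval z := by
    funext z
    rw [FP_eval]
  rw [e, Polynomial.deriv] at hd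
  rw [← FP_eval] at hz
  apply h
  obtain ⟨p, q, -, -, hpq⟩ := exists_mul_add_mul_eq_C_resultant (m := d ^ N + 1) (n := d ^ N)
    (FP N x) (derivative (FP N x)) (FP_deg N x)
    ((natDegree_derivative_le _).trans (by have := FP_deg N x; omega)) (Or.inl (by omega))
  have h2 := congrArg (Polynomial.eval z) hpq
  rw [eval_add, eval_mul, eval_mul, hz, hd, eval_C, zero_mul, zero_mul, add_zero] at h2
  exact h2.symm

/-- the conjugate of `z ^ d` by `z ↦ (2 z + 1) / z` -/
noncomputable def xs (d : ℕ) : CV d := fun i =>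
  if i.1 = 0 then (if i.2 = Fin.last d then 1 else 0)
  else (d.choose (i.2 : ℕ) : ℂ) * 2 ^ (i.2 : ℕ) - (if i.2 = Fin.last d then 2 else 0)

theorem hF_xs (u v : ℂ) : hF (xs d) (u, v) = (u ^ d, (2 * u + v) ^ d - 2 * u ^ d) := by
  unfold hF xs
  refine Prod.ext ?_ ?_
  · simp only [if_true]
    rw [Finset.sum_eq_single_of_mem (Fin.last d) (Finset.mem_univ _)]
    · simp
    · intro j _ hj
      simp [hj]
  · simp only [one_ne_zero, if_false, sub_mul]
    rw [Finset.sum_sub_distrib]
    congr 1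
    · rw [add_pow, Finset.sum_range]
      refine Finset.sum_congr rfl fun j _ => ?_
      rw [mul_pow]
      ring
    · rw [Finset.sum_eq_single_of_mem (Fin.last d) (Finset.mem_univ _)]
      · simp
      · intro j _ hj
        simp [hj]

theorem iter_xs (N : ℕ) (u v : ℂ) : (hF (xs d))^[N] (u, v) =
    (u ^ (d ^ N), (2 * u + v) ^ (d ^ N) - 2 * u ^ (d ^ N)) := by
  induction N with
  | zero => simp
  | succ N ih =>
    rw [Function.iterate_succ_apply', ih, hF_xs]
    refine Prod.ext ?_ ?_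
    · simp only
      rw [← pow_mul, ← pow_succ]
    · simp only
      rw [add_sub_cancel, ← pow_mul, ← pow_succ, ← pow_mul, ← pow_succ]

theorem FP_xs (N : ℕ) : FP N (xs d) =
    X ^ (d ^ N) * (1 + 2 * X) - X * (2 * X + 1) ^ (d ^ N) := by
  apply Polynomial.funext
  intro z
  rw [FP_eval, Fx, iter_xs]
  simp
  ring

theorem Rs_xs (N : ℕ) (hd : 2 ≤ d) (hN : 0 < N) : Rs N (xs d) ≠ 0 := by
  obtain ⟨E, hE⟩ : ∃ E, d ^ N = E + 2 := by
    have h1 : d ^ 1 ≤ d ^ N := Nat.pow_le_pow_right (by omega) hN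
    exact ⟨d ^ N - 2, by rw [pow_one] at h1; omega⟩
  have hc : (FP N (xs d)).coeff (E + 3) = 2 - 2 ^ (E + 2) := by
    have h1 : ((2 * X + 1 : ℂ[X]) ^ (E + 2)).coeff (E + 2) = 2 ^ (E + 2) := by
      have h0 : (2 * X + 1 : ℂ[X]) = C 2 * X + C 1 := by
        rw [show (C (2 : ℂ) : ℂ[X]) = 2 from map_ofNat C 2, C_1]
      have h2 : (2 * X + 1 : ℂ[X]).natDegree ≤ 1 := by
        rw [h0]
        exact natDegree_linear_le
      have h3 := coeff_pow_of_natDegree_le (m := E + 2) h2
      rw [mul_one] at h3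
      rw [h3, h0, coeff_add, coeff_C_of_ne_zero one_ne_zero, coeff_C_mul, coeff_X_one, mul_one,
        add_zero]
    rw [FP_xs, hE, coeff_sub, coeff_X_mul, h1, mul_comm, show E + 3 = 1 + (E + 2) by ring,
      coeff_mul_X_pow]
    have : (1 + 2 * X : ℂ[X]) = C 1 + C 2 * X := by
      rw [show (C (2 : ℂ) : ℂ[X]) = 2 from map_ofNat C 2, C_1]
    rw [this, coeff_add, coeff_C_of_ne_zero one_ne_zero, coeff_C_mul, coeff_X_one, mul_one, zero_add]
  have hc0 : (FP N (xs d)).coeff (E + 3) ≠ 0 := by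
    rw [hc, sub_ne_zero]
    intro h
    have h1 : (2 : ℂ) ^ (E + 2) = 2 ^ 1 * 2 ^ (E + 1) := by ring
    rw [h1, pow_one] at h
    have h2 : (2 : ℂ) ^ (E + 1) = 1 := by
      have := mul_left_cancel₀ (two_ne_zero (α := ℂ)) (h.symm.trans (mul_one 2).symm)
      exact this
    have h3 : (2 : ℕ) ^ (E + 1) = 1 := by exact_mod_cast h2
    have h4 : 1 < (2 : ℕ) ^ (E + 1) := Nat.one_lt_two_pow (by omega)
    omega
  have hdeg : (FP N (xs d)).natDegree = E + 3 := by
    apply le_antisymm
    · have := FP_deg N (xs d)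
      rw [hE] at this
      exact this
    · exact le_natDegree_of_ne_zero hc0
  have hdeg' : (derivative (FP N (xs d))).natDegree = E + 2 := by
    rw [natDegree_derivative, hdeg]
    rfl
  have hcop : IsCoprime (FP N (xs d)) (derivative (FP N (xs d))) := by
    by_contra hn
    have hne : FP N (xs d) ≠ 0 := by
      intro h
      rw [h] at hc0
      exact hc0 (by simp)
    obtain ⟨z, hz1, hz2⟩ : ∃ z, (FP N (xs d)).eval z = 0 ∧ (derivative (FP N (xs d))).eval z = 0 := by
      by_contra hno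
      push Not at hno
      apply hn
      rw [Polynomial.isCoprime_iff_aeval_ne_zero_of_isAlgClosed ℂ ℂ]
      intro z
      by_cases hz : (FP N (xs d)).eval z = 0
      · exact Or.inr (by simpa using hno z hz)
      · exact Or.inl (by simpa using hz)
    rw [FP_xs, hE] at hz1 hz2
    have e1 : z * (2 * z + 1) * (z ^ (E + 1) - (2 * z + 1) ^ (E + 1)) = 0 := by
      rw [← hz1]
      simp
      ring
    have e2 : (E + 2) * z ^ (E + 1) * (1 + 2 * z) + 2 * z ^ (E + 2) - (2 * z + 1) ^ (E + 2) -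
        2 * (E + 2) * z * (2 * z + 1) ^ (E + 1) = 0 := by
      rw [← hz2]
      simp [derivative_pow]
      ring
    rcases mul_eq_zero.1 e1 with h | h
    · rcases mul_eq_zero.1 h with h | h
      · rw [h] at e2
        simp at e2
      · have h5 : (1 + 2 * z) = 0 := by rw [← h]; ring
        rw [h, h5] at e2
        have h6 : z ≠ 0 := by
          intro h7
          rw [h7] at h
          simp at h
        simp [h6] at e2
    · by_cases hz0 : z = 0
      · rw [hz0] at e2
        simp at e2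
      · set a := z ^ (E + 1) with ha
        have hb : (2 * z + 1) ^ (E + 1) = a := (sub_eq_zero.1 h).symm
        have ha0 : a ≠ 0 := pow_ne_zero _ hz0
        have e3 : a * (E + 1) = 0 := by
          have e4 : z ^ (E + 2) = a * z := by rw [ha]; ring
          have e5 : (2 * z + 1) ^ (E + 2) = a * (2 * z + 1) := by rw [← hb]; ring
          rw [← e2, hb, e4, e5]
          ring
        rcases mul_eq_zero.1 e3 with h7 | h7
        · exact ha0 h7
        · have : ((E + 1 : ℕ) : ℂ) = 0 := by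
            push_cast
            exact h7
          exact Nat.succ_ne_zero E (by exact_mod_cast this)
  have h8 := resultant_ne_zero _ _ hcop
  rw [hdeg, hdeg'] at h8
  unfold Rs
  rw [hE]
  exact h8

/-- a measurable set which meets the lines in one direction in countable sets is null (copy of
`EX.null_lines`) -/
theorem null_lines {ι : Type} [Fintype ι] {A : Set (ι → ℂ)} (hA : MeasurableSet A) (e : ι → ℂ)
    (h : ∀ v, {c : ℂ | v + c • e ∈ A}.Countable) : ∀ᵐ v : ι → ℂ, v ∉ A := by
  have hm : Measurable (fun q : ℂ × (ι → ℂ) => A.indicator (1 : (ι → ℂ) → ℝ≥0∞) (q.2 + q.1 • e)) := by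
    have h1 : Measurable (fun q : ℂ × (ι → ℂ) => q.2 + q.1 • e) :=
      (by fun_prop : Continuous (fun q : ℂ × (ι → ℂ) => q.2 + q.1 • e)).measurable
    exact (measurable_one.indicator hA).comp h1
  have h1 : ∫⁻ c in ball (0 : ℂ) 1, ∫⁻ v : ι → ℂ, A.indicator (1 : (ι → ℂ) → ℝ≥0∞) (v + c • e) =
      ∫⁻ v : ι → ℂ, ∫⁻ c in ball (0 : ℂ) 1, A.indicator (1 : (ι → ℂ) → ℝ≥0∞) (v + c • e) :=
    lintegral_lintegral_swap hm.aemeasurable
  have h2 : ∀ c : ℂ, ∫⁻ v : ι → ℂ, A.indicator (1 : (ι → ℂ) → ℝ≥0∞) (v + c • e) = volume A := by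
    intro c
    rw [lintegral_add_right_eq_self (fun v : ι → ℂ => A.indicator (1 : (ι → ℂ) → ℝ≥0∞) v) (c • e),
      lintegral_indicator_one hA]
  have h3 : ∀ v : ι → ℂ, ∫⁻ c in ball (0 : ℂ) 1, A.indicator (1 : (ι → ℂ) → ℝ≥0∞) (v + c • e) = 0 := by
    intro v
    have h4 : (fun c : ℂ => A.indicator (1 : (ι → ℂ) → ℝ≥0∞) (v + c • e)) =ᵐ[volume.restrict
        (ball (0 : ℂ) 1)] fun _ => 0 := by
      apply ae_restrict_of_ae
      filter_upwards [(h v).ae_notMem volume] with c hc
      exact indicator_of_notMem hc _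
    rw [lintegral_congr_ae h4, lintegral_zero]
  simp only [h2, h3, lintegral_const, Measure.restrict_apply MeasurableSet.univ, univ_inter,
    zero_mul] at h1
  have hA0 : volume A = 0 := by
    rcases mul_eq_zero.1 h1 with h5 | h5
    · exact h5
    · exact absurd h5 (measure_ball_pos volume (0 : ℂ) one_pos).ne'
  rw [ae_iff]
  simpa using hA0

theorem Rs_eq (N : ℕ) (x : CV d) : Rs N x =
    MvPolynomial.eval x (Rs N (fun i : Fin 2 × Fin (d + 1) => (MvPolynomial.X i :
      MvPolynomial (Fin 2 × Fin (d + 1)) ℂ))) := by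
  rw [Rs_map]
  simp

theorem Rs_cont (N : ℕ) : Continuous (fun x : CV d => Rs N x) := by
  rw [show (fun x : CV d => Rs N x) = _ from funext (Rs_eq N)]
  exact MvPolynomial.continuous_eval _

theorem Rs_line (N : ℕ) (a b : CV d) : ∃ L : ℂ[X], ∀ s : ℂ, Rs N (a + s • b) = L.eval s := by
  refine ⟨Rs N (fun i => C (a i) + X * C (b i)), fun s => ?_⟩
  have h := Rs_map (Polynomial.evalRingHom s) N (fun i => C (a i) + X * C (b i))
  rw [coe_evalRingHom] at h
  rw [h]
  congr 1
  funext i
  rw [eval_add, eval_C, eval_mul, eval_X, eval_C]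
  rfl

theorem ae_Rs (N : ℕ) (x0 : CV d) (hd : 2 ≤ d) (hN : 0 < N) :
    ∀ᵐ v : CV d, ∃ τ : ℂ, Rs N (x0 + τ • v) ≠ 0 := by
  have hB : ∀ᵐ v : CV d, v ∉ {v : CV d | ∀ τ : ℂ, Rs N (x0 + τ • v) = 0} := by
    apply null_lines (e := xs d - x0)
    · apply IsClosed.measurableSet
      have h1 : {v : CV d | ∀ τ : ℂ, Rs N (x0 + τ • v) = 0} =
          ⋂ τ : ℂ, {v : CV d | Rs N (x0 + τ • v) = 0} := by
        ext v
        simp
      rw [h1]
      apply isClosed_iInter
      intro τ
      exact isClosed_eq ((Rs_cont N).comp (by fun_prop)) continuous_const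
    · intro v
      apply Set.Finite.countable
      by_contra hinf
      have h1 : ∀ τ c : ℂ, Rs N (x0 + τ • (v + c • (xs d - x0))) = 0 := by
        intro τ c
        obtain ⟨L, hL⟩ := Rs_line N (x0 + τ • v) (τ • (xs d - x0))
        have e : ∀ c : ℂ, x0 + τ • (v + c • (xs d - x0)) = x0 + τ • v + c • τ • (xs d - x0) := by
          intro c
          module
        have h2 : L = 0 := by
          apply Polynomial.eq_zero_of_infinite_isRoot
          apply Set.Infinite.mono _ hinf
          intro c hc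
          have h3 := hc τ
          show L.eval c = 0
          rw [← hL, ← e]
          exact h3
        rw [e, hL c, h2, eval_zero]
      obtain ⟨L, hL⟩ := Rs_line N (xs d) v
      have h2 : L = 0 := by
        apply Polynomial.eq_zero_of_infinite_isRoot
        apply Set.Infinite.mono (s := {0}ᶜ)
        · intro τ hτ
          show L.eval τ = 0
          rw [← hL, ← h1 τ τ⁻¹]
          congr 1
          rw [smul_add, smul_smul, mul_inv_cancel₀ hτ, one_smul]
          abel
        · exact (Set.finite_singleton (0 : ℂ)).infinite_compl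
      have h3 := hL 0
      rw [h2, zero_smul, add_zero, eval_zero] at h3
      exact Rs_xs N hd hN h3
  filter_upwards [hB] with v hv
  simpa using hv

end Simple

/-- PACKAGE R -/
theorem t_simple : S_simple := by
  intro d N x0 hd hN
  filter_upwards [Simple.ae_Rs N x0 hd hN] with v hv
  obtain ⟨τ0, hτ0⟩ := hv
  obtain ⟨L, hL⟩ := Simple.Rs_line N x0 v
  have hL0 : L ≠ 0 := by
    intro h
    rw [hL, h, eval_zero] at hτ0
    exact hτ0 rfl
  have hfin : {τ : ℂ | L.eval τ = 0}.Finite := by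
    by_contra hinf
    exact hL0 (Polynomial.eq_zero_of_infinite_isRoot L hinf)
  have h1 : ({τ : ℂ | L.eval τ = 0} \ {0})ᶜ ∈ 𝓝 (0 : ℂ) :=
    (hfin.subset sdiff_subset).isClosed.isOpen_compl.mem_nhds (by simp)
  filter_upwards [mem_nhdsWithin_of_mem_nhds h1, self_mem_nhdsWithin] with τ h2 h3 z hz
  apply Simple.simple_of_Rs N _ _ z hz
  rw [hL]
  intro h4
  exact h2 ⟨h4, h3⟩

end Pool.Agent.Helper65.EP
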