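import Mathlib
import Pool.Agent.Helper65.EP.Ray
import Pool.Agent.Helper65.EP.Stm3
import Pool.Agent.Helper65.EP.Simple
import Pool.Agent.Helper65.EP.Capture
import Pool.Agent.Helper65.EP.Enter
import Pool.Agent.Helper65.EP.CertN
import Pool.Agent.Helper65.EP.Attr

/-! Certificates along almost every ray. -/

set_option autoImplicit false

open Topology Filter Metric Set MeasureTheory
open scoped OnePoint

namespace Pool.Agent.Helper65.EP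

open Pool.Agent.H790R3.RB
open Pool.Agent.Helper65.EU (Into)

/-- the critical vector `c` is attracted by an attracting or a nondegenerate parabolic point -/
def GoodC {d : ℕ} (x0 : CV d) (c : ℂ × ℂ) : Prop :=
  ∃ (a : ℂ) (N : ℕ), 0 < N ∧
    Tendsto (fun k : ℕ => (sp x0)^[N * k] (pr c)) atTop (𝓝 (a : OnePoint ℂ)) ∧
    (AttF N x0 a ∨ ((∃ p q : ℕ, 0 < p ∧ 1 ≤ q ∧ N = p * q ∧ SatF p q x0 a) ∧
      ∀ k : ℕ, (sp x0)^[N * k] (pr c) ≠ a))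

/-- local capture, with a number `N` of iterations which does not depend on the parameter -/
def Loc {d : ℕ} (x0 v : CV d) (θ : ℝ) (c0 : ℂ × ℂ) : Prop :=
  ∃ U ∈ 𝓝 c0, ∃ N : ℕ, 0 < N ∧ ∀ᶠ t : ℝ in 𝓝[>] 0, ∃ s : Finset (ℂ × ℝ),
    (∀ i ∈ s, TrapN N i (xs x0 v θ t)) ∧
    ∀ c ∈ U, wr (xs x0 v θ t) c = 0 → ∃ k : ℕ, Into s ((hF (xs x0 v θ t))^[N * k] c)

theorem xs_tendsto {d : ℕ} (x0 v : CV d) (θ : ℝ) :
    Tendsto (fun t : ℝ => xs x0 v θ t) (𝓝[>] 0) (𝓝 x0) := xr_tendsto x0 v θ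

theorem into_mono {s s' : Finset (ℂ × ℝ)} (h : s ⊆ s') {c : ℂ × ℂ} (hc : Into s c) : Into s' c := by
  obtain ⟨i, hi, hk⟩ := hc
  exact ⟨i, h hi, hk⟩

theorem loc_noncrit {d : ℕ} (x0 v : CV d) (θ : ℝ) {c0 : ℂ × ℂ} (h : wr x0 c0 ≠ 0) :
    Loc x0 v θ c0 := by
  have hwc : Continuous (fun q : CV d × (ℂ × ℂ) => wr q.1 q.2) := (wr_contDiff d 1).continuous
  have h1 : Tendsto (fun q : ℝ × (ℂ × ℂ) => xs x0 v θ q.1) (𝓝[>] (0 : ℝ) ×ˢ 𝓝 c0) (𝓝 x0) :=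
    (xs_tendsto x0 v θ).comp tendsto_fst
  have h2 : Tendsto (fun q : ℝ × (ℂ × ℂ) => q.2) (𝓝[>] (0 : ℝ) ×ˢ 𝓝 c0) (𝓝 c0) := tendsto_snd
  have h3 : Tendsto (fun q : CV d × (ℂ × ℂ) => wr q.1 q.2) (𝓝 (x0, c0)) (𝓝 (wr x0 c0)) :=
    hwc.continuousAt (x := (x0, c0))
  have h4 := h3.comp (h1.prodMk_nhds h2)
  simp only [Function.comp_def] at h4
  obtain ⟨pa, hpa, pb, hpb, hab⟩ := Filter.eventually_prod_iff.1 (h4.eventually_ne h)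
  refine ⟨{c | pb c}, hpb, 1, one_pos, ?_⟩
  filter_upwards [hpa] with t ht
  refine ⟨∅, by simp, fun c hc h5 => absurd h5 (hab ht hc)⟩

theorem loc_attr {d : ℕ} (hd : 1 ≤ d) {x0 : CV d} (hx0 : ND x0) (v : CV d) (θ : ℝ) {c0 : ℂ × ℂ}
    (hc0 : c0 ≠ 0) {a : ℂ} {N : ℕ} (hN : 0 < N)
    (hlim : Tendsto (fun k : ℕ => (sp x0)^[N * k] (pr c0)) atTop (𝓝 (a : OnePoint ℂ)))
    (ha : AttF N x0 a) : Loc x0 v θ c0 := by
  obtain ⟨ρ, hρ, h1, m, h2⟩ := s_attr d N x0 a hd hN ha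
  -- entrance
  obtain ⟨k, hk⟩ : ∃ k : ℕ, Into {(a, ρ)} ((hF x0)^[N * k] c0) := by
    have e1 : ∀ᶠ k : ℕ in atTop, (sp x0)^[N * k] (pr c0) ∈
        (fun z : ℂ => (z : OnePoint ℂ)) '' ball a ρ :=
      hlim ((OnePoint.isOpenEmbedding_coe.isOpenMap _ isOpen_ball).mem_nhds
        ⟨a, mem_ball_self hρ, rfl⟩)
    obtain ⟨k, w, hw, hwk⟩ := e1.exists
    refine ⟨k, ?_⟩
    rw [(SP d x0 hd hx0).2.1 c0 hc0 (N * k)] at hwk
    apply (at_of_pr hwk.symm).into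
    rw [← dist_eq_norm]
    exact hw
  have h3 := iter_tendsto x0 v θ c0 (N * k)
  have h4 : ∀ᶠ q in 𝓝[>] (0 : ℝ) ×ˢ 𝓝 c0, Into {(a, ρ)} ((hF (xr x0 v θ q.1))^[N * k] q.2) := by
    obtain ⟨i, hi, h5⟩ := hk
    rw [Finset.mem_singleton] at hi
    subst hi
    have c3 : Continuous (fun w : ℂ × ℂ => ‖w.1 - a * w.2‖) := by fun_prop
    have c4 : Continuous (fun w : ℂ × ℂ => ρ * ‖w.2‖) := by fun_prop
    filter_upwards [h3.eventually ((isOpen_lt c3 c4).mem_nhds h5)] with q hq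
    exact ⟨(a, ρ), Finset.mem_singleton_self _, hq⟩
  obtain ⟨pa, hpa, pb, hpb, hab⟩ := Filter.eventually_prod_iff.1 h4
  refine ⟨{c | pb c}, hpb, N, hN, ?_⟩
  filter_upwards [hpa, (xs_tendsto x0 v θ).eventually (PC.ev_disc N a ρ ρ x0 h1),
    (xs_tendsto x0 v θ).eventually (PC.ev_disc (N * m) a ρ (ρ / 8) x0 h2)] with t e1 e2 e3
  refine ⟨{(a, ρ)}, ?_, fun c hc _ => ⟨k, hab e1 hc⟩⟩
  intro i hi
  rw [Finset.mem_singleton] at hi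
  subst hi
  exact ⟨e2, m, e3⟩

theorem loc_caught {d : ℕ} {x0 v : CV d} {θ : ℝ} {c0 : ℂ × ℂ} {N : ℕ} (hN : 0 < N)
    (h : CaughtF N x0 v θ c0) : Loc x0 v θ c0 := by
  obtain ⟨U, hU, h⟩ := h
  refine ⟨U, hU, N, hN, ?_⟩
  filter_upwards [h] with t ht
  obtain ⟨s, h1, h2⟩ := ht
  exact ⟨s, h1, fun c hc _ => h2 c hc⟩

theorem caughtF_of {d : ℕ} {x0 v : CV d} {θ : ℝ} {c0 : ℂ × ℂ} {N : ℕ}
    (h : Caught N x0 v θ c0) : CaughtF N x0 v θ c0 := by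
  obtain ⟨U, hU, h⟩ := h
  refine ⟨U, hU, ?_⟩
  filter_upwards [h] with t ht
  obtain ⟨i, h1, h2⟩ := ht
  refine ⟨{i}, ?_, h2⟩
  intro j hj
  rw [Finset.mem_singleton] at hj
  subst hj
  exact h1

theorem ray_one {d : ℕ} (h1 : S_one) (hd : 1 ≤ d) {x0 v : CV d} (hx0 : ND x0) {p q : ℕ}
    (hR : S_rayS) (hp : 0 < p) (hq : 1 ≤ q) {a : ℂ} (ha : SatF p q x0 a)
    (hv : ∀ᶠ τ : ℂ in 𝓝[≠] 0, ∀ z : ℂ, Fx (p * q) (x0 + τ • v) z = 0 →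
      deriv (Fx (p * q) (x0 + τ • v)) z ≠ 0) :
    ∃ B : Set ℝ, B.Countable ∧ ∀ θ ∉ B, ∀ c0 : ℂ × ℂ, c0 ≠ 0 →
      Tendsto (fun k : ℕ => (sp x0)^[p * q * k] (pr c0)) atTop (𝓝 (a : OnePoint ℂ)) →
      (∀ k : ℕ, (sp x0)^[p * q * k] (pr c0) ≠ a) → Loc x0 v θ c0 := by
  rcases Nat.lt_or_ge 1 q with h | h
  · obtain ⟨B, hB, h2⟩ := hR d p q x0 v a hd hp h hx0 ha hv
    exact ⟨B, hB, fun θ hθ c0 hc0 e1 e2 => loc_caught (Nat.mul_pos hp (by omega))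
      (h2 θ hθ c0 hc0 e1 e2)⟩
  · have h3 : q = 1 := by omega
    subst h3
    rw [Nat.mul_one] at hv ⊢
    obtain ⟨B, hB, h2⟩ := par_local trap capture enter hd hp hx0 (h1 d p x0 a hd ha) hv
    exact ⟨B, hB, fun θ hθ c0 hc0 e1 e2 => loc_caught hp (caughtF_of (h2 θ hθ c0 hc0 e1 e2))⟩

theorem glob {d : ℕ} (hR : S_rayS) (hM : S_mult) (h1 : S_one) (hC : S_count) (hd : 2 ≤ d)
    {x0 : CV d} (hx0 : ND x0)
    (h : ∀ c ∈ sphere (0 : ℂ × ℂ) 1, wr x0 c = 0 → GoodC x0 c) :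
    ∀ᵐ v : CV d, ∃ B : Set ℝ, B.Countable ∧ ∀ θ ∉ B, ∀ᶠ t : ℝ in 𝓝[>] 0,
      ∃ N : ℕ, 0 < N ∧ ∃ s : Finset (ℂ × ℝ), CertN N s (xs x0 v θ t) := by
  have hd1 : 1 ≤ d := by omega
  have hae : ∀ᵐ v : CV d, ∀ N : ℕ, 0 < N → ∀ᶠ τ : ℂ in 𝓝[≠] 0, ∀ z : ℂ,
      Fx N (x0 + τ • v) z = 0 → deriv (Fx N (x0 + τ • v)) z ≠ 0 := by
    rw [ae_all_iff]
    intro N
    by_cases hN : 0 < N
    · filter_upwards [t_simple d N x0 hd hN] with v hv _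
      exact hv
    · exact Eventually.of_forall fun v hN' => absurd hN' hN
  filter_upwards [hae] with v hv
  -- the exceptional directions
  have hB : ∀ (p q : ℕ) (a : ℂ), ∃ B : Set ℝ, B.Countable ∧ (0 < p → 1 ≤ q → SatF p q x0 a →
      ∀ θ ∉ B, ∀ c0 : ℂ × ℂ, c0 ≠ 0 →
      Tendsto (fun k : ℕ => (sp x0)^[p * q * k] (pr c0)) atTop (𝓝 (a : OnePoint ℂ)) →
      (∀ k : ℕ, (sp x0)^[p * q * k] (pr c0) ≠ a) → Loc x0 v θ c0) := by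
    intro p q a
    by_cases hp : 0 < p ∧ 1 ≤ q ∧ SatF p q x0 a
    · obtain ⟨B, hB, h2⟩ := ray_one h1 hd1 hx0 hR hp.1 hp.2.1 hp.2.2
        (hv (p * q) (Nat.mul_pos hp.1 (by omega)))
      exact ⟨B, hB, fun _ _ _ => h2⟩
    · exact ⟨∅, countable_empty, fun e1 e2 e3 => absurd ⟨e1, e2, e3⟩ hp⟩
  choose B hB1 hB2 using hB
  refine ⟨⋃ p : ℕ, ⋃ q : ℕ, ⋃ a ∈ {a : ℂ | 0 < p ∧ 1 ≤ q ∧ SatF p q x0 a}, B p q a, ?_, ?_⟩
  · apply countable_iUnion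
    intro p
    apply countable_iUnion
    intro q
    apply Countable.biUnion
    · by_cases hp : 0 < p ∧ 1 ≤ q
      · exact (hC d p q x0 hd1 hp.1 hp.2).mono fun a ha => ha.2.2
      · have : {a : ℂ | 0 < p ∧ 1 ≤ q ∧ SatF p q x0 a} = ∅ := by
          rw [Set.eq_empty_iff_forall_notMem]
          intro a ha
          exact hp ⟨ha.1, ha.2.1⟩
        rw [this]
        exact countable_empty
    · intro a _
      exact hB1 p q a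
  intro θ hθ
  have hθ' : ∀ (p q : ℕ) (a : ℂ), 0 < p → 1 ≤ q → SatF p q x0 a → θ ∉ B p q a := by
    intro p q a e1 e2 e3 e4
    apply hθ
    rw [mem_iUnion]
    refine ⟨p, ?_⟩
    rw [mem_iUnion]
    refine ⟨q, ?_⟩
    rw [mem_iUnion₂]
    exact ⟨a, ⟨e1, e2, e3⟩, e4⟩
  have hloc : ∀ c0 ∈ sphere (0 : ℂ × ℂ) 1, Loc x0 v θ c0 := by
    intro c0 hc0
    have hc00 : c0 ≠ 0 := by
      intro h0
      rw [h0, mem_sphere_zero_iff_norm, norm_zero] at hc0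
      exact zero_ne_one hc0
    by_cases hw : wr x0 c0 = 0
    · obtain ⟨a, N, hN, hlim, ha | ⟨⟨p, q, hp, hq, rfl, ha⟩, hne⟩⟩ := h c0 hc0 hw
      · exact loc_attr hd1 hx0 v θ hc00 hN hlim ha
      · exact hB2 p q a hp hq ha θ (hθ' p q a hp hq ha) c0 hc00 hlim hne
    · exact loc_noncrit x0 v θ hw
  -- compactness
  choose! U hU N hN hUN using hloc
  obtain ⟨T, hT, hcov⟩ := (isCompact_sphere (0 : ℂ × ℂ) 1).elim_nhds_subcover U hU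
  have hN0 : 0 < ∏ c ∈ T, N c := Finset.prod_pos fun c hc => hN c (hT c hc)
  have e1 : ∀ᶠ t : ℝ in 𝓝[>] 0, ∀ c ∈ sphere (0 : ℂ × ℂ) 1, hF (xs x0 v θ t) c ≠ 0 := by
    have hFc : Continuous (fun q : CV d × (ℂ × ℂ) => hF q.1 q.2) := (hF_contDiff d 1).continuous
    have e2 : ∀ᶠ y in 𝓝 x0, ∀ c ∈ sphere (0 : ℂ × ℂ) 1, hF y c ≠ 0 := by
      apply IsCompact.eventually_forall_of_forall_eventually (isCompact_sphere _ _)
      intro c hc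
      apply (hFc.continuousAt (x := (x0, c))).eventually_ne
      intro h0
      have := hx0 c h0
      rw [this, mem_sphere_zero_iff_norm, norm_zero] at hc
      exact zero_ne_one hc
    exact (xs_tendsto x0 v θ).eventually e2
  have e3 : ∀ᶠ t : ℝ in 𝓝[>] 0, ∀ c0 ∈ T, ∃ s : Finset (ℂ × ℝ),
      (∀ i ∈ s, TrapN (N c0) i (xs x0 v θ t)) ∧
      ∀ c ∈ U c0, wr (xs x0 v θ t) c = 0 →
        ∃ k : ℕ, Into s ((hF (xs x0 v θ t))^[N c0 * k] c) := by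
    rw [Filter.eventually_all_finset]
    intro c0 hc0
    exact hUN c0 (hT c0 hc0)
  filter_upwards [e1, e3] with t e1 e3
  refine ⟨∏ c ∈ T, N c, hN0, ?_⟩
  choose! s hs1 hs2 using e3
  have hdiv : ∀ c0 ∈ T, ∃ l : ℕ, 0 < l ∧ ∏ c ∈ T, N c = N c0 * l := by
    intro c0 hc0
    obtain ⟨l, hl⟩ := Finset.dvd_prod_of_mem N hc0
    refine ⟨l, ?_, hl⟩
    rcases Nat.eq_zero_or_pos l with h0 | h0
    · rw [h0, Nat.mul_zero] at hl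
      omega
    · exact h0
  classical
  refine ⟨T.biUnion s, e1, ?_, ?_⟩
  · intro i hi
    rw [Finset.mem_biUnion] at hi
    obtain ⟨c0, hc0, hi⟩ := hi
    obtain ⟨l, hl, hl2⟩ := hdiv c0 hc0
    rw [hl2]
    exact (hM d (N c0) l i _ hd1 (hN c0 (hT c0 hc0)) hl (hs1 c0 hc0 i hi)).1
  · intro c hc hw
    obtain ⟨c0, hc0, hcU⟩ : ∃ c0 ∈ T, c ∈ U c0 := by
      have := hcov hc
      rw [mem_iUnion₂] at this
      obtain ⟨c0, h2, h3⟩ := this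
      exact ⟨c0, h2, h3⟩
    obtain ⟨k, i, hi, hk⟩ := hs2 c0 hc0 c hcU hw
    obtain ⟨l, hl, hl2⟩ := hdiv c0 hc0
    obtain ⟨k', hk'⟩ := (hM d (N c0) l i _ hd1 (hN c0 (hT c0 hc0)) hl (hs1 c0 hc0 i hi)).2 c k
      ⟨i, Finset.mem_singleton_self i, hk⟩
    refine ⟨k', ?_⟩
    rw [hl2]
    apply into_mono _ hk'
    intro j hj
    rw [Finset.mem_singleton] at hj
    subst hj
    exact Finset.mem_biUnion.2 ⟨c0, hc0, hi⟩

end Pool.Agent.Helper65.EP
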