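import Mathlib
import Pool.Agent.Helper65.EP.Stm2
import Pool.Graph.R_seed8.H790R3.RB.TCJ

/-! Package M: the action of the changes of coordinate on the coefficients. -/

set_option autoImplicit false

open Topology Filter Metric Set MeasureTheory Polynomial

namespace Pool.Agent.Helper65.EP

open Pool.Agent.H790R3.RB
open Pool.Agent.W364.NM (ap ad dt)

namespace PM

theorem cv_zero {d : ℕ} {x : CV d} (h : ∀ p, hF x p = 0) : x = 0 := by
  have hz : ∀ i : Fin 2, pol x i = 0 := by
    intro i
    apply Polynomial.funext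
    intro z
    have h1 := h (z, 1)
    rw [PQ.hF_one] at h1
    rw [eval_zero]
    fin_cases i
    · exact congrArg Prod.fst h1
    · exact congrArg Prod.snd h1
  funext r
  obtain ⟨i, j⟩ := r
  rw [← PQ.pol_coeff x i j, hz i, Polynomial.coeff_zero]
  rfl

end PM

open PM in
theorem t_move : S_move := by
  intro d m hm
  obtain ⟨cj, -, hadd, hsmul, -, hcj⟩ := CJ d
  have key : ∀ (x : CV d) (p : ℂ × ℂ), hF (cj m x) (ap m p) = (dt m) ^ d • ap m (hF x p) := by
    intro x p
    have h1 : hF (cj m x) (ap m p) = ap m (hF x (ap (ad m) (ap m p))) := by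
      rw [hcj m x (ap m p)]
      have e : ((m.2.2 * (ap m p).1 - m.1.2 * (ap m p).2,
          m.1.1 * (ap m p).2 - m.2.1 * (ap m p).1) : ℂ × ℂ) = ap (ad m) (ap m p) := by
        apply Prod.ext
        · simp only [ap, ad]; ring
        · simp only [ap, ad]; ring
      rw [e]
      rfl
    rw [h1, Pool.Agent.W364.NM.ap_ad, hF_smul, Pool.Agent.W364.NM.ap_smul]
  let A0 : CV d →ₗ[ℂ] CV d :=
    { toFun := fun x => ((dt m) ^ d)⁻¹ • cj m x
      map_add' := fun x y => by rw [hadd, smul_add]
      map_smul' := fun a x => by rw [hsmul, smul_comm]; rfl }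
  have hA0 : ∀ (x : CV d) (p : ℂ × ℂ), hF (A0 x) (ap m p) = ap m (hF x p) := by
    intro x p
    show hF (((dt m) ^ d)⁻¹ • cj m x) (ap m p) = _
    rw [Pool.Agent.W364.NM.hF_csmul, key, smul_smul, inv_mul_cancel₀ (pow_ne_zero _ hm), one_smul]
  have hinj : Function.Injective A0 := by
    rw [injective_iff_map_eq_zero]
    intro x hx
    apply cv_zero
    intro p
    have h1 := hA0 x p
    rw [hx] at h1
    have h2 : hF (0 : CV d) (ap m p) = 0 := by
      simp [hF]
    rw [h2] at h1
    exact Pool.Agent.W364.NM.ap_eq_zero hm h1.symm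
  let A1 : CV d ≃ₗ[ℂ] CV d := LinearEquiv.ofInjectiveEndo A0 hinj
  refine ⟨A1.toContinuousLinearEquiv, fun x p => ?_⟩
  exact hA0 x p

end Pool.Agent.Helper65.EP
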