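import Mathlib
import Pool.Agent.Helper65.EP.Glob
import Pool.Agent.Helper65.EP.Move
import Pool.Agent.Helper65.EP.Germ
import Pool.Agent.Helper65.EU.Meas
import Pool.Agent.Helper65.EU.Strong

/-! The density theorem for the sphere maps. -/

set_option autoImplicit false

open Topology Filter Metric Set MeasureTheory
open scoped OnePoint

namespace Pool.Agent.Helper65.EP

open Pool.Agent.H790R3.RB
open Pool.Agent.W364.NM (ap ad dt ad_ap ap_ad ap_smul ap_ne ap_eq_zero ap_zero' semi exists_pr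
  vne pr_csmul wr_eval sp_pr)
open Pool.Agent.Helper65.EU (Into)

/-- the point `c` is attracted by an attracting cycle or a nondegenerate parabolic cycle -/
def AttrC (f : OnePoint ℂ → OnePoint ℂ) (c : OnePoint ℂ) : Prop :=
  ∃ (a : OnePoint ℂ) (N : ℕ), 0 < N ∧ Tendsto (fun k : ℕ => f^[N * k] c) atTop (𝓝 a) ∧
    (AttG (f^[N]) a ∨ ((∃ p q : ℕ, 0 < p ∧ 1 ≤ q ∧ N = p * q ∧ SatG q (f^[p]) a) ∧
      ∀ k : ℕ, f^[N * k] c ≠ a))

theorem sp_iter_pr {d : ℕ} (hd : 1 ≤ d) {x : CV d} (hx : ND x) {c : ℂ × ℂ} (hc : c ≠ 0) (k : ℕ) :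
    (sp x)^[k] (pr c) = pr ((hF x)^[k] c) := (SP d x hd hx).2.1 c hc k

/-- the critical points of a rational map are finite in number -/
theorem crit_finite {d : ℕ} (hd : 2 ≤ d) {x : CV d} (hx : ND x) :
    {z : ℂ | wr x (z, 1) = 0}.Finite := by
  obtain ⟨hcop, hdeg, -⟩ := ((PQ SP) d (by omega)).1 x hx
  set W : Polynomial ℂ := Polynomial.derivative (pol x 0) * pol x 1 -
    pol x 0 * Polynomial.derivative (pol x 1) with hW
  have hWz : ∀ z : ℂ, wr x (z, 1) = d * W.eval z := by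
    intro z
    rw [wr_eval hd, hW, Polynomial.eval_sub, Polynomial.eval_mul, Polynomial.eval_mul]
  have hd0 : (d : ℂ) ≠ 0 := by exact_mod_cast (by omega : d ≠ 0)
  have hW0 : W ≠ 0 := by
    intro h0
    rw [hW, sub_eq_zero] at h0
    have h1 : Polynomial.derivative (pol x 0) = 0 := by
      have e1 : pol x 0 ∣ Polynomial.derivative (pol x 0) * pol x 1 := by
        rw [h0]; exact dvd_mul_right _ _
      have e2 := hcop.dvd_of_dvd_mul_right e1
      by_contra hne
      have e3 := Polynomial.natDegree_le_of_dvd e2 hne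
      have e4 : (pol x 0).natDegree ≠ 0 := by
        intro e5
        apply hne
        rw [Polynomial.eq_C_of_natDegree_eq_zero e5, Polynomial.derivative_C]
      have e6 := Polynomial.natDegree_derivative_lt e4
      omega
    have h2 : Polynomial.derivative (pol x 1) = 0 := by
      have e1 : pol x 1 ∣ Polynomial.derivative (pol x 1) * pol x 0 := by
        rw [mul_comm, ← h0, mul_comm]; exact dvd_mul_right _ _
      have e2 := hcop.symm.dvd_of_dvd_mul_right e1
      by_contra hne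
      have e3 := Polynomial.natDegree_le_of_dvd e2 hne
      have e4 : (pol x 1).natDegree ≠ 0 := by
        intro e5
        apply hne
        rw [Polynomial.eq_C_of_natDegree_eq_zero e5, Polynomial.derivative_C]
      have e6 := Polynomial.natDegree_derivative_lt e4
      omega
    have h3 := Polynomial.derivative_eq_zero.1 h1
    have h4 := Polynomial.derivative_eq_zero.1 h2
    rw [h3, h4] at hdeg
    simp at hdeg
    omega
  apply (W.roots.toFinset.finite_toSet).subset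
  intro z hz
  rw [mem_ofPred_eq, hWz] at hz
  rw [Finset.mem_coe, Multiset.mem_toFinset, Polynomial.mem_roots hW0, Polynomial.IsRoot.def]
  exact (mul_eq_zero.1 hz).resolve_left hd0

theorem crit_finite' {d : ℕ} (hd : 2 ≤ d) {x : CV d} (hx : ND x) :
    {c : OnePoint ℂ | ¬ ∃ U ∈ 𝓝 c, InjOn (sp x) U}.Finite := by
  apply (((crit_finite hd hx).image (fun z : ℂ => (z : OnePoint ℂ))).union
    (finite_singleton (∞ : OnePoint ℂ))).subset
  intro c hc
  rw [mem_ofPred_eq] at hc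
  induction c using OnePoint.rec with
  | infty => exact Or.inr rfl
  | coe z =>
    left
    refine ⟨z, ?_, rfl⟩
    by_contra h
    rw [mem_ofPred_eq] at h
    apply hc
    have := INJL SP WR d x (z, 1) hd hx (vne z) h
    rwa [Pool.Agent.H790R3.RB.SP.pr_ne one_ne_zero, div_one] at this

/-- conjugation -/
theorem iter_conj {f g : OnePoint ℂ → OnePoint ℂ} {H : OnePoint ℂ ≃ₜ OnePoint ℂ}
    (h : ∀ z, H (f z) = g (H z)) (k : ℕ) (z : OnePoint ℂ) : H (f^[k] z) = g^[k] (H z) := by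
  induction k with
  | zero => rfl
  | succ k ih => rw [Function.iterate_succ_apply', Function.iterate_succ_apply', h, ih]

theorem hypCyc_conj {f g : OnePoint ℂ → OnePoint ℂ} {H : OnePoint ℂ ≃ₜ OnePoint ℂ}
    (h : ∀ z, H (f z) = g (H z)) (hg : HypCyc g) : HypCyc f := by
  have hf : ∀ (k : ℕ) (z : OnePoint ℂ), f^[k] z = H.symm (g^[k] (H z)) := by
    intro k z
    rw [← iter_conj h, H.symm_apply_apply]
  intro c hc
  have hc' : ¬ ∃ U ∈ 𝓝 (H c), InjOn g U := by
    rintro ⟨U, hU, hinj⟩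
    apply hc
    refine ⟨H ⁻¹' U, H.continuous.continuousAt.preimage_mem_nhds hU, ?_⟩
    intro x hx y hy hxy
    apply H.injective
    apply hinj hx hy
    rw [← h, ← h, hxy]
  obtain ⟨z, n, hn, hz, ⟨U, hU, hUz⟩, hlim⟩ := hg (H c) hc'
  refine ⟨H.symm z, n, hn, ?_, ⟨H ⁻¹' U, ?_, ?_⟩, ?_⟩
  · rw [hf, H.apply_symm_apply, hz]
  · apply H.continuous.continuousAt.preimage_mem_nhds
    rwa [H.apply_symm_apply]
  · intro w hw
    simp only [hf]
    exact (H.symm.continuous.tendsto z).comp (hUz (H w) hw)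
  · simp only [hf]
    exact (H.symm.continuous.tendsto z).comp hlim

theorem noninj_conj {f g : OnePoint ℂ → OnePoint ℂ} {H : OnePoint ℂ ≃ₜ OnePoint ℂ}
    (h : ∀ z, H (f z) = g (H z)) {c : OnePoint ℂ} (hc : ¬ ∃ U ∈ 𝓝 (H c), InjOn g U) :
    ¬ ∃ U ∈ 𝓝 c, InjOn f U := by
  rintro ⟨U, hU, hinj⟩
  apply hc
  refine ⟨H '' U, ?_, ?_⟩
  · exact (H.isOpenMap.image_mem_nhds hU)
  · rintro _ ⟨x, hx, rfl⟩ _ ⟨y, hy, rfl⟩ hxy
    rw [← h, ← h] at hxy
    rw [hinj hx hy (H.injective hxy)]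

theorem ae_lin {d : ℕ} (A : CV d ≃L[ℂ] CV d) {P : CV d → Prop} (h : ∀ᵐ v : CV d, P v) :
    ∀ᵐ v : CV d, P (A v) := by
  have h1 : volume {v : CV d | ¬ P v} = 0 := h
  have h2 := Measure.addHaar_preimage_continuousLinearEquiv (volume : Measure (CV d))
    (A.restrictScalars ℝ) {v : CV d | ¬ P v}
  rw [h1, mul_zero] at h2
  exact h2

theorem final {d : ℕ} (hR : S_rayS) (hM : S_mult) (h1 : S_one) (hC : S_count) (hd : 2 ≤ d)
    {x0 : CV d} (hx0 : ND x0)
    (h : ∀ c : OnePoint ℂ, (¬ ∃ U ∈ 𝓝 c, InjOn (sp x0) U) → AttrC (sp x0) c) :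
    ∃ Gd : Set (CV d), (∀ x ∈ Gd, ND x ∧ HypCyc (sp x)) ∧
      Tendsto (fun r : ℝ => volume (closedBall x0 r \ Gd) / volume (closedBall x0 r)) (𝓝[>] 0)
        (𝓝 0) := by
  have hd1 : 1 ≤ d := by omega
  -- the limit points
  have hfin := crit_finite' hd hx0
  choose! aa NN hNN hlim hkind using h
  have hinf := ((hfin.image aa).preimage OnePoint.coe_injective.injOn).union (crit_finite hd hx0)
  obtain ⟨b, hb⟩ := hinf.exists_notMem
  rw [mem_union, not_or] at hb
  obtain ⟨hb1, hb2⟩ := hb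
  have hb3 : ∀ c : OnePoint ℂ, (¬ ∃ U ∈ 𝓝 c, InjOn (sp x0) U) → aa c ≠ (b : OnePoint ℂ) := by
    intro c hc h2
    exact hb1 ⟨c, hc, h2⟩
  -- the change of coordinate
  set m : (ℂ × ℂ) × (ℂ × ℂ) := ((0, 1), (1, -b)) with hm
  have hdt : dt m ≠ 0 := by
    rw [hm]
    simp [dt]
  obtain ⟨A, hA⟩ := t_move d m hdt
  have hdet : (0 : ℂ) * (-b) - 1 * 1 ≠ 0 := by norm_num
  obtain ⟨H, hH, -⟩ := (MOB SP) 0 1 1 (-b) hdet
  have hH' : ∀ p : ℂ × ℂ, p ≠ 0 → H (pr p) = pr (ap m p) := fun p hp => hH p hp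
  have hND : ∀ x : CV d, ND x → ND (A x) := by
    intro x hx w hw
    have e1 : w = ap m ((dt m)⁻¹ • ap (ad m) w) := by
      rw [ap_smul, ad_ap, smul_smul, inv_mul_cancel₀ hdt, one_smul]
    rw [e1, hA] at hw
    have e2 := hx _ (ap_eq_zero hdt hw)
    rw [e1, e2, ap_zero']
  have hND' : ∀ x : CV d, ND (A x) → ND x := by
    intro x hx p hp
    have e1 := hA x p
    rw [hp, ap_zero'] at e1
    exact ap_eq_zero hdt (hx _ e1)
  have hconj : ∀ x : CV d, ND x → ∀ z, H (sp x z) = sp (A x) (H z) := fun x hx z =>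
    semi hd1 hx (hND x hx) hdt one_ne_zero (fun p => by rw [one_smul]; exact hA x p) H hH' z
  set y0 := A x0 with hy0
  have hy0ND := hND x0 hx0
  have hwr : ∀ p, wr y0 (ap m p) = wr x0 p := by
    intro p
    have := Pool.Agent.W364.NM.wr_conj hd hdt (c := 1) (x := x0) (y := y0)
      (fun p => by rw [one_smul]; exact hA x0 p) p
    rwa [one_pow, one_mul] at this
  have hgood : ∀ c ∈ sphere (0 : ℂ × ℂ) 1, wr y0 c = 0 → GoodC y0 c := by
    intro c hc hw
    have hc0 : c ≠ 0 := by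
      intro h0
      rw [h0, mem_sphere_zero_iff_norm, norm_zero] at hc
      exact zero_ne_one hc
    have hinf' : wr y0 (1, 0) ≠ 0 := by
      have e1 : ap m (b, 1) = (1, 0) := by
        rw [hm]
        simp [ap]
      rw [← e1, hwr]
      exact hb2
    have hc2 : c.2 ≠ 0 := by
      intro h2
      have e1 : c = c.1 • ((1, 0) : ℂ × ℂ) := by
        apply Prod.ext
        · simp
        · simp [h2]
      have e2 : c.1 ≠ 0 := by
        intro h3
        exact hc0 (Prod.ext h3 h2)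
      rw [e1, (WR d y0 hd).1] at hw
      exact (mul_ne_zero (pow_ne_zero _ e2) hinf') hw
    have hat : At c (c.1 / c.2) := ⟨hc2, rfl⟩
    have hw1 : wr y0 (c.1 / c.2, 1) = 0 := by
      rw [hat.eq, (WR d y0 hd).1] at hw
      exact (mul_eq_zero.1 hw).resolve_left (pow_ne_zero _ hc2)
    have hni := Pool.Agent.Helper65.EU.not_inj hd hy0ND hw1
    rw [← hat.pr] at hni
    set u := H.symm (pr c) with hu
    have hHu : H u = pr c := H.apply_symm_apply _
    have hnu : ¬ ∃ U ∈ 𝓝 u, InjOn (sp x0) U :=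
      noninj_conj (hconj x0 hx0) (by rw [hHu]; exact hni)
    have hlim' : Tendsto (fun k : ℕ => (sp y0)^[NN u * k] (pr c)) atTop (𝓝 (H (aa u))) := by
      have e1 := (H.continuous.tendsto _).comp (hlim u hnu)
      apply e1.congr
      intro k
      rw [Function.comp_apply, iter_conj (hconj x0 hx0), hHu]
    have hne' : (∀ k : ℕ, (sp x0)^[NN u * k] u ≠ aa u) →
        ∀ k : ℕ, (sp y0)^[NN u * k] (pr c) ≠ H (aa u) := by
      intro h2 k h3
      rw [← hHu, ← iter_conj (hconj x0 hx0)] at h3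
      exact h2 k (H.injective h3)
    rcases hkind u hnu with h2 | ⟨⟨p, q, hp, hq, hpq, h2⟩, h3⟩
    · obtain ⟨a', ha', h4⟩ := s_germA (N := NN u) hd1 hx0 hy0ND (hA x0) hH' (hb3 u hnu)
      rw [ha'] at hlim'
      exact ⟨a', NN u, hNN u hnu, hlim', Or.inl (h4 h2)⟩
    · obtain ⟨a', ha', h4⟩ := s_germS d p q x0 y0 b H hd1 hp hq hx0 hy0ND (hA x0) hH'
        (aa u) (hb3 u hnu)
      have h5 := hne' h3
      rw [ha'] at hlim' h5
      exact ⟨a', NN u, hNN u hnu, hlim', Or.inr ⟨⟨p, q, hp, hq, hpq, h4 h2⟩, h5⟩⟩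
  have hglob := ae_lin A (glob hR hM h1 hC hd hy0ND hgood)
  set Gd : Set (CV d) := {x | ∃ N : ℕ, 0 < N ∧ ∃ s : Finset (ℂ × ℝ), CertN N s (A x)} with hGd
  have hopen : IsOpen Gd := by
    have e1 : Gd = ⋃ N : ℕ, ⋃ s : Finset (ℂ × ℝ), ⋃ _ : 0 < N, A ⁻¹' {x : CV d | CertN N s x} := by
      ext x
      simp only [hGd, mem_ofPred_eq, mem_iUnion, mem_preimage, exists_prop]
      constructor
      · rintro ⟨N, hN, s, hs⟩
        exact ⟨N, s, hN, hs⟩
      · rintro ⟨N, s, hN, hs⟩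
        exact ⟨N, hN, s, hs⟩
    rw [e1]
    refine isOpen_iUnion fun N => isOpen_iUnion fun s => isOpen_iUnion fun _ => ?_
    exact (t_open d N s).preimage A.continuous
  refine ⟨Gd, ?_, ?_⟩
  · rintro x ⟨N, hN, s, hs⟩
    obtain ⟨h2, h3⟩ := t_hyp d N s (A x) hd hN hs
    have h4 := hND' x h2
    exact ⟨h4, hypCyc_conj (hconj x h4) h3⟩
  · apply Pool.Agent.Helper65.EU.density hopen x0
    filter_upwards [hglob] with v hv
    obtain ⟨B, hB, h2⟩ := hv
    refine ⟨B, hB, fun θ hθ => ?_⟩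
    filter_upwards [h2 θ hθ] with t ht
    obtain ⟨N, hN, s, hs⟩ := ht
    refine ⟨N, hN, s, ?_⟩
    have e1 : xs y0 (A v) θ t = A (x0 + ((t : ℂ) * Complex.exp (θ * Complex.I)) • v) := by
      rw [map_add, map_smul]
      rfl
    rw [← e1]
    exact hs

end Pool.Agent.Helper65.EP
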