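import Mathlib
import Pool.Agent.Helper65.EP.Stm3
import Pool.Agent.Helper65.EP.Attr

/-! Packages X7, X8, X9. -/

set_option autoImplicit false

open Topology Filter Metric Set MeasureTheory

namespace Pool.Agent.Helper65.EP

open Pool.Agent.H790R3.RB
open Pool.Agent.Helper65.EU (Into)

namespace MultAux

/-- the cone over a disc -/
theorem cone {p : ℂ} {r : ℝ} {c : ℂ × ℂ} (h : ‖c.1 - p * c.2‖ < r * ‖c.2‖) :
    c.2 ≠ 0 ∧ c.1 / c.2 ∈ ball p r ∧ c = c.2 • ((c.1 / c.2, 1) : ℂ × ℂ) := by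
  have hne : c.2 ≠ 0 := by
    intro h0
    rw [h0, norm_zero, mul_zero, mul_zero] at h
    exact absurd h (not_lt.2 (norm_nonneg _))
  refine ⟨hne, ?_, ?_⟩
  · rw [mem_ball, dist_eq_norm]
    have h2 : c.1 / c.2 - p = (c.1 - p * c.2) / c.2 := by
      field_simp
    rw [h2, norm_div, div_lt_iff₀ (norm_pos_iff.2 hne)]
    exact h
  · ext
    · show c.1 = c.2 * (c.1 / c.2)
      rw [mul_div_cancel₀ _ hne]
    · show c.2 = c.2 * 1
      rw [mul_one]

theorem cone_smul {p : ℂ} {r : ℝ} {c : ℂ × ℂ} {a : ℂ} (ha : a ≠ 0)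
    (h : ‖c.1 - p * c.2‖ < r * ‖c.2‖) : ‖(a • c).1 - p * (a • c).2‖ < r * ‖(a • c).2‖ := by
  show ‖a * c.1 - p * (a * c.2)‖ < r * ‖a * c.2‖
  have h1 : a * c.1 - p * (a * c.2) = a * (c.1 - p * c.2) := by ring
  rw [h1, norm_mul, norm_mul]
  have h2 := mul_lt_mul_of_pos_left h (norm_pos_iff.2 ha)
  calc ‖a‖ * ‖c.1 - p * c.2‖ < ‖a‖ * (r * ‖c.2‖) := h2
    _ = r * (‖a‖ * ‖c.2‖) := by ring

theorem cone_ball {p : ℂ} {r : ℝ} {w a : ℂ} (ha : a ≠ 0) (h : w ∈ ball p r) :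
    ‖(a • ((w, 1) : ℂ × ℂ)).1 - p * (a • ((w, 1) : ℂ × ℂ)).2‖ <
      r * ‖(a • ((w, 1) : ℂ × ℂ)).2‖ := by
  apply cone_smul ha
  show ‖w - p * 1‖ < r * ‖(1 : ℂ)‖
  rw [mul_one, norm_one, mul_one, ← dist_eq_norm]
  exact h

theorem orb {d N : ℕ} {x : CV d} {p : ℂ} {ρ : ℝ}
    (h : ∀ z ∈ closedBall p ρ, ‖((hF x)^[N] (z, 1)).1 - p * ((hF x)^[N] (z, 1)).2‖ <
      ρ * ‖((hF x)^[N] (z, 1)).2‖) (z : ℂ) (hz : z ∈ closedBall p ρ) (j : ℕ) :
    ∃ c : ℂ, c ≠ 0 ∧ ∃ w ∈ closedBall p ρ, (hF x)^[N * j] (z, 1) = c • ((w, 1) : ℂ × ℂ) ∧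
      (z ∈ ball p ρ ∨ 0 < j → w ∈ ball p ρ) := by
  induction j with
  | zero =>
    refine ⟨1, one_ne_zero, z, hz, by simp, ?_⟩
    rintro (h1 | h1)
    · exact h1
    · exact absurd h1 (lt_irrefl _)
  | succ j ih =>
    obtain ⟨c, hc, w, hw, h1, -⟩ := ih
    obtain ⟨i1, i2, i3⟩ := cone (h w hw)
    refine ⟨c ^ (d ^ N) * ((hF x)^[N] (w, 1)).2, mul_ne_zero (pow_ne_zero _ hc) i1,
      ((hF x)^[N] (w, 1)).1 / ((hF x)^[N] (w, 1)).2, ball_subset_closedBall i2, ?_, fun _ => i2⟩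
    have e1 : (hF x)^[N * (j + 1)] (z, 1) = (hF x)^[N] ((hF x)^[N * j] (z, 1)) := by
      rw [Nat.mul_succ, Nat.add_comm, Function.iterate_add_apply]
    rw [e1, h1, hF_iter_smul, mul_smul, ← i3]

end MultAux

open MultAux in
/-- PACKAGE X7 -/
theorem s_mult : S_mult := by
  intro d N l i x _ _ hl hT
  obtain ⟨hT1, m, hT2⟩ := hT
  have horb := orb hT1
  refine ⟨⟨?_, m, ?_⟩, ?_⟩
  · intro z hz
    obtain ⟨c, hc, w, -, h1, h2⟩ := horb z hz l
    rw [h1]
    exact cone_ball hc (h2 (Or.inr hl))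
  · intro z hz
    obtain ⟨c, hc, w, hw, h1, -⟩ := horb z hz ((l - 1) * m)
    have e1 : (hF x)^[N * l * m] (z, 1) = (hF x)^[N * m] ((hF x)^[N * ((l - 1) * m)] (z, 1)) := by
      rw [← Function.iterate_add_apply]
      congr 1
      obtain ⟨l', rfl⟩ := Nat.exists_eq_add_of_le' hl
      rw [Nat.add_sub_cancel]
      ring
    rw [e1, h1, hF_iter_smul]
    exact cone_smul (pow_ne_zero _ hc) (hT2 w hw)
  · intro c k hk
    obtain ⟨i', hi', hk⟩ := hk
    rw [Finset.mem_singleton] at hi'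
    subst hi'
    obtain ⟨h1, h2, h3⟩ := cone hk
    refine ⟨k, i', Finset.mem_singleton_self _, ?_⟩
    obtain ⟨c', hc', w, -, h4, h5⟩ := horb _ (ball_subset_closedBall h2) ((l - 1) * k)
    have e1 : (hF x)^[N * l * k] c = (hF x)^[N * ((l - 1) * k)] ((hF x)^[N * k] c) := by
      rw [← Function.iterate_add_apply]
      congr 1
      obtain ⟨l', rfl⟩ := Nat.exists_eq_add_of_le' hl
      rw [Nat.add_sub_cancel]
      ring
    rw [e1, h3, hF_iter_smul, h4, smul_smul]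
    exact cone_ball (mul_ne_zero (pow_ne_zero _ h1) hc') (h5 (Or.inl h2))

namespace OneAux

theorem fa_analytic {d : ℕ} (N : ℕ) (x : CV d) (a : ℂ) (h : ((hF x)^[N] (a, 1)).2 ≠ 0) :
    AnalyticAt ℂ (Fa N x) a := by
  have h1 := AttrAux.fst_diff x N
  have h2 : Differentiable ℂ (fun z : ℂ => ((hF x)^[N] (z, 1)).1) := fun z => (h1 z).fst
  have h3 : Differentiable ℂ (fun z : ℂ => ((hF x)^[N] (z, 1)).2) := fun z => (h1 z).snd
  exact (h2.analyticAt a).div (h3.analyticAt a) h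

/-- second order Taylor expansion -/
theorem second {g : ℂ → ℂ} {a C : ℂ} (hg : AnalyticAt ℂ g a) (h0 : g a = a) (h1 : deriv g a = 1)
    (hC : Tendsto (fun z => (g z - z) / (z - a) ^ 2) (𝓝[≠] a) (𝓝 C)) :
    deriv (deriv g) a = 2 * C := by
  set h : ℂ → ℂ := fun z => g z - z with hh
  have ha : AnalyticAt ℂ h a := hg.sub analyticAt_id
  have hh0 : h a = 0 := by rw [hh]; simp [h0]
  have hh1 : deriv h a = 0 := by
    have : HasDerivAt h (deriv g a - 1) a :=
      (hg.differentiableAt.hasDerivAt).sub (hasDerivAt_id a)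
    rw [this.deriv, h1, sub_self]
  have ha1 : AnalyticAt ℂ (dslope h a) a := by
    obtain ⟨p, hp⟩ := ha
    exact ⟨_, hp.has_fpower_series_dslope_fslope⟩
  have ha2 : AnalyticAt ℂ (dslope (dslope h a) a) a := by
    obtain ⟨p, hp⟩ := ha1
    exact ⟨_, hp.has_fpower_series_dslope_fslope⟩
  set k := dslope (dslope h a) a with hk
  have e1 : ∀ z, h z = (z - a) ^ 2 * k z := by
    intro z
    have i1 := sub_smul_dslope h a z
    have i2 := sub_smul_dslope (dslope h a) a z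
    rw [dslope_same, hh1, sub_zero] at i2
    rw [hh0, sub_zero, ← i2, ← hk] at i1
    rw [← i1, smul_eq_mul, smul_eq_mul]
    ring
  have e2 : k a = C := by
    have i1 : Tendsto k (𝓝[≠] a) (𝓝 (k a)) := ha2.continuousAt.tendsto.mono_left nhdsWithin_le_nhds
    refine tendsto_nhds_unique i1 (hC.congr' ?_)
    filter_upwards [self_mem_nhdsWithin] with z hz
    have hz' : z - a ≠ 0 := sub_ne_zero.2 hz
    show h z / (z - a) ^ 2 = k z
    rw [e1 z]
    field_simp
  have e3 : ∀ z, g z = z + (z - a) ^ 2 * k z := by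
    intro z
    rw [← e1 z]
    simp [hh]
  have e4 : deriv g =ᶠ[𝓝 a] fun z => 1 + (2 * (z - a) * k z + (z - a) ^ 2 * deriv k z) := by
    filter_upwards [ha2.eventually_analyticAt] with z hz
    have i1 : HasDerivAt (fun z => (z - a) ^ 2) (2 * (z - a)) z := by
      have := ((hasDerivAt_id z).sub_const a).pow 2
      show HasDerivAt ((fun x => x - a) ^ 2) (2 * (z - a)) z
      simpa using this
    have i2 : HasDerivAt (fun z => z + (z - a) ^ 2 * k z)
        (1 + (2 * (z - a) * k z + (z - a) ^ 2 * deriv k z)) z :=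
      (hasDerivAt_id z).add (i1.mul hz.differentiableAt.hasDerivAt)
    have i3 : g = fun z => z + (z - a) ^ 2 * k z := funext e3
    rw [i3]
    exact i2.deriv
  rw [e4.deriv_eq]
  have i1 : HasDerivAt (fun z => (z - a) ^ 2) (2 * (a - a)) a := by
    have := ((hasDerivAt_id a).sub_const a).pow 2
    show HasDerivAt ((fun x => x - a) ^ 2) (2 * (a - a)) a
    simpa using this
  have i2 : HasDerivAt (fun z => 2 * (z - a)) 2 a := by
    have := ((hasDerivAt_id a).sub_const a).const_mul (2 : ℂ)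
    simpa using this
  have i3 := (i2.mul ha2.differentiableAt.hasDerivAt).add
    (i1.mul ha2.deriv.differentiableAt.hasDerivAt)
  have i4 := i3.const_add (1 : ℂ)
  have i5 : deriv (fun z => 1 + (2 * (z - a) * k z + (z - a) ^ 2 * deriv k z)) a = _ := i4.deriv
  rw [i5, e2]
  ring

end OneAux

open OneAux in
/-- PACKAGE X8 -/
theorem s_one : S_one := by
  intro d p x a _ h
  obtain ⟨h1, h2, h3, C, hC, h4⟩ := h
  have h5 : deriv (Fa p x) a = 1 := by
    have := h3.pow_eq_one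
    rwa [pow_one] at this
  refine ⟨h1, h2, h5, ?_⟩
  rw [mul_one] at h4
  rw [second (fa_analytic p x a h1) h2 h5 h4]
  exact mul_ne_zero two_ne_zero hC

open AttrAux in
/-- PACKAGE X9 -/
theorem s_count : S_count := by
  intro d p q x _ _ _
  set S := {a : ℂ | SatF p q x a} with hS
  have hfix : ∀ b ∈ S, Fa (p * q) x b = b := by
    intro b hb
    obtain ⟨h1, h2, -⟩ := hb
    have h3 : ∀ j : ℕ, ∃ c : ℂ, c ≠ 0 ∧ (hF x)^[p * j] (b, 1) = c • ((b, 1) : ℂ × ℂ) := by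
      intro j
      induction j with
      | zero => exact ⟨1, one_ne_zero, by simp⟩
      | succ j ih =>
        obtain ⟨c, hc, hj⟩ := ih
        refine ⟨c ^ (d ^ p) * ((hF x)^[p] (b, 1)).2, mul_ne_zero (pow_ne_zero _ hc) h1, ?_⟩
        have e1 : (hF x)^[p * (j + 1)] (b, 1) = (hF x)^[p] ((hF x)^[p * j] (b, 1)) := by
          rw [Nat.mul_succ, Nat.add_comm, Function.iterate_add_apply]
        have e2 := eq_smul x p b h1
        rw [h2] at e2
        rw [e1, hj, hF_iter_smul, mul_smul, ← e2]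
    obtain ⟨c, hc, hj⟩ := h3 q
    unfold Fa
    rw [hj]
    show c * b / (c * 1) = b
    field_simp
  have hdisc : DiscreteTopology S := by
    rw [discreteTopology_subtype_iff]
    intro a ha
    rw [← disjoint_iff, disjoint_principal_right]
    obtain ⟨-, -, -, C, hC, h4⟩ := ha
    have h5 := h4.eventually_ne hC
    filter_upwards [h5] with z hz hzS
    apply hz
    rw [hfix z hzS, sub_self, zero_div]
  rw [← Set.countable_coe_iff]
  exact TopologicalSpace.separableSpace_iff_countable.1 inferInstance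

end Pool.Agent.Helper65.EP
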