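import Mathlib
import Pool.Agent.Helper65.EP.Stm3

/-! PACKAGE X1 (helper34 for helper65): no resonant terms. -/

set_option autoImplicit false

open Topology Filter Metric Set

namespace Pool.Agent.Helper65.EP

theorem reso : S_reso := by
  intro q lam h hq hlam hh h0 hd
  have hlam0 : lam ≠ 0 := hlam.ne_zero (by omega)
  have hder : HasDerivAt h lam 0 := hd ▸ hh.differentiableAt.hasDerivAt
  have hsd : HasStrictDerivAt h lam 0 := hd ▸ hh.hasStrictDerivAt
  have hit : ∀ n : ℕ, AnalyticAt ℂ (h^[n]) 0 ∧ (h^[n]) 0 = 0 := by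
    intro n
    induction n with
    | zero => exact ⟨analyticAt_id, rfl⟩
    | succ n ih =>
      rw [Function.iterate_succ']
      refine ⟨AnalyticAt.comp (by rw [ih.2]; exact hh) ih.1, ?_⟩
      rw [Function.comp_apply, ih.2, h0]
  have hH := (hit q).1
  have hH0 := (hit q).2
  have hHd : HasDerivAt (h^[q]) 1 0 := by
    have := HasDerivAt.iterate (0 : ℂ) hder h0 q
    rwa [hlam.pow_eq_one] at this
  set F : ℂ → ℂ := fun y => h^[q] y - y with hF
  have hFa : AnalyticAt ℂ F 0 := hH.sub analyticAt_id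
  by_cases hF0 : ∀ᶠ y in 𝓝 (0 : ℂ), F y = 0
  · refine ⟨fun _ => 0, analyticAt_const, ?_⟩
    filter_upwards [hF0] with y hy
    have : h^[q] y - y = 0 := hy
    rw [mul_zero, add_zero]
    exact sub_eq_zero.1 this
  · obtain ⟨j, g, hg, hg0, hgF⟩ := (hFa.exists_eventuallyEq_pow_smul_nonzero_iff).2 hF0
    have hgF' : ∀ᶠ y in 𝓝 (0 : ℂ), h^[q] y - y = y ^ j * g y := by
      filter_upwards [hgF] with y hy
      have : F y = (y - 0) ^ j • g y := hy
      rw [sub_zero, smul_eq_mul] at this
      exact this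
    -- `j ≠ 0`
    have hj0 : j ≠ 0 := by
      rintro rfl
      have := hgF'.self_of_nhds
      rw [hH0, pow_zero, one_mul, sub_zero] at this
      exact hg0 this.symm
    -- `j ≠ 1`
    have hj1 : j ≠ 1 := by
      rintro rfl
      have h1 : HasDerivAt (fun y : ℂ => y ^ 1 * g y) (g 0) 0 := by
        have e1 := (hasDerivAt_id' (0 : ℂ)).mul hg.differentiableAt.hasDerivAt
        rw [one_mul, zero_mul, add_zero] at e1
        refine e1.congr_of_eventuallyEq (Filter.Eventually.of_forall fun y => ?_)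
        simp only [Pi.mul_apply, pow_one]
      have h2 : HasDerivAt (fun y : ℂ => h^[q] y - y) (1 - 1) 0 := hHd.sub (hasDerivAt_id (0 : ℂ))
      have h3 := h1.congr_of_eventuallyEq hgF'
      have h4 := h2.unique h3
      rw [sub_self] at h4
      exact hg0 h4.symm
    -- the commutation
    have hcont : ContinuousAt h 0 := hh.continuousAt
    have hHc : ContinuousAt (h^[q]) 0 := hH.continuousAt
    have hth : Tendsto h (𝓝 0) (𝓝 0) := by simpa [ContinuousAt, h0] using hcont
    have htH : Tendsto (h^[q]) (𝓝 0) (𝓝 0) := by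
      have := hHc
      rw [ContinuousAt, hH0] at this
      exact this
    have hA : Tendsto (fun y => (h (h^[q] y) - h y) / y ^ j) (𝓝[≠] 0) (𝓝 (lam * g 0)) := by
      have e1 : Tendsto (fun y : ℂ => ((h^[q]) y, y)) (𝓝[≠] 0) (𝓝 ((0 : ℂ), (0 : ℂ))) :=
        (Tendsto.prodMk_nhds htH tendsto_id).mono_left nhdsWithin_le_nhds
      have e2 := hsd.isLittleO.comp_tendsto e1
      have e3 : (fun y : ℂ => (h^[q]) y - y) =O[𝓝[≠] 0] fun y : ℂ => y ^ j := by
        have e4 : ∀ᶠ y in 𝓝 (0 : ℂ), ‖g y‖ ≤ ‖g 0‖ + 1 := by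
          have := hg.continuousAt.norm
          exact (this.eventually (ge_mem_nhds (lt_add_one _))).mono fun y hy => hy
        refine Asymptotics.IsBigO.of_bound (‖g 0‖ + 1) ?_
        filter_upwards [nhdsWithin_le_nhds e4, nhdsWithin_le_nhds hgF'] with y h1 h2
        rw [h2, norm_mul, mul_comm]
        exact mul_le_mul_of_nonneg_right h1 (norm_nonneg _)
      have e5 : (fun y : ℂ => h ((h^[q]) y) - h y - lam * ((h^[q]) y - y)) =o[𝓝[≠] 0]
          fun y : ℂ => y ^ j := by
        refine Asymptotics.IsLittleO.trans_isBigO ?_ e3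
        refine e2.congr (fun y => ?_) (fun y => rfl)
        simp [mul_comm]
      have e6 := e5.tendsto_div_nhds_zero
      have e7 : Tendsto (fun y : ℂ => lam * g y) (𝓝[≠] 0) (𝓝 (lam * g 0)) :=
        (tendsto_const_nhds.mul hg.continuousAt.tendsto).mono_left nhdsWithin_le_nhds
      have e8 := e6.add e7
      rw [zero_add] at e8
      refine e8.congr' ?_
      filter_upwards [nhdsWithin_le_nhds hgF', self_mem_nhdsWithin] with y h1 h2
      have h3 : y ^ j ≠ 0 := pow_ne_zero _ h2
      rw [h1]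
      field_simp
      ring
    have hB : Tendsto (fun y => (h (h^[q] y) - h y) / y ^ j) (𝓝[≠] 0) (𝓝 (lam ^ j * g 0)) := by
      have e1 : Tendsto (fun y : ℂ => h y / y) (𝓝[≠] 0) (𝓝 lam) := by
        have := hder.tendsto_slope
        refine this.congr fun y => ?_
        rw [slope_def_field, h0, sub_zero, sub_zero]
      have e2 : Tendsto (fun y : ℂ => g (h y)) (𝓝[≠] 0) (𝓝 (g 0)) :=
        (hg.continuousAt.tendsto.comp hth).mono_left nhdsWithin_le_nhds
      have e3 := (e1.pow j).mul e2
      refine e3.congr' ?_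
      filter_upwards [nhdsWithin_le_nhds (hth.eventually hgF'), self_mem_nhdsWithin] with y h1 h2
      have h3 : y ^ j ≠ 0 := pow_ne_zero _ h2
      have h4 : h (h^[q] y) = h^[q] (h y) := by
        rw [← Function.iterate_succ_apply' h q y, Function.iterate_succ_apply]
      rw [h4, h1, div_pow]
      field_simp
    have hAB := tendsto_nhds_unique hA hB
    have hpow : lam ^ (j - 1) = 1 := by
      have e1 : lam ^ j = lam := (mul_right_cancel₀ hg0 hAB).symm
      have e2 : lam ^ (j - 1) * lam = 1 * lam := by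
        rw [← pow_succ, Nat.sub_add_cancel (Nat.one_le_iff_ne_zero.2 hj0), e1, one_mul]
      exact mul_right_cancel₀ hlam0 e2
    have hdvd : q ∣ j - 1 := (hlam.pow_eq_one_iff_dvd _).1 hpow
    have hjq : q + 1 ≤ j := by
      have := Nat.le_of_dvd (by omega) hdvd
      omega
    refine ⟨fun y => y ^ (j - (q + 1)) * g y, (analyticAt_id.pow _).mul hg, ?_⟩
    filter_upwards [hgF'] with y hy
    rw [← mul_assoc, ← pow_add, Nat.add_sub_cancel' hjq, ← hy]
    ring

end Pool.Agent.Helper65.EP
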