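import Mathlib
import Pool.Agent.Helper65.EP.Stm3
import Pool.Agent.Helper65.EP.Unfold

/-! PACKAGE X2: the unfolding of a parabolic point whose multiplier is a primitive root of unity. -/

set_option autoImplicit false

open Topology Filter Metric Set MeasureTheory

namespace Pool.Agent.Helper65.EP

namespace US

/-- Schwarz lemma of order `n` (with a loss) -/
theorem schwarz {f : ℂ → ℂ} {n : ℕ} {R M : ℝ} (hR : 0 < R)
    (hf : DifferentiableOn ℂ f (ball 0 R)) (hM : ∀ z ∈ ball (0 : ℂ) R, ‖f z‖ ≤ M)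
    (hE : ∃ E : ℂ → ℂ, AnalyticAt ℂ E 0 ∧ ∀ᶠ z in 𝓝 (0 : ℂ), f z = z ^ n * E z)
    {y : ℂ} (hy : ‖y‖ ≤ R / 2) : ‖f y‖ ≤ M * (2 / R) ^ n * ‖y‖ ^ n := by
  classical
  obtain ⟨E, hE1, hE2⟩ := hE
  set F : ℂ → ℂ := fun z => if z = 0 then E 0 else f z / z ^ n with hF
  have hF0 : F 0 = E 0 := by simp [hF]
  have hFne : ∀ z, z ≠ 0 → F z = f z / z ^ n := fun z hz => by simp [hF, hz]
  have hfF : ∀ z, f z = z ^ n * F z := by
    intro z
    by_cases hz : z = 0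
    · rw [hz, hF0]; exact hE2.self_of_nhds
    · rw [hFne z hz]; field_simp
  have hFE : F =ᶠ[𝓝 0] E := by
    filter_upwards [hE2] with z hz
    by_cases h : z = 0
    · rw [h, hF0]
    · rw [hFne z h, hz]; field_simp
  have hd : DifferentiableOn ℂ F (ball 0 R) := by
    intro z hz
    by_cases h : z = 0
    · rw [h]
      exact (hE1.differentiableAt.congr_of_eventuallyEq hFE).differentiableWithinAt
    · have h1 : F =ᶠ[𝓝 z] fun z => f z / z ^ n := by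
        filter_upwards [isOpen_ne.mem_nhds h] with w hw
        exact hFne w hw
      have h2 : DifferentiableAt ℂ f z := (hf z hz).differentiableAt (isOpen_ball.mem_nhds hz)
      exact ((h2.div (differentiableAt_id.pow n) (pow_ne_zero n h)).congr_of_eventuallyEq
        h1).differentiableWithinAt
  have hR2 : (0 : ℝ) < R / 2 := by positivity
  have hcl : closure (ball (0 : ℂ) (R / 2)) ⊆ ball 0 R := by
    rw [closure_ball _ hR2.ne']
    exact closedBall_subset_ball (by linarith)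
  have h3 : ‖F y‖ ≤ M * (2 / R) ^ n := by
    refine Complex.norm_le_of_forall_mem_frontier_norm_le (U := ball (0 : ℂ) (R / 2))
      isBounded_ball (hd.mono hcl).diffContOnCl (fun z hz => ?_) ?_
    · rw [frontier_ball _ hR2.ne', mem_sphere, dist_zero_right] at hz
      have hz0 : z ≠ 0 := by rintro rfl; rw [norm_zero] at hz; linarith
      rw [hFne z hz0, norm_div, norm_pow, hz, div_eq_mul_inv, ← inv_pow, inv_div]
      exact mul_le_mul_of_nonneg_right (hM z (by rw [mem_ball, dist_zero_right, hz]; linarith))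
        (by positivity)
    · rw [closure_ball _ hR2.ne', mem_closedBall, dist_zero_right]
      exact hy
  rw [hfF y, norm_mul, norm_pow, mul_comm]
  exact mul_le_mul_of_nonneg_right h3 (by positivity)

theorem ord1 {f : ℂ → ℂ} (hf : AnalyticAt ℂ f 0) (h0 : f 0 = 0) :
    ∃ E : ℂ → ℂ, AnalyticAt ℂ E 0 ∧ ∀ᶠ z in 𝓝 (0 : ℂ), f z = z ^ 1 * E z := by
  have h1 : ((1 : ℕ) : ℕ∞) ≤ analyticOrderAt f 0 := by
    rw [Nat.cast_one]
    exact Order.one_le_iff_pos.2 (pos_iff_ne_zero.2 (hf.analyticOrderAt_ne_zero.2 h0))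
  obtain ⟨g, hg, h⟩ := (natCast_le_analyticOrderAt hf).1 h1
  exact ⟨g, hg, by simpa using h⟩

theorem ord2 {f : ℂ → ℂ} (hf : AnalyticAt ℂ f 0) (h0 : f 0 = 0) (h1 : deriv f 0 = 0) :
    ∃ E : ℂ → ℂ, AnalyticAt ℂ E 0 ∧ ∀ᶠ z in 𝓝 (0 : ℂ), f z = z ^ 2 * E z := by
  have h2 : ((2 : ℕ) : ℕ∞) ≤ analyticOrderAt f 0 := by
    have h3 := hf.analyticOrderAt_deriv_add_one
    have h4 : (1 : ℕ∞) ≤ analyticOrderAt (deriv f) 0 :=
      Order.one_le_iff_pos.2 (pos_iff_ne_zero.2 (hf.deriv.analyticOrderAt_ne_zero.2 h1))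
    have h5 : (fun z => f z - f 0) = f := by funext z; rw [h0, sub_zero]
    simp only [h5] at h3
    rw [← h3]
    calc ((2 : ℕ) : ℕ∞) = 1 + 1 := by norm_num
      _ ≤ _ := by gcongr
  obtain ⟨g, hg, h⟩ := (natCast_le_analyticOrderAt hf).1 h2
  exact ⟨g, hg, by simpa using h⟩

theorem iter_conj (f : ℂ → ℂ) (c : ℂ) (n : ℕ) (y : ℂ) :
    (fun y => f (c + y) - c)^[n] y = f^[n] (c + y) - c := by
  induction n with
  | zero => simp
  | succ n ih => rw [Function.iterate_succ_apply', ih, Function.iterate_succ_apply']; simp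

section

variable (φ : ℂ × ℂ → ℂ) (ζ ρ : ℂ → ℂ)

/-- the map in the coordinate at the fixed point, with the multiplier replaced by `s` -/
noncomputable def hh (p : ℂ × ℂ × ℂ) : ℂ :=
  φ (p.2.1, ζ p.2.1 + p.2.2) - ζ p.2.1 + (p.1 - ρ p.2.1) * p.2.2

noncomputable def PP (p : ℂ × ℂ × ℂ) : ℂ × ℂ × ℂ := (p.1, p.2.1, hh φ ζ ρ p)

theorem PP_iter (n : ℕ) (s τ y : ℂ) : (PP φ ζ ρ)^[n] (s, τ, y) =
    (s, τ, (fun y => hh φ ζ ρ (s, τ, y))^[n] y) := by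
  induction n with
  | zero => rfl
  | succ n ih => rw [Function.iterate_succ_apply', ih, Function.iterate_succ_apply']; rfl

variable {φ ζ ρ}

theorem hh_an {a lam : ℂ} (hφ : AnalyticAt ℂ φ (0, a)) (hζ : AnalyticAt ℂ ζ 0) (ζ0 : ζ 0 = a)
    (hρ : AnalyticAt ℂ ρ 0) : AnalyticAt ℂ (hh φ ζ ρ) (lam, 0, 0) := by
  have a1 : AnalyticAt ℂ (fun p : ℂ × ℂ × ℂ => p.1) (lam, 0, 0) := analyticAt_fst
  have a2 : AnalyticAt ℂ (fun p : ℂ × ℂ × ℂ => p.2.1) (lam, 0, 0) :=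
    AnalyticAt.fun_comp (g := Prod.fst) (f := Prod.snd) analyticAt_fst analyticAt_snd
  have a3 : AnalyticAt ℂ (fun p : ℂ × ℂ × ℂ => p.2.2) (lam, 0, 0) :=
    AnalyticAt.fun_comp (g := Prod.snd) (f := Prod.snd) analyticAt_snd analyticAt_snd
  have b1 : AnalyticAt ℂ (fun p : ℂ × ℂ × ℂ => ζ p.2.1) (lam, 0, 0) :=
    AnalyticAt.fun_comp (g := ζ) (f := fun p : ℂ × ℂ × ℂ => p.2.1) hζ a2
  have b2 : AnalyticAt ℂ (fun p : ℂ × ℂ × ℂ => ρ p.2.1) (lam, 0, 0) :=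
    AnalyticAt.fun_comp (g := ρ) (f := fun p : ℂ × ℂ × ℂ => p.2.1) hρ a2
  have b3 : AnalyticAt ℂ (fun p : ℂ × ℂ × ℂ => φ (p.2.1, ζ p.2.1 + p.2.2)) (lam, 0, 0) :=
    AnalyticAt.fun_comp (g := φ) (f := fun p : ℂ × ℂ × ℂ => (p.2.1, ζ p.2.1 + p.2.2))
      (by simpa [ζ0] using hφ) (a2.prod (b1.add a3))
  exact (b3.sub b1).add ((a1.sub b2).mul a3)

theorem PP_an {a lam : ℂ} (hφ : AnalyticAt ℂ φ (0, a)) (h0 : φ (0, a) = a)
    (hζ : AnalyticAt ℂ ζ 0) (ζ0 : ζ 0 = a)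
    (hρ : AnalyticAt ℂ ρ 0) (n : ℕ) : AnalyticAt ℂ ((PP φ ζ ρ)^[n]) (lam, 0, 0) ∧
      (PP φ ζ ρ)^[n] (lam, 0, 0) = (lam, 0, 0) := by
  have a1 : AnalyticAt ℂ (fun p : ℂ × ℂ × ℂ => p.1) (lam, 0, 0) := analyticAt_fst
  have a2 : AnalyticAt ℂ (fun p : ℂ × ℂ × ℂ => p.2.1) (lam, 0, 0) :=
    AnalyticAt.fun_comp (g := Prod.fst) (f := Prod.snd) analyticAt_fst analyticAt_snd
  have h1 : AnalyticAt ℂ (PP φ ζ ρ) (lam, 0, 0) := a1.prod (a2.prod (hh_an hφ hζ ζ0 hρ))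
  have h2 : PP φ ζ ρ (lam, 0, 0) = (lam, 0, 0) := by
    simp [PP, hh, ζ0, h0]
  induction n with
  | zero => exact ⟨analyticAt_id, rfl⟩
  | succ n ih =>
    refine ⟨?_, ?_⟩
    · rw [Function.iterate_succ']
      refine AnalyticAt.comp ?_ ih.1
      rw [ih.2]; exact h1
    · rw [Function.iterate_succ_apply', ih.2, h2]

end

/-- the two estimates of the perturbed iterate -/
theorem main (hX1 : S_reso) {φ : ℂ × ℂ → ℂ} {ζ ρ : ℂ → ℂ} {a lam C : ℂ} {q : ℕ} (hq : 2 ≤ q)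
    (hl : IsPrimitiveRoot lam q) (hφ : AnalyticAt ℂ φ (0, a)) (h0 : φ (0, a) = a)
    (hζ : AnalyticAt ℂ ζ 0) (ζ0 : ζ 0 = a) (hρ : AnalyticAt ℂ ρ 0) (ρ0 : ρ 0 = lam)
    (hfix : ∀ᶠ τ in 𝓝 (0 : ℂ), φ (τ, ζ τ) = ζ τ)
    (hder : ∀ᶠ τ in 𝓝 (0 : ℂ), HasDerivAt (fun z => φ (τ, z)) (ρ τ) (ζ τ))
    (hC : Tendsto (fun z => ((fun z => φ (0, z))^[q] z - z) / (z - a) ^ (q + 1)) (𝓝[≠] a) (𝓝 C)) :
    ∃ K : ℝ, 0 ≤ K ∧ ∀ ε : ℝ, 0 < ε → ∃ r : ℝ, 0 < r ∧ ∀ᶠ τ in 𝓝 (0 : ℂ), ∀ y : ℂ, ‖y‖ ≤ r →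
      ‖(fun z => φ (τ, z))^[q] (ζ τ + y) - ζ τ - ρ τ ^ q * y - C * y ^ (q + 1)‖ ≤
        K * ‖ρ τ - lam‖ * ‖y‖ ^ 2 + ε * ‖y‖ ^ (q + 1) := by
  have hlq : lam ^ q = 1 := hl.pow_eq_one
  have hln : ‖lam‖ = 1 := Complex.norm_eq_one_of_pow_eq_one hlq (by omega)
  set H : ℂ × ℂ × ℂ → ℂ := fun p => ((PP φ ζ ρ)^[q] p).2.2 with hH
  have hHk : ∀ s τ y, H (s, τ, y) = (fun y => hh φ ζ ρ (s, τ, y))^[q] y := by
    intro s τ y
    simp only [hH]
    rw [PP_iter]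
  obtain ⟨hP1, hP2⟩ := PP_an (lam := lam) hφ h0 hζ ζ0 hρ q
  have hHan : AnalyticAt ℂ H (lam, 0, 0) := by
    have e1 : AnalyticAt ℂ (fun p : ℂ × ℂ × ℂ => p.2.2) ((PP φ ζ ρ)^[q] (lam, 0, 0)) :=
      AnalyticAt.fun_comp (g := Prod.snd) (f := Prod.snd) analyticAt_snd analyticAt_snd
    exact AnalyticAt.fun_comp (g := fun p : ℂ × ℂ × ℂ => p.2.2) e1 hP1
  have hH0 : H (lam, 0, 0) = 0 := by simp only [hH]; rw [hP2]
  have hev : ∀ᶠ p in 𝓝 ((lam, 0, 0) : ℂ × ℂ × ℂ), AnalyticAt ℂ H p ∧ ‖H p‖ ≤ 1 := by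
    refine hHan.eventually_analyticAt.and ?_
    have e1 := hHan.continuousAt.norm.tendsto
    simp only [hH0, norm_zero] at e1
    exact (e1.eventually (gt_mem_nhds one_pos)).mono fun p hp => le_of_lt hp
  have hτev : ∀ᶠ τ in 𝓝 (0 : ℂ), φ (τ, ζ τ) = ζ τ ∧ HasDerivAt (fun z => φ (τ, z)) (ρ τ) (ζ τ) ∧
      AnalyticAt ℂ φ (τ, ζ τ) := by
    refine hfix.and (hder.and ?_)
    have e1 : Tendsto (fun τ : ℂ => (τ, ζ τ)) (𝓝 0) (𝓝 (0, a)) := by
      rw [nhds_prod_eq]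
      refine tendsto_id.prodMk ?_
      have := hζ.continuousAt.tendsto
      rwa [ζ0] at this
    exact e1.eventually hφ.eventually_analyticAt
  obtain ⟨R1, hR1, hb1⟩ := Metric.eventually_nhds_iff_ball.1 hev
  obtain ⟨R2, hR2, hb2⟩ := Metric.eventually_nhds_iff_ball.1 hτev
  obtain ⟨R, hR, hRR1, hRR2, hR11⟩ : ∃ R : ℝ, 0 < R ∧ R ≤ R1 ∧ R ≤ R2 ∧ R ≤ 1 :=
    ⟨min R1 (min R2 1), by positivity, min_le_left _ _,
      (min_le_right _ _).trans (min_le_left _ _), (min_le_right _ _).trans (min_le_right _ _)⟩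
  have hB : ∀ s ∈ ball lam R, ∀ τ ∈ ball (0 : ℂ) R, ∀ y ∈ ball (0 : ℂ) R,
      AnalyticAt ℂ H (s, τ, y) ∧ ‖H (s, τ, y)‖ ≤ 1 := by
    intro s hs τ hτ y hy
    apply hb1
    rw [mem_ball, Prod.dist_eq, Prod.dist_eq, max_lt_iff, max_lt_iff]
    exact ⟨lt_of_lt_of_le hs hRR1, lt_of_lt_of_le hτ hRR1, lt_of_lt_of_le hy hRR1⟩
  have hT : ∀ τ ∈ ball (0 : ℂ) R, φ (τ, ζ τ) = ζ τ ∧
      HasDerivAt (fun z => φ (τ, z)) (ρ τ) (ζ τ) ∧ AnalyticAt ℂ φ (τ, ζ τ) :=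
    fun τ hτ => hb2 τ (lt_of_lt_of_le hτ hRR2)
  have hk0 : ∀ s, ∀ τ ∈ ball (0 : ℂ) R, hh φ ζ ρ (s, τ, 0) = 0 := by
    intro s τ hτ
    simp [hh, (hT τ hτ).1]
  have hkd : ∀ s, ∀ τ ∈ ball (0 : ℂ) R, HasDerivAt (fun y => hh φ ζ ρ (s, τ, y)) s 0 := by
    intro s τ hτ
    have e1 : HasDerivAt (fun y : ℂ => φ (τ, ζ τ + y)) (ρ τ) 0 := by
      have e2 : HasDerivAt (fun z => φ (τ, z)) (ρ τ) (ζ τ + 0) := by
        rw [add_zero]; exact (hT τ hτ).2.1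
      exact e2.comp_const_add (ζ τ) 0
    have e3 : HasDerivAt (fun y : ℂ => (s - ρ τ) * y) (s - ρ τ) 0 := by
      simpa using (hasDerivAt_id (0 : ℂ)).const_mul (s - ρ τ)
    have e4 := (e1.sub_const (ζ τ)).add e3
    refine (e4.congr_deriv (by ring)).congr_of_eventuallyEq (Eventually.of_forall fun y => ?_)
    simp [hh]
  have hka : ∀ s, ∀ τ ∈ ball (0 : ℂ) R, AnalyticAt ℂ (fun y => hh φ ζ ρ (s, τ, y)) 0 := by
    intro s τ hτ
    have e1 : AnalyticAt ℂ (fun y : ℂ => φ (τ, ζ τ + y)) 0 :=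
      AnalyticAt.fun_comp (g := φ) (f := fun y : ℂ => (τ, ζ τ + y))
        (by simpa using (hT τ hτ).2.2) (by fun_prop)
    have e2 : AnalyticAt ℂ (fun y : ℂ => φ (τ, ζ τ + y) - ζ τ + (s - ρ τ) * y) 0 :=
      (e1.sub analyticAt_const).add (analyticAt_const.mul analyticAt_id)
    exact e2
  have hHz : ∀ s, ∀ τ ∈ ball (0 : ℂ) R, H (s, τ, 0) = 0 := by
    intro s τ hτ
    rw [hHk]
    exact Function.iterate_fixed (hk0 s τ hτ) q
  have hHd : ∀ s, ∀ τ ∈ ball (0 : ℂ) R, HasDerivAt (fun y => H (s, τ, y)) (s ^ q) 0 := by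
    intro s τ hτ
    have e1 := HasDerivAt.iterate 0 (hkd s τ hτ) (hk0 s τ hτ) q
    exact e1.congr_of_eventuallyEq (Eventually.of_forall fun y => hHk s τ y)
  have hdy : ∀ s ∈ ball lam R, ∀ τ ∈ ball (0 : ℂ) R,
      DifferentiableOn ℂ (fun y => H (s, τ, y)) (ball 0 R) := by
    intro s hs τ hτ y hy
    have e1 : DifferentiableAt ℂ H (s, τ, y) := (hB s hs τ hτ y hy).1.differentiableAt
    have e2 : DifferentiableAt ℂ (fun y : ℂ => ((s, τ, y) : ℂ × ℂ × ℂ)) y := by fun_prop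
    exact (e1.comp y e2).differentiableWithinAt
  have hlam : lam ∈ ball lam R := mem_ball_self hR
  have h00 : (0 : ℂ) ∈ ball (0 : ℂ) R := mem_ball_self hR
  have hda : ∀ {f : ℂ → ℂ}, DifferentiableOn ℂ f (ball 0 R) → AnalyticAt ℂ f 0 :=
    fun hf => hf.analyticAt (ball_mem_nhds 0 hR)
  -- the dependence on `s`
  set M : ℝ := 3 + 2 ^ q with hM
  have hM0 : 0 ≤ M := by positivity
  have hD1 : ∀ s ∈ ball lam R, ∀ τ ∈ ball (0 : ℂ) R, ∀ y, ‖y‖ ≤ R / 2 →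
      ‖H (s, τ, y) - s ^ q * y - (H (lam, τ, y) - y)‖ ≤ M * (2 / R) ^ 2 * ‖y‖ ^ 2 := by
    intro s hs τ hτ y hy
    have d1 : DifferentiableOn ℂ (fun y => H (s, τ, y) - s ^ q * y - (H (lam, τ, y) - y))
        (ball 0 R) := ((hdy s hs τ hτ).sub (differentiableOn_id.const_mul _)).sub
          ((hdy lam hlam τ hτ).sub differentiableOn_id)
    refine schwarz (f := fun y => H (s, τ, y) - s ^ q * y - (H (lam, τ, y) - y)) hR d1
      (fun z hz => ?_) (ord2 (hda d1) ?_ ?_) hy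
    · have h1 := (hB s hs τ hτ z hz).2
      have h2 := (hB lam hlam τ hτ z hz).2
      have h3 : ‖s‖ ≤ 2 := by
        have e1 : ‖s‖ ≤ ‖s - lam‖ + ‖lam‖ := by
          calc ‖s‖ = ‖(s - lam) + lam‖ := by ring_nf
            _ ≤ _ := norm_add_le _ _
        have e2 : ‖s - lam‖ < R := by rw [← dist_eq_norm]; exact hs
        linarith
      have h4 : ‖z‖ ≤ 1 := by
        have : ‖z‖ < R := by simpa using hz
        linarith
      have h5 : ‖s ^ q * z‖ ≤ 2 ^ q := by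
        rw [norm_mul, norm_pow]
        calc ‖s‖ ^ q * ‖z‖ ≤ 2 ^ q * 1 := by gcongr
          _ = _ := mul_one _
      calc ‖H (s, τ, z) - s ^ q * z - (H (lam, τ, z) - z)‖
          ≤ (‖H (s, τ, z)‖ + ‖s ^ q * z‖) + (‖H (lam, τ, z)‖ + ‖z‖) :=
            (norm_sub_le _ _).trans (add_le_add (norm_sub_le _ _) (norm_sub_le _ _))
        _ ≤ (1 + 2 ^ q) + (1 + 1) := by gcongr
        _ = M := by rw [hM]; ring
    · simp only [hHz s τ hτ, hHz lam τ hτ]; ring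
    · have e1 := ((hHd s τ hτ).sub ((hasDerivAt_id (0 : ℂ)).const_mul (s ^ q))).sub
        ((hHd lam τ hτ).sub (hasDerivAt_id (0 : ℂ)))
      have e2 : HasDerivAt (fun y => H (s, τ, y) - s ^ q * y - (H (lam, τ, y) - y)) 0 0 := by
        refine (e1.congr_deriv ?_).congr_of_eventuallyEq (Eventually.of_forall fun y => ?_)
        · rw [hlq]; ring
        · rfl
      exact e2.deriv
  have hD2 : ∀ s, ‖s - lam‖ ≤ R / 2 → ∀ τ ∈ ball (0 : ℂ) R, ∀ y, ‖y‖ ≤ R / 2 →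
      ‖H (s, τ, y) - s ^ q * y - (H (lam, τ, y) - y)‖ ≤
        M * (2 / R) ^ 2 * ‖y‖ ^ 2 * (2 / R) ^ 1 * ‖s - lam‖ ^ 1 := by
    intro s hs τ hτ y hy
    have hyR : y ∈ ball (0 : ℂ) R := by rw [mem_ball, dist_zero_right]; linarith
    have hu : ∀ u ∈ ball (0 : ℂ) R, lam + u ∈ ball lam R := by
      intro u hu
      rw [mem_ball, dist_eq_norm, add_sub_cancel_left]
      simpa using hu
    have d1 : DifferentiableOn ℂ (fun u => H (lam + u, τ, y) - (lam + u) ^ q * y -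
        (H (lam, τ, y) - y)) (ball 0 R) := by
      intro u hu'
      have e1 : DifferentiableAt ℂ H (lam + u, τ, y) :=
        (hB _ (hu u hu') τ hτ y hyR).1.differentiableAt
      have e2 : DifferentiableAt ℂ (fun u : ℂ => ((lam + u, τ, y) : ℂ × ℂ × ℂ)) u := by fun_prop
      have e3 : DifferentiableAt ℂ (fun u : ℂ => (lam + u) ^ q * y) u := by fun_prop
      exact (((e1.comp u e2).sub e3).sub_const _).differentiableWithinAt
    have e4 := schwarz (n := 1) (f := fun u => H (lam + u, τ, y) - (lam + u) ^ q * y -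
        (H (lam, τ, y) - y)) hR d1 (fun u hu' => hD1 _ (hu u hu') τ hτ y hy)
        (ord1 (hda d1) (by simp [hlq])) hs
    simpa using e4
  -- the dependence on `τ`
  have hK1 : ∀ y ∈ ball (0 : ℂ) R, ∀ τ, ‖τ‖ ≤ R / 2 →
      ‖H (lam, τ, y) - H (lam, 0, y)‖ ≤ 2 * (2 / R) ^ 1 * ‖τ‖ ^ 1 := by
    intro y hy τ hτ
    have d1 : DifferentiableOn ℂ (fun τ => H (lam, τ, y) - H (lam, 0, y)) (ball 0 R) := by
      intro u hu'
      have e1 : DifferentiableAt ℂ H (lam, u, y) := (hB _ hlam u hu' y hy).1.differentiableAt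
      have e2 : DifferentiableAt ℂ (fun u : ℂ => ((lam, u, y) : ℂ × ℂ × ℂ)) u := by fun_prop
      exact ((e1.comp u e2).sub_const _).differentiableWithinAt
    refine schwarz (n := 1) (f := fun τ => H (lam, τ, y) - H (lam, 0, y)) hR d1
      (fun u hu' => ?_) (ord1 (hda d1) (by simp)) hτ
    calc ‖H (lam, u, y) - H (lam, 0, y)‖ ≤ ‖H (lam, u, y)‖ + ‖H (lam, 0, y)‖ := norm_sub_le _ _
      _ ≤ 1 + 1 := add_le_add (hB _ hlam u hu' y hy).2 (hB _ hlam 0 h00 y hy).2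
      _ = 2 := by norm_num
  have hK2 : ∀ τ, ‖τ‖ ≤ R / 2 → ∀ y, ‖y‖ ≤ R / 2 → ‖H (lam, τ, y) - H (lam, 0, y)‖ ≤
      2 * (2 / R) ^ 1 * ‖τ‖ ^ 1 * (2 / R) ^ (q + 1) * ‖y‖ ^ (q + 1) := by
    intro τ hτ y hy
    have hτR : τ ∈ ball (0 : ℂ) R := by rw [mem_ball, dist_zero_right]; linarith
    refine schwarz (f := fun y => H (lam, τ, y) - H (lam, 0, y)) hR
      ((hdy lam hlam τ hτR).sub (hdy lam hlam 0 h00)) (fun z hz => hK1 z hz τ hτ) ?_ hy
    obtain ⟨E1, hE1, hE2⟩ := hX1 q lam _ hq hl (hka lam τ hτR) (hk0 lam τ hτR)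
      (hkd lam τ hτR).deriv
    obtain ⟨E3, hE3, hE4⟩ := hX1 q lam _ hq hl (hka lam 0 h00) (hk0 lam 0 h00)
      (hkd lam 0 h00).deriv
    refine ⟨fun z => E1 z - E3 z, hE1.sub hE3, ?_⟩
    filter_upwards [hE2, hE4] with z h1 h2
    rw [hHk, hHk, h1, h2]
    ring
  refine ⟨M * (2 / R) ^ 2 * (2 / R) ^ 1, by positivity, fun ε hε => ?_⟩
  -- the unperturbed map
  have hf0 : ∀ y, H (lam, 0, y) = (fun z => φ (0, z))^[q] (a + y) - a := by
    intro y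
    rw [hHk, ← iter_conj]
    congr 2
    funext z
    simp [hh, ζ0, ρ0]
  obtain ⟨r1, hr1, hr2⟩ : ∃ r1 : ℝ, 0 < r1 ∧ ∀ y : ℂ, ‖y‖ < r1 →
      ‖H (lam, 0, y) - y - C * y ^ (q + 1)‖ ≤ ε / 2 * ‖y‖ ^ (q + 1) := by
    rw [Metric.tendsto_nhdsWithin_nhds] at hC
    obtain ⟨r1, hr1, h1⟩ := hC (ε / 2) (by positivity)
    refine ⟨r1, hr1, fun y hy => ?_⟩
    by_cases hy0 : y = 0
    · rw [hy0, hHz lam 0 h00]; simp
    · have h2 := h1 (x := a + y) (by simpa using hy0) (by simpa [dist_eq_norm] using hy)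
      rw [dist_eq_norm, add_sub_cancel_left] at h2
      have h3 : H (lam, 0, y) - y - C * y ^ (q + 1) =
          (((fun z => φ (0, z))^[q] (a + y) - (a + y)) / y ^ (q + 1) - C) * y ^ (q + 1) := by
        rw [hf0]
        field_simp
        ring
      rw [h3, norm_mul, norm_pow]
      exact mul_le_mul_of_nonneg_right h2.le (by positivity)
  refine ⟨min (R / 2) (r1 / 2), by positivity, ?_⟩
  have v1 : ∀ᶠ τ in 𝓝 (0 : ℂ), ‖τ‖ < R / 2 := by
    have := ball_mem_nhds (0 : ℂ) (half_pos hR)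
    filter_upwards [this] with τ hτ
    simpa using hτ
  have v2 : ∀ᶠ τ in 𝓝 (0 : ℂ), ‖ρ τ - lam‖ < R / 2 := by
    have e1 : Tendsto (fun τ => ‖ρ τ - lam‖) (𝓝 0) (𝓝 ‖ρ 0 - lam‖) :=
      (hρ.continuousAt.tendsto.sub_const _).norm
    rw [ρ0, sub_self, norm_zero] at e1
    exact e1.eventually (gt_mem_nhds (half_pos hR))
  have v3 : ∀ᶠ τ in 𝓝 (0 : ℂ), 2 * (2 / R) ^ 1 * ‖τ‖ ^ 1 * (2 / R) ^ (q + 1) < ε / 2 := by
    have e1 : Tendsto (fun τ : ℂ => 2 * (2 / R) ^ 1 * ‖τ‖ ^ 1 * (2 / R) ^ (q + 1)) (𝓝 0)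
        (𝓝 (2 * (2 / R) ^ 1 * ‖(0 : ℂ)‖ ^ 1 * (2 / R) ^ (q + 1))) :=
      Continuous.tendsto (by fun_prop) 0
    rw [norm_zero] at e1
    simp only [pow_one, mul_zero, zero_mul] at e1
    simpa using e1.eventually (gt_mem_nhds (half_pos hε))
  filter_upwards [v1, v2, v3] with τ v1 v2 v3 y hy
  have hy1 : ‖y‖ ≤ R / 2 := hy.trans (min_le_left _ _)
  have hy2 : ‖y‖ < r1 := lt_of_le_of_lt (hy.trans (min_le_right _ _)) (by linarith)
  have hτR : τ ∈ ball (0 : ℂ) R := by rw [mem_ball, dist_zero_right]; linarith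
  have hfτ : (fun z => φ (τ, z))^[q] (ζ τ + y) - ζ τ = H (ρ τ, τ, y) := by
    rw [hHk, ← iter_conj]
    congr 2
    funext z
    simp [hh]
  have e0 : (fun z => φ (τ, z))^[q] (ζ τ + y) - ζ τ - ρ τ ^ q * y - C * y ^ (q + 1) =
      (H (ρ τ, τ, y) - ρ τ ^ q * y - (H (lam, τ, y) - y)) + (H (lam, τ, y) - H (lam, 0, y)) +
        (H (lam, 0, y) - y - C * y ^ (q + 1)) := by
    rw [hfτ]; ring
  rw [e0]
  have b1 := hD2 (ρ τ) v2.le τ hτR y hy1
  have b2 := hK2 τ v1.le y hy1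
  have b3 := hr2 y hy2
  have hyq : 0 ≤ ‖y‖ ^ (q + 1) := by positivity
  calc _ ≤ _ := norm_add₃_le
    _ ≤ M * (2 / R) ^ 2 * ‖y‖ ^ 2 * (2 / R) ^ 1 * ‖ρ τ - lam‖ ^ 1 +
        2 * (2 / R) ^ 1 * ‖τ‖ ^ 1 * (2 / R) ^ (q + 1) * ‖y‖ ^ (q + 1) +
        ε / 2 * ‖y‖ ^ (q + 1) := by gcongr
    _ ≤ M * (2 / R) ^ 2 * ‖y‖ ^ 2 * (2 / R) ^ 1 * ‖ρ τ - lam‖ ^ 1 +
        ε / 2 * ‖y‖ ^ (q + 1) + ε / 2 * ‖y‖ ^ (q + 1) := by gcongr
    _ = _ := by ring

theorem bound_rho {ρ : ℂ → ℂ} {lam : ℂ} {q : ℕ} (hq : 2 ≤ q) (hl : lam ^ q = 1)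
    (hρ : ContinuousAt ρ 0) (ρ0 : ρ 0 = lam) :
    ∀ᶠ τ in 𝓝 (0 : ℂ), ‖ρ τ - lam‖ ≤ ‖ρ τ ^ q - 1‖ := by
  have hln : ‖lam‖ = 1 := Complex.norm_eq_one_of_pow_eq_one hl (by omega)
  set S : ℂ → ℂ := fun x => ∑ i ∈ Finset.range q, x ^ i * lam ^ (q - 1 - i) with hS
  have hSc : Continuous S := by simp only [hS]; fun_prop
  have hSl : ‖S lam‖ = q := by
    have e1 : S lam = q * lam ^ (q - 1) := by
      simp only [hS]
      rw [Finset.sum_congr rfl (g := fun _ => lam ^ (q - 1)) (fun i hi => ?_)]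
      · simp
      · rw [← pow_add]
        congr 1
        have := Finset.mem_range.1 hi
        omega
    rw [e1, norm_mul, norm_pow, hln, one_pow, mul_one, Complex.norm_natCast]
  have h1 : Tendsto (fun τ => ‖S (ρ τ)‖) (𝓝 0) (𝓝 (q : ℝ)) := by
    rw [← hSl, ← ρ0]
    exact ((hSc.tendsto _).comp hρ.tendsto).norm
  have h2 : (1 : ℝ) < q := by exact_mod_cast hq
  filter_upwards [h1.eventually (lt_mem_nhds h2)] with τ hτ
  have h3 : S (ρ τ) * (ρ τ - lam) = ρ τ ^ q - 1 := by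
    rw [← hl]
    exact (Commute.all (ρ τ) lam).geom_sum₂_mul q
  rw [← h3, norm_mul]
  nlinarith [norm_nonneg (ρ τ - lam)]

end US

open US in
/-- PACKAGE X2 -/
theorem unfoldS (hX1 : S_reso) : S_unfoldS := by
  intro φ a lam C q hq hl hφ h0 h1 hC hlim hS
  have hlq : lam ^ q = 1 := hl.pow_eq_one
  have hl1 : lam ≠ 1 := hl.ne_one (by omega)
  have cφ : ContDiffAt ℂ 3 φ (0, a) := hφ.contDiffAt
  set f : ℂ × ℂ → ℂ := fun p => fderiv ℂ φ p (0, 1) with hf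
  have cf : ContDiffAt ℂ 2 f (0, a) := (cφ.fderiv_right (m := 2) (by norm_num)).clm_apply
    contDiffAt_const
  have hlin : ∀ (g : ℂ × ℂ → ℂ) (p : ℂ × ℂ), DifferentiableAt ℂ g p →
      HasDerivAt (fun z => g (p.1, z)) (fderiv ℂ g p (0, 1)) p.2 := by
    intro g p hg
    have e1 : HasDerivAt (fun z : ℂ => (p.1, z)) ((0, 1) : ℂ × ℂ) p.2 :=
      (hasDerivAt_const _ _).prodMk (hasDerivAt_id _)
    have e2 : HasFDerivAt g (fderiv ℂ g p) ((fun z : ℂ => (p.1, z)) p.2) := hg.hasFDerivAt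
    exact e2.comp_hasDerivAt p.2 e1
  have dφ : ∀ᶠ p in 𝓝 ((0 : ℂ), a), HasDerivAt (fun z => φ (p.1, z)) (f p) p.2 := by
    filter_upwards [cφ.eventually (by norm_num)] with p hp
    exact hlin φ p (hp.differentiableAt (by norm_num))
  have f0 : f (0, a) = lam := (dφ.self_of_nhds).deriv.symm.trans h1
  set F : ℂ × ℂ → ℂ := fun p => φ p - p.2 with hF
  have cF : ContDiffAt ℂ 2 F (0, a) := (cφ.of_le (by norm_num)).sub contDiffAt_snd
  have dF : HasDerivAt (fun z => F (0, z)) (fderiv ℂ F (0, a) (0, 1)) a :=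
    hlin F (0, a) (cF.differentiableAt (by norm_num))
  have dF' : HasDerivAt (fun z => F (0, z)) (lam - 1) a := by
    have e1 := (dφ.self_of_nhds).sub (hasDerivAt_id a)
    rw [f0] at e1
    exact e1
  have F1 : fderiv ℂ F (0, a) (0, 1) = lam - 1 := dF.unique dF'
  have hinv : (fderiv ℂ F (0, a) ∘L .inr ℂ ℂ ℂ).IsInvertible := by
    refine ⟨ContinuousLinearEquiv.unitsEquivAut ℂ (Units.mk0 (lam - 1) (sub_ne_zero.2 hl1)), ?_⟩
    ext
    simp only [ContinuousLinearEquiv.coe_coe, ContinuousLinearEquiv.unitsEquivAut_apply,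
      Units.val_mk0, one_mul, ContinuousLinearMap.coe_comp, Function.comp_apply,
      ContinuousLinearMap.inr_apply]
    rw [← F1]
  set ζ := cF.implicitFunction (by norm_num) hinv with hζ
  have ζ0 : ζ 0 = a := cF.implicitFunction_apply_self (by norm_num) hinv
  have ζc : ContDiffAt ℂ 2 ζ 0 := cF.contDiffAt_implicitFunction (by norm_num) hinv
  have F0 : F (0, a) = 0 := by simp [hF, h0]
  have ζe : ∀ᶠ τ in 𝓝 (0 : ℂ), φ (τ, ζ τ) = ζ τ := by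
    filter_upwards [cF.eventually_apply_implicitFunction (by norm_num) hinv] with τ hτ
    have e1 : F (τ, ζ τ) = 0 := by rw [← F0]; exact hτ
    exact sub_eq_zero.1 e1
  have ζan : AnalyticAt ℂ ζ 0 := by
    have e3 : ∀ᶠ τ in 𝓝 (0 : ℂ), DifferentiableAt ℂ ζ τ := by
      filter_upwards [ζc.eventually (by norm_num)] with τ hτ
      exact hτ.differentiableAt (by norm_num)
    exact Complex.analyticAt_iff_eventually_differentiableAt.2 e3
  clear_value ζ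
  have hpt : Tendsto (fun τ : ℂ => (τ, ζ τ)) (𝓝 0) (𝓝 (0, a)) := by
    rw [nhds_prod_eq]
    refine tendsto_id.prodMk ?_
    have := ζan.continuousAt.tendsto
    rwa [ζ0] at this
  set ρ : ℂ → ℂ := fun τ => f (τ, ζ τ) with hρ
  have ρan : AnalyticAt ℂ ρ 0 := by
    have e1 : ContDiffAt ℂ 2 ρ 0 := by
      have e2 : ContDiffAt ℂ 2 f ((fun τ : ℂ => (τ, ζ τ)) 0) := by simpa [ζ0] using cf
      exact e2.comp (0 : ℂ) (contDiffAt_id.prodMk ζc)
    have e3 : ∀ᶠ τ in 𝓝 (0 : ℂ), DifferentiableAt ℂ ρ τ := by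
      filter_upwards [e1.eventually (by norm_num)] with τ hτ
      exact hτ.differentiableAt (by norm_num)
    exact Complex.analyticAt_iff_eventually_differentiableAt.2 e3
  have ρ0 : ρ 0 = lam := by simp only [hρ, ζ0]; exact f0
  have ρd : ∀ᶠ τ in 𝓝 (0 : ℂ), HasDerivAt (fun z => φ (τ, z)) (ρ τ) (ζ τ) := hpt.eventually dφ
  obtain ⟨K, hK, hmain⟩ := main hX1 hq hl hφ h0 ζan ζ0 ρan ρ0 ζe ρd hlim
  have hρb := bound_rho hq hlq ρan.continuousAt ρ0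
  set Δ : ℂ → ℂ := fun τ => ρ τ ^ q - 1 with hΔ
  have Δan : AnalyticAt ℂ Δ 0 := (ρan.pow q).sub analyticAt_const
  have Δ0 : Δ 0 = 0 := by simp only [hΔ, ρ0, hlq, sub_self]
  obtain ⟨r0, hr0, hS⟩ := hS
  have hζb : ∀ᶠ τ in 𝓝 (0 : ℂ), ζ τ ∈ ball a r0 := by
    have := ζan.continuousAt.tendsto
    rw [ζ0] at this
    exact this.eventually (ball_mem_nhds a hr0)
  have Δne : ∀ᶠ τ in 𝓝[≠] (0 : ℂ), Δ τ ≠ 0 := by
    filter_upwards [hS, nhdsWithin_le_nhds hζb, nhdsWithin_le_nhds ζe,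
      nhdsWithin_le_nhds ρd] with τ e1 e2 e3 e4 e5
    apply e1 _ e2 e3
    rw [e4.deriv]
    exact sub_eq_zero.1 e5
  obtain ⟨m, g, gan, g0, hg⟩ := Δan.exists_eventuallyEq_pow_smul_nonzero_iff.2 (fun h => by
    have : ∀ᶠ z in 𝓝[≠] (0 : ℂ), Δ z = 0 := h.filter_mono nhdsWithin_le_nhds
    obtain ⟨τ, e1, e2⟩ := (this.and Δne).exists
    exact e2 e1)
  simp only [sub_zero, smul_eq_mul] at hg
  have hm : 0 < m := by
    rcases Nat.eq_zero_or_pos m with h | h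
    · exfalso
      have e1 := hg.self_of_nhds
      rw [h, pow_zero, one_mul, Δ0] at e1
      exact g0 e1.symm
    · exact h
  set u : ℂ := Complex.I * g 0 with hu
  have hu0 : u ≠ 0 := mul_ne_zero Complex.I_ne_zero g0
  refine ⟨ζ, ζan.continuousAt, ζ0, _, (count_dir hm u hu0).union
    (count_dir hm (-u) (neg_ne_zero.2 hu0)), ?_⟩
  intro θ hθ
  rw [mem_union, not_or, mem_ofPred_eq, mem_ofPred_eq] at hθ
  set e : ℂ := Complex.exp (θ * Complex.I) with he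
  have hen : ‖e‖ = 1 := by rw [he, Complex.norm_exp_ofReal_mul_I]
  have hem : Complex.exp (m * (θ * Complex.I)) = e ^ m := by rw [he, ← Complex.exp_nat_mul]
  rw [hem, norm_neg] at hθ
  have hτ0 : Tendsto (fun t : ℝ => (t : ℂ) * e) (𝓝[>] 0) (𝓝 0) := by
    have e1 : Tendsto (fun t : ℝ => (t : ℂ) * e) (𝓝 0) (𝓝 (((0 : ℝ) : ℂ) * e)) :=
      (Complex.continuous_ofReal.tendsto 0).mul_const e
    rw [Complex.ofReal_zero, zero_mul] at e1
    exact e1.mono_left nhdsWithin_le_nhds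
  have hτne : Tendsto (fun t : ℝ => (t : ℂ) * e) (𝓝[>] 0) (𝓝[≠] 0) := by
    rw [tendsto_nhdsWithin_iff]
    refine ⟨hτ0, ?_⟩
    filter_upwards [self_mem_nhdsWithin] with t ht
    rw [mem_compl_iff, mem_singleton_iff]
    have : e ≠ 0 := by rw [he]; exact Complex.exp_ne_zero _
    exact mul_ne_zero (by exact_mod_cast (ne_of_gt ht)) this
  set w : ℝ → ℂ := fun t => e ^ m * g (t * e) with hw
  set w0 : ℂ := e ^ m * g 0 with hw0
  have hwu : ‖w0‖ = ‖u‖ := by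
    rw [hw0, hu, norm_mul, norm_mul, norm_pow, hen, one_pow, Complex.norm_I]
  have hw0p : 0 < ‖w0‖ := by rw [hwu]; exact norm_pos_iff.2 hu0
  have hre : w0.re ≠ 0 := by
    intro hcon
    have e1 : e ^ m * u = Complex.I * w0 := by rw [hu, hw0]; ring
    have e2 : w0 = (w0.im : ℂ) * Complex.I := by
      apply Complex.ext
      · simp [hcon]
      · simp
    have e3 : Complex.I * w0 = ((-w0.im : ℝ) : ℂ) := by
      rw [e2]
      apply Complex.ext <;> simp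
    have e4 : ‖w0‖ = |w0.im| := by
      rw [e2]; simp
    rcases le_total 0 w0.im with h | h
    · apply hθ.1
      rw [e1, e3, ← hwu, e4, abs_of_nonneg h]
      push_cast; ring
    · apply hθ.2
      rw [mul_neg, e1, e3, ← hwu, e4, abs_of_nonpos h]
  have hwt : Tendsto w (𝓝[>] 0) (𝓝 w0) := (gan.continuousAt.tendsto.comp hτ0).const_mul _
  have hre_t : Tendsto (fun t => (w t).re) (𝓝[>] 0) (𝓝 w0.re) :=
    (Complex.continuous_re.tendsto _).comp hwt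
  have hΔw : ∀ᶠ t : ℝ in 𝓝[>] (0 : ℝ), Δ (t * e) = ((t ^ m : ℝ) : ℂ) * w t ∧ 0 < t ^ m := by
    filter_upwards [hτ0.eventually hg, self_mem_nhdsWithin] with t e2 ht
    have ht' : (0 : ℝ) < t := ht
    refine ⟨?_, by positivity⟩
    rw [e2, hw]
    push_cast
    ring
  set κ : ℝ := |w0.re| / (2 * ‖w0‖) with hκ
  have hκ0 : 0 < κ := by
    have := abs_pos.2 hre
    positivity
  have hκ1 : κ * ‖w0‖ < |w0.re| := by
    have e1 : κ * ‖w0‖ = |w0.re| / 2 := by rw [hκ]; field_simp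
    rw [e1]
    have := abs_pos.2 hre
    linarith
  refine ⟨fun t => Δ (t * e), ⟨by omega, hC, hτne.eventually Δne, ?_, ?_, κ, hκ0, ?_⟩⟩
  · have := Δan.continuousAt.tendsto.comp hτ0
    rwa [Δ0] at this
  · intro ε hε
    obtain ⟨r, hr, h2⟩ := hmain ε hε
    refine ⟨min r (ε / (K + 1)), by positivity, ?_⟩
    filter_upwards [hτ0.eventually h2, hτ0.eventually hρb] with t h3 h4 y hy
    have h5 := h3 y (hy.trans (min_le_left _ _))
    have hy2 : ‖y‖ ≤ ε / (K + 1) := hy.trans (min_le_right _ _)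
    have h6 : (K + 1) * ‖y‖ ≤ ε := by
      rw [le_div_iff₀ (by positivity)] at hy2
      linarith
    have e1 : (fun z => φ (t * e, z))^[q] (ζ (t * e) + y) - ζ (t * e) - y -
        (Δ (t * e) * y + C * y ^ (q + 1)) =
        (fun z => φ (t * e, z))^[q] (ζ (t * e) + y) - ζ (t * e) - ρ (t * e) ^ q * y -
          C * y ^ (q + 1) := by
      simp only [hΔ]; ring
    rw [e1]
    refine h5.trans ?_
    have h7 : K * ‖ρ (t * e) - lam‖ * ‖y‖ ^ 2 ≤ ε * (‖Δ (t * e)‖ * ‖y‖) := by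
      have h8 : K * ‖y‖ ≤ ε := by nlinarith [norm_nonneg y]
      calc K * ‖ρ (t * e) - lam‖ * ‖y‖ ^ 2 ≤ K * ‖Δ (t * e)‖ * ‖y‖ ^ 2 := by gcongr
        _ = (K * ‖y‖) * (‖Δ (t * e)‖ * ‖y‖) := by ring
        _ ≤ ε * (‖Δ (t * e)‖ * ‖y‖) := by gcongr
    rw [mul_add]
    exact add_le_add h7 le_rfl
  · rcases lt_or_gt_of_ne hre with h | h
    · left
      have h2 : ∀ᶠ t in 𝓝[>] (0 : ℝ), κ * ‖w t‖ < -(w t).re := by
        apply Tendsto.eventually_lt (hwt.norm.const_mul κ) hre_t.neg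
        rwa [abs_of_neg h] at hκ1
      filter_upwards [h2, hΔw] with t e1 e2
      rw [e2.1, Complex.re_ofReal_mul, norm_mul, Complex.norm_real, Real.norm_of_nonneg e2.2.le]
      have := e2.2
      nlinarith
    · right
      have h2 : ∀ᶠ t in 𝓝[>] (0 : ℝ), κ * ‖w t‖ < (w t).re := by
        apply Tendsto.eventually_lt (hwt.norm.const_mul κ) hre_t
        rwa [abs_of_pos h] at hκ1
      filter_upwards [h2, hΔw] with t e1 e2
      rw [e2.1, Complex.re_ofReal_mul, norm_mul, Complex.norm_real, Real.norm_of_nonneg e2.2.le]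
      have := e2.2
      nlinarith

end Pool.Agent.Helper65.EP
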