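import Pool.Agent.Helper65.EP.Stm2
import Pool.Graph.R_seed8.H790R3.RB.TPQ
import Pool.Graph.R_seed8.H790R3.RB.TSP

/-! Package U: the map is determined by its values at the points of the plane. -/

set_option autoImplicit false

open Topology Filter Metric Set MeasureTheory

namespace Pool.Agent.Helper65.EP

open Pool.Agent.H790R3.RB

theorem t_uniq : S_uniq := by
  intro d x f hd hco hdeg hf hfz
  obtain ⟨y, hy, hy0, hy1, hyf⟩ := (Pool.Agent.H790R3.RB.PQ Pool.Agent.H790R3.RB.SP d hd).2
    (pol x 0) (pol x 1) hco hdeg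
  have hxy : y = x := by
    funext r
    obtain ⟨i, j⟩ := r
    have h1 := PQ.pol_coeff x i j
    have h2 := PQ.pol_coeff y i j
    fin_cases i
    · simp only [Fin.zero_eta, Fin.isValue] at h1 h2 ⊢
      rw [← h1, ← h2, hy0]
    · simp only [Fin.mk_one, Fin.isValue] at h1 h2 ⊢
      rw [← h1, ← h2, hy1]
  subst hxy
  exact ⟨hy, hyf f hf hfz⟩

end Pool.Agent.Helper65.EP
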