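import Mathlib
import Pool.Agent.Helper65.EP.Fin
import Pool.Agent.Helper65.EP.Uniq
import Pool.Agent.Helper65.EP.RayS
import Pool.Agent.Helper65.EP.UnfoldS
import Pool.Agent.Helper65.EP.Mult
import Pool.Agent.Helper65.EP.Reso
import Pool.Agent.Helper65.EP.EnterS
import Pool.Agent.Helper31.EP.CaptS

/-! All packages together. -/

set_option autoImplicit false

open Topology Filter Metric Set MeasureTheory
open scoped OnePoint

namespace Pool.Agent.Helper65.EP

open Pool.Agent.H790R3.RB

/-- the density theorem for the sphere maps -/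
theorem all_final {d : ℕ} (hd : 2 ≤ d) {x0 : CV d} (hx0 : ND x0)
    (h : ∀ c : OnePoint ℂ, (¬ ∃ U ∈ 𝓝 c, InjOn (sp x0) U) → AttrC (sp x0) c) :
    ∃ Gd : Set (CV d), (∀ x ∈ Gd, ND x ∧ HypCyc (sp x)) ∧
      Tendsto (fun r : ℝ => volume (closedBall x0 r \ Gd) / volume (closedBall x0 r)) (𝓝[>] 0)
        (𝓝 0) :=
  final (p_rayS (unfoldS reso) captS enterS) s_mult s_one s_count hd hx0 h

end Pool.Agent.Helper65.EP
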