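import Mathlib
import Pool.Agent.Helper65.EP.Stm3

/-! Frozen statements of the packages, fourth part: the boundary of the space of rational maps.
Degenerate pairs `H • (P, Q)` with simple holes. -/

set_option autoImplicit false

open Topology Filter Metric Set MeasureTheory
open scoped OnePoint

namespace Pool.Agent.Helper65.EP

open Pool.Agent.H790R3.RB
open Pool.Agent.W364.NM (ap ad dt)
open Pool.Agent.Helper65.EU (Into)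

/-- `x` is the map `y` of degree `e` times the form `Hf` of degree `d - e` with simple zeros -/
structure Fac {d e : ℕ} (x : CV d) (y : CV e) (Hf : ℂ × ℂ → ℂ) : Prop where
  he : 1 ≤ e
  hd : e < d
  hom : ∀ (c : ℂ) (p : ℂ × ℂ), Hf (c • p) = c ^ (d - e) * Hf p
  dif : ContDiff ℂ 1 Hf
  sim : ∀ p : ℂ × ℂ, p ≠ 0 → Hf p = 0 → fderiv ℂ Hf p ≠ 0
  fac : ∀ p : ℂ × ℂ, hF x p = Hf p • hF y p
  nd : ND y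

/-- behaviour near the hole `c0`: no common zeros, and the critical values tend to `w0` -/
def HoleAt {d : ℕ} (x v : CV d) (c0 w0 : ℂ × ℂ) : Prop :=
  (∀ᶠ q : ℂ × (ℂ × ℂ) in 𝓝[≠] (0 : ℂ) ×ˢ 𝓝 c0, hF (x + q.1 • v) q.2 ≠ 0) ∧
  ∃ s : ℂ × (ℂ × ℂ) → ℂ, Tendsto (fun q : ℂ × (ℂ × ℂ) => s q • hF (x + q.1 • v) q.2)
    ((𝓝[≠] (0 : ℂ) ×ˢ 𝓝 c0) ⊓ 𝓟 {q | wr (x + q.1 • v) q.2 = 0}) (𝓝 w0)

/-- PACKAGE Y1 (polynomials to forms) -/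
def S_facPol : Prop := ∀ (d e : ℕ) (x : CV d) (P Q H : Polynomial ℂ), 1 ≤ e → e < d →
  IsCoprime P Q → max P.natDegree Q.natDegree = e → Squarefree H → H.natDegree = d - e →
  pol x 0 = H * P → pol x 1 = H * Q →
  ∃ (y : CV e) (Hf : ℂ × ℂ → ℂ), Fac x y Hf ∧ pol y 0 = P ∧ pol y 1 = Q ∧
    (∀ z : ℂ, Hf (z, 1) = H.eval z) ∧ Hf (1, 0) ≠ 0

/-- PACKAGE Y2 (change of coordinate) -/
def S_facMove : Prop := ∀ (d e : ℕ) (x x' : CV d) (y y' : CV e) (Hf : ℂ × ℂ → ℂ)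
  (m : (ℂ × ℂ) × (ℂ × ℂ)), dt m ≠ 0 → Fac x y Hf →
  (∀ p, hF x' (ap m p) = ap m (hF x p)) → (∀ p, hF y' (ap m p) = ap m (hF y p)) →
  Fac x' y' (fun p => Hf ((dt m)⁻¹ • ap (ad m) p))

/-- PACKAGE Y3 (the critical points near a hole) -/
def S_holeAt : Prop := ∀ (d e : ℕ) (x v : CV d) (y : CV e) (Hf : ℂ × ℂ → ℂ) (c0 : ℂ × ℂ),
  Fac x y Hf → c0.2 ≠ 0 → Hf c0 = 0 → cr (hF y c0) (hF v c0) ≠ 0 → HoleAt x v c0 (hF y c0)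

/-- PACKAGE Y4 (almost every direction is transversal at the holes) -/
def S_genV : Prop := ∀ (d e : ℕ) (x : CV d) (y : CV e) (Hf : ℂ × ℂ → ℂ), Fac x y Hf →
  {z : ℂ | Hf (z, 1) = 0}.Finite → Hf (1, 0) ≠ 0 →
  ∀ᵐ v : CV d, ∀ c : ℂ × ℂ, c ≠ 0 → Hf c = 0 → cr (hF y c) (hF v c) ≠ 0

/-- PACKAGE Y5 (critical points off the holes) -/
def S_critV : Prop := ∀ (d e : ℕ) (x : CV d) (y : CV e) (Hf : ℂ × ℂ → ℂ) (z : ℂ), Fac x y Hf →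
  Hf (z, 1) ≠ 0 → wr x (z, 1) = 0 → ¬ ∃ U ∈ 𝓝 (z : OnePoint ℂ), InjOn (sp y) U

/-- PACKAGE Y6 (iterates of the degenerate map) -/
def S_transV : Prop := ∀ (d e : ℕ) (x : CV d) (y : CV e) (Hf : ℂ × ℂ → ℂ), Fac x y Hf →
  (∀ (c : ℂ × ℂ) (k : ℕ), (∀ j < k, Hf ((hF y)^[j] c) ≠ 0) →
    ∃ s : ℂ, s ≠ 0 ∧ (hF x)^[k] c = s • (hF y)^[k] c) ∧
  (∀ (a : ℂ) (N : ℕ), 0 < N → (∀ j < N, Hf ((hF y)^[j] (a, 1)) ≠ 0) → AttF N y a → AttF N x a) ∧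
  (∀ (a : ℂ) (p q : ℕ), 0 < p → 1 ≤ q → (∀ j < p * q, Hf ((hF y)^[j] (a, 1)) ≠ 0) →
    SatF p q y a → SatF p q x a)

/-- the vector `c` is attracted under `x0` by an attracting or a nondegenerate parabolic point -/
def GoodV {d : ℕ} (x0 : CV d) (N : ℕ) (c : ℂ × ℂ) : Prop :=
  ∃ a : ℂ, Tendsto (fun k : ℕ => pr ((hF x0)^[N * k] c)) atTop (𝓝 (a : OnePoint ℂ)) ∧
    (AttF N x0 a ∨ ((∃ p q : ℕ, 0 < p ∧ 1 ≤ q ∧ N = p * q ∧ SatF p q x0 a) ∧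
      ∀ k : ℕ, pr ((hF x0)^[N * k] c) ≠ a))

/-- PACKAGE Y7 (rays, `x0` may be degenerate) -/
def S_rayV : Prop := ∀ (d p q : ℕ) (x0 v : CV d) (a : ℂ), 1 ≤ d → 0 < p → 1 ≤ q →
  SatF p q x0 a →
  (∀ᶠ τ : ℂ in 𝓝[≠] 0, ∀ z : ℂ, Fx (p * q) (x0 + τ • v) z = 0 →
    deriv (Fx (p * q) (x0 + τ • v)) z ≠ 0) →
  ∃ B : Set ℝ, B.Countable ∧ ∀ θ ∉ B, ∀ c0 : ℂ × ℂ, c0 ≠ 0 →
    Tendsto (fun k : ℕ => pr ((hF x0)^[p * q * k] c0)) atTop (𝓝 (a : OnePoint ℂ)) →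
    (∀ k : ℕ, pr ((hF x0)^[p * q * k] c0) ≠ a) → CaughtF (p * q) x0 v θ c0

/-- PACKAGE Y8 (global certificates) -/
def S_globV : Prop := ∀ (d e : ℕ) (x0 : CV d) (y : CV e) (Hf : ℂ × ℂ → ℂ), Fac x0 y Hf →
  Hf (1, 0) ≠ 0 →
  (∀ c ∈ sphere (0 : ℂ × ℂ) 1, Hf c ≠ 0 → wr x0 c = 0 → ∃ N : ℕ, 0 < N ∧ GoodV x0 N c) →
  (∀ c ∈ sphere (0 : ℂ × ℂ) 1, Hf c = 0 → ∃ N : ℕ, 0 < N ∧
    GoodV x0 N ((hF x0)^[N - 1] (hF y c))) →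
  ∀ᵐ v : CV d, (∀ c : ℂ × ℂ, c ≠ 0 → Hf c = 0 → cr (hF y c) (hF v c) ≠ 0) →
    ∃ B : Set ℝ, B.Countable ∧ ∀ θ ∉ B, ∀ᶠ t : ℝ in 𝓝[>] 0,
      ∃ N : ℕ, 0 < N ∧ ∃ s : Finset (ℂ × ℝ), CertN N s (xs x0 v θ t)

end Pool.Agent.Helper65.EP
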