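import Mathlib
import Pool.Agent.Helper65.EP.Glob
import Pool.Agent.Helper65.EP.Stm4

/-! Certificates along almost every ray, degenerate maps. -/

set_option autoImplicit false

open Topology Filter Metric Set MeasureTheory
open scoped OnePoint

namespace Pool.Agent.Helper65.EP

open Pool.Agent.H790R3.RB
open Pool.Agent.Helper65.EU (Into)

theorem caught_attr {d : ℕ} (hd : 1 ≤ d) {x0 : CV d} (v : CV d) (θ : ℝ) {c0 : ℂ × ℂ}
    {a : ℂ} {N : ℕ} (hN : 0 < N)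
    (hlim : Tendsto (fun k : ℕ => pr ((hF x0)^[N * k] c0)) atTop (𝓝 (a : OnePoint ℂ)))
    (ha : AttF N x0 a) : CaughtF N x0 v θ c0 := by
  obtain ⟨ρ, hρ, h1, m, h2⟩ := s_attr d N x0 a hd hN ha
  -- entrance
  obtain ⟨k, hk⟩ : ∃ k : ℕ, Into {(a, ρ)} ((hF x0)^[N * k] c0) := by
    have e1 : ∀ᶠ k : ℕ in atTop, pr ((hF x0)^[N * k] c0) ∈
        (fun z : ℂ => (z : OnePoint ℂ)) '' ball a ρ :=
      hlim ((OnePoint.isOpenEmbedding_coe.isOpenMap _ isOpen_ball).mem_nhds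
        ⟨a, mem_ball_self hρ, rfl⟩)
    obtain ⟨k, w, hw, hwk⟩ := e1.exists
    refine ⟨k, ?_⟩
    apply (at_of_pr hwk.symm).into
    rw [← dist_eq_norm]
    exact hw
  have h3 := iter_tendsto x0 v θ c0 (N * k)
  have h4 : ∀ᶠ q in 𝓝[>] (0 : ℝ) ×ˢ 𝓝 c0, Into {(a, ρ)} ((hF (xr x0 v θ q.1))^[N * k] q.2) := by
    obtain ⟨i, hi, h5⟩ := hk
    rw [Finset.mem_singleton] at hi
    subst hi
    have c3 : Continuous (fun w : ℂ × ℂ => ‖w.1 - a * w.2‖) := by fun_prop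
    have c4 : Continuous (fun w : ℂ × ℂ => ρ * ‖w.2‖) := by fun_prop
    filter_upwards [h3.eventually ((isOpen_lt c3 c4).mem_nhds h5)] with q hq
    exact ⟨(a, ρ), Finset.mem_singleton_self _, hq⟩
  obtain ⟨pa, hpa, pb, hpb, hab⟩ := Filter.eventually_prod_iff.1 h4
  refine ⟨{c | pb c}, hpb, ?_⟩
  filter_upwards [hpa, (xs_tendsto x0 v θ).eventually (PC.ev_disc N a ρ ρ x0 h1),
    (xs_tendsto x0 v θ).eventually (PC.ev_disc (N * m) a ρ (ρ / 8) x0 h2)] with t e1 e2 e3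
  refine ⟨{(a, ρ)}, ?_, fun c hc => ⟨k, hab e1 hc⟩⟩
  intro i hi
  rw [Finset.mem_singleton] at hi
  subst hi
  exact ⟨e2, m, e3⟩

theorem into_smul {s : Finset (ℂ × ℝ)} {σ : ℂ} {w : ℂ × ℂ} (h : Into s (σ • w)) : Into s w := by
  obtain ⟨i, hi, h⟩ := h
  refine ⟨i, hi, ?_⟩
  have e1 : (σ • w).1 - i.1 * (σ • w).2 = σ * (w.1 - i.1 * w.2) := by
    simp only [Prod.smul_fst, Prod.smul_snd, smul_eq_mul]
    ring
  rw [e1, Prod.smul_snd, smul_eq_mul, norm_mul, norm_mul] at h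
  have e2 : 0 < ‖σ‖ := by
    apply norm_pos_iff.2
    intro h0
    rw [h0, norm_zero, zero_mul, zero_mul, mul_zero] at h
    exact lt_irrefl _ h
  have e3 : ‖σ‖ * ‖w.1 - i.1 * w.2‖ < ‖σ‖ * (i.2 * ‖w.2‖) := by
    calc ‖σ‖ * ‖w.1 - i.1 * w.2‖ < i.2 * (‖σ‖ * ‖w.2‖) := h
      _ = ‖σ‖ * (i.2 * ‖w.2‖) := by ring
  exact lt_of_mul_lt_mul_left e3 e2.le

theorem tau_tendsto' (θ : ℝ) :
    Tendsto (fun t : ℝ => (t : ℂ) * Complex.exp (θ * Complex.I)) (𝓝[>] 0) (𝓝[≠] 0) := by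
  apply tendsto_nhdsWithin_iff.2 ⟨tau_tendsto θ, ?_⟩
  filter_upwards [self_mem_nhdsWithin] with t ht
  exact mul_ne_zero (by exact_mod_cast (ne_of_gt ht)) (Complex.exp_ne_zero _)

theorem tend_iter {d : ℕ} (x0 v : CV d) {c0 w0 : ℂ × ℂ} {S : Set (ℂ × (ℂ × ℂ))}
    {g : ℂ × (ℂ × ℂ) → ℂ × ℂ}
    (hs : Tendsto g ((𝓝[≠] (0 : ℂ) ×ˢ 𝓝 c0) ⊓ 𝓟 S) (𝓝 w0)) (k : ℕ) :
    Tendsto (fun q : ℂ × (ℂ × ℂ) => (hF (x0 + q.1 • v))^[k] (g q))
      ((𝓝[≠] (0 : ℂ) ×ˢ 𝓝 c0) ⊓ 𝓟 S) (𝓝 ((hF x0)^[k] w0)) := by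
  have e0 : Tendsto (fun q : ℂ × (ℂ × ℂ) => q.1) (𝓝[≠] (0 : ℂ) ×ˢ 𝓝 c0) (𝓝[≠] 0) := tendsto_fst
  have e2 : Tendsto (fun q : ℂ × (ℂ × ℂ) => q.1) ((𝓝[≠] (0 : ℂ) ×ˢ 𝓝 c0) ⊓ 𝓟 S) (𝓝 0) :=
    (e0.mono_left inf_le_left).mono_right nhdsWithin_le_nhds
  have e1 : Tendsto (fun q : ℂ × (ℂ × ℂ) => x0 + q.1 • v)
      ((𝓝[≠] (0 : ℂ) ×ˢ 𝓝 c0) ⊓ 𝓟 S) (𝓝 x0) := by
    have e3 := (e2.smul_const v).const_add x0
    rwa [zero_smul, add_zero] at e3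
  have h3 : Tendsto (fun q : CV d × (ℂ × ℂ) => (hF q.1)^[k] q.2) (𝓝 (x0, w0))
      (𝓝 ((hF x0)^[k] w0)) := by
    have := (hF_iter_continuous d k).continuousAt (x := (x0, w0))
    exact this
  have h4 := h3.comp (e1.prodMk_nhds hs)
  simp only [Function.comp_def] at h4
  exact h4

theorem loc_hole {d : ℕ} {x0 v : CV d} {θ : ℝ} {c0 w0 : ℂ × ℂ} {N : ℕ} (hN : 0 < N)
    (hH : HoleAt x0 v c0 w0) (hc : CaughtF N x0 v θ ((hF x0)^[N - 1] w0)) : Loc x0 v θ c0 := by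
  obtain ⟨U, hU, h⟩ := hc
  obtain ⟨-, s, hs⟩ := hH
  have h1 := tend_iter x0 v hs (N - 1)
  have h2 := h1.eventually hU
  rw [eventually_inf_principal] at h2
  obtain ⟨pa, hpa, pb, hpb, hab⟩ := Filter.eventually_prod_iff.1 h2
  refine ⟨{c | pb c}, hpb, N, hN, ?_⟩
  filter_upwards [h, (tau_tendsto' θ).eventually hpa] with t ht hpt
  obtain ⟨S, hS1, hS2⟩ := ht
  refine ⟨S, hS1, ?_⟩
  intro c hcc hw
  obtain ⟨k, hk⟩ := hS2 _ (hab hpt hcc hw)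
  refine ⟨k + 1, ?_⟩
  set x := xs x0 v θ t with hx
  have e1 : (hF (x0 + ((t : ℂ) * Complex.exp (θ * Complex.I)) • v)) = hF x := rfl
  rw [e1, hF_iter_smul, hF_iter_smul, ← Function.iterate_succ_apply, ← Function.iterate_add_apply]
    at hk
  have e2 : N * (k + 1) = N * k + (N - 1).succ := by
    rw [mul_add, mul_one]
    omega
  rw [e2]
  exact into_smul hk

theorem globV (hR : S_rayV) (hHo : S_holeAt) (hM : S_mult) (hC : S_count) : S_globV := by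
  intro d e x0 y Hf hF0 hinf h h'
  have hd1 : 1 ≤ d := by
    have := hF0.he
    have := hF0.hd
    omega
  have hd : 2 ≤ d := by
    have := hF0.he
    have := hF0.hd
    omega
  have hae : ∀ᵐ v : CV d, ∀ N : ℕ, 0 < N → ∀ᶠ τ : ℂ in 𝓝[≠] 0, ∀ z : ℂ,
      Fx N (x0 + τ • v) z = 0 → deriv (Fx N (x0 + τ • v)) z ≠ 0 := by
    rw [ae_all_iff]
    intro N
    by_cases hN : 0 < N
    · filter_upwards [t_simple d N x0 hd hN] with v hv _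
      exact hv
    · exact Eventually.of_forall fun v hN' => absurd hN' hN
  filter_upwards [hae] with v hv hgen
  -- the exceptional directions
  have hB : ∀ (p q : ℕ) (a : ℂ), ∃ B : Set ℝ, B.Countable ∧ (0 < p → 1 ≤ q → SatF p q x0 a →
      ∀ θ ∉ B, ∀ c0 : ℂ × ℂ, c0 ≠ 0 →
      Tendsto (fun k : ℕ => pr ((hF x0)^[p * q * k] c0)) atTop (𝓝 (a : OnePoint ℂ)) →
      (∀ k : ℕ, pr ((hF x0)^[p * q * k] c0) ≠ a) → CaughtF (p * q) x0 v θ c0) := by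
    intro p q a
    by_cases hp : 0 < p ∧ 1 ≤ q ∧ SatF p q x0 a
    · obtain ⟨B, hB, h2⟩ := hR d p q x0 v a hd1 hp.1 hp.2.1 hp.2.2
        (hv (p * q) (Nat.mul_pos hp.1 (by omega)))
      exact ⟨B, hB, fun _ _ _ => h2⟩
    · exact ⟨∅, countable_empty, fun e1 e2 e3 => absurd ⟨e1, e2, e3⟩ hp⟩
  choose B hB1 hB2 using hB
  refine ⟨⋃ p : ℕ, ⋃ q : ℕ, ⋃ a ∈ {a : ℂ | 0 < p ∧ 1 ≤ q ∧ SatF p q x0 a}, B p q a, ?_, ?_⟩
  · apply countable_iUnion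
    intro p
    apply countable_iUnion
    intro q
    apply Countable.biUnion
    · by_cases hp : 0 < p ∧ 1 ≤ q
      · exact (hC d p q x0 hd1 hp.1 hp.2).mono fun a ha => ha.2.2
      · have : {a : ℂ | 0 < p ∧ 1 ≤ q ∧ SatF p q x0 a} = ∅ := by
          rw [Set.eq_empty_iff_forall_notMem]
          intro a ha
          exact hp ⟨ha.1, ha.2.1⟩
        rw [this]
        exact countable_empty
    · intro a _
      exact hB1 p q a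
  intro θ hθ
  have hθ' : ∀ (p q : ℕ) (a : ℂ), 0 < p → 1 ≤ q → SatF p q x0 a → θ ∉ B p q a := by
    intro p q a e1 e2 e3 e4
    apply hθ
    rw [mem_iUnion]
    refine ⟨p, ?_⟩
    rw [mem_iUnion]
    refine ⟨q, ?_⟩
    rw [mem_iUnion₂]
    exact ⟨a, ⟨e1, e2, e3⟩, e4⟩
  have hcau : ∀ (N : ℕ) (c : ℂ × ℂ), 0 < N → c ≠ 0 → GoodV x0 N c → CaughtF N x0 v θ c := by
    rintro N c hN hc ⟨a, hlim, ha | ⟨⟨p, q, hp, hq, rfl, ha⟩, hne⟩⟩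
    · exact caught_attr hd1 v θ hN hlim ha
    · exact hB2 p q a hp hq ha θ (hθ' p q a hp hq ha) c hc hlim hne
  have hsph : ∀ c0 ∈ sphere (0 : ℂ × ℂ) 1, c0 ≠ 0 := by
    intro c0 hc0 h0
    rw [h0, mem_sphere_zero_iff_norm, norm_zero] at hc0
    exact zero_ne_one hc0
  have hyn : ∀ c : ℂ × ℂ, c ≠ 0 → hF y c ≠ 0 := fun c hc h0 => hc (hF0.nd c h0)
  have hhole : ∀ c0 : ℂ × ℂ, c0 ≠ 0 → Hf c0 = 0 → HoleAt x0 v c0 (hF y c0) := by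
    intro c0 hc0 h0
    apply hHo d e x0 v y Hf c0 hF0 _ h0 (hgen c0 hc0 h0)
    intro h2
    have e1 : c0 = c0.1 • ((1, 0) : ℂ × ℂ) := by
      apply Prod.ext
      · simp
      · simp [h2]
    have e2 : c0.1 ≠ 0 := by
      intro h3
      exact hc0 (Prod.ext h3 h2)
    rw [e1, hF0.hom] at h0
    exact (mul_ne_zero (pow_ne_zero _ e2) hinf) h0
  have hgl : ∀ (N : ℕ) (w : ℂ × ℂ), w ≠ 0 → (∃ a : ℂ, Tendsto (fun k : ℕ =>
      pr ((hF x0)^[N * k] ((hF x0)^[N - 1] w))) atTop (𝓝 (a : OnePoint ℂ))) →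
      (hF x0)^[N - 1] w ≠ 0 := by
    rintro N w hw ⟨a, ha⟩ h0
    rw [h0] at ha
    have e0 : ∀ k : ℕ, (hF x0)^[k] (0 : ℂ × ℂ) = 0 := by
      intro k
      have := hF_iter_smul x0 k (0 : ℂ) ((0, 0) : ℂ × ℂ)
      rw [zero_smul, zero_pow (pow_ne_zero _ (by omega)), zero_smul] at this
      exact this
    have e1 : ∀ k : ℕ, pr ((hF x0)^[N * k] (0 : ℂ × ℂ)) = ∞ := by
      intro k
      rw [e0, Pool.Agent.H790R3.RB.SP.pr_zero rfl]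
    simp only [e1] at ha
    exact OnePoint.infty_ne_coe a (tendsto_nhds_unique tendsto_const_nhds ha)
  have hloc : ∀ c0 ∈ sphere (0 : ℂ × ℂ) 1, Loc x0 v θ c0 := by
    intro c0 hc0
    have hc00 := hsph c0 hc0
    by_cases hh : Hf c0 = 0
    · obtain ⟨N, hN, hg⟩ := h' c0 hc0 hh
      have hne : (hF x0)^[N - 1] (hF y c0) ≠ 0 := by
        obtain ⟨a, ha, -⟩ := hg
        exact hgl N _ (hyn c0 hc00) ⟨a, ha⟩
      exact loc_hole hN (hhole c0 hc00 hh) (hcau N _ hN hne hg)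
    · by_cases hw : wr x0 c0 = 0
      · obtain ⟨N, hN, hg⟩ := h c0 hc0 hh hw
        exact loc_caught hN (hcau N c0 hN hc00 hg)
      · exact loc_noncrit x0 v θ hw
  have hnz : ∀ c0 ∈ sphere (0 : ℂ × ℂ) 1, ∃ U ∈ 𝓝 c0, ∀ᶠ t : ℝ in 𝓝[>] 0, ∀ c ∈ U,
      hF (xs x0 v θ t) c ≠ 0 := by
    intro c0 hc0
    have hc00 := hsph c0 hc0
    by_cases hh : Hf c0 = 0
    · obtain ⟨pa, hpa, pb, hpb, hab⟩ := Filter.eventually_prod_iff.1 (hhole c0 hc00 hh).1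
      refine ⟨{c | pb c}, hpb, ?_⟩
      filter_upwards [(tau_tendsto' θ).eventually hpa] with t ht c hc
      exact hab ht hc
    · have h4 := iter_tendsto x0 v θ c0 1
      have h5 : (hF x0)^[1] c0 ≠ 0 := by
        rw [Function.iterate_one, hF0.fac]
        exact smul_ne_zero hh (hyn c0 hc00)
      obtain ⟨pa, hpa, pb, hpb, hab⟩ := Filter.eventually_prod_iff.1 (h4.eventually_ne h5)
      refine ⟨{c | pb c}, hpb, ?_⟩
      filter_upwards [hpa] with t ht c hc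
      exact hab ht hc
  have e1 : ∀ᶠ t : ℝ in 𝓝[>] 0, ∀ c ∈ sphere (0 : ℂ × ℂ) 1, hF (xs x0 v θ t) c ≠ 0 := by
    choose! U hU hUn using hnz
    obtain ⟨T, hT, hcov⟩ := (isCompact_sphere (0 : ℂ × ℂ) 1).elim_nhds_subcover U hU
    have e2 : ∀ᶠ t : ℝ in 𝓝[>] 0, ∀ c0 ∈ T, ∀ c ∈ U c0, hF (xs x0 v θ t) c ≠ 0 := by
      rw [Filter.eventually_all_finset]
      intro c0 hc0
      exact hUn c0 (hT c0 hc0)
    filter_upwards [e2] with t ht c hc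
    have := hcov hc
    rw [mem_iUnion₂] at this
    obtain ⟨c0, h2, h3⟩ := this
    exact ht c0 h2 c h3
  -- compactness
  choose! U hU N hN hUN using hloc
  obtain ⟨T, hT, hcov⟩ := (isCompact_sphere (0 : ℂ × ℂ) 1).elim_nhds_subcover U hU
  have hN0 : 0 < ∏ c ∈ T, N c := Finset.prod_pos fun c hc => hN c (hT c hc)
  have e3 : ∀ᶠ t : ℝ in 𝓝[>] 0, ∀ c0 ∈ T, ∃ s : Finset (ℂ × ℝ),
      (∀ i ∈ s, TrapN (N c0) i (xs x0 v θ t)) ∧
      ∀ c ∈ U c0, wr (xs x0 v θ t) c = 0 →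
        ∃ k : ℕ, Into s ((hF (xs x0 v θ t))^[N c0 * k] c) := by
    rw [Filter.eventually_all_finset]
    intro c0 hc0
    exact hUN c0 (hT c0 hc0)
  filter_upwards [e1, e3] with t e1 e3
  refine ⟨∏ c ∈ T, N c, hN0, ?_⟩
  choose! s hs1 hs2 using e3
  have hdiv : ∀ c0 ∈ T, ∃ l : ℕ, 0 < l ∧ ∏ c ∈ T, N c = N c0 * l := by
    intro c0 hc0
    obtain ⟨l, hl⟩ := Finset.dvd_prod_of_mem N hc0
    refine ⟨l, ?_, hl⟩
    rcases Nat.eq_zero_or_pos l with h0 | h0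
    · rw [h0, Nat.mul_zero] at hl
      omega
    · exact h0
  classical
  refine ⟨T.biUnion s, e1, ?_, ?_⟩
  · intro i hi
    rw [Finset.mem_biUnion] at hi
    obtain ⟨c0, hc0, hi⟩ := hi
    obtain ⟨l, hl, hl2⟩ := hdiv c0 hc0
    rw [hl2]
    exact (hM d (N c0) l i _ hd1 (hN c0 (hT c0 hc0)) hl (hs1 c0 hc0 i hi)).1
  · intro c hc hw
    obtain ⟨c0, hc0, hcU⟩ : ∃ c0 ∈ T, c ∈ U c0 := by
      have := hcov hc
      rw [mem_iUnion₂] at this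
      obtain ⟨c0, h2, h3⟩ := this
      exact ⟨c0, h2, h3⟩
    obtain ⟨k, i, hi, hk⟩ := hs2 c0 hc0 c hcU hw
    obtain ⟨l, hl, hl2⟩ := hdiv c0 hc0
    obtain ⟨k', hk'⟩ := (hM d (N c0) l i _ hd1 (hN c0 (hT c0 hc0)) hl (hs1 c0 hc0 i hi)).2 c k
      ⟨i, Finset.mem_singleton_self i, hk⟩
    refine ⟨k', ?_⟩
    rw [hl2]
    apply into_mono _ hk'
    intro j hj
    rw [Finset.mem_singleton] at hj
    subst hj
    exact Finset.mem_biUnion.2 ⟨c0, hc0, hi⟩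

end Pool.Agent.Helper65.EP
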