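import Mathlib
import Pool.Agent.Helper65.EP.Fin
import Pool.Agent.Helper65.EP.GlobV

/-! The density theorem at the boundary of the space of rational maps. -/

set_option autoImplicit false

open Topology Filter Metric Set MeasureTheory
open scoped OnePoint

namespace Pool.Agent.Helper65.EP

open Pool.Agent.H790R3.RB
open Pool.Agent.W364.NM (ap ad dt ad_ap ap_ad ap_smul ap_ne ap_eq_zero ap_zero' semi exists_pr
  vne pr_csmul wr_eval sp_pr cr_ap)
open Pool.Agent.Helper65.EU (Into)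

/-- the holes: the zeros of the common factor -/
def Hole (Hf : ℂ × ℂ → ℂ) (c : OnePoint ℂ) : Prop :=
  ∃ z : ℂ, Hf (z, 1) = 0 ∧ c = (z : OnePoint ℂ)

theorem hole_of {Hf : ℂ × ℂ → ℂ} {n : ℕ} (hom : ∀ (c : ℂ) (p : ℂ × ℂ), Hf (c • p) = c ^ n * Hf p)
    (hinf : Hf (1, 0) ≠ 0) {p : ℂ × ℂ} (hp : p ≠ 0) (h : Hf p = 0) : Hole Hf (pr p) := by
  have h2 : p.2 ≠ 0 := by
    intro h2
    have e1 : p = p.1 • ((1, 0) : ℂ × ℂ) := by
      apply Prod.ext
      · simp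
      · simp [h2]
    have e2 : p.1 ≠ 0 := by
      intro h3
      exact hp (Prod.ext h3 h2)
    rw [e1, hom] at h
    exact (mul_ne_zero (pow_ne_zero _ e2) hinf) h
  have hat : At p (p.1 / p.2) := ⟨h2, rfl⟩
  refine ⟨p.1 / p.2, ?_, hat.pr⟩
  rw [hat.eq, hom] at h
  exact (mul_eq_zero.1 h).resolve_left (pow_ne_zero _ h2)

theorem wr_infty {d : ℕ} (hd : 2 ≤ d) {x : CV d} {p : ℂ × ℂ} (hp : p ≠ 0) (h : wr x p = 0) :
    (pr p) ∈ (fun z : ℂ => (z : OnePoint ℂ)) '' {z : ℂ | wr x (z, 1) = 0} ∪ {∞} := by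
  by_cases h2 : p.2 = 0
  · right
    rw [Pool.Agent.H790R3.RB.SP.pr_zero h2]
    rfl
  · left
    have hat : At p (p.1 / p.2) := ⟨h2, rfl⟩
    refine ⟨p.1 / p.2, ?_, hat.pr.symm⟩
    rw [hat.eq, (WR d x hd).1] at h
    exact (mul_eq_zero.1 h).resolve_left (pow_ne_zero _ h2)

theorem finalV (hGl : S_globV) (hFM : S_facMove) (hCr : S_critV) (hTr : S_transV) (hGe : S_genV)
    {d e : ℕ} {x0 : CV d} {y0 : CV e} {Hf : ℂ × ℂ → ℂ} (hF0 : Fac x0 y0 Hf)
    (hfin : {z : ℂ | Hf (z, 1) = 0}.Finite) (hinf : Hf (1, 0) ≠ 0)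
    (hfw : {z : ℂ | wr x0 (z, 1) = 0}.Finite)
    (h : ∀ c : OnePoint ℂ, ((¬ ∃ U ∈ 𝓝 c, InjOn (sp y0) U) ∨ Hole Hf c) → AttrC (sp y0) c)
    (hav : ∀ c : OnePoint ℂ, ((¬ ∃ U ∈ 𝓝 c, InjOn (sp y0) U) ∨ Hole Hf c) →
      ∀ j : ℕ, 1 ≤ j → ¬ Hole Hf ((sp y0)^[j] c))
    (hava : ∀ (c a : OnePoint ℂ) (N : ℕ), 0 < N →
      ((¬ ∃ U ∈ 𝓝 c, InjOn (sp y0) U) ∨ Hole Hf c) →
      Tendsto (fun k : ℕ => (sp y0)^[N * k] c) atTop (𝓝 a) → ∀ j : ℕ, ¬ Hole Hf ((sp y0)^[j] a)) :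
    ∃ Gd : Set (CV d), (∀ x ∈ Gd, ND x ∧ HypCyc (sp x)) ∧
      Tendsto (fun r : ℝ => volume (closedBall x0 r \ Gd) / volume (closedBall x0 r)) (𝓝[>] 0)
        (𝓝 0) := by
  have he1 : 1 ≤ e := hF0.he
  have hd : 2 ≤ d := by
    have := hF0.he
    have := hF0.hd
    omega
  have hd1 : 1 ≤ d := by omega
  choose! aa NN hNN hlim hkind using h
  set K : Set (OnePoint ℂ) := (fun z : ℂ => (z : OnePoint ℂ)) '' {z : ℂ | wr x0 (z, 1) = 0} ∪ {∞}
    with hK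
  have hKf : K.Finite := (hfw.image _).union (finite_singleton _)
  have hbf := ((hKf.image aa).preimage OnePoint.coe_injective.injOn).union (hfw.union hfin)
  obtain ⟨b, hb⟩ := hbf.exists_notMem
  rw [mem_union, not_or, mem_union, not_or] at hb
  obtain ⟨hb1, hb2, hb4⟩ := hb
  have hb3 : ∀ c : OnePoint ℂ, c ∈ K → aa c ≠ (b : OnePoint ℂ) := by
    intro c hc h2
    exact hb1 ⟨c, hc, h2⟩
  -- the change of coordinate
  set m : (ℂ × ℂ) × (ℂ × ℂ) := ((0, 1), (1, -b)) with hm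
  have hdt : dt m ≠ 0 := by
    rw [hm]
    simp [dt]
  obtain ⟨A, hA⟩ := t_move d m hdt
  obtain ⟨A', hA'⟩ := t_move e m hdt
  have hdet : (0 : ℂ) * (-b) - 1 * 1 ≠ 0 := by norm_num
  obtain ⟨H, hH, -⟩ := (MOB SP) 0 1 1 (-b) hdet
  have hH' : ∀ p : ℂ × ℂ, p ≠ 0 → H (pr p) = pr (ap m p) := fun p hp => hH p hp
  have hmi : ∀ w : ℂ × ℂ, w = ap m ((dt m)⁻¹ • ap (ad m) w) := by
    intro w
    rw [ap_smul, ad_ap, smul_smul, inv_mul_cancel₀ hdt, one_smul]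
  have hND : ∀ x : CV d, ND x → ND (A x) := by
    intro x hx w hw
    rw [hmi w, hA] at hw
    have e2 := hx _ (ap_eq_zero hdt hw)
    rw [hmi w, e2, ap_zero']
  have hNDe : ND (A' y0) := by
    intro w hw
    rw [hmi w, hA'] at hw
    have e2 := hF0.nd _ (ap_eq_zero hdt hw)
    rw [hmi w, e2, ap_zero']
  have hND' : ∀ x : CV d, ND (A x) → ND x := by
    intro x hx p hp
    have e1 := hA x p
    rw [hp, ap_zero'] at e1
    exact ap_eq_zero hdt (hx _ e1)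
  have hconj : ∀ x : CV d, ND x → ∀ z, H (sp x z) = sp (A x) (H z) := fun x hx z =>
    semi hd1 hx (hND x hx) hdt one_ne_zero (fun p => by rw [one_smul]; exact hA x p) H hH' z
  have hconje : ∀ z, H (sp y0 z) = sp (A' y0) (H z) := fun z =>
    semi he1 hF0.nd hNDe hdt one_ne_zero (fun p => by rw [one_smul]; exact hA' y0 p) H hH' z
  set x1 := A x0 with hx1
  set y1 := A' y0 with hy1
  set Hf1 : ℂ × ℂ → ℂ := fun p => Hf ((dt m)⁻¹ • ap (ad m) p) with hHf1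
  have hF1 : Fac x1 y1 Hf1 := hFM d e x0 x1 y0 y1 Hf m hdt hF0 (hA x0) (hA' y0)
  have hwr : ∀ p, wr x1 (ap m p) = wr x0 p := by
    intro p
    have := Pool.Agent.W364.NM.wr_conj hd hdt (c := 1) (x := x0) (y := x1)
      (fun p => by rw [one_smul]; exact hA x0 p) p
    rwa [one_pow, one_mul] at this
  have hinf1 : Hf1 (1, 0) ≠ 0 := by
    have e1 : ap m (b, 1) = (1, 0) := by
      rw [hm]
      simp [ap]
    rw [hHf1]
    show Hf ((dt m)⁻¹ • ap (ad m) (1, 0)) ≠ 0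
    rw [← e1, ap_ad, smul_smul, inv_mul_cancel₀ hdt, one_smul]
    exact hb4
  have hinfw : wr x1 (1, 0) ≠ 0 := by
    have e1 : ap m (b, 1) = (1, 0) := by
      rw [hm]
      simp [ap]
    rw [← e1, hwr]
    exact hb2
  -- the holes in the new coordinate
  have hole1 : ∀ (w : ℂ × ℂ) (u : OnePoint ℂ), w ≠ 0 → pr w = H u → ¬ Hole Hf u → Hf1 w ≠ 0 := by
    intro w u hw hwu hu h0
    apply hu
    have e1 : (dt m)⁻¹ • ap (ad m) w ≠ 0 := by
      intro e2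
      apply hw
      rw [hmi w, e2, ap_zero']
    have e3 := hole_of hF0.hom hinf e1 h0
    have e4 : H (pr ((dt m)⁻¹ • ap (ad m) w)) = H u := by
      rw [hH' _ e1, ← hmi w, hwu]
    rwa [H.injective e4] at e3
  have hyit : ∀ (w : ℂ × ℂ) (u : OnePoint ℂ) (j : ℕ), w ≠ 0 → pr w = H u →
      (hF y1)^[j] w ≠ 0 ∧ pr ((hF y1)^[j] w) = H ((sp y0)^[j] u) := by
    intro w u j hw hwu
    constructor
    · induction j with
      | zero => exact hw
      | succ j ih =>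
        rw [Function.iterate_succ_apply']
        exact fun h0 => ih (hF1.nd _ h0)
    · rw [← sp_iter_pr he1 hF1.nd hw j, hwu, iter_conj hconje]
  have hav1 : ∀ (w : ℂ × ℂ) (u : OnePoint ℂ) (j : ℕ), w ≠ 0 → pr w = H u →
      ¬ Hole Hf ((sp y0)^[j] u) → Hf1 ((hF y1)^[j] w) ≠ 0 := by
    intro w u j hw hwu hu
    obtain ⟨e1, e2⟩ := hyit w u j hw hwu
    exact hole1 _ _ e1 e2 hu
  obtain ⟨hTr1, hTr2, hTr3⟩ := hTr d e x1 y1 Hf1 hF1
  -- the kind of the limit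
  have hkind1 : ∀ u : OnePoint ℂ, u ∈ K → ((¬ ∃ U ∈ 𝓝 u, InjOn (sp y0) U) ∨ Hole Hf u) →
      ∃ a' : ℂ, H (aa u) = (a' : OnePoint ℂ) ∧ (AttF (NN u) x1 a' ∨
        ((∃ p q : ℕ, 0 < p ∧ 1 ≤ q ∧ NN u = p * q ∧ SatF p q x1 a') ∧
          ∀ k : ℕ, (sp y0)^[NN u * k] u ≠ aa u)) := by
    intro u huK hu
    have hj : ∀ (a' : ℂ), H (aa u) = (a' : OnePoint ℂ) → ∀ j : ℕ,
        Hf1 ((hF y1)^[j] (a', 1)) ≠ 0 := by
      intro a' ha' j
      refine hav1 (a', 1) (aa u) j (by simp) ?_ (hava u (aa u) (NN u) (hNN u hu) hu (hlim u hu) j)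
      rw [ha']
      exact (At.self a').pr
    rcases hkind u hu with h2 | ⟨⟨p, q, hp, hq, hpq, h2⟩, h3⟩
    · obtain ⟨a', ha', h4⟩ := s_germA (N := NN u) he1 hF0.nd hF1.nd (hA' y0) hH' (hb3 u huK)
      exact ⟨a', ha', Or.inl (hTr2 a' (NN u) (hNN u hu) (fun j _ => hj a' ha' j) (h4 h2))⟩
    · obtain ⟨a', ha', h4⟩ := s_germS e p q y0 y1 b H he1 hp hq hF0.nd hF1.nd (hA' y0) hH'
        (aa u) (hb3 u huK)
      exact ⟨a', ha', Or.inr ⟨⟨p, q, hp, hq, hpq, hTr3 a' p q hp hq (fun j _ => hj a' ha' j)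
        (h4 h2)⟩, h3⟩⟩
  have hlimH : ∀ u : OnePoint ℂ, ((¬ ∃ U ∈ 𝓝 u, InjOn (sp y0) U) ∨ Hole Hf u) →
      Tendsto (fun k : ℕ => H ((sp y0)^[NN u * k] u)) atTop (𝓝 (H (aa u))) := fun u hu =>
    (H.continuous.tendsto _).comp (hlim u hu)
  have hc2 : ∀ c : ℂ × ℂ, c ≠ 0 → wr x1 c = 0 → c.2 ≠ 0 := by
    intro c hc hw h2
    have e1 : c = c.1 • ((1, 0) : ℂ × ℂ) := by
      apply Prod.ext
      · simp
      · simp [h2]
    have e2 : c.1 ≠ 0 := by
      intro h3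
      exact hc (Prod.ext h3 h2)
    rw [e1, (WR d x1 hd).1] at hw
    exact (mul_ne_zero (pow_ne_zero _ e2) hinfw) hw
  have hsph : ∀ c ∈ sphere (0 : ℂ × ℂ) 1, c ≠ 0 := by
    intro c hc h0
    rw [h0, mem_sphere_zero_iff_norm, norm_zero] at hc
    exact zero_ne_one hc
  -- the critical points which are not holes
  have hcrit : ∀ c ∈ sphere (0 : ℂ × ℂ) 1, Hf1 c ≠ 0 → wr x1 c = 0 →
      ∃ N : ℕ, 0 < N ∧ GoodV x1 N c := by
    intro c hc hnh hw
    have hc0 := hsph c hc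
    have hat : At c (c.1 / c.2) := ⟨hc2 c hc0 hw, rfl⟩
    have hw1 : wr x1 (c.1 / c.2, 1) = 0 := by
      rw [hat.eq, (WR d x1 hd).1] at hw
      exact (mul_eq_zero.1 hw).resolve_left (pow_ne_zero _ hat.1)
    have hh1 : Hf1 (c.1 / c.2, 1) ≠ 0 := by
      intro h0
      apply hnh
      rw [hat.eq, hF1.hom, h0, mul_zero]
    have hni := hCr d e x1 y1 Hf1 _ hF1 hh1 hw1
    rw [← hat.pr] at hni
    set u := H.symm (pr c) with hu
    have hHu : H u = pr c := H.apply_symm_apply _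
    have hnu : (¬ ∃ U ∈ 𝓝 u, InjOn (sp y0) U) ∨ Hole Hf u :=
      Or.inl (noninj_conj hconje (by rw [hHu]; exact hni))
    have huK : u ∈ K := by
      have e1 : (dt m)⁻¹ • ap (ad m) c ≠ 0 := by
        intro e2
        apply hc0
        rw [hmi c, e2, ap_zero']
      have e2 : wr x0 ((dt m)⁻¹ • ap (ad m) c) = 0 := by
        rw [← hwr, ← hmi c, hw]
      have e3 := wr_infty hd e1 e2
      have e4 : H (pr ((dt m)⁻¹ • ap (ad m) c)) = H u := by
        rw [hH' _ e1, ← hmi c, hHu]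
      rwa [H.injective e4] at e3
    obtain ⟨a', ha', hk⟩ := hkind1 u huK hnu
    have hit : ∀ k : ℕ, pr ((hF x1)^[k] c) = H ((sp y0)^[k] u) := by
      intro k
      obtain ⟨s, hs, hs2⟩ := hTr1 c k (by
        intro j _
        rcases Nat.eq_zero_or_pos j with h0 | h0
        · rw [h0]
          exact hnh
        · exact hav1 c u j hc0 hHu.symm (hav u hnu j h0))
      rw [hs2, pr_csmul hs]
      exact (hyit c u k hc0 hHu.symm).2
    refine ⟨NN u, hNN u hnu, a', ?_, ?_⟩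
    · simp only [hit]
      rw [← ha']
      exact hlimH u hnu
    · rcases hk with h2 | ⟨h2, h3⟩
      · exact Or.inl h2
      · refine Or.inr ⟨h2, ?_⟩
        intro k
        rw [hit, ← ha']
        exact fun e1 => h3 k (H.injective e1)
  -- the holes
  have hholes : ∀ c ∈ sphere (0 : ℂ × ℂ) 1, Hf1 c = 0 → ∃ N : ℕ, 0 < N ∧
      GoodV x1 N ((hF x1)^[N - 1] (hF y1 c)) := by
    intro c hc hh
    have hc0 := hsph c hc
    set u := H.symm (pr c) with hu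
    have hHu : H u = pr c := H.apply_symm_apply _
    have e1 : (dt m)⁻¹ • ap (ad m) c ≠ 0 := by
      intro e2
      apply hc0
      rw [hmi c, e2, ap_zero']
    have e4 : H (pr ((dt m)⁻¹ • ap (ad m) c)) = H u := by
      rw [hH' _ e1, ← hmi c, hHu]
    have hhu : Hole Hf u := by
      have e3 := hole_of hF0.hom hinf e1 hh
      rwa [H.injective e4] at e3
    have hnu : (¬ ∃ U ∈ 𝓝 u, InjOn (sp y0) U) ∨ Hole Hf u := Or.inr hhu
    have huK : u ∈ K := by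
      obtain ⟨z, hz, hz2⟩ := hhu
      left
      refine ⟨z, ?_, hz2.symm⟩
      show wr x0 (z, 1) = 0
      by_contra hne
      have h5 : hF x0 (z, 1) = 0 := by rw [hF0.fac, hz, zero_smul]
      have h6 := wr_eval hd x0 z
      rw [PQ.hF_one] at h5
      have h7 := congrArg Prod.fst h5
      have h8 := congrArg Prod.snd h5
      simp only [Prod.fst_zero, Prod.snd_zero] at h7 h8
      rw [h7, h8, mul_zero, zero_mul, sub_zero, mul_zero] at h6
      exact hne h6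
    obtain ⟨a', ha', hk⟩ := hkind1 u huK hnu
    have hw0 : hF y1 c ≠ 0 := fun h0 => hc0 (hF1.nd _ h0)
    have hit : ∀ k : ℕ, pr ((hF x1)^[NN u * k] ((hF x1)^[NN u - 1] (hF y1 c))) =
        H ((sp y0)^[NN u * (k + 1)] u) := by
      intro k
      obtain ⟨s, hs, hs2⟩ := hTr1 (hF y1 c) (NN u * k + (NN u - 1)) (by
        intro j _
        rw [← Function.iterate_succ_apply]
        exact hav1 c u (j + 1) hc0 hHu.symm (hav u hnu (j + 1) (by omega)))
      rw [← Function.iterate_add_apply, hs2, pr_csmul hs, ← Function.iterate_succ_apply]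
      have e5 : (NN u * k + (NN u - 1)).succ = NN u * (k + 1) := by
        have := hNN u hnu
        rw [mul_add, mul_one]
        omega
      rw [e5]
      exact (hyit c u _ hc0 hHu.symm).2
    refine ⟨NN u, hNN u hnu, a', ?_, ?_⟩
    · simp only [hit]
      rw [← ha']
      exact (hlimH u hnu).comp (tendsto_add_atTop_nat 1)
    · rcases hk with h2 | ⟨h2, h3⟩
      · exact Or.inl h2
      · refine Or.inr ⟨h2, ?_⟩
        intro k
        rw [hit, ← ha']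
        exact fun e1 => h3 (k + 1) (H.injective e1)
  have hglob1 := ae_lin A (hGl d e x1 y1 Hf1 hF1 hinf1 hcrit hholes)
  have hglob : ∀ᵐ v : CV d, ∃ B : Set ℝ, B.Countable ∧ ∀ θ ∉ B, ∀ᶠ t : ℝ in 𝓝[>] 0,
      ∃ N : ℕ, 0 < N ∧ ∃ s : Finset (ℂ × ℝ), CertN N s (xs x1 (A v) θ t) := by
    filter_upwards [hglob1, hGe d e x0 y0 Hf hF0 hfin hinf] with v h2 h3
    apply h2
    intro c hc hh
    have e1 : (dt m)⁻¹ • ap (ad m) c ≠ 0 := by
      intro e2
      apply hc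
      rw [hmi c, e2, ap_zero']
    have e2 := h3 _ e1 hh
    rw [hmi c, hA' y0, hA v, cr_ap]
    exact mul_ne_zero hdt e2
  set Gd : Set (CV d) := {x | ∃ N : ℕ, 0 < N ∧ ∃ s : Finset (ℂ × ℝ), CertN N s (A x)} with hGd
  have hopen : IsOpen Gd := by
    have e1 : Gd = ⋃ N : ℕ, ⋃ s : Finset (ℂ × ℝ), ⋃ _ : 0 < N, A ⁻¹' {x : CV d | CertN N s x} := by
      ext x
      simp only [hGd, mem_ofPred_eq, mem_iUnion, mem_preimage, exists_prop]
      constructor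
      · rintro ⟨N, hN, s, hs⟩
        exact ⟨N, s, hN, hs⟩
      · rintro ⟨N, s, hN, hs⟩
        exact ⟨N, hN, s, hs⟩
    rw [e1]
    refine isOpen_iUnion fun N => isOpen_iUnion fun s => isOpen_iUnion fun _ => ?_
    exact (t_open d N s).preimage A.continuous
  refine ⟨Gd, ?_, ?_⟩
  · rintro x ⟨N, hN, s, hs⟩
    obtain ⟨h2, h3⟩ := t_hyp d N s (A x) hd hN hs
    have h4 := hND' x h2
    exact ⟨h4, hypCyc_conj (hconj x h4) h3⟩
  · apply Pool.Agent.Helper65.EU.density hopen x0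
    filter_upwards [hglob] with v hv
    obtain ⟨B, hB, h2⟩ := hv
    refine ⟨B, hB, fun θ hθ => ?_⟩
    filter_upwards [h2 θ hθ] with t ht
    obtain ⟨N, hN, s, hs⟩ := ht
    refine ⟨N, hN, s, ?_⟩
    have e1 : xs x1 (A v) θ t = A (x0 + ((t : ℂ) * Complex.exp (θ * Complex.I)) • v) := by
      rw [map_add, map_smul]
      rfl
    rw [← e1]
    exact hs

end Pool.Agent.Helper65.EP
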