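import Mathlib
import Pool.Agent.Helper65.EP.RayS
import Pool.Agent.Helper65.EP.Stm4

/-! The orbits attracted by a nondegenerate parabolic point are captured after perturbation along a
ray; the unperturbed map may be degenerate. -/

set_option autoImplicit false

open Topology Filter Metric Set MeasureTheory
open scoped OnePoint

namespace Pool.Agent.Helper65.EP

open Pool.Agent.H790R3.RB
open Pool.Agent.Helper65.EU (Into)

theorem rayS_gen (hU : S_unfoldS) (hCa : S_captS) (hE : S_enterS) {d p q : ℕ} {x0 v : CV d}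
    {a : ℂ} (hq : 2 ≤ q) (ha : SatF p q x0 a)
    (hv : ∀ᶠ τ : ℂ in 𝓝[≠] 0, ∀ z : ℂ, Fx (p * q) (x0 + τ • v) z = 0 →
      deriv (Fx (p * q) (x0 + τ • v)) z ≠ 0) :
    ∃ B : Set ℝ, B.Countable ∧ ∀ θ ∉ B, ∀ c0 : ℂ × ℂ, c0 ≠ 0 →
      Tendsto (fun k : ℕ => pr ((hF x0)^[p * q * k] c0)) atTop (𝓝 (a : OnePoint ℂ)) →
      (∀ k : ℕ, pr ((hF x0)^[p * q * k] c0) ≠ a) → CaughtF (p * q) x0 v θ c0 := by
  obtain ⟨hB0, hfix, hprim, C, hC0, hCl⟩ := ha
  have hx00 : x0 + (0 : ℂ) • v = x0 := by rw [zero_smul, add_zero]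
  set Y : ℂ × ℂ → ℂ × ℂ := fun w => (hF (x0 + w.1 • v))^[p] (w.2, 1) with hY
  have hYc : ∀ k : WithTop ℕ∞, ContDiff ℂ k Y := by
    intro k
    have e1 : ContDiff ℂ k
        (fun w : ℂ × ℂ => ((x0 + w.1 • v, (w.2, (1 : ℂ))) : CV d × (ℂ × ℂ))) := by
      fun_prop
    exact (hF_iter_contDiff d p k).comp e1
  have hY0 : (Y (0, a)).2 ≠ 0 := by simpa [hY] using hB0
  set φ : ℂ × ℂ → ℂ := fun w => (Y w).1 / (Y w).2 with hφ
  have hφF : ∀ τ z : ℂ, φ (τ, z) = Fa p (x0 + τ • v) z := fun τ z => rfl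
  have hφan : AnalyticAt ℂ φ (0, a) :=
    ContDiffAt.analyticAt ((hYc _).fst.contDiffAt.div (hYc _).snd.contDiffAt hY0)
  have hφ0 : φ (0, a) = a := by rw [hφF, hx00, hfix]
  have hφlam : deriv (fun z => φ (0, z)) a = deriv (Fa p x0) a := by
    have : (fun z => φ (0, z)) = Fa p x0 := by funext z; rw [hφF, hx00]
    rw [this]
  have hYz : ∀ τ : ℂ, Differentiable ℂ (fun z : ℂ => Y (τ, z)) := by
    intro τ
    exact ((hYc 1).differentiable (by norm_num)).comp (by fun_prop)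
  have hFad : ∀ τ z : ℂ, (Y (τ, z)).2 ≠ 0 → DifferentiableAt ℂ (Fa p (x0 + τ • v)) z := by
    intro τ z hz
    exact ((hYz τ).fst z).div ((hYz τ).snd z) hz
  -- iterates
  set Φ : ℂ × ℂ → ℂ × ℂ := fun w => (w.1, φ w) with hΦ
  have hΦ0 : Φ (0, a) = (0, a) := by
    simp only [hΦ]
    rw [hφ0]
  have hΦc : ContinuousAt Φ (0, a) := continuousAt_fst.prodMk hφan.continuousAt
  have hΦj : ∀ j : ℕ, Φ^[j] (0, a) = (0, a) := fun j => Function.iterate_fixed hΦ0 j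
  have hΦcj : ∀ j : ℕ, ContinuousAt Φ^[j] (0, a) := fun j => hΦc.iterate hΦ0 j
  have hΦi : ∀ (j : ℕ) (τ z : ℂ), Φ^[j] (τ, z) = (τ, (Fa p (x0 + τ • v))^[j] z) := by
    intro j τ z
    induction j with
    | zero => rfl
    | succ j ih => rw [Function.iterate_succ_apply', ih, Function.iterate_succ_apply']; rfl
  obtain ⟨ρ, hρ, hρY⟩ : ∃ ρ : ℝ, 0 < ρ ∧ ∀ w ∈ ball ((0 : ℂ), a) ρ,
      ∀ j ∈ Finset.range q, (Y (Φ^[j] w)).2 ≠ 0 := by
    apply Metric.eventually_nhds_iff_ball.1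
    rw [Filter.eventually_all_finset]
    intro j _
    have h1 : ∀ᶠ w in 𝓝 ((0 : ℂ), a), (Y w).2 ≠ 0 :=
      ((hYc 0).snd.continuous.continuousAt).eventually_ne hY0
    have h2 := (hΦcj j).tendsto
    rw [hΦj j] at h2
    exact h2.eventually h1
  have hit : ∀ τ z : ℂ, (τ, z) ∈ ball ((0 : ℂ), a) ρ →
      ((hF (x0 + τ • v))^[p * q] (z, 1)).2 ≠ 0 ∧
        (Fa p (x0 + τ • v))^[q] z = Fa (p * q) (x0 + τ • v) z := by
    intro τ z h
    have h1 := At.iter_pow (x := x0 + τ • v) (p := p) z q (fun j hj => by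
      have := hρY _ h j (Finset.mem_range.2 hj)
      rw [hΦi] at this
      exact this)
    exact ⟨h1.1, h1.2.symm⟩
  have hmem : ∀ τ : ℂ, τ ∈ ball (0 : ℂ) ρ → ∀ w ∈ ball a ρ, (τ, w) ∈ ball ((0 : ℂ), a) ρ := by
    intro τ hτ w hw
    rw [mem_ball, Prod.dist_eq, max_lt_iff]
    exact ⟨hτ, hw⟩
  have hS : ∃ r : ℝ, 0 < r ∧ ∀ᶠ τ in 𝓝[≠] (0 : ℂ), ∀ z ∈ ball a r, φ (τ, z) = z →
      (deriv (fun z => φ (τ, z)) z) ^ q ≠ 1 := by
    refine ⟨ρ, hρ, ?_⟩
    filter_upwards [hv, nhdsWithin_le_nhds (ball_mem_nhds (0 : ℂ) hρ)] with τ e1 e2 z hz e3 e4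
    obtain ⟨h2, h3⟩ := hit τ z (hmem τ e2 z hz)
    have hY2 : (Y (τ, z)).2 ≠ 0 := by
      simpa using hρY (τ, z) (hmem τ e2 z hz) 0 (Finset.mem_range.2 (by omega))
    have h4 : Fa p (x0 + τ • v) z = z := by rw [← hφF, e3]
    have h5 : (Fa p (x0 + τ • v))^[q] z = z := Function.iterate_fixed h4 q
    have h6 : Fx (p * q) (x0 + τ • v) z = 0 := by
      rw [Fx_eq h2, ← h3, h5, sub_self, zero_mul]
    apply e1 z h6
    have hd2 : HasDerivAt (Fa p (x0 + τ • v))^[q] ((deriv (Fa p (x0 + τ • v)) z) ^ q) z :=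
      HasDerivAt.iterate z (hFad τ z hY2).hasDerivAt h4 q
    have e8 : Fx (p * q) (x0 + τ • v) =ᶠ[𝓝 z] fun w =>
        ((Fa p (x0 + τ • v))^[q] w - w) * ((hF (x0 + τ • v))^[p * q] (w, 1)).2 := by
      filter_upwards [isOpen_ball.mem_nhds hz] with w hw
      obtain ⟨a1, a2⟩ := hit τ w (hmem τ e2 w hw)
      rw [Fx_eq a1, a2]
    have hd3 : Differentiable ℂ (fun w : ℂ => ((hF (x0 + τ • v))^[p * q] (w, 1)).2) := by
      have e5 : ContDiff ℂ 1
          (fun w : ℂ => (((x0 + τ • v), (w, (1 : ℂ))) : CV d × (ℂ × ℂ))) := by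
        fun_prop
      exact ((hF_iter_contDiff d (p * q) 1).comp e5).snd.differentiable (by norm_num)
    have e9 : (deriv (Fa p (x0 + τ • v)) z) ^ q = 1 := e4
    have e10 : deriv (fun w => ((Fa p (x0 + τ • v))^[q] w - w) *
        ((hF (x0 + τ • v))^[p * q] (w, 1)).2) z =
        ((deriv (Fa p (x0 + τ • v)) z) ^ q - 1) * ((hF (x0 + τ • v))^[p * q] (z, 1)).2 +
        ((Fa p (x0 + τ • v))^[q] z - z) *
          deriv (fun w : ℂ => ((hF (x0 + τ • v))^[p * q] (w, 1)).2) z :=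
      ((hd2.sub (hasDerivAt_id z)).mul (hd3 z).hasDerivAt).deriv
    rw [e8.deriv_eq, e10, e9, h5, sub_self, sub_self, zero_mul, zero_mul, add_zero]
  have hCl' : Tendsto (fun z => ((fun z => φ (0, z))^[q] z - z) / (z - a) ^ (q + 1)) (𝓝[≠] a)
      (𝓝 C) := by
    apply hCl.congr'
    filter_upwards [nhdsWithin_le_nhds (ball_mem_nhds a hρ)] with z hz
    obtain ⟨-, h3⟩ := hit 0 z (hmem 0 (mem_ball_self hρ) z hz)
    have h4 : (fun z => φ (0, z)) = Fa p (x0 + (0 : ℂ) • v) := rfl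
    rw [h4, h3, hx00]
  obtain ⟨ζ, ζc, ζ0, B, hB, hθ⟩ := hU φ a _ C q hq hprim hφan hφ0 hφlam hC0 hCl' hS
  refine ⟨B, hB, ?_⟩
  intro θ hθB c0 hc0 hlim hnea
  obtain ⟨η, hNear⟩ := hθ θ hθB
  set e : ℂ := Complex.exp (θ * Complex.I) with he
  set G : ℝ → ℂ → ℂ := fun t y => (fun z => φ (t * e, z))^[q] (ζ (t * e) + y) - ζ (t * e) with hG
  have hτ := tau_tendsto θ
  rw [← he] at hτ
  have hζt : Tendsto (fun t : ℝ => ζ (t * e)) (𝓝[>] 0) (𝓝 a) := by
    have := ζc.tendsto.comp hτ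
    rwa [ζ0] at this
  -- the region of validity
  set r : ℝ := ρ / 4 with hr
  have hr0 : 0 < r := by positivity
  have hGr : ∀ᶠ t : ℝ in 𝓝[>] 0, ∀ y, ‖y‖ ≤ r →
      ((hF (xr x0 v θ t))^[p * q] (ζ (t * e) + y, 1)).2 ≠ 0 ∧
        ζ (t * e) + G t y = Fa (p * q) (xr x0 v θ t) (ζ (t * e) + y) := by
    filter_upwards [hτ (ball_mem_nhds (0 : ℂ) hρ), hζt (ball_mem_nhds a (half_pos hρ))]
      with t e1 e2 y hy
    have h1 : ζ (t * e) + y ∈ ball a ρ := by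
      rw [mem_ball, dist_eq_norm]
      have e3 : dist (ζ (t * e)) a < ρ / 2 := e2
      rw [dist_eq_norm] at e3
      calc ‖ζ (t * e) + y - a‖ = ‖(ζ (t * e) - a) + y‖ := by ring_nf
        _ ≤ ‖ζ (t * e) - a‖ + ‖y‖ := norm_add_le _ _
        _ < ρ / 2 + ρ / 4 + ρ / 4 := by linarith
        _ = ρ := by ring
    obtain ⟨h2, h3⟩ := hit (t * e) _ (hmem _ e1 _ h1)
    refine ⟨h2, ?_⟩
    have h4 : (fun z => φ (t * e, z)) = Fa p (x0 + ((t : ℂ) * e) • v) := rfl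
    simp only [hG]
    rw [h4, h3]
    simp only [xr, ← he]
    ring
  obtain ⟨r1, hr1, e1, he1, hcap⟩ := hCa q C η G hNear r hr0
  -- the orbit of `c0`
  set P : ℕ → ℂ × ℂ := fun k => (hF x0)^[p * q * k] c0 with hP
  set z : ℕ → ℂ := fun k => (P k).1 / (P k).2 with hz
  have hAt : ∀ᶠ k in atTop, At (P k) (z k) := by
    filter_upwards [hlim (OnePoint.isOpenEmbedding_coe.isOpen_range.mem_nhds ⟨a, rfl⟩)] with k hk
    obtain ⟨w, hw⟩ := hk
    have h3 : At (P k) w := at_of_pr hw.symm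
    exact ⟨h3.1, rfl⟩
  have hzt : Tendsto z atTop (𝓝 a) := by
    rw [OnePoint.isOpenEmbedding_coe.tendsto_nhds_iff]
    apply hlim.congr'
    filter_upwards [hAt] with k hk
    exact hk.pr
  have hzne : ∀ᶠ k in atTop, z k ≠ a := by
    filter_upwards [hAt] with k hk h3
    apply hnea k
    exact hk.pr.trans (by rw [h3])
  have hrec : ∀ᶠ k in atTop, z (k + 1) = Fa (p * q) x0 (z k) := by
    filter_upwards [hAt, hzt (ball_mem_nhds a hρ)] with k hk hk2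
    have h3 : ((hF x0)^[p * q] (z k, 1)).2 ≠ 0 := by
      have := (hit 0 (z k) (hmem 0 (mem_ball_self hρ) _ hk2)).1
      rwa [hx00] at this
    have h4 := hk.iter h3
    have h5 : (hF x0)^[p * q] (P k) = P (k + 1) := by
      simp only [hP]
      rw [← Function.iterate_add_apply, Nat.mul_succ, Nat.add_comm]
    rw [h5] at h4
    exact h4.2
  have hratio : Tendsto (fun k => ((z (k + 1) - a) - (z k - a)) / (z k - a) ^ (q + 1)) atTop
      (𝓝 C) := by
    have h1 : Tendsto z atTop (𝓝[≠] a) :=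
      tendsto_nhdsWithin_of_tendsto_nhds_of_eventually_within _ hzt hzne
    apply (hCl.comp h1).congr'
    filter_upwards [hrec] with k hk
    simp only [Function.comp_apply]
    rw [hk]
    congr 1
    ring
  obtain ⟨K0, hK0⟩ := eventually_atTop.1 hzne
  have hent := hE q C (fun n => z (n + K0) - a) (by omega) hC0 (by
      have := (hzt.comp (tendsto_add_atTop_nat K0)).sub_const a
      rwa [sub_self] at this) (fun n => sub_ne_zero.2 (hK0 _ (by omega))) (by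
      have := hratio.comp (tendsto_add_atTop_nat K0)
      refine this.congr fun n => ?_
      simp only [Function.comp_apply]
      rw [show n + 1 + K0 = n + K0 + 1 by ring]) (e1 / 2) (half_pos he1)
  have hsm : ∀ᶠ n in atTop, ‖z (n + K0) - a‖ < r1 := by
    have := (((hzt.comp (tendsto_add_atTop_nat K0)).sub_const a).norm)
    rw [sub_self, norm_zero] at this
    exact this.eventually (gt_mem_nhds hr1)
  have hAt' : ∀ᶠ n in atTop, At (P (n + K0)) (z (n + K0)) :=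
    (tendsto_add_atTop_nat K0).eventually hAt
  obtain ⟨n0, ⟨⟨hn1, hn2⟩, hn3⟩, hn4⟩ := ((hent.and hsm).and hAt').exists
  set k := n0 + K0 with hk
  set ys : ℂ := z k - a with hys
  have hys0 : ys ≠ 0 := sub_ne_zero.2 (hK0 _ (by omega))
  have hysn : 0 < ‖ys‖ := norm_pos_iff.2 hys0
  -- the open entrance region
  have hO : ∀ᶠ y in 𝓝 ys, ‖ys‖ / 2 < ‖y‖ ∧ ‖y‖ < r1 ∧ 0 < (-(q * C * y ^ q)⁻¹).re ∧
      |(-(q * C * y ^ q)⁻¹).im| < e1 * (-(q * C * y ^ q)⁻¹).re := by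
    have hqC : (q : ℂ) * C * ys ^ q ≠ 0 := by
      have : (q : ℂ) ≠ 0 := Nat.cast_ne_zero.2 (by omega)
      exact mul_ne_zero (mul_ne_zero this hC0) (pow_ne_zero _ hys0)
    have c1 : ContinuousAt (fun y : ℂ => -(q * C * y ^ q)⁻¹) ys :=
      ((continuousAt_const.mul (continuousAt_id.pow q)).inv₀ hqC).neg
    have c2 : ContinuousAt (fun y : ℂ => (-(q * C * y ^ q)⁻¹).re) ys :=
      Complex.continuous_re.continuousAt.comp c1
    have c3 : ContinuousAt (fun y : ℂ => |(-(q * C * y ^ q)⁻¹).im|) ys :=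
      (Complex.continuous_im.continuousAt.comp c1).abs
    have c4 : ContinuousAt (fun y : ℂ => ‖y‖) ys := continuous_norm.continuousAt
    have c5 : ContinuousAt (fun y : ℂ => e1 * (-(q * C * y ^ q)⁻¹).re) ys :=
      continuousAt_const.mul c2
    refine (c4.eventually (lt_mem_nhds (by linarith))).and
      ((c4.eventually (gt_mem_nhds hn3)).and ((c2.eventually (lt_mem_nhds hn1)).and
        (c3.tendsto.eventually_lt c5.tendsto ?_)))
    calc |(-(q * C * ys ^ q)⁻¹).im| ≤ e1 / 2 * (-(q * C * ys ^ q)⁻¹).re := hn2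
      _ < e1 * (-(q * C * ys ^ q)⁻¹).re := by nlinarith
  have hQ : Tendsto (fun w : ℝ × (ℂ × ℂ) => (hF (xr x0 v θ w.1))^[p * q * k] w.2)
      (𝓝[>] (0 : ℝ) ×ˢ 𝓝 c0) (𝓝 (P k)) := iter_tendsto x0 v θ c0 (p * q * k)
  have hQ1 : Tendsto (fun w : ℝ × (ℂ × ℂ) => ((hF (xr x0 v θ w.1))^[p * q * k] w.2).1 /
      ((hF (xr x0 v θ w.1))^[p * q * k] w.2).2 - ζ (w.1 * e)) (𝓝[>] (0 : ℝ) ×ˢ 𝓝 c0)
      (𝓝 ys) := by
    have c1 : Tendsto (fun w : ℂ × ℂ => w.1 / w.2) (𝓝 (P k)) (𝓝 (z k)) :=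
      (continuousAt_fst.div continuousAt_snd hn4.1).tendsto
    exact (c1.comp hQ).sub (hζt.comp tendsto_fst)
  have hQ2 : ∀ᶠ w in 𝓝[>] (0 : ℝ) ×ˢ 𝓝 c0, ((hF (xr x0 v θ w.1))^[p * q * k] w.2).2 ≠ 0 :=
    hQ.eventually (continuousAt_snd.eventually_ne hn4.1)
  obtain ⟨pa, hpa, pb, hpb, hab⟩ := Filter.eventually_prod_iff.1 ((hQ1.eventually hO).and hQ2)
  refine ⟨{c | pb c}, hpb, ?_⟩
  filter_upwards [hpa, hcap (‖ys‖ / 2) (by positivity), hGr] with t h3 h5 h6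
  obtain ⟨T, hT1, hT2⟩ := h5
  refine ⟨T.image (fun i => (ζ (t * e) + i.1, i.2)), ?_, ?_⟩
  · intro i hi
    obtain ⟨i', hi', rfl⟩ := Finset.mem_image.1 hi
    obtain ⟨h7, h8⟩ := hT1 i' hi'
    exact trap_of h6 (fun y hy => (h7 y hy).1) (fun y hy => (h7 y hy).2) h8
  · intro c hc
    obtain ⟨⟨o1, o2, o3, o4⟩, h8⟩ := hab h3 hc
    set y : ℂ := ((hF (xr x0 v θ t))^[p * q * k] c).1 /
      ((hF (xr x0 v θ t))^[p * q * k] c).2 - ζ (t * e) with hy
    obtain ⟨i, hi, n, hn5, hn6⟩ := hT2 y o1.le o2.le o3 o4.le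
    have h9 : At ((hF (xr x0 v θ t))^[p * q * k] c) (ζ (t * e) + y) := ⟨h8, by rw [hy]; ring⟩
    have h10 := h9.orbit h6 hn5
    refine ⟨n + k, ?_⟩
    have h11 : (hF (xs x0 v θ t))^[p * q * (n + k)] c =
        (hF (xr x0 v θ t))^[p * q * n] ((hF (xr x0 v θ t))^[p * q * k] c) := by
      rw [Nat.mul_add, Function.iterate_add_apply]
      rfl
    rw [h11]
    obtain ⟨i2, hi2, h12⟩ := h10.into (i := (ζ (t * e) + i.1, i.2)) (by
      have : ζ (t * e) + (G t)^[n] y - (ζ (t * e) + i.1) = (G t)^[n] y - i.1 := by ring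
      rw [this]
      exact hn6)
    rw [Finset.mem_singleton] at hi2
    rw [hi2] at h12
    exact ⟨_, Finset.mem_image_of_mem _ hi, h12⟩

theorem par_gen (hT : S_trap) (hCa : S_capture) (hE : S_enter) {d N : ℕ}
    {x0 v : CV d} {a : ℂ} (ha : ParF N x0 a)
    (hv : ∀ᶠ τ : ℂ in 𝓝[≠] 0, ∀ z : ℂ, Fx N (x0 + τ • v) z = 0 →
      deriv (Fx N (x0 + τ • v)) z ≠ 0) :
    ∃ B : Set ℝ, B.Countable ∧ ∀ θ ∉ B, ∀ c0 : ℂ × ℂ, c0 ≠ 0 →
      Tendsto (fun k : ℕ => pr ((hF x0)^[N * k] c0)) atTop (𝓝 (a : OnePoint ℂ)) →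
      (∀ k : ℕ, pr ((hF x0)^[N * k] c0) ≠ a) → Caught N x0 v θ c0 := by
  obtain ⟨hB0, hfix, hd1, hd2⟩ := ha
  set Y : ℂ × ℂ → ℂ × ℂ := fun q => (hF (x0 + q.1 • v))^[N] (q.2, 1) with hY
  have hYc : ContDiff ℂ 3 Y := by
    have e1 : ContDiff ℂ 3 (fun q : ℂ × ℂ => ((x0 + q.1 • v, (q.2, (1 : ℂ))) : CV d × (ℂ × ℂ))) := by
      fun_prop
    exact (hF_iter_contDiff d N 3).comp e1
  have hY0 : (Y (0, a)).2 ≠ 0 := by simpa [hY] using hB0
  set φ : ℂ × ℂ → ℂ := fun q => (Y q).1 / (Y q).2 - q.2 with hφ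
  have hφF : ∀ τ z : ℂ, φ (τ, z) = Fa N (x0 + τ • v) z - z := fun τ z => rfl
  have hφc : ContDiffAt ℂ 3 φ (0, a) := by
    apply ContDiffAt.sub _ contDiffAt_snd
    exact hYc.fst.contDiffAt.div hYc.snd.contDiffAt hY0
  have hYz : ∀ τ : ℂ, Differentiable ℂ (fun z : ℂ => Y (τ, z)) := by
    intro τ
    exact (hYc.differentiable (by norm_num)).comp (by fun_prop)
  have hFad : ∀ τ z : ℂ, (Y (τ, z)).2 ≠ 0 → DifferentiableAt ℂ (Fa N (x0 + τ • v)) z := by
    intro τ z hz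
    exact ((hYz τ).fst z).div ((hYz τ).snd z) hz
  have hx00 : x0 + (0 : ℂ) • v = x0 := by rw [zero_smul, add_zero]
  have h0 : φ (0, a) = 0 := by rw [hφF, hx00, hfix, sub_self]
  have hne0 : ∀ᶠ z in 𝓝 a, (Y (0, z)).2 ≠ 0 :=
    ((hYz 0).snd.continuous.continuousAt (x := a)).eventually_ne hY0
  have hder : ∀ z : ℂ, (Y (0, z)).2 ≠ 0 →
      deriv (fun z => φ (0, z)) z = deriv (Fa N x0) z - 1 := by
    intro z hz
    have e1 : (fun z => φ (0, z)) = fun z => Fa N x0 z - z := by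
      funext z; rw [hφF, hx00]
    have e2 := hFad 0 z hz
    rw [hx00] at e2
    rw [e1]
    exact (e2.hasDerivAt.sub (hasDerivAt_id z)).deriv
  have h1 : deriv (fun z => φ (0, z)) a = 0 := by rw [hder a hY0, hd1, sub_self]
  set C : ℂ := deriv (deriv (Fa N x0)) a / 2 with hC
  have h2 : deriv (deriv (fun z => φ (0, z))) a = 2 * C := by
    have e1 : deriv (fun z => φ (0, z)) =ᶠ[𝓝 a] fun z => deriv (Fa N x0) z - 1 := by
      filter_upwards [hne0] with z hz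
      exact hder z hz
    rw [e1.deriv_eq, deriv_sub_const, hC]
    ring
  have hC0 : C ≠ 0 := div_ne_zero hd2 two_ne_zero
  -- the denominators near `(0, a)`
  obtain ⟨ρ, hρ, hρY⟩ : ∃ ρ : ℝ, 0 < ρ ∧ ∀ q ∈ ball ((0 : ℂ), a) ρ, (Y q).2 ≠ 0 :=
    Metric.eventually_nhds_iff_ball.1 ((hYc.snd.continuous.continuousAt).eventually_ne hY0)
  have hS : ∃ r : ℝ, 0 < r ∧ ∀ᶠ τ in 𝓝[≠] (0 : ℂ), ∀ z ∈ ball a r, φ (τ, z) = 0 →
      deriv (fun z => φ (τ, z)) z ≠ 0 := by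
    refine ⟨ρ, hρ, ?_⟩
    filter_upwards [hv, nhdsWithin_le_nhds (ball_mem_nhds (0 : ℂ) hρ)] with τ e1 e2 z hz e3
    have hz2 : (Y (τ, z)).2 ≠ 0 := hρY _ (by
      rw [mem_ball, Prod.dist_eq, max_lt_iff]
      exact ⟨e2, hz⟩)
    have e4 : Fx N (x0 + τ • v) z = 0 := by
      have e5 : Fx N (x0 + τ • v) z = φ (τ, z) * (Y (τ, z)).2 := by
        simp only [Fx, hφ]
        have : (Y (τ, z)).2 ≠ 0 := hz2
        simp only [hY] at this ⊢
        field_simp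
      rw [e5, e3, zero_mul]
    have e6 := e1 z e4
    have e7 : Fx N (x0 + τ • v) =ᶠ[𝓝 z] fun w => φ (τ, w) * (Y (τ, w)).2 := by
      have : ∀ᶠ w in 𝓝 z, (Y (τ, w)).2 ≠ 0 :=
        ((hYz τ).snd.continuous.continuousAt (x := z)).eventually_ne hz2
      filter_upwards [this] with w hw
      simp only [Fx, hφ]
      simp only [hY] at hw ⊢
      field_simp
    rw [e7.deriv_eq] at e6
    have e8 : DifferentiableAt ℂ (fun w => φ (τ, w)) z := by
      have : (fun w => φ (τ, w)) = fun w => Fa N (x0 + τ • v) w - w := by funext w; rw [hφF]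
      rw [this]
      exact (hFad τ z hz2).sub differentiableAt_id
    have e9 : deriv (fun w => φ (τ, w) * (Y (τ, w)).2) z = deriv (fun w => φ (τ, w)) z *
        (Y (τ, z)).2 + φ (τ, z) * deriv (fun w => (Y (τ, w)).2) z :=
      (e8.hasDerivAt.mul ((hYz τ).snd z).hasDerivAt).deriv
    intro e10
    apply e6
    rw [e9, e10, e3]
    ring
  obtain ⟨ζ, ζc, ζ0, B, hB, hθ⟩ := unfold hφc h0 h1 h2 hC0 hS
  refine ⟨B, hB, ?_⟩
  intro θ hθB c0 hc0 hlim hnea
  obtain ⟨δ, hNear⟩ := hθ θ hθB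
  set e : ℂ := Complex.exp (θ * Complex.I) with he
  set G : ℝ → ℂ → ℂ := fun t y => y + φ (t * e, ζ (t * e) + y) with hG
  have hτ := tau_tendsto θ
  rw [← he] at hτ
  have hζt : Tendsto (fun t : ℝ => ζ (t * e)) (𝓝[>] 0) (𝓝 a) := by
    have := ζc.tendsto.comp hτ
    rwa [ζ0] at this
  -- the region of validity
  set r : ℝ := ρ / 4 with hr
  have hr0 : 0 < r := by positivity
  have hGr : ∀ᶠ t : ℝ in 𝓝[>] 0, ∀ y, ‖y‖ ≤ r →
      ((hF (xr x0 v θ t))^[N] (ζ (t * e) + y, 1)).2 ≠ 0 ∧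
        ζ (t * e) + G t y = Fa N (xr x0 v θ t) (ζ (t * e) + y) := by
    filter_upwards [hτ (ball_mem_nhds (0 : ℂ) hρ), hζt (ball_mem_nhds a (half_pos hρ))]
      with t e1 e2 y hy
    constructor
    · apply hρY (t * e, ζ (t * e) + y)
      rw [mem_ball, Prod.dist_eq, max_lt_iff]
      refine ⟨e1, ?_⟩
      rw [dist_eq_norm]
      have e3 : dist (ζ (t * e)) a < ρ / 2 := e2
      rw [dist_eq_norm] at e3
      calc ‖ζ (t * e) + y - a‖ = ‖(ζ (t * e) - a) + y‖ := by ring_nf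
        _ ≤ ‖ζ (t * e) - a‖ + ‖y‖ := norm_add_le _ _
        _ < ρ / 2 + ρ / 4 + ρ / 4 := by linarith
        _ = ρ := by ring
    · simp only [hG]
      rw [hφF]
      simp only [xr, ← he]
      ring
  obtain ⟨a0, ha0, htrap⟩ := hT C δ G hNear
  obtain ⟨r1, hr1, e1, he1, hcap⟩ := hCa C δ G hNear r hr0
  set b : ℝ := a0 / 2 with hb
  have hb0 : 0 < b := by positivity
  -- the orbit of `c0`
  set p : ℕ → ℂ × ℂ := fun k => (hF x0)^[N * k] c0 with hp
  set z : ℕ → ℂ := fun k => (p k).1 / (p k).2 with hz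
  have hAt : ∀ᶠ k in atTop, At (p k) (z k) := by
    filter_upwards [hlim (OnePoint.isOpenEmbedding_coe.isOpen_range.mem_nhds ⟨a, rfl⟩)] with k hk
    obtain ⟨w, hw⟩ := hk
    have h3 : At (p k) w := at_of_pr hw.symm
    exact ⟨h3.1, rfl⟩
  have hzt : Tendsto z atTop (𝓝 a) := by
    rw [OnePoint.isOpenEmbedding_coe.tendsto_nhds_iff]
    apply hlim.congr'
    filter_upwards [hAt] with k hk
    exact hk.pr
  have hzne : ∀ᶠ k in atTop, z k ≠ a := by
    filter_upwards [hAt] with k hk h3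
    apply hnea k
    exact hk.pr.trans (by rw [h3])
  have hrec : ∀ᶠ k in atTop, z (k + 1) = Fa N x0 (z k) := by
    filter_upwards [hAt, hzt.eventually hne0] with k hk hk2
    have h3 : ((hF x0)^[N] (z k, 1)).2 ≠ 0 := by
      have : (Y (0, z k)).2 ≠ 0 := hk2
      simp only [hY, hx00] at this
      exact this
    have h4 := hk.iter h3
    have h5 : (hF x0)^[N] (p k) = p (k + 1) := by
      simp only [hp]
      rw [← Function.iterate_add_apply, Nat.mul_succ, Nat.add_comm]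
    rw [h5] at h4
    exact h4.2
  set g : ℂ → ℂ := fun z => φ (0, z) with hg
  have hga : AnalyticAt ℂ g a := by
    apply Complex.analyticAt_iff_eventually_differentiableAt.2
    filter_upwards [hne0] with w hw
    have : g = fun w => Fa N (x0 + (0 : ℂ) • v) w - w := by funext w; simp only [hg]; rw [hφF]
    rw [this]
    exact (hFad 0 w hw).sub differentiableAt_id
  have hga1 := hga.deriv
  have hga2 := hga1.deriv
  have hratio : Tendsto (fun k => ((z (k + 1) - a) - (z k - a)) / (z k - a) ^ 2) atTop (𝓝 C) := by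
    rw [Metric.tendsto_nhds]
    intro ε hε
    have e2 : ∀ᶠ w in 𝓝 a, ‖deriv (deriv g) w - 2 * C‖ ≤ ε / 2 := by
      have e3 : Tendsto (fun w => ‖deriv (deriv g) w - 2 * C‖) (𝓝 a)
          (𝓝 ‖deriv (deriv g) a - 2 * C‖) := (hga2.continuousAt.tendsto.sub_const _).norm
      have e4 : deriv (deriv g) a = 2 * C := h2
      rw [e4, sub_self, norm_zero] at e3
      exact (e3.eventually (gt_mem_nhds (half_pos hε))).mono fun w hw => le_of_lt hw
    obtain ⟨s, hs, hsb⟩ := Metric.eventually_nhds_iff_ball.1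
      ((hga.eventually_analyticAt.and hga1.eventually_analyticAt).and e2)
    filter_upwards [hrec, hzne, hzt (ball_mem_nhds a hs)] with k h3 h4 h5
    have h6 : ‖z k - a‖ < s := by rw [← dist_eq_norm]; exact h5
    have h7 := taylor (g := g) (g' := deriv g) (g'' := deriv (deriv g)) (C := C) (ζ := a)
      (ε := ε / 2) (r := s) (half_pos hε).le
      (fun w hw => (hsb w hw).1.1.differentiableAt.hasDerivAt)
      (fun w hw => (hsb w hw).1.2.differentiableAt.hasDerivAt)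
      (fun w hw => (hsb w hw).2) h1 h6
    have h8 : z k - a ≠ 0 := sub_ne_zero.2 h4
    have h9 : a + (z k - a) = z k := by ring
    have h10 : g a = 0 := h0
    have h11 : g (z k) = z (k + 1) - z k := by
      simp only [hg]
      rw [hφF, hx00, h3]
    rw [h9, h10, sub_zero, h11] at h7
    have h12 : ((z (k + 1) - a) - (z k - a)) / (z k - a) ^ 2 - C =
        (z (k + 1) - z k - C * (z k - a) ^ 2) / (z k - a) ^ 2 := by
      field_simp
      ring
    have h13 : 0 < ‖z k - a‖ ^ 2 := by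
      have := norm_pos_iff.2 h8
      positivity
    rw [dist_eq_norm, h12, norm_div, norm_pow, div_lt_iff₀ h13]
    refine lt_of_le_of_lt h7 ?_
    nlinarith
  obtain ⟨K0, hK0⟩ := eventually_atTop.1 hzne
  have hent := hE C (fun n => z (n + K0) - a) hC0 (by
      have := (hzt.comp (tendsto_add_atTop_nat K0)).sub_const a
      rwa [sub_self] at this) (fun n => sub_ne_zero.2 (hK0 _ (by omega))) (by
      have := hratio.comp (tendsto_add_atTop_nat K0)
      refine this.congr fun n => ?_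
      simp only [Function.comp_apply]
      rw [show n + 1 + K0 = n + K0 + 1 by ring]) (e1 / 2) (half_pos he1)
  have hsm : ∀ᶠ n in atTop, ‖z (n + K0) - a‖ < r1 := by
    have := (((hzt.comp (tendsto_add_atTop_nat K0)).sub_const a).norm)
    rw [sub_self, norm_zero] at this
    exact this.eventually (gt_mem_nhds hr1)
  have hAt' : ∀ᶠ n in atTop, At (p (n + K0)) (z (n + K0)) :=
    (tendsto_add_atTop_nat K0).eventually hAt
  obtain ⟨n0, ⟨⟨hn1, hn2⟩, hn3⟩, hn4⟩ := ((hent.and hsm).and hAt').exists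
  set k := n0 + K0 with hk
  set ys : ℂ := z k - a with hys
  have hys0 : ys ≠ 0 := sub_ne_zero.2 (hK0 _ (by omega))
  have hysn : 0 < ‖ys‖ := norm_pos_iff.2 hys0
  -- the open entrance region
  have hO : ∀ᶠ y in 𝓝 ys, ‖ys‖ / 2 < ‖y‖ ∧ ‖y‖ < r1 ∧ 0 < (-(C * y)⁻¹).re ∧
      |(-(C * y)⁻¹).im| < e1 * (-(C * y)⁻¹).re := by
    have c1 : ContinuousAt (fun y : ℂ => -(C * y)⁻¹) ys :=
      ((continuousAt_const.mul continuousAt_id).inv₀ (mul_ne_zero hC0 hys0)).neg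
    have c2 : ContinuousAt (fun y : ℂ => (-(C * y)⁻¹).re) ys :=
      Complex.continuous_re.continuousAt.comp c1
    have c3 : ContinuousAt (fun y : ℂ => |(-(C * y)⁻¹).im|) ys :=
      (Complex.continuous_im.continuousAt.comp c1).abs
    have c4 : ContinuousAt (fun y : ℂ => ‖y‖) ys := continuous_norm.continuousAt
    have c5 : ContinuousAt (fun y : ℂ => e1 * (-(C * y)⁻¹).re) ys := continuousAt_const.mul c2
    refine (c4.eventually (lt_mem_nhds (by linarith))).and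
      ((c4.eventually (gt_mem_nhds hn3)).and ((c2.eventually (lt_mem_nhds hn1)).and
        (c3.tendsto.eventually_lt c5.tendsto ?_)))
    calc |(-(C * ys)⁻¹).im| ≤ e1 / 2 * (-(C * ys)⁻¹).re := hn2
      _ < e1 * (-(C * ys)⁻¹).re := by nlinarith
  have hQ : Tendsto (fun q : ℝ × (ℂ × ℂ) => (hF (xr x0 v θ q.1))^[N * k] q.2)
      (𝓝[>] (0 : ℝ) ×ˢ 𝓝 c0) (𝓝 (p k)) := iter_tendsto x0 v θ c0 (N * k)
  have hQ1 : Tendsto (fun q : ℝ × (ℂ × ℂ) => ((hF (xr x0 v θ q.1))^[N * k] q.2).1 /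
      ((hF (xr x0 v θ q.1))^[N * k] q.2).2 - ζ (q.1 * e)) (𝓝[>] (0 : ℝ) ×ˢ 𝓝 c0) (𝓝 ys) := by
    have c1 : Tendsto (fun w : ℂ × ℂ => w.1 / w.2) (𝓝 (p k)) (𝓝 (z k)) :=
      (continuousAt_fst.div continuousAt_snd hn4.1).tendsto
    exact (c1.comp hQ).sub (hζt.comp tendsto_fst)
  have hQ2 : ∀ᶠ q in 𝓝[>] (0 : ℝ) ×ˢ 𝓝 c0, ((hF (xr x0 v θ q.1))^[N * k] q.2).2 ≠ 0 :=
    hQ.eventually (continuousAt_snd.eventually_ne hn4.1)
  obtain ⟨pa, hpa, pb, hpb, hab⟩ := Filter.eventually_prod_iff.1 ((hQ1.eventually hO).and hQ2)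
  refine ⟨{c | pb c}, hpb, ?_⟩
  have hδs : ∀ᶠ t in 𝓝[>] (0 : ℝ), (1 + b) * ‖δ t‖ < r := by
    have := hNear.hδ0.norm.const_mul (1 + b)
    rw [norm_zero, mul_zero] at this
    exact this.eventually (gt_mem_nhds hr0)
  filter_upwards [hpa, htrap b hb0 (by rw [hb]; linarith), hcap b hb0 (‖ys‖ / 2) (by positivity),
    hGr, hδs] with t h3 h4 h5 h6 h7
  refine ⟨(ζ (t * e) + δ t * Complex.I, b * ‖δ t‖), ?_, ?_⟩
  · apply trap_of h6 _ h4.1
    · obtain ⟨m, hm⟩ := h4.2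
      refine ⟨m, fun y hy => ?_⟩
      have := hm y hy
      rwa [show b * ‖δ t‖ / 8 = b / 8 * ‖δ t‖ by ring]
    · intro y hy
      have h8 : ‖δ t * Complex.I‖ = ‖δ t‖ := by rw [norm_mul, Complex.norm_I, mul_one]
      calc ‖y‖ = ‖(y - δ t * Complex.I) + δ t * Complex.I‖ := by ring_nf
        _ ≤ ‖y - δ t * Complex.I‖ + ‖δ t * Complex.I‖ := norm_add_le _ _
        _ ≤ b * ‖δ t‖ + ‖δ t‖ := by rw [h8]; linarith
        _ = (1 + b) * ‖δ t‖ := by ring
        _ ≤ r := h7.le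
  · intro c hc
    obtain ⟨⟨o1, o2, o3, o4⟩, h8⟩ := hab h3 hc
    set y : ℂ := ((hF (xr x0 v θ t))^[N * k] c).1 / ((hF (xr x0 v θ t))^[N * k] c).2 - ζ (t * e)
      with hy
    obtain ⟨n, hn5, hn6⟩ := h5 y o1.le o2.le o3 o4.le
    have h9 : At ((hF (xr x0 v θ t))^[N * k] c) (ζ (t * e) + y) := ⟨h8, by rw [hy]; ring⟩
    have h10 := h9.orbit h6 hn5
    refine ⟨n + k, ?_⟩
    rw [Nat.mul_add, Function.iterate_add_apply]
    apply h10.into
    have : ζ (t * e) + (G t)^[n] y - (ζ (t * e) + δ t * Complex.I) =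
        (G t)^[n] y - δ t * Complex.I := by ring
    rw [this]
    exact hn6


theorem p_rayV (hU : S_unfoldS) (hCaS : S_captS) (hES : S_enterS) (hT : S_trap)
    (hCa : S_capture) (hE : S_enter) (hO : S_one) : S_rayV := by
  intro d p q x0 v a hd hp hq ha hv
  rcases Nat.lt_or_ge 1 q with h1 | h1
  · exact rayS_gen hU hCaS hES h1 ha hv
  · have hq1 : q = 1 := by omega
    subst hq1
    have hP : ParF p x0 a := hO d p x0 a hd ha
    rw [Nat.mul_one] at hv ⊢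
    obtain ⟨B, hB, h⟩ := par_gen hT hCa hE hP hv
    refine ⟨B, hB, fun θ hθ c0 hc0 h2 h3 => ?_⟩
    obtain ⟨U, hU1, hU2⟩ := h θ hθ c0 hc0 h2 h3
    refine ⟨U, hU1, ?_⟩
    filter_upwards [hU2] with t ht
    obtain ⟨i, hi, hi2⟩ := ht
    refine ⟨{i}, ?_, hi2⟩
    intro i' hi'
    rw [Finset.mem_singleton] at hi'
    rw [hi']
    exact hi

end Pool.Agent.Helper65.EP
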