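import Mathlib
import Pool.Agent.Helper65.EP.All
import Pool.Agent.Helper65.EP.FinV
import Pool.Agent.Helper65.EP.RayV
import Pool.Agent.Helper31.EP.TransV
import Pool.Agent.Helper31.EP.GenV
import Pool.Agent.Helper70.EP.FacPol
import Pool.Agent.Helper70.EP.FacMove
import Pool.Agent.Helper78.EP.HoleAt

/-! All packages together, boundary points. -/

set_option autoImplicit false

open Topology Filter Metric Set MeasureTheory
open scoped OnePoint

namespace Pool.Agent.Helper65.EP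

open Pool.Agent.H790R3.RB
open Pool.Agent.W364.NM (wr_eval)

/-- the Wronskian of a rational map of positive degree -/
theorem wronsk_ne {e : ℕ} (he : 1 ≤ e) {y : CV e} (hy : ND y) :
    Polynomial.derivative (pol y 0) * pol y 1 - pol y 0 * Polynomial.derivative (pol y 1) ≠ 0 := by
  obtain ⟨hcop, hdeg, -⟩ := ((PQ SP) e (by omega)).1 y hy
  intro h0
  rw [sub_eq_zero] at h0
  have h1 : Polynomial.derivative (pol y 0) = 0 := by
    have e1 : pol y 0 ∣ Polynomial.derivative (pol y 0) * pol y 1 := by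
      rw [h0]; exact dvd_mul_right _ _
    have e2 := hcop.dvd_of_dvd_mul_right e1
    by_contra hne
    have e3 := Polynomial.natDegree_le_of_dvd e2 hne
    have e4 : (pol y 0).natDegree ≠ 0 := by
      intro e5
      apply hne
      rw [Polynomial.eq_C_of_natDegree_eq_zero e5, Polynomial.derivative_C]
    have e6 := Polynomial.natDegree_derivative_lt e4
    omega
  have h2 : Polynomial.derivative (pol y 1) = 0 := by
    have e1 : pol y 1 ∣ Polynomial.derivative (pol y 1) * pol y 0 := by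
      rw [mul_comm, ← h0, mul_comm]; exact dvd_mul_right _ _
    have e2 := hcop.symm.dvd_of_dvd_mul_right e1
    by_contra hne
    have e3 := Polynomial.natDegree_le_of_dvd e2 hne
    have e4 : (pol y 1).natDegree ≠ 0 := by
      intro e5
      apply hne
      rw [Polynomial.eq_C_of_natDegree_eq_zero e5, Polynomial.derivative_C]
    have e6 := Polynomial.natDegree_derivative_lt e4
    omega
  have h3 := Polynomial.derivative_eq_zero.1 h1
  have h4 := Polynomial.derivative_eq_zero.1 h2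
  rw [h3, h4] at hdeg
  simp at hdeg
  omega

/-- the density theorem at the boundary -/
theorem all_finalV {d e : ℕ} (he : 1 ≤ e) (hed : e < d) {P Q H : Polynomial ℂ}
    {φ : OnePoint ℂ → OnePoint ℂ} (g1 : IsCoprime P Q) (g2 : max P.natDegree Q.natDegree = e)
    (g3 : Continuous φ) (g4 : ∀ z : ℂ, Q.eval z ≠ 0 →
      φ (z : OnePoint ℂ) = ((P.eval z / Q.eval z : ℂ) : OnePoint ℂ))
    (hH : Squarefree H) (hHd : H.natDegree = d - e) {x0 : CV d} (h0 : pol x0 0 = H * P)
    (h1 : pol x0 1 = H * Q)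
    (h : ∀ c : OnePoint ℂ, ((¬ ∃ U ∈ 𝓝 c, InjOn φ U) ∨
      ∃ z : ℂ, H.eval z = 0 ∧ c = (z : OnePoint ℂ)) →
      (∀ j : ℕ, 1 ≤ j → ¬ ∃ z : ℂ, H.eval z = 0 ∧ φ^[j] c = (z : OnePoint ℂ)) ∧
      ∃ (a : OnePoint ℂ) (N : ℕ), 0 < N ∧ Tendsto (fun k : ℕ => φ^[N * k] c) atTop (𝓝 a) ∧
        (∀ j : ℕ, ¬ ∃ z : ℂ, H.eval z = 0 ∧ φ^[j] a = (z : OnePoint ℂ)) ∧
        (AttG (φ^[N]) a ∨ ((∃ p q : ℕ, 0 < p ∧ 1 ≤ q ∧ N = p * q ∧ SatG q (φ^[p]) a) ∧
          ∀ k : ℕ, φ^[N * k] c ≠ a))) :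
    ∃ Gd : Set (CV d), (∀ x ∈ Gd, ND x ∧ HypCyc (sp x)) ∧
      Tendsto (fun r : ℝ => volume (closedBall x0 r \ Gd) / volume (closedBall x0 r)) (𝓝[>] 0)
        (𝓝 0) := by
  obtain ⟨y0, Hf, hF0, hy0, hy1, hHz, hinf⟩ := Pool.Agent.Helper70.EP.facPol d e x0 P Q H he hed g1 g2 hH hHd h0 h1
  have hd : 2 ≤ d := by omega
  have hH0 : H ≠ 0 := hH.ne_zero
  obtain ⟨-, rfl⟩ := t_uniq e y0 φ he (by rw [hy0, hy1]; exact g1) (by rw [hy0, hy1]; exact g2) g3
    (by rw [hy0, hy1]; exact g4)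
  have hfin : {z : ℂ | Hf (z, 1) = 0}.Finite := by
    apply (H.roots.toFinset.finite_toSet).subset
    intro z hz
    rw [mem_ofPred_eq, hHz] at hz
    rw [Finset.mem_coe, Multiset.mem_toFinset, Polynomial.mem_roots hH0, Polynomial.IsRoot.def]
    exact hz
  have hfw : {z : ℂ | wr x0 (z, 1) = 0}.Finite := by
    have hW := wronsk_ne he hF0.nd
    rw [hy0, hy1] at hW
    set W := Polynomial.derivative P * Q - P * Polynomial.derivative Q with hWd
    have hne : H ^ 2 * W ≠ 0 := mul_ne_zero (pow_ne_zero _ hH0) hW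
    apply ((H ^ 2 * W).roots.toFinset.finite_toSet).subset
    intro z hz
    rw [mem_ofPred_eq, wr_eval hd, h0, h1] at hz
    rw [Finset.mem_coe, Multiset.mem_toFinset, Polynomial.mem_roots hne, Polynomial.IsRoot.def]
    have hd0 : (d : ℂ) ≠ 0 := by exact_mod_cast (by omega : d ≠ 0)
    have e1 := (mul_eq_zero.1 hz).resolve_left hd0
    rw [← e1]
    simp only [hWd, Polynomial.derivative_mul, Polynomial.eval_mul, Polynomial.eval_add,
      Polynomial.eval_sub, Polynomial.eval_pow]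
    ring
  have hho : ∀ c : OnePoint ℂ, Hole Hf c ↔ ∃ z : ℂ, H.eval z = 0 ∧ c = (z : OnePoint ℂ) := by
    intro c
    unfold Hole
    simp only [hHz]
  have hh' : ∀ c : OnePoint ℂ, ((¬ ∃ U ∈ 𝓝 c, InjOn (sp y0) U) ∨ Hole Hf c) →
      ((¬ ∃ U ∈ 𝓝 c, InjOn (sp y0) U) ∨ ∃ z : ℂ, H.eval z = 0 ∧ c = (z : OnePoint ℂ)) := by
    intro c hc
    rwa [hho] at hc
  refine finalV (globV (p_rayV (unfoldS reso) captS enterS trap capture enter s_one) holeAt s_mult
    s_count) Pool.Agent.Helper70.EP.facMove critV transV genV hF0 hfin hinf hfw ?_ ?_ ?_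
  · intro c hc
    obtain ⟨-, a, N, hN, hl, -, hk⟩ := h c (hh' c hc)
    exact ⟨a, N, hN, hl, hk⟩
  · intro c hc j hj
    rw [hho]
    exact (h c (hh' c hc)).1 j hj
  · intro c a N hN hc hl j
    obtain ⟨-, a', N', hN', hl', hav, -⟩ := h c (hh' c hc)
    have e1 : Tendsto (fun k : ℕ => (sp y0)^[N * (N' * k)] c) atTop (𝓝 a) :=
      hl.comp (tendsto_id.const_mul_atTop' hN')
    have e2 : Tendsto (fun k : ℕ => (sp y0)^[N' * (N * k)] c) atTop (𝓝 a') :=
      hl'.comp (tendsto_id.const_mul_atTop' hN)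
    have e3 : (fun k : ℕ => (sp y0)^[N' * (N * k)] c) = fun k : ℕ => (sp y0)^[N * (N' * k)] c := by
      funext k
      rw [mul_left_comm]
    rw [e3] at e2
    have e4 := tendsto_nhds_unique e1 e2
    rw [hho, e4]
    exact hav j

end Pool.Agent.Helper65.EP
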